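import Mathlib
import Pool.Agent.AAN.Stmts
import Pool.Agent.MVII.St4

set_option autoImplicit false

/-!
# TLL (MP_4011c3_nt): one exceptional set of `n` for all `m` simultaneously

Target (Phi: `q ^ 2 - 2` has at most five prime factors, `p_q - q + 1` at most `8 log log n`):
* `FinM`: the `n ≤ N` that are exceptional for SOME `m ≥ M` are at most `N (log N)^C / M^(1/110)`;
* `FinA`: the `n ≤ N` that are exceptional for SOME `m` are at most `N/(log N)^A`;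
* `FinB`: with the threshold `n^(1-ε)` and the condition on `q ^ 2 - 2` alone: at most `N^(1-δ)`.
The new estimate is `CorM`: for `m ∈ (x, 2x]`, `Y^110 ≤ x ≤ X^0.26`, the number of PAIRS `(n, m)` with `n` in the
block `[X/2, 3X/4]` and few solutions is at most `(X/Y) (log X)^C` (for one `m` this is trivial from `CorH`, here it is the
sum over all `m`).  It comes from a mean square over `n` AND `m` of the differences `S_m(n+h) - S_m(n)`, where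
`S_m(n) = ∑_{q ∈ QQ} ∑_{r<m} Λ(n - mq - r)` and `QQ` does not depend on `m`.

Statements of the modules, with complete proofs.  Notation: `X` large, `N = X + X/4` (natural division) is
the scale of the smooth weight, `D = X/(Y^4 x)` the order of the Dirichlet approximation, `R = X/(16 x)` (natural division) bounds
the `q ∈ QQ`.
-/

namespace Pool.Agent.TLL

open Finset Filter MeasureTheory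
open Pool.Agent.GBQ (ee lam nd Admissible)
open Pool.Agent.MT (IsWt prim)
open Pool.Agent.MVII (SolN)
open Pool.Agent.EVN (Phi SolP)
open Pool.Agent.AAN (SS MonoP DensPk T4H FinH)

/-- `∑_{x ≤ N} Λ(x) η(x/N) e(α x)` -/
noncomputable def La (η : ℝ → ℝ) (N : ℕ) (α : ℝ) : ℂ :=
  ∑ x ∈ range (N + 1), ((lam x * η ((x : ℝ) / N) : ℝ) : ℂ) * ee (α * x)

/-- `∑_{q ∈ QQ} e(α m q)` -/
noncomputable def Vm (QQ : Finset ℕ) (m : ℕ) (α : ℝ) : ℂ :=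
  ∑ q ∈ QQ, ee (α * ((m * q : ℕ) : ℝ))

/-- `∑_{q ∈ QQ} ∑_{r < m} e(α (m q + r))` -/
noncomputable def Wm (QQ : Finset ℕ) (m : ℕ) (α : ℝ) : ℂ :=
  ∑ q ∈ QQ, ∑ r ∈ range m, ee (α * ((m * q + r : ℕ) : ℝ))

/-- the resonant fractions `a/k`: `x/(2Y) < k ≤ x Y^4`, `|a| ≤ 2 Y^5`, in lowest terms -/
noncomputable def fr (x : ℕ) (Y : ℝ) : Finset (ℕ × ℤ) := by
  classical
  exact (Icc 1 ⌊x * Y ^ 4⌋₊ ×ˢ Icc (-⌊2 * Y ^ 5⌋) ⌊2 * Y ^ 5⌋).filter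
    (fun p => IsCoprime p.2 (p.1 : ℤ) ∧ (x : ℝ) < 2 * Y * p.1)

/-- the integral over the resonant arcs -/
noncomputable def RI (η : ℝ → ℝ) (N x : ℕ) (Y D : ℝ) : ℝ :=
  ∑ p ∈ fr x Y, ∫ t in (-(1 / ((p.1 : ℝ) * D)))..(1 / ((p.1 : ℝ) * D)),
    ‖La η N ((p.2 : ℝ) / p.1 + t)‖ ^ 2

/-! ### Fourier side -/

/-- PAR.  Parseval.

Proof.  `‖z‖^2 = z * conj z`, double sum, `∫_{-1/2}^{1/2} ee(α j) dα = 0` for an integer `j ≠ 0` and `1` for `j = 0`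
(`integral_exp_mul_complex`, `ee(j/2) = ee(-j/2)`). -/
def St_Par : Prop := ∀ (c : ℕ → ℂ) (M : ℕ),
  ∫ α in (-(1 / 2) : ℝ)..(1 / 2), ‖∑ k ∈ range M, c k * ee (α * k)‖ ^ 2 =
    ∑ k ∈ range M, ‖c k‖ ^ 2

/-- DIF.  The mean square over `n` of the differences as an integral.

Proof.  `g(y) = lam y * η(y/N)`.  All `j = m q + r` (`q ∈ QQ`, `r < m`) satisfy `j < m q + m ≤ X/8 + X/16 = 3X/16`.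
For `n ∈ F`: `y = n - j` has `5X/16 ≤ y ≤ 3X/4` and `y = n + h - j` has `5X/16 ≤ y ≤ 3X/4 + √X`; as
`5X/4 - 1 < N ≤ 5X/4`: `N/4 ≤ 5X/16` and `3X/4 + √X ≤ 15X/16 - 3/4 ≤ 3N/4` (`X ≥ 64`: `√X + 3/4 ≤ 3X/16`).  So
`η(y/N) = 1`, `g(y) = lam y`, `SS QQ m n = ∑_j g(n - j)`, `SS QQ m (n + h) = ∑_j g(n + h - j)`.
`T(α) = (1 - ee(α h)) Wm La = ∑_j ∑_{y ≤ N} g(y) (ee(α (j + y)) - ee(α (j + y + h))) = ∑_{k < M} c_k ee(α k)`,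
`M = N + X + h + 1`, `c_k = ∑_{j ≤ k} g(k - j) - ∑_{j + h ≤ k} g(k - h - j)` (the terms with `k - j > N` or `k - h - j > N`
vanish: `η(y/N) = 0` for `y > N`).  For `n ∈ F` `c_{n+h} = ∑_j (g(n + h - j) - g(n - j)) = SS(n+h) - SS(n)` (all `j ≤ n`).  PAR,
and the `n + h`, `n ∈ F`, are different elements of `range M`. -/
def St_Dif : Prop := ∀ η : ℝ → ℝ, IsWt η → ∀ (X N m h : ℕ) (QQ F : Finset ℕ), 64 ≤ X →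
  N = X + X / 4 → 1 ≤ m → 16 * m ≤ X → h ^ 2 ≤ X → (∀ q ∈ QQ, 8 * m * q ≤ X) →
  (∀ n ∈ F, X ≤ 2 * n ∧ 4 * n ≤ 3 * X) →
  ∑ n ∈ F, (SS QQ m (n + h) - SS QQ m n) ^ 2 ≤
    ∫ α in (-(1 / 2) : ℝ)..(1 / 2), ‖1 - ee (α * h)‖ ^ 2 * ‖Wm QQ m α‖ ^ 2 * ‖La η N α‖ ^ 2

/-- LSD.  Large sieve for the dilates `m α`, `m ∈ (x, 2x]`.

Proof.  `BVX.add_ls` (`BVX.ee`, `BVX.dd` are `ee`, `nd`) with the points `m α` and the coefficients `1_{q ∈ QQ}`,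
`q ∈ Ioc 0 R`: for a `δ`-spaced (mod 1) set of the `m α` the sum is `≤ 16 (R + 1/δ) #QQ`.  Let `β = nd α`.  Dirichlet
(`Real.exists_rat_abs_sub_le_and_den_le`, `n = 4 x`): `|α - a/k| ≤ 1/(4 x k)`, `1 ≤ k ≤ 4x`, `a/k` in lowest terms.
`k = 1`: for `m ≠ m'` in `(x, 2x]`, `nd((m-m') α) = |m - m'| |α - a|` (at most `x/(4x) = 1/4`), so
`≥ |α - a| ≥ β ≥ 1/R`: `δ = β`, the sum is `≤ 32 R #QQ`.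
`k ≥ 2`: `β ≥ nd(a/k) - 1/(4 x k) ≥ 3/(4k)`.  Split the `m` by the value of `m / k` (natural division): at most `x/k + 2`
classes; for `m ≠ m'` in a class `|m - m'| < k`, `|m - m'| ≤ x`, so `nd((m-m')α) ≥ 1/k - x/(4 x k) = 3/(4k) =: δ`; each class
gives `≤ 16 (R + 4k/3) #QQ ≤ 38 R #QQ` (`k ≤ 4 x ≤ R`).  `x/k + 2 ≤ 2 (1 + x β)`.  So `C = 76`. -/
def St_Lsd : Prop := ∃ C : ℝ, 0 < C ∧ ∀ (x R : ℕ) (QQ : Finset ℕ) (α : ℝ), 1 ≤ x → 4 * x ≤ R →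
  (∀ q ∈ QQ, 1 ≤ q ∧ q ≤ R) → 1 ≤ R * nd α →
  ∑ m ∈ Ioc x (2 * x), ‖Vm QQ m α‖ ^ 2 ≤ C * (1 + x * nd α) * (R * QQ.card)

/-- KER.  The mean square over `m` of `W_m(α)`.

Proof.  First claim: `‖Wm‖ ≤ m #QQ ≤ 2 x #QQ`.  `Wm = (∑_{r<m} ee(α r)) Vm` and
`‖∑_{r<m} ee(α r)‖ ≤ min(m, 1/(2β))`, `β = nd α` (`‖1 - ee(α m)‖/‖1 - ee α‖ ≤ 2/(4β)`, `BVX.ee_sub_one`; see AAN/Var.lean).
With `G = min(4 x^2, 1/(4 β^2)) ≤ √(4 x^2/(4 β^2)) = x/β`: by LSD `∑ ‖Wm‖^2 ≤ G C₀ (1 + x β) R #QQ` and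
`G (1 + x β) ≤ 4 x^2 + (x/β) x β = 5 x^2`, `x β G (1 + x β) ≤ x β (x/β) + x^2 β^2/(4 β^2) ≤ 5 x^2`. -/
def St_Ker : Prop := ∃ C : ℝ, 1 ≤ C ∧ ∀ (x R : ℕ) (QQ : Finset ℕ) (α : ℝ), 1 ≤ x → 4 * x ≤ R →
  (∀ q ∈ QQ, 1 ≤ q ∧ q ≤ R) →
  (∑ m ∈ Ioc x (2 * x), ‖Wm QQ m α‖ ^ 2 ≤ 4 * (x : ℝ) ^ 3 * (QQ.card : ℝ) ^ 2) ∧
  (1 ≤ R * nd α →
    ∑ m ∈ Ioc x (2 * x), ‖Wm QQ m α‖ ^ 2 ≤ C * (x : ℝ) ^ 2 * R * QQ.card ∧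
    x * nd α * ∑ m ∈ Ioc x (2 * x), ‖Wm QQ m α‖ ^ 2 ≤ C * (x : ℝ) ^ 2 * R * QQ.card)

/-- DIR.  Dirichlet approximation of order `D` for `1/D < |α| < Y/x`.

Proof.  `Real.exists_rat_abs_sub_le_and_den_le` with `n = ⌊D⌋₊`: `|α - a/k| ≤ 1/((n+1) k) ≤ 1/(k D)`, `k ≤ n ≤ D`.
`k = 1` is impossible: `a = 0` contradicts `1/D < |α|`; `a ≠ 0` gives `|α - a| ≥ 1/2 > 1/D`.  So `k ≥ 2`, `a ≠ 0`,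
`|α| ≥ |a|/k - 1/(k D) ≥ 1/(2k)`, so `1/(2k) < Y/x`; and `|a| ≤ k |α| + 1/D ≤ k Y/x + 1`. -/
def St_Dir : Prop := ∀ (x : ℕ) (Y D α : ℝ), 1 ≤ x → 1 ≤ Y → 2 < D → |α| ≤ 1 / 2 → 1 / D < |α| →
  |α| < Y / x → ∃ (k : ℕ) (a : ℤ), 2 ≤ k ∧ (k : ℝ) ≤ D ∧ IsCoprime a (k : ℤ) ∧
    |α - a / k| ≤ 1 / (k * D) ∧ (x : ℝ) < 2 * Y * k ∧ |(a : ℝ)| ≤ k * Y / x + 1

/-- the hypotheses of PTW and INT -/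
def Hyp (η : ℝ → ℝ) (N x R : ℕ) (QQ : Finset ℕ) (Y D S : ℝ) : Prop :=
  1 ≤ x ∧ 4 * x ≤ R ∧ (∀ q ∈ QQ, 1 ≤ q ∧ q ≤ R) ∧ 3 ≤ Y ∧ 2 < D ∧ D ≤ R ∧ 0 ≤ S ∧
  ∀ (β : ℝ) (k : ℕ) (a : ℤ), x * Y ^ 4 < (k : ℝ) → (k : ℝ) ≤ D → IsCoprime a (k : ℤ) →
    |β - a / k| ≤ 1 / (k : ℝ) ^ 2 → ‖La η N β‖ ≤ S

/-- PTW.  Pointwise estimate of the integrand.

Proof.  `nd α = |α|` for `|α| ≤ 1/2`.  Let `G = ∑_m ‖Wm‖^2`, `I` the left side.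
(Z) `|α| ≤ 1/D`: `‖1 - ee(α h)‖ ≤ 2 π h |α| ≤ 2 π h/D`, `G ≤ 4 x^3 #QQ^2`: `I ≤ 16 π^2 (h/D)^2 x^3 #QQ^2 ‖La‖^2`.
From now on `|α| > 1/D`, so `R |α| ≥ R/D ≥ 1`, and `‖1 - ee‖^2 ≤ 4`.
(T) `|α| ≥ Y/x`: KER, `Y G ≤ x |α| G ≤ C₀ x^2 R #QQ`, `I ≤ 4 C₀ (x^2 R #QQ/Y) ‖La‖^2`.
Otherwise DIR gives `k`, `a`; `k ≤ D`, so `|α - a/k| ≤ 1/(k D) ≤ 1/k^2`.
(V) `k > x Y^4`: `‖La‖ ≤ S`, `I ≤ 4 S^2 G`.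
(R) `k ≤ x Y^4`: `|a| ≤ k Y/x + 1 ≤ Y^5 + 1 ≤ 2 Y^5`, so `(k, a) ∈ fr x Y`, and KER: `I ≤ 4 C₀ x^2 R #QQ ‖La‖^2`, which is the
term `(k, a)` of the last sum.  `C = max (16 π^2) (4 C₀)`. -/
def St_Ptw : Prop := ∃ C : ℝ, 0 < C ∧ ∀ (η : ℝ → ℝ) (N x R h : ℕ) (QQ : Finset ℕ) (Y D S : ℝ),
  Hyp η N x R QQ Y D S → ∀ α : ℝ, |α| ≤ 1 / 2 →
  ‖1 - ee (α * h)‖ ^ 2 * (∑ m ∈ Ioc x (2 * x), ‖Wm QQ m α‖ ^ 2) * ‖La η N α‖ ^ 2 ≤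
    C * ((h / D) ^ 2 * (x : ℝ) ^ 3 * (QQ.card : ℝ) ^ 2 + (x : ℝ) ^ 2 * R * QQ.card / Y) *
      ‖La η N α‖ ^ 2 +
    4 * S ^ 2 * ∑ m ∈ Ioc x (2 * x), ‖Wm QQ m α‖ ^ 2 +
    C * (x : ℝ) ^ 2 * R * QQ.card * ∑ p ∈ fr x Y,
      (if |α - (p.2 : ℝ) / p.1| ≤ 1 / ((p.1 : ℝ) * D) then ‖La η N α‖ ^ 2 else 0)

/-- INT.  The integral.

Proof.  Integrate PTW over `[-1/2, 1/2]` (all functions are continuous, or an indicator of a closed interval times a continuous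
one; `intervalIntegral.integral_mono_on`).  PAR: `∫ ‖La‖^2 = ∑_{y ≤ N} (lam y η(y/N))^2 ≤ N (log N)^2` (`lam 0 = 0`,
`lam y ≤ log y`), `∫ ‖Wm‖^2 = m #QQ` (the `m q + r` are different, `AAN.cor_inj`), `∑_m m #QQ ≤ 2 x^2 #QQ`.  For
`p = (k, a)`: `∫_{-1/2}^{1/2} 1_{|α - a/k| ≤ 1/(kD)} ‖La α‖^2 ≤ ∫_{a/k - 1/(kD)}^{a/k + 1/(kD)} ‖La‖^2`, and translate. -/
def St_Int : Prop := ∃ C : ℝ, 0 < C ∧ ∀ (η : ℝ → ℝ), IsWt η → ∀ (N x R h : ℕ) (QQ : Finset ℕ)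
  (Y D S : ℝ), 3 ≤ N → Hyp η N x R QQ Y D S →
  ∫ α in (-(1 / 2) : ℝ)..(1 / 2),
      ‖1 - ee (α * h)‖ ^ 2 * (∑ m ∈ Ioc x (2 * x), ‖Wm QQ m α‖ ^ 2) * ‖La η N α‖ ^ 2 ≤
    C * ((h / D) ^ 2 * (x : ℝ) ^ 3 * (QQ.card : ℝ) ^ 2 + (x : ℝ) ^ 2 * R * QQ.card / Y) *
      (N * Real.log N ^ 2) + 8 * S ^ 2 * ((x : ℝ) ^ 2 * QQ.card) +
    C * (x : ℝ) ^ 2 * R * QQ.card * RI η N x Y D

/-! ### a mean value theorem with twisted weights -/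

/-- Weights: bounded by `1`, support in `(1/8, 7/8)`, Lipschitz with constant `V`, and
`w(x) = ∫ g(ξ) e(ξ log x) dξ` with `∫ |g| ≤ V`. -/
def GoodW (w : ℝ → ℂ) (V : ℝ) : Prop :=
  1 ≤ V ∧ (∀ x, ‖w x‖ ≤ 1) ∧ (∀ x, w x ≠ 0 → 1 / 8 < x ∧ x < 7 / 8) ∧
  (∀ x y, ‖w x - w y‖ ≤ V * |x - y|) ∧
  ∃ g : ℝ → ℂ, Integrable g ∧ ∫ ξ, ‖g ξ‖ ≤ V ∧ ∀ x : ℝ, 0 < x →
    w x = ∫ ξ : ℝ, Complex.exp (((2 * Real.pi * (ξ * Real.log x) : ℝ) : ℂ) * Complex.I) * g ξ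

/-- SEP.  The twisted weights are good, with polynomial dependence on `b`.

Proof.  Norm and support clear (`‖ee‖ = 1`).  Lipschitz: `η` is Lipschitz with `L₀` (`typeI_lip` in MT/TypeI.lean),
`‖ee(b x) - ee(b y)‖ ≤ 2 π |b| |x - y|`, so `V ≥ L₀ + 2 π |b|`.  Separation as `typeII_sep` in BVX/TypeII2.lean:
`h(u) = η(e^u) ee(b e^u)` is smooth with support in `[log (1/8), log (7/8)]` (length `log 7 < 2`), `g = 𝓕 h` is integrable and the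
inversion formula holds.  `‖g ξ‖ ≤ ∫ ‖h‖ ≤ 2` and `(2 π ξ)^2 ‖g ξ‖ = ‖𝓕 h'' ξ‖ ≤ ∫ ‖h''‖ ≤ C₁ (1 + |b|)^2`
(`Real.fourier_deriv` or `Real.fourier_iteratedDeriv`; with `ψ(x) = η(x) ee(b x)`: `h'(u) = e^u ψ'(e^u)`,
`h''(u) = e^u ψ'(e^u) + e^{2u} ψ''(e^u)`, `ψ' = (η' + 2πi b η) ee`, `ψ'' = (η'' + 4πi b η' - 4π^2 b^2 η) ee`, the derivatives of `η` are
bounded).  So `‖g ξ‖ ≤ C₂ (1 + |b|)^2/(1 + ξ^2)`, integral `≤ 4 C₂ (1 + |b|)^2`. -/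
def St_Sep : Prop := ∀ η : ℝ → ℝ, IsWt η → ∃ C : ℝ, 1 ≤ C ∧ ∀ b : ℝ,
  GoodW (fun x => ((η x : ℝ) : ℂ) * ee (b * x)) (C * (1 + |b|) ^ 3)

/-- T1W.  MT/TypeI.lean with a good weight.

Proof.  The proof of `MT.typeI`: partial summation with `MT.char_sum_le` (Polya-type bound `≤ q` for every interval); the total
variation of `k ↦ w(m k/N)` on `[1, N/m]` is `≤ V (m/N) (N/m) = V`, the value at the end `≤ 1`; for `(log k) w(m k/N)` it is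
`≤ log N + V log N`.  The weights are complex now: the same with norms. -/
def St_T1w : Prop := ∃ C : ℝ, 0 < C ∧ ∀ (w : ℝ → ℂ) (V : ℝ), GoodW w V → ∀ (N : ℕ), 2 ≤ N →
  ∀ (q : ℕ) [NeZero q] (χ : DirichletCharacter ℂ q), χ ≠ 1 → ∀ m : ℕ, 1 ≤ m →
    ‖∑ k ∈ Icc 1 (N / m), χ (k : ZMod q) * w (((m * k : ℕ) : ℝ) / N)‖ ≤ C * V * q ∧
    ‖∑ k ∈ Icc 1 (N / m), ((Real.log k : ℝ) : ℂ) *
      (χ (k : ZMod q) * w (((m * k : ℕ) : ℝ) / N))‖ ≤ C * V * q * Real.log N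

/-- T2W.  BVX/TypeII2.lean with a good weight.

Proof.  The proof of `BVX.typeII2` word for word, with `w` for `η`, `g` from `GoodW` and `∫ ‖g‖ ≤ V`
(used: `w(x) = 0` for `x > 1`). -/
def St_T2w : Prop := ∃ C : ℝ, 0 < C ∧ ∀ (w : ℝ → ℂ) (V : ℝ), GoodW w V → ∀ (N R M : ℕ), 1 ≤ N →
  1 ≤ M → ∀ (a b : ℕ → ℂ),
  ∑ q ∈ Icc 1 R, ∑ χ ∈ prim q,
    ‖∑ l ∈ Ioc M (2 * M), ∑ k ∈ Icc 1 (N / l), a l * b k *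
      (χ ((l * k : ℕ) : ZMod q) * w (((l * k : ℕ) : ℝ) / N))‖ ≤
    C * V * Real.sqrt (((M : ℝ) + (R : ℝ) ^ 2) * ∑ l ∈ Ioc M (2 * M), ‖a l‖ ^ 2) *
      Real.sqrt (((N : ℝ) / M + (R : ℝ) ^ 2) * ∑ k ∈ Icc 1 (N / M), ‖b k‖ ^ 2)

/-- `∑ Λ(n) χ(n) w(n/N)` -/
noncomputable def psiG (w : ℝ → ℂ) (N : ℕ) {q : ℕ} (χ : DirichletCharacter ℂ q) : ℂ :=
  ∑ n ∈ range (N + 1), (((ArithmeticFunction.vonMangoldt n : ℝ) : ℂ) * χ (n : ZMod q)) *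
    w ((n : ℝ) / N)

/-- LCW.  BVX/LargeCond2.lean with a good weight.

Proof.  The proofs of `MT.lc_single`, `BVX.lc2_block`, `BVX.large_cond2` with `w` for `η`, `C V` for `C` (Vaughan's identity
`MT.vaughan` holds for every function `F`; `F(n) = χ(n) w(n/N)`; T1W and T2W for `MT.typeI`, `BVX.typeII2`). -/
def St_Lcw : Prop := ∃ C : ℕ, ∀ (w : ℝ → ℂ) (V : ℝ), GoodW w V → ∀ N R U : ℕ, 3 ≤ N → 1 ≤ R →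
  1 ≤ U → U ≤ N → ∑ q ∈ Ioc R (2 * R), ∑ χ ∈ prim q, ‖psiG w N χ‖ ≤
    C * V * Real.log N ^ C *
      (N + R * N / Real.sqrt U + (R : ℝ) ^ 2 * Real.sqrt N + (R : ℝ) ^ 3 * (U : ℝ) ^ 2)

/-- FMC.  First moment of `La` at the fractions `a/k + t`, `a` and `t` fixed.

Proof.  `b = t N`, `w(u) = η(u) ee(b u)`, good with `V = C₀ (1 + |t| N)^3` (SEP): `La(a/k + t) = ∑_y lam(y) w(y/N) ee(a y/k)`.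
`L = log N ≥ 1`.  The `y` not coprime to `k` contribute `≤ k L` (`MVII.wc_noncop`).  For `(y, k) = 1` insert `MVII.St_Gi`
with `q = k`, `c = - a y` (coprime to `k`): `ee(a y/k) = ∑_{r ∈ ud k k} (μ(k/r)/φ(k)) ∑_{χ ∈ prm r} (r/gs) conj χ(k/r) χ(-a) χ(y)`,
`|r/gs| = √r` (`MVII.wc_gs`, `MVII.thm_Ga`).  Replacing the sum over the `y` coprime to `k` by the sum over all `y` costs again
`≤ k L` for each `χ` (`#prm r ≤ r`).  So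
`‖La(a/k + t)‖ ≤ k L + (1/φ(k)) ∑_{r ∣ k} √r ∑_{χ ∈ prm r} (‖psiG w N χ‖ + k L)`.
Sum over `k ≤ K`.  `1/φ(n) ≤ 3 L/n` for `n ≤ N` (`gvbv_totient'` in GV/BV.lean), `φ(r j) ≥ φ(r) φ(j)`:
`∑_{k ≤ K, r ∣ k} 1/φ(k) ≤ (1/φ(r)) 6 L^2 ≤ 18 L^3/r` (`gvbv_inner`).
Error terms: `∑_k k L ≤ K^2 L`, `∑_k (1/φ(k)) ∑_{r ∣ k} √r r k L ≤ ∑_k 3 L^2 ∑_{r ≤ k} r^{3/2} ≤ 3 L^2 K^{7/2}`; and
`K^{7/2} ≤ K^{1/4} N` since `K^{13/4} ≤ N^{0.975}`.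
Main terms: `∑_{r ≤ K} 18 L^3 r^{-1/2} ∑_{χ ∈ prm r} ‖psiG w N χ‖`.  `r = 1`: `‖psiG‖ ≤ ∑_{y ≤ N} Λ(y) ≤ N L`.  For `r ≥ 2`
`prm r = prim r`; cover `2 ≤ r ≤ K` by the `(R, 2R]`, `R = 2^i`, `i < J`, `J ≤ 1 + 2 L`, `R < K`: each one is
`≤ 18 L^3 R^{-1/2} LCW` with `U = ⌈√R⌉₊ ≤ 2 √R`, i.e. `≤ 18 L^3 C V L^C (N + R^{1/4} N + R^{3/2} √N + 4 R^{7/2})`
`≤ 18 L^3 C V L^C 7 K^{1/4} N` (`R ≤ K ≤ N^{0.3}`). -/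
def St_Fmc : Prop := ∀ η : ℝ → ℝ, IsWt η → ∃ C : ℕ, ∀ (N K : ℕ) (a : ℤ) (t : ℝ), 3 ≤ N → 1 ≤ K →
  (K : ℝ) ≤ (N : ℝ) ^ (3 / 10 : ℝ) →
  ∑ k ∈ Icc 1 K, (open scoped Classical in if IsCoprime a (k : ℤ) then
      ‖La η N ((a : ℝ) / k + t)‖ else 0) ≤
    C * Real.log N ^ C * (1 + |t| * N) ^ 3 * (N * (K : ℝ) ^ (1 / 4 : ℝ))

/-- RES.  The resonant arcs.

Proof.  `N = X + X/4`, `D = X/(Y^4 x)`, `L = log X`.  For `p = (k, a) ∈ fr x Y`: `x/(2Y) < k ≤ x Y^4`; `k ≤ D` (`x^2 Y^8 ≤ X`), so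
for `|t| ≤ 1/(k D) ≤ 1/k^2` `GBQ.St_MinLam` at `a/k + t`: `‖La‖ ≤ C₁ (N/√k + N^{5/6} + √(N k)) L^{C₁} ≤ S₁ := C₂ L^{C₁} X √(Y/x)`
(`N^{5/6} ≤ 2 X √(Y/x)` as `x ≤ X^{1/3}`; `√(N k) ≤ 2 √(X x Y^4) ≤ 2 X √(Y/x)` as `x^2 Y^3 ≤ X`; `log N ≤ 2 L`).
`1/(k D) ≤ 2 Y/(x D) = 2 Y^5/X =: Θ`.  So the integral for `p` is `≤ S₁ ∫_{-Θ}^{Θ} ‖La(a/k + t)‖ dt`.  For fixed `a`
(`|a| ≤ 2 Y^5`, at most `5 Y^5` values) sum over `k ≤ K = ⌊x Y^4⌋₊ ≤ X^{0.3} ≤ N^{0.3}` under the integral sign and use FMC,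
`(1 + |t| N)^3 ≤ (1 + (5/2) Y^5)^3 ≤ 27 Y^15`, `K^{1/4} ≤ x^{1/4} Y`:
`RI ≤ S₁ 5 Y^5 2 Θ C₃ (2L)^{C₃} 27 Y^15 N x^{1/4} Y ≤ C₄ L^{C₄} X x^{-1/4} Y^{1/2 + 5 + 5 + 15 + 1} ≤ C₄ L^{C₄} X x^{-1/4} Y^{53/2}`,
and `x^{1/4} ≥ Y^{55/2}`. -/
def St_Res : Prop := ∀ η : ℝ → ℝ, IsWt η → ∃ C : ℕ, ∀ᶠ X : ℕ in atTop, ∀ (x : ℕ) (Y : ℝ), 3 ≤ Y →
  Y ≤ (X : ℝ) ^ (1 / 100 : ℝ) → Y ^ 110 ≤ x → (x : ℝ) ≤ (X : ℝ) ^ (26 / 100 : ℝ) →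
  RI η (X + X / 4) x Y (X / (Y ^ 4 * x)) ≤ X * Real.log X ^ C / Y

/-! ### the pairs `(n, m)` with few solutions -/

/-- MSQ.  The mean square over `n` and `m`.

Proof.  `η` from `MT.exists_wt`.  `N = X + X/4`, `R = X/(16 x)` (natural division), `D = X/(Y^4 x)` (real), `L = log X`.
Hyp: `4 x ≤ R` as `x ≤ X^{0.26}`; `q ≤ R`; `D > 2`; `D ≤ X/(81 x) ≤ R`; `GBQ.St_MinLam` for `x Y^4 < k ≤ D`: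
`‖La‖ ≤ S := C₁ (log N)^{C₁} (N/√(x Y^4) + N^{5/6} + √(N D))`, `√(N D) ≤ 2 X/√(x Y^4)`, so
`S^2 ≤ C₂ L^{2 C₁} (X^2/(x Y^4) + X^{5/3})`.
DIF for every `m ∈ (x, 2x]` (`8 m q ≤ 16 x q ≤ X`), sum over `m` (finite sum of integrals), INT, RES:
(1) `C (h/D)^2 x^3 #QQ^2 N (log N)^2`: `(h/D)^2 ≤ X (Y^4 x/X)^2 = Y^8 x^2/X`, `#QQ ≤ R ≤ X/(16x)`: `≤ C' Y^8 x^4 X #QQ L^2
≤ C' x X^2 #QQ L^2/Y` since `Y^9 x^3 ≤ X^{0.87}`;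
(2) `C (x^2 R #QQ/Y) N (log N)^2 ≤ C' x X^2 #QQ L^2/Y`;
(3) `8 S^2 x^2 #QQ ≤ C' L^{2 C₁} #QQ (x X^2/Y^4 + x^2 X^{5/3}) ≤ 2 C' L^{2 C₁} x X^2 #QQ/Y` (`x Y ≤ X^{1/3}`);
(4) `C x^2 R #QQ RI ≤ C' x X #QQ X L^{C₃}/Y`. -/
def St_Msq : Prop := ∃ C : ℕ, ∀ᶠ X : ℕ in atTop, ∀ (x h : ℕ) (Y : ℝ) (QQ : Finset ℕ)
  (F : ℕ → Finset ℕ), 3 ≤ Y → Y ≤ (X : ℝ) ^ (1 / 100 : ℝ) → Y ^ 110 ≤ x →
  (x : ℝ) ≤ (X : ℝ) ^ (26 / 100 : ℝ) → h ^ 2 ≤ X → (∀ q ∈ QQ, 1 ≤ q ∧ 16 * x * q ≤ X) →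
  (∀ m ∈ Ioc x (2 * x), ∀ n ∈ F m, X ≤ 2 * n ∧ 4 * n ≤ 3 * X) →
  ∑ m ∈ Ioc x (2 * x), ∑ n ∈ F m, (SS QQ m (n + h) - SS QQ m n) ^ 2 ≤
    x * (X : ℝ) ^ 2 * QQ.card * Real.log X ^ C / Y

/-- the number of pairs with few solutions, `m ∈ (x, 2x]`, `n` in a block -/
def CorM (c : ℝ) (j : ℕ) (Φ : ℕ → ℕ → Prop) : Prop := ∃ C : ℕ, ∀ᶠ X : ℕ in atTop,
  ∀ (x : ℕ) (Y : ℝ) (F : ℕ → Finset ℕ), 3 ≤ Y → Y ≤ (X : ℝ) ^ (1 / 100 : ℝ) → Y ^ 110 ≤ x →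
  (x : ℝ) ≤ (X : ℝ) ^ (26 / 100 : ℝ) → (∀ m ∈ Ioc x (2 * x), ∀ n ∈ F m, X ≤ 2 * n ∧
    4 * n ≤ 3 * X ∧ ((SolP Φ m n).card : ℝ) < c * n / Real.log n ^ j) →
  ∑ m ∈ Ioc x (2 * x), ((F m).card : ℝ) ≤ X * Real.log X ^ C / Y

/-- COR.

Proof.  The proof of `AAN.thm_Cor` (AAN/Cor.lean; its lemmas `cor_log`, `cor_inj`, `cor_up` are public), with one set `QQ` for all
`m ∈ (x, 2x]`: `n₀ = (X+1)/2`, `K = X/(16 x)` (natural division; `2 ≤ K ≤ n₀`), `QQ` from `DensPk k Φ`: `#QQ ≥ c₁ K/(1 + log K)^k`,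
`16 x q ≤ X`, so `8 m q ≤ X`, and `x #QQ ≥ c₂ X/L^k` (`K ≥ X/(32 x)`), `m #QQ ≥ x #QQ`.  As there, for `n ∈ F m`:
`SS QQ m n ≤ (c₀/4) c₂ X/L^k ≤ (c₀/4) m #QQ`, AVG (`B = k + 1`, `16 m ≤ X`), Cauchy-Schwarz:
`(9 c₀^2/16) H (x #QQ)^2 ≤ (9 c₀^2/16) H (m #QQ)^2 ≤ ∑_{h<H} (SS(n+h) - SS(n))^2`, `H = ⌊X^{1/2}⌋`, `h^2 ≤ X`.
Sum over `n ∈ F m`, `m ∈ (x, 2x]`, and MSQ for every `h < H`:
`(9 c₀^2/16) H (x #QQ)^2 ∑_m #F m ≤ H x X^2 #QQ L^{C₁}/Y`, so `∑_m #F m ≤ (16/(9 c₀^2)) X^2 L^{C₁}/(Y x #QQ)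
≤ (16/(9 c₀^2 c₂)) X L^{C₁+k}/Y ≤ X L^{C₁+k+1}/Y`. -/
def St_CorM : Prop := ∀ (k : ℕ) (Φ : ℕ → ℕ → Prop), DensPk k Φ → MonoP Φ →
  ∃ c : ℝ, 0 < c ∧ CorM c (k + 1) Φ

/-- `n` is exceptional for `m` -/
def ExcP (c : ℝ) (j : ℕ) (Φ : ℕ → ℕ → Prop) (m n : ℕ) : Prop := Admissible m n ∧
  (SolP Φ m n = ∅ ∨ (12 * m ≤ n ∧ ((SolP Φ m n).card : ℝ) < c * n / Real.log n ^ j))

/-- the `n ≤ N` that are exceptional for some `m ≥ M` are at most `N (log N)^C / M^{1/110}` -/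
def FinM (c : ℝ) (j : ℕ) (Φ : ℕ → ℕ → Prop) : Prop := ∃ C N₀ : ℕ, ∀ N ≥ N₀, ∀ M : ℕ, 1 ≤ M →
  ∀ F : Finset ℕ, (∀ n ∈ F, n ≤ N ∧ ∃ m ≥ M, ExcP c j Φ m n) →
  (M : ℝ) ^ (1 / 110 : ℝ) * F.card ≤ N * Real.log N ^ C

/-- FNM.

Proof.  `n₁` from `T4H` with `ε = 1/100` (`1/4 + 1/100 = 26/100`), `C₀`, `X₁` from `CorM`.
`M ≤ 2 * 3^110`: `#F ≤ N` (`n ≥ 1` for `n ∈ F`) and `M^{1/110} ≤ 6 ≤ log N`.  Let `M > 2 * 3^110`, `Y = (M/2)^{1/110} > 3`,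
`M^{1/110} ≤ 2 Y`.  `AAN.St_Dya` (`AAN.thm_Dya`) with `P n := ∃ m ≥ M, ExcP c j Φ m n`, `X₀` constant and large,
`D = 3 (log (2N))^{C₀+1}/Y`.  Block `X ≥ X₀`, `X ≤ 2N`, `F` its set: for `n ∈ F` with `m`: `m < n^{26/100} ≤ X^{26/100}` by `T4H`
(otherwise `n` is not exceptional), `12 m ≤ n` for large `n`, so `#SolP < c n/(log n)^j` (also if `SolP = ∅`, as `c > 0`).  If
`Y > X^{1/100}` then `m ≥ M > X^{1.1} > n`, impossible, so `F = ∅`.  Otherwise let `2^i < m ≤ 2^{i+1}`, `x = 2^i ≥ m/2 ≥ M/2 = Y^110`,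
`x < X^{26/100}`, `i ≤ J`, `J + 1 ≤ 3 log X`: `F` is contained in the union over these `i` and `m ∈ (2^i, 2^{i+1}]` of the sets
`F_{i,m} = {n ∈ F : #SolP Φ m n < ...}`, and `CorM` for every `i`: `#F ≤ 3 (log X) X (log X)^{C₀}/Y ≤ D X`.
So for the given `F`: `#F ≤ X₀ + 8 D N`, times `M^{1/110} ≤ 2 Y`: `≤ 2 Y X₀ + 48 N (log 2N)^{C₀+1} ≤ N (log N)^{C₀+3}`; here `M ≤ N` if
`F ≠ ∅` (`2 m + 1 < n`), so `2 Y X₀ ≤ 2 X₀ N^{1/110} ≤ N`. -/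
def St_FnM : Prop := ∀ (c : ℝ) (j : ℕ) (Φ : ℕ → ℕ → Prop), 0 < c → CorM c j Φ → T4H c j Φ →
  FinM c j Φ

/-- the `n ≤ N` that are exceptional for some `m` are at most `N/(log N)^A` -/
def FinA (c : ℝ) (j : ℕ) (Φ : ℕ → ℕ → Prop) : Prop := ∀ A : ℕ, ∃ N₀ : ℕ, ∀ N ≥ N₀,
  ∀ F : Finset ℕ, (∀ n ∈ F, n ≤ N ∧ ∃ m, ExcP c j Φ m n) → (F.card : ℝ) ≤ N / Real.log N ^ A

/-- FNA.

Proof.  `C` from `FinM`, `B = 110 (A + C + 1)`, `M = ⌊(log N)^B⌋₊ + 1`.  The `n ∈ F` exceptional for some `m ≥ M`: at most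
`N (log N)^C/M^{1/110} ≤ N (log N)^{C - (A + C + 1)} = N/(log N)^{A+1}`.  The others are exceptional for some `1 ≤ m < M`: by `FinH` with
`A' = A + B + 2` at most `(log N)^B N/(log N)^{A'} ≤ N/(log N)^{A+2}`. -/
def St_FnA : Prop := ∀ (c : ℝ) (j : ℕ) (Φ : ℕ → ℕ → Prop), FinM c j Φ → FinH c j Φ → FinA c j Φ

/-- the uniform power saving of MV5, for one `m` -/
def FinP : Prop := ∀ ε : ℝ, 0 < ε → ∃ (δ : ℝ) (N₀ : ℕ), 0 < δ ∧ ∀ N ≥ N₀,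
  ∀ m : ℕ, ∀ F : Finset ℕ, (∀ n ∈ F, n ≤ N ∧ Admissible m n ∧
    (SolN 5 m n = ∅ ∨ (12 * m ≤ n ∧ ((SolN 5 m n).card : ℝ) < (n : ℝ) ^ (1 - ε)))) →
  (F.card : ℝ) ≤ (N : ℝ) ^ (1 - δ)

/-- power saving for all `m` simultaneously -/
def FinB : Prop := ∀ ε : ℝ, 0 < ε → ∃ (δ : ℝ) (N₀ : ℕ), 0 < δ ∧ ∀ N ≥ N₀,
  ∀ F : Finset ℕ, (∀ n ∈ F, n ≤ N ∧ ∃ m, Admissible m n ∧
    (SolN 5 m n = ∅ ∨ (12 * m ≤ n ∧ ((SolN 5 m n).card : ℝ) < (n : ℝ) ^ (1 - ε)))) →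
  (F.card : ℝ) ≤ (N : ℝ) ^ (1 - δ)

/-- FNB.

Proof.  `δ₁` from `FinP` (`≤ 1`, else replace it by `1`), `M = ⌊N^{δ₁/2}⌋₊ + 1`, `δ = δ₁/440`.  The `n ∈ F` exceptional for some
`m < M`: at most `N^{δ₁/2} N^{1-δ₁}`.  The others are exceptional for some `m ≥ M` for `SolN 5`; `SolP Phi m n ⊆ SolN 5 m n` (see
MV5/Glue.lean or the result file PowerSaving) and `n^{1-ε} ≤ c n/(log n)^3` for `n ≥ n₂`, so `ExcP c 3 Phi m n` if `n ≥ n₂`: at most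
`n₂ + N (log N)^C/N^{δ₁/220}`.  The sum of the three is `≤ N^{1-δ}` for large `N`. -/
def St_FnB : Prop := ∀ c : ℝ, 0 < c → FinM c 3 Phi → FinP → FinB

end Pool.Agent.TLL
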