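import Mathlib
import Pool.Agent.TLL.St
import Pool.Agent.AAN.Asm
import Pool.Agent.MVII.Gi
import Pool.Agent.MVII.Ga
import Pool.Agent.GBQ.MinLam
import Pool.Agent.GBR.Asm
import Pool.Agent.MV5.Asm
import Pool.Agent.MVX.Asm

set_option autoImplicit false

/-!
# TLL: assembly from the statements of the modules
-/

namespace Pool.Agent.TLL

open Finset Filter
open Pool.Agent.GBQ (Admissible)
open Pool.Agent.EVN (Phi SolP)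
open Pool.Agent.AAN (SS MonoP DensPk T4H FinH)

theorem asm_exc {c c' : ℝ} {j : ℕ} {Φ : ℕ → ℕ → Prop} (hc : c' ≤ c) {m n : ℕ}
    (h : ExcP c' j Φ m n) : ExcP c j Φ m n := by
  obtain ⟨h1, h2⟩ := h
  refine ⟨h1, ?_⟩
  rcases h2 with h2 | ⟨h2, h3⟩
  · exact Or.inl h2
  · refine Or.inr ⟨h2, lt_of_lt_of_le h3 (AAN.asm_le hc n j ?_)⟩
    have := h1.2.1
    have := h1.1
    omega

theorem asm_corM {c c' : ℝ} {j : ℕ} {Φ : ℕ → ℕ → Prop} (hc : c' ≤ c) (h : CorM c j Φ) :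
    CorM c' j Φ := by
  obtain ⟨C, h⟩ := h
  refine ⟨C, ?_⟩
  filter_upwards [h, eventually_ge_atTop 16] with X hX h16
  intro x Y F h1 h2 h3 h4 hF
  refine hX x Y F h1 h2 h3 h4 fun m hm n hn => ?_
  obtain ⟨g1, g2, g3⟩ := hF m hm n hn
  exact ⟨g1, g2, lt_of_lt_of_le g3 (AAN.asm_le hc n j (by omega))⟩

theorem asm_finH {c c' : ℝ} {j : ℕ} {Φ : ℕ → ℕ → Prop} (hc : c' ≤ c) (h : FinH c j Φ) :
    FinH c' j Φ := by
  obtain ⟨C, h⟩ := h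
  refine ⟨C, fun A => ?_⟩
  obtain ⟨N₀, h⟩ := h A
  refine ⟨N₀, fun N hN m F hF => h N hN m F fun n hn => ?_⟩
  obtain ⟨g1, g2⟩ := hF n hn
  exact ⟨g1, (asm_exc hc (m := m) (n := n) g2)⟩

theorem finP : FinP := by
  obtain ⟨C, h⟩ := MV5.final5 MVX.gp
  intro ε hε
  obtain ⟨δ, N₀, hδ, h⟩ := h ε hε
  exact ⟨δ, N₀, hδ, fun N hN m F hF => (h N hN m F hF).1⟩

/-- everything from the modules -/
theorem asm0 (hPar : St_Par) (hDif : St_Par → St_Dif) (hLsd : St_Lsd) (hKer : St_Lsd → St_Ker)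
    (hDir : St_Dir) (hPtw : St_Ker → St_Dir → St_Ptw) (hInt : St_Par → St_Ptw → St_Int)
    (hSep : St_Sep) (hT1w : St_T1w) (hT2w : St_T2w) (hLcw : St_T1w → St_T2w → St_Lcw)
    (hFmc : St_Sep → St_Lcw → MVII.St_Ga → MVII.St_Gi → St_Fmc)
    (hRes : St_Fmc → GBQ.St_MinLam → St_Res)
    (hMsq : St_Dif → St_Int → St_Res → GBQ.St_MinLam → St_Msq)
    (hCorM : St_Msq → AAN.St_Avg → GBQ.St_Bad → St_CorM)
    (hFnM : AAN.St_Dya → St_FnM) (hFnA : St_FnA) (hFnB : St_FnB) :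
    (∃ c : ℝ, 0 < c ∧ FinM c 3 Phi ∧ FinA c 3 Phi ∧ FinH c 3 Phi) ∧ FinB := by
  have hML : GBQ.St_MinLam := GBQ.thm_MinLam GBQ.thm_Vin
  have hR : St_Res := hRes (hFmc hSep (hLcw hT1w hT2w) MVII.thm_Ga (MVII.thm_Gi MVII.thm_Ga)) hML
  have hM : St_Msq := hMsq (hDif hPar) (hInt hPar (hPtw (hKer hLsd) hDir)) hR hML
  obtain ⟨c₁, h1, h2⟩ : ∃ c : ℝ, 0 < c ∧ CorM c 3 Phi :=
    hCorM hM (AAN.thm_Avg SI.gap) GBQ.thm_Bad 2 Phi AAN.densQ AAN.asm_monoP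
  obtain ⟨c₂, h3, h4⟩ := AAN.t4r
  obtain ⟨c₃, h5, h6⟩ := GBR.fin
  obtain ⟨c, hc⟩ : ∃ c : ℝ, c = min c₁ (min c₂ c₃) := ⟨_, rfl⟩
  have e1 : c ≤ c₁ := by rw [hc]; exact min_le_left _ _
  have e2 : c ≤ c₂ := by rw [hc]; exact (min_le_right _ _).trans (min_le_left _ _)
  have e3 : c ≤ c₃ := by rw [hc]; exact (min_le_right _ _).trans (min_le_right _ _)
  have e4 : 0 < c := by rw [hc]; exact lt_min h1 (lt_min h3 h5)
  have hFM : FinM c 3 Phi := hFnM AAN.thm_Dya c 3 Phi e4 (asm_corM e1 h2) (AAN.asm_t4H e2 h4)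
  have hFH : FinH c 3 Phi := asm_finH e3 h6
  exact ⟨⟨c, e4, hFM, hFnA c 3 Phi hFM hFH, hFH⟩, hFnB c e4 hFM finP⟩

end Pool.Agent.TLL
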