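import Mathlib
import Pool.Agent.TLL.St

set_option autoImplicit false

/-!
# TLL (MP_4011c3_nt): the number of exceptional PAIRS `(m, n)`, `n ≤ N`

Stronger forms of `FinM`, `FinA`, `FinB` (St.lean): `PrM`: at most `N (log N)^C / M^(1/110)` exceptional pairs `(m, n)` with
`n ≤ N`, `m ≥ M`; `PrA`: at most `N/(log N)^A` exceptional pairs with `n ≤ N`; `PrB`: at most `N^(1-δ)`.
(There are about `N^2/4` admissible pairs with `n ≤ N`.)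
-/

namespace Pool.Agent.TLL

open Finset Filter
open Pool.Agent.GBQ (Admissible)
open Pool.Agent.MVII (SolN)
open Pool.Agent.EVN (Phi SolP)
open Pool.Agent.AAN (T4H FinH)

/-- DYW.  AAN/Dya.lean with weights.

Proof.  Strong induction on `N' ≤ N`: `∑_{n ≤ N'} r n ≤ ∑_{n < X₀} r n + 8 D N'`.  `N' < X₀`: clear.  `N' ≥ X₀`:
`X = (4 N' + 2)/3` (natural division), `X₀ ≤ X ≤ 2 N' ≤ 2 N`, `4 N' ≤ 3 X`: the block contains all `n ≤ N'` with `X ≤ 2 n`, they give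
`≤ D X ≤ 2 D N'`; the others satisfy `n ≤ (X - 1)/2 =: N'' < N'`, `N'' ≤ 2N'/3`: `≤ ∑_{n < X₀} r n + (16/3) D N'`. -/
def St_Dyw : Prop := ∀ (r : ℕ → ℝ) (X₀ : ℕ) (D : ℝ), 1 ≤ X₀ → 0 ≤ D → (∀ n, 0 ≤ r n) → ∀ N : ℕ,
  (∀ X : ℕ, X₀ ≤ X → X ≤ 2 * N →
    ∑ n ∈ (Icc 1 N).filter (fun n => X ≤ 2 * n ∧ 4 * n ≤ 3 * X), r n ≤ D * X) →
  ∑ n ∈ Icc 1 N, r n ≤ ∑ n ∈ range X₀, r n + 8 * D * N

/-- the exceptional pairs `(m, n)` with `n ≤ N`, `m ≥ M` are at most `N (log N)^C / M^{1/110}` -/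
def PrM (c : ℝ) (j : ℕ) (Φ : ℕ → ℕ → Prop) : Prop := ∃ C N₀ : ℕ, ∀ N ≥ N₀, ∀ M : ℕ, 1 ≤ M →
  ∀ P : Finset (ℕ × ℕ), (∀ p ∈ P, M ≤ p.1 ∧ p.2 ≤ N ∧ ExcP c j Φ p.1 p.2) →
  (M : ℝ) ^ (1 / 110 : ℝ) * P.card ≤ N * Real.log N ^ C

/-- PRM.

Proof.  `n₁` from `T4H` with `ε = 1/100` (`1/4 + 1/100 = 26/100`), `C₀`, `X₁` from `CorM`, `C₂`, `N₂` from `FinH` (with
`A = 0`).  `M₀ = 2 * 3^110 + 1`, `M₁ = max M M₀`, `Y = (M₁/2)^{1/110} ≥ 3`, `M₁^{1/110} ≤ 2 Y`.  `P' = ` the pairs of `P` with `m ≥ M₁`,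
`P'' = P \ P'`.
`P''` (pairs with `M ≤ m < M₀`, nonempty only if `M < M₀`): for every `m` (`≥ 1`) at most `N (log N)^{C₂}` by `FinH`, total
`≤ M₀ N (log N)^{C₂}`, and `M^{1/110} ≤ M₀`.
`P'`: `r n` = the number of `m` with `(m, n) ∈ P'`; DYW with a large constant `X₀` and `D = 3 (log (2N))^{C₀+1}/Y`.  For
`n < X₀`: `r n ≤ n < X₀` (`2 m + 1 < n`), sum `≤ X₀^2`.  Block `X₀ ≤ X ≤ 2N`: for `(m, n) ∈ P'`, `n` in the block: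
`m < n^{26/100} ≤ X^{26/100}` by `T4H` (otherwise `(m, n)` is not exceptional), `12 m ≤ n` (`n` is large), so
`#SolP < c n/(log n)^j` (also if `SolP = ∅`, as `c > 0`).  If `Y > X^{1/100}` then `m ≥ M₁ > X^{1.1} > n`, impossible: no such
pair.  Otherwise let `2^i < m ≤ 2^{i+1}`, `x = 2^i ≥ m/2 ≥ M₁/2 = Y^110`, `x < X^{26/100}`, so `i ≤ J`, `J + 1 ≤ 3 log X`.  The pairs
with this `i` are at most `∑_{m ∈ (x, 2x]} #F m`, `F m = {n : n in the block, (m, n) ∈ P'}`, and `CorM` gives `≤ X (log X)^{C₀}/Y`.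
Sum over `i`: `≤ 3 (log X) X (log X)^{C₀}/Y ≤ D X`.  So `#P' = ∑_{n ≤ N} r n ≤ X₀^2 + 8 D N` and
`M^{1/110} #P' ≤ 2 Y X₀^2 + 48 N (log 2N)^{C₀+1}`; if `P' ≠ ∅` then `M₁ ≤ N`, `2 Y X₀^2 ≤ 2 X₀^2 N^{1/110} ≤ N`. -/
def St_PrM : Prop := ∀ (c : ℝ) (j : ℕ) (Φ : ℕ → ℕ → Prop), 0 < c → CorM c j Φ → T4H c j Φ →
  FinH c j Φ → PrM c j Φ

/-- the exceptional pairs `(m, n)` with `n ≤ N` are at most `N/(log N)^A` -/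
def PrA (c : ℝ) (j : ℕ) (Φ : ℕ → ℕ → Prop) : Prop := ∀ A : ℕ, ∃ N₀ : ℕ, ∀ N ≥ N₀,
  ∀ P : Finset (ℕ × ℕ), (∀ p ∈ P, p.2 ≤ N ∧ ExcP c j Φ p.1 p.2) →
  (P.card : ℝ) ≤ N / Real.log N ^ A

/-- PRA.

Proof.  `C` from `PrM`, `B = 110 (A + C + 1)`, `M = ⌊(log N)^B⌋₊ + 1`.  The pairs of `P` with `m ≥ M`: at most
`N (log N)^C/M^{1/110} ≤ N/(log N)^{A+1}`.  The pairs with `1 ≤ m < M`: by `FinH` with `A' = A + B + 2` at most `N/(log N)^{A'}` for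
each `m`, total `≤ (log N)^B N/(log N)^{A'} = N/(log N)^{A+2}`. -/
def St_PrA : Prop := ∀ (c : ℝ) (j : ℕ) (Φ : ℕ → ℕ → Prop), PrM c j Φ → FinH c j Φ → PrA c j Φ

/-- at most `N^(1-δ)` exceptional pairs `(m, n)` with `n ≤ N` -/
def PrB : Prop := ∀ ε : ℝ, 0 < ε → ∃ (δ : ℝ) (N₀ : ℕ), 0 < δ ∧ ∀ N ≥ N₀,
  ∀ P : Finset (ℕ × ℕ), (∀ p ∈ P, p.2 ≤ N ∧ Admissible p.1 p.2 ∧
    (SolN 5 p.1 p.2 = ∅ ∨ (12 * p.1 ≤ p.2 ∧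
      ((SolN 5 p.1 p.2).card : ℝ) < (p.2 : ℝ) ^ (1 - ε)))) →
  (P.card : ℝ) ≤ (N : ℝ) ^ (1 - δ)

/-- PRB.

Proof.  `δ₁` from `FinP` (`≤ 1`, else replace it by `1`), `M = ⌊N^{δ₁/2}⌋₊ + 1`, `δ = δ₁/440`.  Pairs with `m < M`: at most
`N^{δ₁/2} N^{1-δ₁}`.  `SolP Phi m n ⊆ SolN 5 m n` and `n^{1-ε} ≤ c n/(log n)^3` for `n ≥ n₂`, so the pairs with `m ≥ M`, `n ≥ n₂`
satisfy `ExcP c 3 Phi m n`: by `PrM` at most `N (log N)^C/N^{δ₁/220}`.  Pairs with `n < n₂`: at most `n₂^2` (`m < n`).  The sum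
of the three is `≤ N^{1-δ}` for large `N`. -/
def St_PrB : Prop := ∀ c : ℝ, 0 < c → PrM c 3 Phi → FinP → PrB

end Pool.Agent.TLL
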