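import Mathlib
import Pool.Agent.TLL.Asm0
import Pool.Agent.TLL.St2

set_option autoImplicit false

/-!
# TLL: assembly for pairs, from the statements of the modules
-/

namespace Pool.Agent.TLL

open Finset Filter
open Pool.Agent.GBQ (Admissible)
open Pool.Agent.EVN (Phi SolP)
open Pool.Agent.AAN (SS MonoP DensPk T4H FinH)

/-- everything from the modules -/
theorem asm1 (hPar : St_Par) (hDif : St_Par → St_Dif) (hLsd : St_Lsd) (hKer : St_Lsd → St_Ker)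
    (hDir : St_Dir) (hPtw : St_Ker → St_Dir → St_Ptw) (hInt : St_Par → St_Ptw → St_Int)
    (hSep : St_Sep) (hT1w : St_T1w) (hT2w : St_T2w) (hLcw : St_T1w → St_T2w → St_Lcw)
    (hFmc : St_Sep → St_Lcw → MVII.St_Ga → MVII.St_Gi → St_Fmc)
    (hRes : St_Fmc → GBQ.St_MinLam → St_Res)
    (hMsq : St_Dif → St_Int → St_Res → GBQ.St_MinLam → St_Msq)
    (hCorM : St_Msq → AAN.St_Avg → GBQ.St_Bad → St_CorM)
    (hPrM : St_PrM) (hPrA : St_PrA) (hPrB : St_PrB) :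
    (∃ c : ℝ, 0 < c ∧ PrM c 3 Phi ∧ PrA c 3 Phi ∧ FinH c 3 Phi) ∧ PrB := by
  have hML : GBQ.St_MinLam := GBQ.thm_MinLam GBQ.thm_Vin
  have hR : St_Res := hRes (hFmc hSep (hLcw hT1w hT2w) MVII.thm_Ga (MVII.thm_Gi MVII.thm_Ga)) hML
  have hM : St_Msq := hMsq (hDif hPar) (hInt hPar (hPtw (hKer hLsd) hDir)) hR hML
  obtain ⟨c₁, h1, h2⟩ : ∃ c : ℝ, 0 < c ∧ CorM c 3 Phi :=
    hCorM hM (AAN.thm_Avg SI.gap) GBQ.thm_Bad 2 Phi AAN.densQ AAN.asm_monoP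
  obtain ⟨c₂, h3, h4⟩ := AAN.t4r
  obtain ⟨c₃, h5, h6⟩ := GBR.fin
  obtain ⟨c, hc⟩ : ∃ c : ℝ, c = min c₁ (min c₂ c₃) := ⟨_, rfl⟩
  have e1 : c ≤ c₁ := by rw [hc]; exact min_le_left _ _
  have e2 : c ≤ c₂ := by rw [hc]; exact (min_le_right _ _).trans (min_le_left _ _)
  have e3 : c ≤ c₃ := by rw [hc]; exact (min_le_right _ _).trans (min_le_right _ _)
  have e4 : 0 < c := by rw [hc]; exact lt_min h1 (lt_min h3 h5)
  have hFH : FinH c 3 Phi := asm_finH e3 h6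
  have hFM : PrM c 3 Phi := hPrM c 3 Phi e4 (asm_corM e1 h2) (AAN.asm_t4H e2 h4) hFH
  exact ⟨⟨c, e4, hFM, hPrA c 3 Phi hFM hFH, hFH⟩, hPrB c e4 hFM finP⟩

end Pool.Agent.TLL
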