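import Mathlib
import Pool.Agent.TLL.St
import Pool.Agent.AAN.Cor

set_option autoImplicit false

/-!
# TLL / CorM: the number of pairs `(n, m)` with few solutions
-/

namespace Pool.Agent.TLL

open Finset Filter
open Pool.Agent.GBQ (ee lam nd Admissible)
open Pool.Agent.EVN (Phi SolP)
open Pool.Agent.AAN (SS MonoP DensPk cor_log cor_up)

/-- `x ≤ X^{26/100}` gives `32 x ≤ X` for large `X` -/
private theorem corm_small : ∀ᶠ X : ℕ in atTop, ∀ x : ℕ, (x : ℝ) ≤ (X : ℝ) ^ (26 / 100 : ℝ) →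
    32 * x ≤ X := by
  filter_upwards [eventually_ge_atTop (32 ^ 2)] with X hX x hx
  have hX0 : (32 ^ 2 : ℝ) ≤ X := by exact_mod_cast hX
  have hX1 : (1 : ℝ) ≤ X := by linarith
  have h1 : (X : ℝ) ^ (26 / 100 : ℝ) ≤ Real.sqrt X := by
    rw [Real.sqrt_eq_rpow]
    exact Real.rpow_le_rpow_of_exponent_le hX1 (by norm_num)
  have h2 : (32 : ℝ) ≤ Real.sqrt X := by
    apply Real.le_sqrt_of_sq_le
    linarith
  have h3 : (x : ℝ) ≤ Real.sqrt X := hx.trans h1
  have h4 : Real.sqrt X * Real.sqrt X = X := Real.mul_self_sqrt (by linarith)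
  have h5 : (32 : ℝ) * x ≤ X := by
    have h6 : (0 : ℝ) ≤ x := Nat.cast_nonneg x
    nlinarith
  exact_mod_cast h5

/-- **CORM.** -/
theorem thm_CorM (h1 : St_Msq) (h2 : AAN.St_Avg) (h3 : GBQ.St_Bad) : St_CorM := by
  intro k Φ hD hM
  obtain ⟨C₁, hMsq⟩ := h1
  obtain ⟨c₀, hc₀, hAvg⟩ := h2
  obtain ⟨C₃, hPP⟩ := GBQ.coreu_PP h3
  obtain ⟨c₁, n₁, hc₁, hDens⟩ := hD
  set c₂ : ℝ := c₁ / (32 * 2 ^ k) with hc₂
  have hc₂0 : 0 < c₂ := by positivity
  refine ⟨c₀ * c₂ / (8 * 2 ^ (k + 1)), by positivity, C₁ + k + 1, ?_⟩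
  have hlog : ∀ A : ℝ, ∀ᶠ X : ℕ in atTop, A ≤ Real.log X := fun A =>
    (Real.tendsto_log_atTop.comp (tendsto_natCast_atTop_atTop (R := ℝ))).eventually
      (eventually_ge_atTop A)
  filter_upwards [hMsq, hAvg (k + 1), eventually_ge_atTop (2 * n₁), eventually_ge_atTop 64,
    hlog 1, hlog (1 / c₂), hlog (16 / (9 * c₀ ^ 2 * c₂)),
    cor_log (2 * C₃ * 8 / (c₀ * c₂)) (k + 2), corm_small]
    with X hV hA hX1 hX2 hL1 hL2 hL3 hL4 hsm
  intro x Y F hY hYX hYx hxX hF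
  have h32 : 32 * x ≤ X := hsm x hxX
  have hY0 : (0 : ℝ) < Y := by linarith
  have hx1 : 1 ≤ x := by
    have a1 : (1 : ℝ) ≤ Y ^ 110 := one_le_pow₀ (by linarith)
    have a2 : (1 : ℝ) ≤ x := a1.trans hYx
    exact_mod_cast a2
  have hX64 : (64 : ℝ) ≤ X := by exact_mod_cast hX2
  have hX0 : (0 : ℝ) < X := by linarith
  set L := Real.log X with hL
  have hL0 : 0 < L := by linarith
  have hx0 : (0 : ℝ) < x := by exact_mod_cast hx1
  set n₀ := (X + 1) / 2 with hn₀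
  set K := X / (16 * x) with hK
  have hK2 : 2 ≤ K := by
    rw [hK, Nat.le_div_iff_mul_le (by omega)]
    omega
  have hKn : K ≤ n₀ := by
    have : K ≤ X / 16 := Nat.div_le_div_left (by omega) (by norm_num)
    omega
  obtain ⟨QQ, hQQ, hcard⟩ := hDens n₀ (by omega) K hK2 hKn
  have hq16 : ∀ q ∈ QQ, 1 ≤ q ∧ 16 * x * q ≤ X := by
    intro q hq
    have h4 := (hQQ q hq).1
    rw [hK, Nat.le_div_iff_mul_le (by omega)] at h4
    refine ⟨(hQQ q hq).2.1.pos, ?_⟩
    rw [mul_comm]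
    exact h4
  -- the size of `QQ`
  set V : ℝ := x * QQ.card with hVdef
  have hVlow : c₂ * X / L ^ k ≤ V := by
    have hKX : (X : ℝ) / (32 * x) ≤ K := by
      have h5 : X < (K + 1) * (16 * x) := by
        have a1 := Nat.div_add_mod X (16 * x)
        have a2 := Nat.mod_lt X (show 0 < 16 * x by omega)
        rw [← hK] at a1
        rw [add_mul, one_mul, mul_comm K (16 * x)]
        omega
      have h6 : (X : ℝ) < (K + 1) * (16 * x) := by exact_mod_cast h5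
      have h7 : (2 : ℝ) ≤ K := by exact_mod_cast hK2
      rw [div_le_iff₀ (by positivity)]
      nlinarith
    have hKle : Real.log K ≤ L := by
      apply Real.log_le_log (by exact_mod_cast (by omega : 0 < K))
      exact_mod_cast (by omega : K ≤ X)
    have hlK : 0 ≤ Real.log K := Real.log_natCast_nonneg K
    have h8 : (1 + Real.log K) ^ k ≤ (2 * L) ^ k :=
      pow_le_pow_left₀ (by linarith) (by linarith) k
    have h9 : c₁ * K / (2 * L) ^ k ≤ QQ.card := by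
      refine le_trans ?_ hcard
      apply div_le_div_of_nonneg_left (by positivity) (by positivity) h8
    have h10 : c₁ * (X / (32 * x)) / (2 * L) ^ k ≤ QQ.card := by
      refine le_trans ?_ h9
      apply div_le_div_of_nonneg_right _ (by positivity)
      exact mul_le_mul_of_nonneg_left hKX hc₁.le
    have h11 := mul_le_mul_of_nonneg_left h10 hx0.le
    refine le_trans (le_of_eq ?_) h11
    rw [hc₂, mul_pow]
    field_simp
  have hVpos : 0 < V := lt_of_lt_of_le (by positivity) hVlow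
  have hVB : (X : ℝ) / L ^ (k + 1) ≤ V := by
    refine le_trans ?_ hVlow
    rw [div_le_div_iff₀ (by positivity) (by positivity)]
    have h12 : 1 ≤ c₂ * L := by
      rw [div_le_iff₀ hc₂0] at hL2
      linarith
    calc (X : ℝ) * L ^ k = X * L ^ k * 1 := by ring
      _ ≤ X * L ^ k * (c₂ * L) := mul_le_mul_of_nonneg_left h12 (by positivity)
      _ = c₂ * X * L ^ (k + 1) := by ring
  set H := ⌊(X : ℝ) ^ (1 / 2 : ℝ)⌋₊ with hH
  have hHpos : (0 : ℝ) < H := by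
    have h13 : 0 < H := by
      rw [hH, Nat.floor_pos]
      exact Real.one_le_rpow (by linarith) (by norm_num)
    exact_mod_cast h13
  have hHsq : ∀ h ∈ range H, h ^ 2 ≤ X := by
    intro h hh
    have b1 : (h : ℝ) ≤ H := by exact_mod_cast (mem_range.1 hh).le
    have b2 : (h : ℝ) ≤ (X : ℝ) ^ (1 / 2 : ℝ) := b1.trans (Nat.floor_le (by positivity))
    rw [← Real.sqrt_eq_rpow] at b2
    have b3 : (h : ℝ) ^ 2 ≤ X := by
      have b4 := pow_le_pow_left₀ (Nat.cast_nonneg h) b2 2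
      rwa [Real.sq_sqrt hX0.le] at b4
    exact_mod_cast b3
  -- the numbers `m`
  have hmm : ∀ m ∈ Ioc x (2 * x), 1 ≤ m ∧ 16 * m ≤ X ∧ (∀ q ∈ QQ, 8 * m * q ≤ X) ∧
      V ≤ m * QQ.card := by
    intro m hm
    obtain ⟨ha, hb⟩ := mem_Ioc.1 hm
    refine ⟨by omega, by omega, fun q hq => ?_, ?_⟩
    · refine le_trans ?_ (hq16 q hq).2
      apply Nat.mul_le_mul_right
      omega
    · rw [hVdef]
      apply mul_le_mul_of_nonneg_right _ (Nat.cast_nonneg _)
      exact_mod_cast ha.le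
  -- the sum at `n` is small
  have hsmall : ∀ m ∈ Ioc x (2 * x), ∀ n ∈ F m, SS QQ m n ≤ c₀ / 4 * V := by
    intro m hm n hn
    obtain ⟨hm1, hm16, hq8, -⟩ := hmm m hm
    obtain ⟨hn1, hn2, hn3⟩ := hF m hm n hn
    have hn4 : 4 ≤ n := by omega
    obtain ⟨PP, hPP1, hPP2⟩ := hPP n hn4
    have hup := cor_up Φ (PP := PP) hm1 hm16 (fun q hq => ⟨hq8 q hq, (hQQ q hq).2.1,
      hM n₀ n q (by omega) (by omega) (hQQ q hq).2.2⟩) hn1 hn2 hPP1
    refine hup.trans ?_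
    have hnX : (n : ℝ) ≤ X := by exact_mod_cast (by omega : n ≤ X)
    have hn0 : (0 : ℝ) < n := by exact_mod_cast (by omega : 0 < n)
    have hnX2 : (X : ℝ) ≤ 2 * n := by exact_mod_cast hn1
    have hln : Real.log n ≤ L := Real.log_le_log hn0 hnX
    have hln2 : L / 2 ≤ Real.log n := by
      have h14 : Real.sqrt X ≤ n := by
        rw [Real.sqrt_le_left hn0.le]
        nlinarith
      have h15 := Real.log_le_log (Real.sqrt_pos.2 hX0) h14
      rw [Real.log_sqrt hX0.le] at h15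
      exact h15
    have hln0 : 0 < Real.log n := by linarith
    -- primes
    have h16' : L * (SolP Φ m n).card ≤ c₀ / 8 * (c₂ * X / L ^ k) := by
      have h17 : ((SolP Φ m n).card : ℝ) ≤ c₀ * c₂ / (8 * 2 ^ (k + 1)) * n / (L / 2) ^ (k + 1) := by
        refine hn3.le.trans ?_
        apply div_le_div_of_nonneg_left (by positivity) (by positivity)
        exact pow_le_pow_left₀ (by linarith) hln2 _
      have h18 : c₀ * c₂ / (8 * 2 ^ (k + 1)) * n / (L / 2) ^ (k + 1) ≤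
          c₀ * c₂ / (8 * 2 ^ (k + 1)) * X / (L / 2) ^ (k + 1) := by
        apply div_le_div_of_nonneg_right _ (by positivity)
        exact mul_le_mul_of_nonneg_left hnX (by positivity)
      have h19 := mul_le_mul_of_nonneg_left (h17.trans h18) hL0.le
      refine h19.trans (le_of_eq ?_)
      rw [div_pow, pow_succ L k]
      field_simp
    -- prime powers
    have h20 : L * PP.card ≤ c₀ / 8 * (c₂ * X / L ^ k) := by
      have h21 : (PP.card : ℝ) ≤ C₃ * (Real.sqrt X * (2 * L)) := by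
        refine hPP2.trans ?_
        apply mul_le_mul_of_nonneg_left _ (Nat.cast_nonneg _)
        apply mul_le_mul (Real.sqrt_le_sqrt hnX) (by linarith) (by positivity)
          (Real.sqrt_nonneg _)
      have h22 := mul_le_mul_of_nonneg_left h21 hL0.le
      refine h22.trans ?_
      have h23 : c₀ / 8 * (c₂ * X / L ^ k) = c₀ * c₂ / 8 * (Real.sqrt X * Real.sqrt X) / L ^ k := by
        rw [Real.mul_self_sqrt hX0.le]
        ring
      rw [h23, le_div_iff₀ (by positivity)]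
      have h24 : c₀ * c₂ / 8 * (2 * C₃ * 8 / (c₀ * c₂) * L ^ (k + 2)) ≤
          c₀ * c₂ / 8 * Real.sqrt X := mul_le_mul_of_nonneg_left hL4 (by positivity)
      have h25 : c₀ * c₂ / 8 * (2 * C₃ * 8 / (c₀ * c₂) * L ^ (k + 2)) =
          2 * C₃ * L ^ (k + 2) := by
        field_simp
      rw [h25] at h24
      have h26 := mul_le_mul_of_nonneg_right h24 (Real.sqrt_nonneg X)
      calc L * (C₃ * (Real.sqrt X * (2 * L))) * L ^ k
          = 2 * C₃ * L ^ (k + 2) * Real.sqrt X := by ring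
        _ ≤ c₀ * c₂ / 8 * Real.sqrt X * Real.sqrt X := h26
        _ = _ := by ring
    have h27 : c₀ / 4 * (c₂ * X / L ^ k) ≤ c₀ / 4 * V :=
      mul_le_mul_of_nonneg_left hVlow (by positivity)
    rw [mul_add]
    linarith
  -- Cauchy and Schwarz
  have hCS : ∀ m ∈ Ioc x (2 * x), ∀ n ∈ F m, 9 * c₀ ^ 2 / 16 * H * V ^ 2 ≤
      ∑ h ∈ range H, (SS QQ m (n + h) - SS QQ m n) ^ 2 := by
    intro m hm n hn
    obtain ⟨hm1, hm16, hq8, hVm⟩ := hmm m hm
    obtain ⟨hn1, hn2, -⟩ := hF m hm n hn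
    have hav := hA m n H QQ hm1 hm16 rfl hq8 hn1 hn2 (hVB.trans hVm)
    have hs := hsmall m hm n hn
    have h28 : 3 * c₀ / 4 * H * V ≤ ∑ h ∈ range H, (SS QQ m (n + h) - SS QQ m n) := by
      rw [sum_sub_distrib, sum_const, card_range, nsmul_eq_mul]
      have h29 := mul_le_mul_of_nonneg_left hs hHpos.le
      have h30 : c₀ * H * V ≤ c₀ * H * (m * QQ.card) :=
        mul_le_mul_of_nonneg_left hVm (by positivity)
      linarith
    have h31 := sq_sum_le_card_mul_sum_sq (s := range H)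
      (f := fun h => SS QQ m (n + h) - SS QQ m n)
    rw [card_range] at h31
    have h32 : (3 * c₀ / 4 * H * V) ^ 2 ≤
        (∑ h ∈ range H, (SS QQ m (n + h) - SS QQ m n)) ^ 2 :=
      pow_le_pow_left₀ (by positivity) h28 2
    have h33 := h32.trans h31
    have h34 : (3 * c₀ / 4 * H * V) ^ 2 = H * (9 * c₀ ^ 2 / 16 * H * V ^ 2) := by ring
    rw [h34] at h33
    exact le_of_mul_le_mul_left h33 hHpos
  obtain ⟨T, hT⟩ : ∃ T : ℝ, T = ∑ m ∈ Ioc x (2 * x), ((F m).card : ℝ) := ⟨_, rfl⟩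
  rw [← hT]
  have hT0 : 0 ≤ T := by
    rw [hT]
    exact sum_nonneg fun m _ => Nat.cast_nonneg _
  have hsum1 : T * (9 * c₀ ^ 2 / 16 * H * V ^ 2) ≤
      ∑ m ∈ Ioc x (2 * x), ∑ n ∈ F m, ∑ h ∈ range H, (SS QQ m (n + h) - SS QQ m n) ^ 2 := by
    rw [hT, sum_mul]
    apply sum_le_sum
    intro m hm
    rw [← nsmul_eq_mul]
    exact card_nsmul_le_sum (F m) _ _ (hCS m hm)
  have hsum2 : ∑ m ∈ Ioc x (2 * x), ∑ n ∈ F m, ∑ h ∈ range H,
      (SS QQ m (n + h) - SS QQ m n) ^ 2 ≤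
      H * (x * (X : ℝ) ^ 2 * QQ.card * L ^ C₁ / Y) := by
    have e0 : ∑ m ∈ Ioc x (2 * x), ∑ n ∈ F m, ∑ h ∈ range H, (SS QQ m (n + h) - SS QQ m n) ^ 2 =
        ∑ h ∈ range H, ∑ m ∈ Ioc x (2 * x), ∑ n ∈ F m, (SS QQ m (n + h) - SS QQ m n) ^ 2 := by
      rw [sum_comm]
      apply sum_congr rfl
      intro m _
      exact sum_comm
    rw [e0]
    have h35 : ∀ h ∈ range H, ∑ m ∈ Ioc x (2 * x), ∑ n ∈ F m,
        (SS QQ m (n + h) - SS QQ m n) ^ 2 ≤ x * (X : ℝ) ^ 2 * QQ.card * L ^ C₁ / Y := by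
      intro h hh
      exact hV x h Y QQ F hY hYX hYx hxX (hHsq h hh) hq16
        fun m hm n hn => ⟨(hF m hm n hn).1, (hF m hm n hn).2.1⟩
    have h37 := sum_le_card_nsmul (range H) _ _ h35
    rwa [card_range, nsmul_eq_mul] at h37
  have h38 := hsum1.trans hsum2
  have h39 : T * (9 * c₀ ^ 2 / 16) * V ≤ (X : ℝ) ^ 2 * L ^ C₁ / Y := by
    have e1 : T * (9 * c₀ ^ 2 / 16 * H * V ^ 2) =
        (H * V) * (T * (9 * c₀ ^ 2 / 16) * V) := by ring
    have e2 : H * (x * (X : ℝ) ^ 2 * QQ.card * L ^ C₁ / Y) =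
        (H * V) * ((X : ℝ) ^ 2 * L ^ C₁ / Y) := by
      rw [hVdef]
      ring
    rw [e1, e2] at h38
    exact le_of_mul_le_mul_left h38 (by positivity)
  have h40 : 0 ≤ T * (9 * c₀ ^ 2 / 16) := by positivity
  have h41 : T * (9 * c₀ ^ 2 / 16) * (c₂ * X / L ^ k) ≤ (X : ℝ) ^ 2 * L ^ C₁ / Y :=
    (mul_le_mul_of_nonneg_left hVlow h40).trans h39
  have h42 : T * (9 * c₀ ^ 2 * c₂ / 16) ≤ X * L ^ (C₁ + k) / Y := by
    have e3 : T * (9 * c₀ ^ 2 / 16) * (c₂ * X / L ^ k) =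
        (T * (9 * c₀ ^ 2 * c₂ / 16)) * X / L ^ k := by ring
    rw [e3, div_le_iff₀ (by positivity)] at h41
    have e4 : (X : ℝ) ^ 2 * L ^ C₁ / Y * L ^ k = X * L ^ (C₁ + k) / Y * X := by
      rw [pow_add]
      ring
    rw [e4] at h41
    exact le_of_mul_le_mul_right h41 hX0
  have h43 : 16 ≤ L * (9 * c₀ ^ 2 * c₂) := by
    rwa [div_le_iff₀ (by positivity)] at hL3
  have h44 : T ≤ (T * (9 * c₀ ^ 2 * c₂ / 16)) * L := by
    have h46 := mul_le_mul_of_nonneg_left h43 hT0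
    have e5 : (T * (9 * c₀ ^ 2 * c₂ / 16)) * L =
        T * (L * (9 * c₀ ^ 2 * c₂)) / 16 := by ring
    rw [e5, le_div_iff₀ (by norm_num)]
    exact h46
  calc T ≤ (T * (9 * c₀ ^ 2 * c₂ / 16)) * L := h44
    _ ≤ X * L ^ (C₁ + k) / Y * L := mul_le_mul_of_nonneg_right h42 hL0.le
    _ = X * L ^ (C₁ + k + 1) / Y := by ring

end Pool.Agent.TLL
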