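import Pool.Agent.TLL.St

/-!
# TLL / Dif: the mean square of the differences as an integral
-/

set_option autoImplicit false

namespace Pool.Agent.TLL

open Finset Filter MeasureTheory
open Pool.Agent.GBQ (ee lam nd Admissible)
open Pool.Agent.MT (IsWt prim)
open Pool.Agent.AAN (SS)

private theorem dif_add (x y : ℝ) : ee (x + y) = ee x * ee y := by
  unfold ee
  rw [← Complex.exp_add]
  congr 1
  push_cast
  ring

private theorem dif_one (α : ℝ) (K a h : ℕ) (hK : a + h < K) :
    ∑ k ∈ range K, (((if k = a then (1 : ℝ) else 0) - (if k = a + h then (1 : ℝ) else 0) : ℝ) : ℂ) *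
      ee (α * k) = ee (α * a) * (1 - ee (α * h)) := by
  have h1 : ∀ k : ℕ, (((if k = a then (1 : ℝ) else 0) - (if k = a + h then (1 : ℝ) else 0) : ℝ) : ℂ) *
      ee (α * k) = (if k = a then ee (α * k) else 0) - (if k = a + h then ee (α * k) else 0) := by
    intro k
    split_ifs <;> simp
  rw [sum_congr rfl fun k _ => h1 k, sum_sub_distrib, sum_ite_eq' (range K) a,
    sum_ite_eq' (range K) (a + h), if_pos (mem_range.2 (by omega)), if_pos (mem_range.2 hK),
    mul_sub, mul_one, ← dif_add]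
  congr 2
  push_cast
  ring

theorem thm_Dif (h1 : St_Par) : St_Dif := by
  intro η hη X N m h QQ F hX hN hm hmX hh hQ hF
  have hN1 : N ≤ X + X / 4 := hN.le
  have hN2 : 4 * N ≤ 5 * X := by omega
  have hN3 : 5 * X ≤ 4 * N + 3 := by omega
  have hNpos : (0 : ℝ) < N := by
    have : 0 < N := by omega
    exact_mod_cast this
  have hhX : 8 * h ≤ X := by
    by_contra h0
    push Not at h0
    have h2 : h ^ 2 < 8 * h := lt_of_le_of_lt hh h0
    have h3 : h < 8 := by
      by_contra h4
      push Not at h4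
      have : 8 * h ≤ h ^ 2 := by nlinarith
      omega
    omega
  let I : Finset (ℕ × ℕ) := QQ ×ˢ range m
  let g : ℕ → ℝ := fun y => lam y * η ((y : ℝ) / N)
  let j : ℕ × ℕ → ℕ := fun z => m * z.1 + z.2
  let c : ℕ → ℝ := fun k => ∑ z ∈ I, ∑ y ∈ range (N + 1),
    g y * ((if k = j z + y then (1 : ℝ) else 0) - (if k = j z + y + h then (1 : ℝ) else 0))
  let K : ℕ := N + X + h + 1
  have hj : ∀ z ∈ I, 16 * j z < 3 * X := by
    intro z hz
    obtain ⟨h2, h3⟩ := mem_product.1 hz
    have h4 := hQ _ h2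
    have h5 := mem_range.1 h3
    show 16 * (m * z.1 + z.2) < 3 * X
    have h6 : 8 * m * z.1 = 8 * (m * z.1) := by ring
    omega
  have hg : ∀ y : ℕ, N ≤ 4 * y → 4 * y ≤ 3 * N → g y = lam y := by
    intro y hy1 hy2
    have h2 : η ((y : ℝ) / N) = 1 := by
      refine hη.one _ ?_ ?_
      · rw [le_div_iff₀ hNpos]
        have : (N : ℝ) ≤ 4 * y := by exact_mod_cast hy1
        linarith
      · rw [div_le_iff₀ hNpos]
        have : (4 : ℝ) * y ≤ 3 * N := by exact_mod_cast hy2
        linarith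
    show lam y * η ((y : ℝ) / N) = lam y
    rw [h2, mul_one]
  have key : ∀ α : ℝ, ∑ k ∈ range K, ((c k : ℝ) : ℂ) * ee (α * k) =
      (1 - ee (α * h)) * Wm QQ m α * La η N α := by
    intro α
    have e2 : Wm QQ m α = ∑ z ∈ I, ee (α * ((j z : ℕ) : ℝ)) := by
      unfold Wm
      rw [sum_product]
    have e3 : ∑ k ∈ range K, ((c k : ℝ) : ℂ) * ee (α * k) =
        ∑ z ∈ I, ∑ y ∈ range (N + 1), ((g y : ℝ) : ℂ) * ∑ k ∈ range K,
          (((if k = j z + y then (1 : ℝ) else 0) - (if k = j z + y + h then (1 : ℝ) else 0) : ℝ) : ℂ) *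
            ee (α * k) := by
      simp only [c, Complex.ofReal_sum, sum_mul]
      rw [sum_comm]
      refine sum_congr rfl fun z _ => ?_
      rw [sum_comm]
      refine sum_congr rfl fun y _ => ?_
      rw [mul_sum]
      refine sum_congr rfl fun k _ => ?_
      rw [Complex.ofReal_mul, mul_assoc]
    rw [e3, e2, mul_assoc, sum_mul, mul_sum]
    refine sum_congr rfl fun z hz => ?_
    unfold La
    rw [mul_sum, mul_sum]
    refine sum_congr rfl fun y hy => ?_
    have h2 := hj z hz
    have h3 := mem_range.1 hy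
    rw [dif_one α K (j z + y) h (by
      show j z + y + h < N + X + h + 1
      omega)]
    have h4 : α * ((j z + y : ℕ) : ℝ) = α * ((j z : ℕ) : ℝ) + α * y := by
      push_cast
      ring
    rw [h4, dif_add]
    ring
  have hS : ∀ n : ℕ, SS QQ m n = ∑ z ∈ I, lam (n - j z) := by
    intro n
    unfold SS
    rw [sum_product]
  have val : ∀ n ∈ F, c (n + h) = SS QQ m (n + h) - SS QQ m n := by
    intro n hn
    obtain ⟨hn1, hn2⟩ := hF n hn
    rw [hS, hS, ← sum_sub_distrib]
    refine sum_congr rfl fun z hz => ?_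
    have h2 := hj z hz
    have h3 : ∀ y : ℕ, g y * ((if n + h = j z + y then (1 : ℝ) else 0) -
        (if n + h = j z + y + h then (1 : ℝ) else 0)) =
        (if y = n + h - j z then g y else 0) - (if y = n - j z then g y else 0) := by
      intro y
      have h4 : (n + h = j z + y) ↔ y = n + h - j z := by omega
      have h5 : (n + h = j z + y + h) ↔ y = n - j z := by omega
      rw [mul_sub, mul_ite, mul_ite, mul_one, mul_zero]
      simp only [h4, h5]
    rw [sum_congr rfl fun y _ => h3 y, sum_sub_distrib, sum_ite_eq' (range (N + 1)),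
      sum_ite_eq' (range (N + 1)), if_pos (mem_range.2 (by omega)),
      if_pos (mem_range.2 (by omega)), hg _ (by omega) (by omega), hg _ (by omega) (by omega)]
  have hsub : F.image (fun n => n + h) ⊆ range K := by
    intro k hk
    obtain ⟨n, hn, rfl⟩ := mem_image.1 hk
    obtain ⟨hn1, hn2⟩ := hF n hn
    rw [mem_range]
    show n + h < N + X + h + 1
    omega
  calc ∑ n ∈ F, (SS QQ m (n + h) - SS QQ m n) ^ 2
      = ∑ n ∈ F, ‖((c (n + h) : ℝ) : ℂ)‖ ^ 2 := by
        refine sum_congr rfl fun n hn => ?_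
        rw [val n hn, Complex.norm_real, Real.norm_eq_abs, sq_abs]
    _ = ∑ k ∈ F.image (fun n => n + h), ‖((c k : ℝ) : ℂ)‖ ^ 2 := by
        rw [sum_image]
        intro a _ b _ hab
        exact Nat.add_right_cancel hab
    _ ≤ ∑ k ∈ range K, ‖((c k : ℝ) : ℂ)‖ ^ 2 :=
        sum_le_sum_of_subset_of_nonneg hsub fun _ _ _ => sq_nonneg _
    _ = ∫ α in (-(1 / 2) : ℝ)..(1 / 2), ‖∑ k ∈ range K, ((c k : ℝ) : ℂ) * ee (α * k)‖ ^ 2 :=
        (h1 (fun k => ((c k : ℝ) : ℂ)) K).symm
    _ = _ := by
        congr 1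
        funext α
        rw [key, norm_mul, norm_mul, mul_pow, mul_pow]

end Pool.Agent.TLL
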