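import Pool.Agent.TLL.St

/-!
# TLL, module Dir: Dirichlet approximation (helper60)
-/

set_option autoImplicit false

namespace Pool.Agent.TLL

open Finset

theorem thm_Dir : St_Dir := by
  intro x Y D α hx hY hD hα hDα hαY
  have hD0 : 0 < D := by linarith
  have hx0 : (0 : ℝ) < x := by exact_mod_cast hx
  have hn : 0 < ⌊D⌋₊ := Nat.floor_pos.2 (by linarith)
  obtain ⟨q, hq1, hq2⟩ := Real.exists_rat_abs_sub_le_and_den_le α hn
  have hn1 : D < (⌊D⌋₊ : ℝ) + 1 := Nat.lt_floor_add_one D
  have hk0 : 0 < q.den := q.den_pos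
  have hkR : (0 : ℝ) < q.den := by exact_mod_cast hk0
  have hkD : (q.den : ℝ) ≤ D := le_trans (by exact_mod_cast hq2) (Nat.floor_le hD0.le)
  have hqe : (q : ℝ) = (q.num : ℝ) / (q.den : ℝ) := Rat.cast_def q
  have hq3 : |α - (q.num : ℝ) / (q.den : ℝ)| < 1 / ((q.den : ℝ) * D) := by
    rw [← hqe]
    refine lt_of_le_of_lt hq1 ?_
    refine one_div_lt_one_div_of_lt (by positivity) ?_
    rw [mul_comm]
    exact mul_lt_mul_of_pos_right hn1 hkR
  have hcop : IsCoprime q.num (q.den : ℤ) := by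
    rw [Int.isCoprime_iff_gcd_eq_one]
    exact q.reduced
  have hD2 : 1 / D < 1 / 2 := one_div_lt_one_div_of_lt (by norm_num) hD
  have hk2 : 2 ≤ q.den := by
    by_contra hlt
    have hk1 : q.den = 1 := by omega
    rw [hk1] at hq3
    simp only [Nat.cast_one, div_one, one_mul] at hq3
    by_cases ha : q.num = 0
    · rw [ha] at hq3
      simp only [Int.cast_zero, sub_zero] at hq3
      linarith
    · have ha1 : (1 : ℝ) ≤ |(q.num : ℝ)| := by
        have := Int.one_le_abs ha
        exact_mod_cast this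
      have h1 : |(q.num : ℝ)| ≤ |α| + |α - q.num| := by
        have h2 := abs_sub_abs_le_abs_sub (q.num : ℝ) α
        rw [abs_sub_comm] at h2
        linarith
      linarith
  have ha0 : q.num ≠ 0 := by
    intro ha
    rw [ha] at hcop
    have h1 := Int.isUnit_iff.1 (isCoprime_zero_left.1 hcop)
    omega
  have ha1 : (1 : ℝ) ≤ |(q.num : ℝ)| := by
    have := Int.one_le_abs ha0
    exact_mod_cast this
  have h1 : |(q.num : ℝ)| / q.den = |(q.num : ℝ) / q.den| := by
    rw [abs_div, abs_of_pos hkR]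
  have h2 : |(q.num : ℝ)| / q.den ≤ |α| + |α - (q.num : ℝ) / q.den| := by
    rw [h1]
    have h3 := abs_sub_abs_le_abs_sub ((q.num : ℝ) / q.den) α
    rw [abs_sub_comm] at h3
    linarith
  have h4 : 1 / ((q.den : ℝ) * D) = (1 / D) / q.den := by field_simp
  rw [h4] at hq3
  have h5 : |(q.num : ℝ)| / q.den < |α| + (1 / D) / q.den := by linarith
  have h6 : |(q.num : ℝ)| < q.den * |α| + 1 / D := by
    rw [div_lt_iff₀ hkR] at h5
    have h7 : (|α| + (1 / D) / q.den) * q.den = q.den * |α| + 1 / D := by field_simp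
    linarith
  refine ⟨q.den, q.num, hk2, hkD, hcop, ?_, ?_, ?_⟩
  · rw [h4]
    exact hq3.le
  · have h8 : 1 / 2 < (q.den : ℝ) * |α| := by linarith
    have h9 : (q.den : ℝ) * |α| < q.den * (Y / x) := mul_lt_mul_of_pos_left hαY hkR
    have h10 : 1 / 2 < q.den * (Y / x) := lt_trans h8 h9
    have h11 : q.den * (Y / x) = q.den * Y / x := by ring
    rw [h11, div_lt_div_iff₀ (by norm_num) hx0] at h10
    linarith
  · have h9 : (q.den : ℝ) * |α| < q.den * (Y / x) := mul_lt_mul_of_pos_left hαY hkR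
    have h11 : q.den * (Y / x) = q.den * Y / x := by ring
    rw [h11] at h9
    linarith

end Pool.Agent.TLL
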