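import Pool.Agent.TLL.St
import Pool.Agent.MVII.Wc

/-!
# TLL, module Fmc (helper87): first moment over the denominators
-/

set_option autoImplicit false

namespace Pool.Agent.TLL

open Finset Filter
open Pool.Agent.GBQ (ee lam)
open Pool.Agent.MT (IsWt prim mem_prim)
open Pool.Agent.MVX (prm mem_prm)
open Pool.Agent.MVII (ud gs wc_ee_norm wc_ee_add wc_mem_ud wc_gs wc_mu wc_noncop wc_lam_nonneg)

/-! ### the function of Euler (as in GV/BV.lean) -/

private theorem fmc_prod (S : Finset ℕ) (hS : ∀ a ∈ S, 2 ≤ a) :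
    ∏ a ∈ S, ((a : ℝ) / ((a : ℝ) - 1)) ≤ (S.card : ℝ) + 1 := by
  classical
  induction S using Finset.induction_on_max with
  | empty => simp
  | insert a s hmax ih =>
    have ha : a ∉ s := fun h => lt_irrefl a (hmax a h)
    have ha2 : 2 ≤ a := hS a (mem_insert_self a s)
    have ih' := ih (fun b hb => hS b (mem_insert_of_mem hb))
    have hcard : s.card + 1 ≤ a - 1 := by
      have h1 : insert a s ⊆ Icc 2 a := by
        intro b hb
        rw [mem_Icc]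
        refine ⟨hS b hb, ?_⟩
        rcases mem_insert.mp hb with h | h
        · exact h.le
        · exact (hmax b h).le
      have h2 := card_le_card h1
      rw [card_insert_of_notMem ha, Nat.card_Icc] at h2
      omega
    have hc : ((s.card : ℝ) + 1) ≤ (a : ℝ) - 1 := by
      have h1 : ((s.card + 1 : ℕ) : ℝ) ≤ ((a - 1 : ℕ) : ℝ) := by exact_mod_cast hcard
      rw [Nat.cast_sub (by omega)] at h1
      push_cast at h1
      exact h1
    have hs0 : (0 : ℝ) ≤ s.card := Nat.cast_nonneg _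
    rw [prod_insert ha, card_insert_of_notMem ha]
    have h3 : (a : ℝ) / ((a : ℝ) - 1) ≤ ((s.card : ℝ) + 2) / ((s.card : ℝ) + 1) := by
      rw [div_le_div_iff₀ (by linarith) (by linarith)]
      nlinarith
    have h4 : 0 ≤ ∏ a ∈ s, ((a : ℝ) / ((a : ℝ) - 1)) := by
      apply prod_nonneg
      intro b hb
      have : (2 : ℝ) ≤ b := by exact_mod_cast hS b (mem_insert_of_mem hb)
      apply div_nonneg <;> linarith
    calc (a : ℝ) / ((a : ℝ) - 1) * ∏ a ∈ s, ((a : ℝ) / ((a : ℝ) - 1))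
        ≤ ((s.card : ℝ) + 2) / ((s.card : ℝ) + 1) * ((s.card : ℝ) + 1) := by
          apply mul_le_mul h3 ih' h4 (by positivity)
      _ = (s.card : ℝ) + 2 := by field_simp
      _ = _ := by push_cast; ring

private theorem fmc_omega (m : ℕ) (hm : 1 ≤ m) :
    (m.primeFactors.card : ℝ) ≤ Real.log m / Real.log 2 := by
  have h1 : 2 ^ m.primeFactors.card ≤ m := by
    calc 2 ^ m.primeFactors.card ≤ ∏ p ∈ m.primeFactors, p := by
          apply pow_card_le_prod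
          intro p hp
          exact (Nat.prime_of_mem_primeFactors hp).two_le
      _ ≤ m := Nat.le_of_dvd hm (Nat.prod_primeFactors_dvd m)
  have h2 : ((2 : ℝ)) ^ m.primeFactors.card ≤ m := by exact_mod_cast h1
  have h3 := Real.log_le_log (by positivity) h2
  rw [Real.log_pow] at h3
  rw [le_div_iff₀ (Real.log_pos (by norm_num))]
  exact h3

private theorem fmc_totient (m : ℕ) (hm : 1 ≤ m) :
    1 / (m.totient : ℝ) ≤ (1 + Real.log m / Real.log 2) / m := by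
  have hm0 : (0 : ℝ) < m := by exact_mod_cast hm
  have hφ : (0 : ℝ) < m.totient := by exact_mod_cast Nat.totient_pos.mpr hm
  have h1 : ((m.totient * ∏ p ∈ m.primeFactors, p : ℕ) : ℝ) =
      ((m * ∏ p ∈ m.primeFactors, (p - 1) : ℕ) : ℝ) := by
    rw [Nat.totient_mul_prod_primeFactors]
  push_cast at h1
  have hp2 : ∀ p ∈ m.primeFactors, 2 ≤ p := fun p hp => (Nat.prime_of_mem_primeFactors hp).two_le
  have h2 : ∏ p ∈ m.primeFactors, ((p - 1 : ℕ) : ℝ) = ∏ p ∈ m.primeFactors, ((p : ℝ) - 1) := by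
    refine prod_congr rfl fun p hp => ?_
    have := hp2 p hp
    rw [Nat.cast_sub (by omega)]; simp
  have hpos : 0 < ∏ p ∈ m.primeFactors, ((p : ℝ) - 1) := by
    apply prod_pos
    intro p hp
    have : (2 : ℝ) ≤ p := by exact_mod_cast hp2 p hp
    linarith
  have h3 : (m : ℝ) / m.totient = ∏ p ∈ m.primeFactors, ((p : ℝ) / ((p : ℝ) - 1)) := by
    rw [prod_div_distrib, div_eq_div_iff hφ.ne' hpos.ne', ← h2, ← h1]
    ring
  have h4 : (m : ℝ) / m.totient ≤ 1 + Real.log m / Real.log 2 := by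
    rw [h3]
    have := fmc_prod m.primeFactors hp2
    have h5 := fmc_omega m hm
    linarith
  rw [le_div_iff₀ hm0]
  calc 1 / (m.totient : ℝ) * m = (m : ℝ) / m.totient := by ring
    _ ≤ _ := h4

private theorem fmc_totient' (m N : ℕ) (hm : 1 ≤ m) (hmN : m ≤ N) (hL : 1 ≤ Real.log N) :
    1 / (m.totient : ℝ) ≤ 3 * Real.log N / m := by
  refine (fmc_totient m hm).trans ?_
  have hm0 : (0 : ℝ) < m := by exact_mod_cast hm
  apply div_le_div_of_nonneg_right _ hm0.le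
  have h1 : Real.log m ≤ Real.log N := Real.log_le_log hm0 (by exact_mod_cast hmN)
  have h2 : (0.69 : ℝ) < Real.log 2 := by
    have := Real.log_two_gt_d9; linarith
  have h3 : Real.log m / Real.log 2 ≤ 2 * Real.log N := by
    rw [div_le_iff₀ (by linarith)]
    nlinarith
  linarith

private theorem fmc_sum_inv (N : ℕ) (hL : 1 ≤ Real.log N) :
    ∑ m ∈ Icc 1 N, 1 / (m.totient : ℝ) ≤ 6 * Real.log N ^ 2 := by
  have h1 : ∑ m ∈ Icc 1 N, 1 / (m.totient : ℝ) ≤ ∑ m ∈ Icc 1 N, 3 * Real.log N * (1 / (m : ℝ)) := by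
    refine sum_le_sum fun m hm => ?_
    rw [mem_Icc] at hm
    refine (fmc_totient' m N hm.1 hm.2 hL).trans (le_of_eq (by ring))
  have h2 : ∑ m ∈ Icc 1 N, 1 / (m : ℝ) ≤ 1 + Real.log N := by
    have h3 := harmonic_le_one_add_log N
    rw [harmonic_eq_sum_Icc] at h3
    push_cast at h3
    simpa [one_div] using h3
  calc _ ≤ _ := h1
    _ = 3 * Real.log N * ∑ m ∈ Icc 1 N, 1 / (m : ℝ) := by rw [mul_sum]
    _ ≤ 3 * Real.log N * (1 + Real.log N) :=
        mul_le_mul_of_nonneg_left h2 (by linarith)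
    _ ≤ _ := by nlinarith

private theorem fmc_inner (N r : ℕ) (hr : 1 ≤ r) (hL : 1 ≤ Real.log N) (X : Finset ℕ)
    (hX : X ⊆ Icc 1 N) :
    ∑ q ∈ X.filter (fun q => r ∣ q), 1 / (q.totient : ℝ) ≤
      1 / (r.totient : ℝ) * (6 * Real.log N ^ 2) := by
  classical
  have hsub : X.filter (fun q => r ∣ q) ⊆ (Icc 1 N).image (fun m => r * m) := by
    intro q hq
    rw [mem_filter] at hq
    obtain ⟨hq1, m, rfl⟩ := hq
    have h1 := mem_Icc.mp (hX hq1)
    rw [mem_image]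
    refine ⟨m, ?_, rfl⟩
    rw [mem_Icc]
    constructor
    · rcases Nat.eq_zero_or_pos m with h | h
      · subst h; simp at h1
      · exact h
    · exact (Nat.le_mul_of_pos_left m hr).trans h1.2
  have h1 : ∑ q ∈ X.filter (fun q => r ∣ q), 1 / (q.totient : ℝ) ≤
      ∑ q ∈ (Icc 1 N).image (fun m => r * m), 1 / (q.totient : ℝ) :=
    sum_le_sum_of_subset_of_nonneg hsub (fun _ _ _ => by positivity)
  have hinj : Set.InjOn (fun m => r * m) (↑(Icc 1 N) : Set ℕ) := by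
    intro a _ b _ h
    exact Nat.eq_of_mul_eq_mul_left hr h
  rw [sum_image hinj] at h1
  refine h1.trans ?_
  have h2 : ∑ m ∈ Icc 1 N, 1 / ((r * m).totient : ℝ) ≤
      ∑ m ∈ Icc 1 N, 1 / (r.totient : ℝ) * (1 / (m.totient : ℝ)) := by
    refine sum_le_sum fun m hm => ?_
    rw [mem_Icc] at hm
    have hφr : (0 : ℝ) < r.totient := by exact_mod_cast Nat.totient_pos.mpr hr
    have hφm : (0 : ℝ) < m.totient := by exact_mod_cast Nat.totient_pos.mpr hm.1
    have h3 : (r.totient : ℝ) * m.totient ≤ ((r * m).totient : ℝ) := by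
      exact_mod_cast Nat.totient_super_multiplicative r m
    rw [one_div_mul_one_div]
    exact one_div_le_one_div_of_le (by positivity) h3
  refine h2.trans ?_
  rw [← mul_sum]
  exact mul_le_mul_of_nonneg_left (fmc_sum_inv N hL) (by positivity)

/-! ### characters -/

private theorem fmc_card_prm (r : ℕ) (hr : 1 ≤ r) : ((prm r).card : ℝ) ≤ r := by
  classical
  have : NeZero r := ⟨by omega⟩
  have h1 : (prm r).card ≤ Fintype.card (DirichletCharacter ℂ r) := card_le_univ _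
  have h2 := DirichletCharacter.card_eq_totient_of_hasEnoughRootsOfUnity ℂ r
  rw [Nat.card_eq_fintype_card] at h2
  rw [h2] at h1
  exact_mod_cast h1.trans (Nat.totient_le r)

private theorem fmc_prm_eq (r : ℕ) (hr : 2 ≤ r) : prm r = prim r := by
  have : NeZero r := ⟨by omega⟩
  ext χ
  rw [mem_prm, mem_prim]
  constructor
  · intro h
    refine ⟨h, ?_⟩
    rintro rfl
    have h1 : DirichletCharacter.conductor (1 : DirichletCharacter ℂ r) = r := h
    rw [DirichletCharacter.conductor_one] at h1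
    omega
  · exact fun h => h.1

/-- the expansion of `ee(a y/k)` in characters -/
private noncomputable def fmc_B (k : ℕ) (c : ℤ) (y : ℕ) : ℂ :=
  ∑ r ∈ ud k k, ((ArithmeticFunction.moebius (k / r) : ℂ) / (k.totient : ℂ)) *
    ∑ χ ∈ prm r, ((r : ℂ) / gs ⟨r, χ⟩) * (starRingEnd ℂ) (χ ((k / r : ℕ) : ZMod r)) *
      χ (c : ZMod r) * χ (y : ZMod r)

private theorem fmc_B_eq (hGi : MVII.St_Gi) (k : ℕ) (a : ℤ) (y : ℕ) (hk : 1 ≤ k)
    (ha : IsCoprime a (k : ℤ)) (hy : y.Coprime k) :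
    fmc_B k (-a) y = ee ((a : ℝ) * y / k) := by
  have h1 : IsCoprime (-a * (y : ℤ)) (k : ℤ) :=
    IsCoprime.mul_left ha.neg_left (Nat.isCoprime_iff_coprime.2 hy)
  have h2 := hGi k (-a * (y : ℤ)) hk h1
  have h3 : ee (-(((-a * (y : ℤ) : ℤ)) : ℝ) / k) = ee ((a : ℝ) * y / k) := by
    congr 1
    push_cast
    ring
  rw [← h3, ← h2]
  unfold fmc_B
  refine Finset.sum_congr rfl fun r _ => ?_
  congr 1
  refine Finset.sum_congr rfl fun χ _ => ?_
  rw [mul_assoc _ (χ ((-a : ℤ) : ZMod r)), ← map_mul]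
  push_cast
  rfl

private theorem fmc_term (hGa : MVII.St_Ga) {r : ℕ} (hr : 1 ≤ r) {χ : DirichletCharacter ℂ r}
    (hχ : χ ∈ prm r) (k : ℕ) (c : ℤ) :
    ‖((r : ℂ) / gs ⟨r, χ⟩) * (starRingEnd ℂ) (χ ((k : ℕ) : ZMod r)) *
      χ (c : ZMod r)‖ ≤ Real.sqrt r := by
  rw [norm_mul, norm_mul, wc_gs hGa hr hχ]
  have h3 : ‖(starRingEnd ℂ) (χ ((k : ℕ) : ZMod r))‖ ≤ 1 := by
    rw [RCLike.norm_conj]
    exact χ.norm_le_one _
  have h4 : ‖χ (c : ZMod r)‖ ≤ 1 := χ.norm_le_one _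
  calc Real.sqrt r * ‖(starRingEnd ℂ) (χ ((k : ℕ) : ZMod r))‖ * ‖χ (c : ZMod r)‖
      ≤ Real.sqrt r * 1 * 1 := by gcongr
    _ = Real.sqrt r := by ring

private theorem fmc_B_bd (hGa : MVII.St_Ga) (k N : ℕ) (c : ℤ) (y : ℕ) (hk : 1 ≤ k) (hkN : k ≤ N)
    (hL : 1 ≤ Real.log N) :
    ‖fmc_B k c y‖ ≤ 3 * Real.log N * (k * Real.sqrt k) := by
  have hk0 : (0 : ℝ) < k := by exact_mod_cast hk
  have hcard : ((ud k k).card : ℝ) ≤ k := by
    have h3 : ud k k ⊆ Icc 1 k := fun r hr => by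
      have := wc_mem_ud hr
      exact Finset.mem_Icc.mpr ⟨this.1, this.2.2.1⟩
    have h5 := Finset.card_le_card h3
    rw [Nat.card_Icc, Nat.add_sub_cancel] at h5
    exact_mod_cast h5
  have hφ := fmc_totient' k N hk hkN hL
  have hone : ∀ r ∈ ud k k, ‖((ArithmeticFunction.moebius (k / r) : ℂ) / (k.totient : ℂ)) *
      ∑ χ ∈ prm r, ((r : ℂ) / gs ⟨r, χ⟩) * (starRingEnd ℂ) (χ ((k / r : ℕ) : ZMod r)) *
        χ (c : ZMod r) * χ (y : ZMod r)‖ ≤ (3 * Real.log N / k) * (k * Real.sqrt k) := by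
    intro r hr
    have hr' := wc_mem_ud hr
    have hrk : (r : ℝ) ≤ k := by exact_mod_cast hr'.2.2.1
    rw [norm_mul]
    refine mul_le_mul ((wc_mu _ _).trans hφ) ?_ (norm_nonneg _) (by positivity)
    calc _ ≤ ∑ χ ∈ prm r, Real.sqrt k := by
          refine (norm_sum_le _ _).trans (Finset.sum_le_sum fun χ hχ => ?_)
          rw [norm_mul]
          have h7 := (fmc_term hGa hr'.1 hχ (k / r) c).trans (Real.sqrt_le_sqrt hrk)
          have h8 : ‖χ (y : ZMod r)‖ ≤ 1 := χ.norm_le_one _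
          calc _ ≤ Real.sqrt k * 1 := mul_le_mul h7 h8 (norm_nonneg _) (Real.sqrt_nonneg _)
            _ = Real.sqrt k := mul_one _
      _ = ((prm r).card : ℝ) * Real.sqrt k := by rw [Finset.sum_const, nsmul_eq_mul]
      _ ≤ (k : ℝ) * Real.sqrt k :=
          mul_le_mul_of_nonneg_right ((fmc_card_prm r hr'.1).trans hrk) (Real.sqrt_nonneg _)
  unfold fmc_B
  calc _ ≤ ∑ r ∈ ud k k, (3 * Real.log N / k) * (k * Real.sqrt k) :=
        (norm_sum_le _ _).trans (Finset.sum_le_sum hone)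
    _ = ((ud k k).card : ℝ) * ((3 * Real.log N / k) * (k * Real.sqrt k)) := by
        rw [Finset.sum_const, nsmul_eq_mul]
    _ ≤ (k : ℝ) * ((3 * Real.log N / k) * (k * Real.sqrt k)) :=
        mul_le_mul_of_nonneg_right hcard (by positivity)
    _ = 3 * Real.log N * (k * Real.sqrt k) := by field_simp

/-! ### one fraction -/

private theorem fmc_La (η : ℝ → ℝ) (N k : ℕ) (a : ℤ) (t : ℝ) (hN : 1 ≤ N) :
    La η N ((a : ℝ) / k + t) = ∑ y ∈ range (N + 1), (((lam y : ℝ) : ℂ) *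
      ((((η ((y : ℝ) / N)) : ℝ) : ℂ) * ee (t * N * ((y : ℝ) / N)))) * ee ((a : ℝ) * y / k) := by
  have hN0 : (N : ℝ) ≠ 0 := by
    have : (0 : ℝ) < N := by exact_mod_cast hN
    exact this.ne'
  unfold La
  refine Finset.sum_congr rfl fun y _ => ?_
  have h1 : ee (((a : ℝ) / k + t) * y) = ee (t * N * ((y : ℝ) / N)) * ee ((a : ℝ) * y / k) := by
    rw [← wc_ee_add]
    congr 1
    field_simp
    ring
  rw [h1]
  push_cast
  ring

/-- the numbers which are not coprime to `k` -/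
private theorem fmc_noncop (N k : ℕ) (hN : 1 ≤ N) (hk : 1 ≤ k) :
    ∑ y ∈ (range (N + 1)).filter (fun y => ¬ y.Coprime k), lam y ≤ (k : ℝ) * Real.log N := by
  refine le_trans ?_ (wc_noncop 0 N k hk hN)
  have h1 : (range (N + 1)).filter (fun y => ¬ y.Coprime k) ⊆
      insert 0 ((Ioc 0 N).filter (fun y => ¬ y.Coprime k)) := by
    intro y hy
    rw [mem_filter, mem_range] at hy
    rw [mem_insert, mem_filter, mem_Ioc]
    rcases Nat.eq_zero_or_pos y with h | h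
    · exact Or.inl h
    · exact Or.inr ⟨⟨h, by omega⟩, hy.2⟩
  have h2 : ∑ y ∈ insert 0 ((Ioc 0 N).filter (fun y => ¬ y.Coprime k)), lam y =
      ∑ y ∈ (Ioc 0 N).filter (fun y => ¬ y.Coprime k), lam y := by
    refine Finset.sum_insert_of_eq_zero_if_notMem fun _ => ?_
    unfold lam
    simp
  rw [← h2]
  exact Finset.sum_le_sum_of_subset_of_nonneg h1 fun y _ _ => wc_lam_nonneg y

private theorem fmc_point (hGa : MVII.St_Ga) (hGi : MVII.St_Gi) (η : ℝ → ℝ) (w : ℝ → ℂ) (N k : ℕ)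
    (a : ℤ) (t : ℝ) (hN : 1 ≤ N) (hL : 1 ≤ Real.log N) (hk : 1 ≤ k) (hkN : k ≤ N)
    (ha : IsCoprime a (k : ℤ)) (hw : ∀ x : ℝ, w x = ((η x : ℝ) : ℂ) * ee (t * N * x))
    (hw1 : ∀ x, ‖w x‖ ≤ 1) :
    ‖La η N ((a : ℝ) / k + t)‖ ≤ 4 * Real.log N ^ 2 * ((k : ℝ) ^ 2 * Real.sqrt k) +
      1 / (k.totient : ℝ) * ∑ r ∈ k.divisors, Real.sqrt r * ∑ χ ∈ prm r, ‖psiG w N χ‖ := by
  have hk0 : (1 : ℝ) ≤ k := by exact_mod_cast hk
  have hsk : 1 ≤ Real.sqrt k := by
    rw [Real.one_le_sqrt]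
    exact hk0
  set L := Real.log N with hLd
  have e1 : La η N ((a : ℝ) / k + t) =
      ∑ y ∈ range (N + 1), (((lam y : ℝ) : ℂ) * w ((y : ℝ) / N)) * fmc_B k (-a) y +
      ∑ y ∈ range (N + 1), (((lam y : ℝ) : ℂ) * w ((y : ℝ) / N)) *
        (ee ((a : ℝ) * y / k) - fmc_B k (-a) y) := by
    rw [fmc_La η N k a t hN, ← Finset.sum_add_distrib]
    refine Finset.sum_congr rfl fun y _ => ?_
    rw [hw]
    ring
  have e2 : ∑ y ∈ range (N + 1), (((lam y : ℝ) : ℂ) * w ((y : ℝ) / N)) * fmc_B k (-a) y =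
      ∑ r ∈ ud k k, ((ArithmeticFunction.moebius (k / r) : ℂ) / (k.totient : ℂ)) *
        ∑ χ ∈ prm r, ((r : ℂ) / gs ⟨r, χ⟩) * (starRingEnd ℂ) (χ ((k / r : ℕ) : ZMod r)) *
          χ ((-a : ℤ) : ZMod r) * psiG w N χ := by
    unfold fmc_B
    simp_rw [Finset.mul_sum]
    rw [Finset.sum_comm]
    refine Finset.sum_congr rfl fun r _ => ?_
    rw [Finset.sum_comm]
    refine Finset.sum_congr rfl fun χ _ => ?_
    unfold psiG
    rw [Finset.mul_sum, Finset.mul_sum]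
    refine Finset.sum_congr rfl fun y _ => ?_
    unfold lam
    ring
  have e3 : ‖∑ y ∈ range (N + 1), (((lam y : ℝ) : ℂ) * w ((y : ℝ) / N)) * fmc_B k (-a) y‖ ≤
      1 / (k.totient : ℝ) * ∑ r ∈ k.divisors, Real.sqrt r * ∑ χ ∈ prm r, ‖psiG w N χ‖ := by
    rw [e2, Finset.mul_sum]
    have hsub : ud k k ⊆ k.divisors := by
      unfold ud
      exact Finset.filter_subset _ _
    refine (norm_sum_le _ _).trans (le_trans (Finset.sum_le_sum fun r hr => ?_)
      (Finset.sum_le_sum_of_subset_of_nonneg hsub fun r _ _ => by positivity))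
    have hr' := wc_mem_ud hr
    rw [norm_mul]
    refine mul_le_mul (wc_mu _ _) ?_ (norm_nonneg _) (by positivity)
    rw [Finset.mul_sum]
    refine (norm_sum_le _ _).trans (Finset.sum_le_sum fun χ hχ => ?_)
    rw [norm_mul]
    exact mul_le_mul_of_nonneg_right (fmc_term hGa hr'.1 hχ _ _) (norm_nonneg _)
  have e4 : ‖∑ y ∈ range (N + 1), (((lam y : ℝ) : ℂ) * w ((y : ℝ) / N)) *
        (ee ((a : ℝ) * y / k) - fmc_B k (-a) y)‖ ≤ 4 * L ^ 2 * ((k : ℝ) ^ 2 * Real.sqrt k) := by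
    have h1 : ∀ y ∈ range (N + 1), ‖(((lam y : ℝ) : ℂ) * w ((y : ℝ) / N)) *
        (ee ((a : ℝ) * y / k) - fmc_B k (-a) y)‖ ≤
        if ¬ y.Coprime k then lam y * (1 + 3 * L * (k * Real.sqrt k)) else 0 := by
      intro y _
      by_cases hy : y.Coprime k
      · rw [if_neg (not_not.mpr hy), fmc_B_eq hGi k a y hk ha hy, sub_self, mul_zero, norm_zero]
      · rw [if_pos hy, norm_mul, norm_mul, Complex.norm_real,
          Real.norm_of_nonneg (wc_lam_nonneg y)]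
        have h2 : ‖ee ((a : ℝ) * y / k) - fmc_B k (-a) y‖ ≤ 1 + 3 * L * (k * Real.sqrt k) := by
          refine (norm_sub_le _ _).trans ?_
          rw [wc_ee_norm]
          exact add_le_add le_rfl (fmc_B_bd hGa k N (-a) y hk hkN hL)
        have h3 : lam y * ‖w ((y : ℝ) / N)‖ ≤ lam y :=
          mul_le_of_le_one_right (wc_lam_nonneg y) (hw1 _)
        exact mul_le_mul h3 h2 (norm_nonneg _) (wc_lam_nonneg y)
    refine (norm_sum_le _ _).trans ((Finset.sum_le_sum h1).trans ?_)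
    rw [← Finset.sum_filter, ← Finset.sum_mul]
    have h4 := fmc_noncop N k hN hk
    have h5 : (0 : ℝ) ≤ 1 + 3 * L * (k * Real.sqrt k) := by positivity
    refine (mul_le_mul_of_nonneg_right h4 h5).trans ?_
    rw [← hLd]
    have h6 : (1 : ℝ) ≤ L * (k * Real.sqrt k) := by
      have h7 : (1 : ℝ) ≤ k * Real.sqrt k := by nlinarith
      nlinarith
    calc (k : ℝ) * L * (1 + 3 * L * (k * Real.sqrt k))
        ≤ (k : ℝ) * L * (L * (k * Real.sqrt k) + 3 * L * (k * Real.sqrt k)) := by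
          refine mul_le_mul_of_nonneg_left ?_ (by positivity)
          linarith
      _ = 4 * L ^ 2 * ((k : ℝ) ^ 2 * Real.sqrt k) := by ring
  rw [e1]
  refine (norm_add_le _ _).trans ?_
  rw [add_comm]
  exact add_le_add e4 e3

private theorem fmc_sq {x y : ℝ} (h : x ^ 2 ≤ y ^ 2) (hy : 0 ≤ y) : x ≤ y :=
  (abs_le_of_sq_le_sq' h hy).2

/-! ### dyadic blocks -/

private theorem fmc_block (C : ℕ) (w : ℝ → ℂ) (V : ℝ) (N K R : ℕ) (q : ℝ) (hq1 : 1 ≤ q)
    (hqK : q ^ 4 = K) (hqN : q ^ 13 ≤ N) (hL : 1 ≤ Real.log N) (hV : 0 ≤ V) (hR : 1 ≤ R)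
    (hRK : R ≤ K) (hKN : K ≤ N)
    (hlc : ∀ U : ℕ, 1 ≤ U → U ≤ N → ∑ r ∈ Ioc R (2 * R), ∑ χ ∈ prim r, ‖psiG w N χ‖ ≤
      C * V * Real.log N ^ C *
        (N + R * N / Real.sqrt U + (R : ℝ) ^ 2 * Real.sqrt N + (R : ℝ) ^ 3 * (U : ℝ) ^ 2)) :
    1 / Real.sqrt R * ∑ r ∈ Ioc R (2 * R), ∑ χ ∈ prim r, ‖psiG w N χ‖ ≤
      7 * C * V * Real.log N ^ C * (q * N) := by
  have hR1 : (1 : ℝ) ≤ R := by exact_mod_cast hR
  have hRq : (R : ℝ) ≤ q ^ 4 := by
    rw [hqK]
    exact_mod_cast hRK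
  have hN0 : (0 : ℝ) ≤ N := Nat.cast_nonneg _
  obtain ⟨s, hs⟩ : ∃ s, s = Real.sqrt (R : ℝ) := ⟨_, rfl⟩
  obtain ⟨n, hn⟩ : ∃ n, n = Real.sqrt (N : ℝ) := ⟨_, rfl⟩
  have hs2 : s ^ 2 = R := by rw [hs, Real.sq_sqrt (by linarith)]
  have hs1 : 1 ≤ s := by
    rw [hs, Real.one_le_sqrt]
    exact hR1
  have hn2 : n ^ 2 = N := by rw [hn, Real.sq_sqrt hN0]
  have hn0 : 0 ≤ n := by rw [hn]; exact Real.sqrt_nonneg _
  have hq0 : 0 < q := by linarith
  have hs0 : 0 < s := by linarith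
  have hsq : s ≤ q ^ 2 := by
    have h1 : s ^ 2 ≤ (q ^ 2) ^ 2 := by
      rw [hs2]
      calc (R : ℝ) ≤ q ^ 4 := hRq
        _ = (q ^ 2) ^ 2 := by ring
    exact fmc_sq h1 (by positivity)
  have hqn : q ^ 5 ≤ n := by
    have h1 : (q ^ 5) ^ 2 ≤ n ^ 2 := by
      rw [hn2]
      calc (q ^ 5) ^ 2 = q ^ 10 := by ring
        _ ≤ q ^ 13 := pow_le_pow_right₀ hq1 (by norm_num)
        _ ≤ N := hqN
    exact fmc_sq h1 hn0
  obtain ⟨U, hU⟩ : ∃ U, U = ⌈s⌉₊ := ⟨_, rfl⟩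
  have hU1 : s ≤ U := by rw [hU]; exact Nat.le_ceil _
  have hU2 : (U : ℝ) ≤ 2 * s := by
    rw [hU]
    have := Nat.ceil_lt_add_one hs0.le
    linarith
  have hU3 : 1 ≤ U := by
    rw [hU]
    exact Nat.one_le_ceil_iff.2 hs0
  have hU4 : U ≤ N := by
    refine le_trans ?_ (hRK.trans hKN)
    rw [hU]
    refine Nat.ceil_le.2 ?_
    rw [← hs2]
    nlinarith
  have hlc' := hlc U hU3 hU4
  obtain ⟨u, hu⟩ : ∃ u, u = Real.sqrt (U : ℝ) := ⟨_, rfl⟩
  have hu2 : u ^ 2 = U := by rw [hu, Real.sq_sqrt (Nat.cast_nonneg _)]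
  have hu0 : 0 < u := by
    rw [hu]
    exact Real.sqrt_pos.2 (by linarith)
  rw [← hu, ← hn] at hlc'
  rw [← hs]
  have t1 : 1 / s * N ≤ q * N := by
    have h1 : 1 / s ≤ q := by
      rw [div_le_iff₀ hs0]
      nlinarith
    exact mul_le_mul_of_nonneg_right h1 hN0
  have hsu : s ≤ q * u := by
    have h1 : s ^ 2 ≤ (q * u) ^ 2 := by
      calc s ^ 2 = s * s := by ring
        _ ≤ q ^ 2 * U := mul_le_mul hsq hU1 hs0.le (by positivity)
        _ = (q * u) ^ 2 := by rw [mul_pow, hu2]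
    exact fmc_sq h1 (by positivity)
  have t2 : 1 / s * (R * N / u) ≤ q * N := by
    have h1 : 1 / s * (R * N / u) = s / u * N := by
      rw [← hs2]
      field_simp
    rw [h1]
    refine mul_le_mul_of_nonneg_right ?_ hN0
    rw [div_le_iff₀ hu0]
    exact hsu
  have t3 : 1 / s * ((R : ℝ) ^ 2 * n) ≤ q * N := by
    have h1 : 1 / s * ((R : ℝ) ^ 2 * n) = s ^ 3 * n := by
      rw [← hs2]
      field_simp
    rw [h1]
    calc s ^ 3 * n ≤ (q ^ 2) ^ 3 * n :=
          mul_le_mul_of_nonneg_right (pow_le_pow_left₀ hs0.le hsq 3) hn0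
      _ = q * (q ^ 5 * n) := by ring
      _ ≤ q * (n * n) := by
          refine mul_le_mul_of_nonneg_left ?_ hq0.le
          exact mul_le_mul_of_nonneg_right hqn hn0
      _ = q * N := by rw [← hn2]; ring
  have t4 : 1 / s * ((R : ℝ) ^ 3 * (U : ℝ) ^ 2) ≤ 4 * (q * N) := by
    have h1 : 1 / s * ((R : ℝ) ^ 3 * (U : ℝ) ^ 2) = s ^ 5 * (U : ℝ) ^ 2 := by
      rw [← hs2]
      field_simp
    rw [h1]
    calc s ^ 5 * (U : ℝ) ^ 2 ≤ s ^ 5 * (2 * s) ^ 2 := by
          refine mul_le_mul_of_nonneg_left ?_ (by positivity)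
          exact pow_le_pow_left₀ (Nat.cast_nonneg _) hU2 2
      _ = 4 * s ^ 7 := by ring
      _ ≤ 4 * (q ^ 2) ^ 7 := by
          refine mul_le_mul_of_nonneg_left ?_ (by norm_num)
          exact pow_le_pow_left₀ hs0.le hsq 7
      _ = 4 * (q * q ^ 13) := by ring
      _ ≤ 4 * (q * N) := by
          refine mul_le_mul_of_nonneg_left ?_ (by norm_num)
          exact mul_le_mul_of_nonneg_left hqN hq0.le
  have hCV : 0 ≤ C * V * Real.log N ^ C := by positivity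
  calc 1 / s * ∑ r ∈ Ioc R (2 * R), ∑ χ ∈ prim r, ‖psiG w N χ‖
      ≤ 1 / s * (C * V * Real.log N ^ C *
        (N + R * N / u + (R : ℝ) ^ 2 * n + (R : ℝ) ^ 3 * (U : ℝ) ^ 2)) :=
        mul_le_mul_of_nonneg_left hlc' (by positivity)
    _ = C * V * Real.log N ^ C * (1 / s * N + 1 / s * (R * N / u) + 1 / s * ((R : ℝ) ^ 2 * n) +
        1 / s * ((R : ℝ) ^ 3 * (U : ℝ) ^ 2)) := by ring
    _ ≤ C * V * Real.log N ^ C * (q * N + q * N + q * N + 4 * (q * N)) :=
        mul_le_mul_of_nonneg_left (by linarith) hCV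
    _ = 7 * C * V * Real.log N ^ C * (q * N) := by ring

private theorem fmc_dy (C : ℕ) (w : ℝ → ℂ) (V : ℝ) (N K : ℕ) (q : ℝ) (hN : 1 ≤ N) (hq1 : 1 ≤ q)
    (hqK : q ^ 4 = K) (hqN : q ^ 13 ≤ N) (hL : 1 ≤ Real.log N) (hV : 0 ≤ V) (hKN : K ≤ N)
    (hlc : ∀ R U : ℕ, 1 ≤ R → 1 ≤ U → U ≤ N →
      ∑ r ∈ Ioc R (2 * R), ∑ χ ∈ prim r, ‖psiG w N χ‖ ≤ C * V * Real.log N ^ C *
        (N + R * N / Real.sqrt U + (R : ℝ) ^ 2 * Real.sqrt N + (R : ℝ) ^ 3 * (U : ℝ) ^ 2)) :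
    ∑ r ∈ Icc 2 K, 1 / Real.sqrt r * ∑ χ ∈ prim r, ‖psiG w N χ‖ ≤
      21 * C * V * Real.log N ^ (C + 1) * (q * N) := by
  classical
  set I := range (Nat.log 2 N + 1) with hI
  have hmaps : ∀ r ∈ Icc 2 K, Nat.log 2 (r - 1) ∈ I := by
    intro r hr
    rw [mem_Icc] at hr
    rw [hI, mem_range]
    have : Nat.log 2 (r - 1) ≤ Nat.log 2 N := Nat.log_mono_right (by omega)
    omega
  rw [← sum_fiberwise_of_maps_to hmaps]
  have hblock : ∀ i ∈ I, ∑ r ∈ (Icc 2 K).filter (fun r => Nat.log 2 (r - 1) = i),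
      1 / Real.sqrt r * ∑ χ ∈ prim r, ‖psiG w N χ‖ ≤ 7 * C * V * Real.log N ^ C * (q * N) := by
    intro i _
    set Z := (Icc 2 K).filter (fun r => Nat.log 2 (r - 1) = i) with hZ
    rcases Z.eq_empty_or_nonempty with he | ⟨r0, hr0⟩
    · rw [he, sum_empty]; positivity
    have hmem : ∀ r ∈ Z, r ≤ K ∧ 2 ^ i < r ∧ r ≤ 2 * 2 ^ i := by
      intro r hr
      rw [hZ, mem_filter, mem_Icc] at hr
      obtain ⟨⟨h2, hN'⟩, hlog⟩ := hr
      rw [Nat.log_eq_iff (Or.inr ⟨by norm_num, by omega⟩)] at hlog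
      obtain ⟨hl1, hl2⟩ := hlog
      refine ⟨hN', by omega, ?_⟩
      rw [pow_succ] at hl2
      omega
    obtain ⟨R, hR⟩ : ∃ R, R = 2 ^ i := ⟨_, rfl⟩
    rw [← hR] at hmem
    have hR1 : 1 ≤ R := by rw [hR]; exact Nat.one_le_two_pow
    have hRK : R ≤ K := by
      obtain ⟨h1, h2, -⟩ := hmem r0 hr0
      omega
    have hb := fmc_block C w V N K R q hq1 hqK hqN hL hV hR1 hRK hKN (fun U => hlc R U hR1)
    refine le_trans ?_ hb
    rw [mul_sum]
    have hsub : Z ⊆ Ioc R (2 * R) := by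
      intro r hr
      obtain ⟨-, h5, h6⟩ := hmem r hr
      rw [mem_Ioc]
      exact ⟨h5, h6⟩
    refine le_trans (sum_le_sum fun r hr => ?_)
      (sum_le_sum_of_subset_of_nonneg hsub fun r _ _ => by positivity)
    refine mul_le_mul_of_nonneg_right ?_ (by positivity)
    have hRr : (R : ℝ) ≤ r := by exact_mod_cast (hmem r hr).2.1.le
    have hR0 : (0 : ℝ) < R := by exact_mod_cast hR1
    exact one_div_le_one_div_of_le (Real.sqrt_pos.2 hR0) (Real.sqrt_le_sqrt hRr)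
  refine (sum_le_sum hblock).trans ?_
  rw [sum_const, nsmul_eq_mul, hI, card_range]
  have hlog : ((Nat.log 2 N + 1 : ℕ) : ℝ) ≤ 3 * Real.log N := by
    have h1 : (2 : ℝ) ^ (Nat.log 2 N) ≤ N := by
      exact_mod_cast Nat.pow_log_le_self 2 (by omega)
    have h2 := Real.log_le_log (by positivity) h1
    rw [Real.log_pow] at h2
    have h3 : (0.69 : ℝ) < Real.log 2 := by
      have := Real.log_two_gt_d9; linarith
    have h4 : (Nat.log 2 N : ℝ) ≤ 2 * Real.log N := by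
      have h5 : (Nat.log 2 N : ℝ) * 0.69 ≤ (Nat.log 2 N : ℝ) * Real.log 2 :=
        mul_le_mul_of_nonneg_left h3.le (Nat.cast_nonneg _)
      linarith
    push_cast
    linarith
  calc ((Nat.log 2 N + 1 : ℕ) : ℝ) * (7 * C * V * Real.log N ^ C * (q * N))
      ≤ 3 * Real.log N * (7 * C * V * Real.log N ^ C * (q * N)) :=
        mul_le_mul_of_nonneg_right hlog (by positivity)
    _ = 21 * C * V * Real.log N ^ (C + 1) * (q * N) := by ring

/-- the principal character -/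
private theorem fmc_one (w : ℝ → ℂ) (N : ℕ) (hw1 : ∀ x, ‖w x‖ ≤ 1) (r : ℕ)
    (χ : DirichletCharacter ℂ r) : ‖psiG w N χ‖ ≤ N * Real.log N := by
  unfold psiG
  refine (norm_sum_le _ _).trans ?_
  have h1 : ∀ n ∈ range (N + 1), ‖(((ArithmeticFunction.vonMangoldt n : ℝ) : ℂ) * χ (n : ZMod r)) *
      w ((n : ℝ) / N)‖ ≤ ArithmeticFunction.vonMangoldt n := by
    intro n _
    have h0 : 0 ≤ ArithmeticFunction.vonMangoldt n := ArithmeticFunction.vonMangoldt_nonneg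
    rw [norm_mul, norm_mul, Complex.norm_real, Real.norm_of_nonneg h0, mul_assoc]
    refine mul_le_of_le_one_right h0 ?_
    exact mul_le_one₀ (χ.norm_le_one _) (norm_nonneg _) (hw1 _)
  refine (sum_le_sum h1).trans ?_
  rw [sum_range_succ']
  have h2 : ∀ n ∈ range N, ArithmeticFunction.vonMangoldt (n + 1) ≤ Real.log N := by
    intro n hn
    rw [mem_range] at hn
    refine ArithmeticFunction.vonMangoldt_le_log.trans ?_
    refine Real.log_le_log (by positivity) ?_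
    exact_mod_cast hn
  have h3 := sum_le_sum h2
  rw [sum_const, card_range, nsmul_eq_mul] at h3
  simpa using h3

theorem thm_Fmc (h1 : St_Sep) (h2 : St_Lcw) (h3 : MVII.St_Ga) (h4 : MVII.St_Gi) : St_Fmc := by
  classical
  intro η hη
  obtain ⟨C₀, hC₀, hsep⟩ := h1 η hη
  obtain ⟨C, hC⟩ := h2
  obtain ⟨C₁, hC₁⟩ : ∃ C₁ : ℕ, (22 + 378 * (C : ℝ)) * C₀ ≤ C₁ := exists_nat_ge _
  refine ⟨C₁ + C + 4, ?_⟩
  intro N K a t hN hK hKN
  have hN1 : 1 ≤ N := by omega
  have hN1' : (1 : ℝ) ≤ N := by exact_mod_cast hN1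
  have hN0 : (0 : ℝ) < N := by linarith
  have hK1 : (1 : ℝ) ≤ K := by exact_mod_cast hK
  have hL : 1 ≤ Real.log N := by
    rw [Real.le_log_iff_exp_le hN0]
    have h5 : (3 : ℝ) ≤ N := by exact_mod_cast hN
    have := Real.exp_one_lt_d9
    linarith
  have hKN' : K ≤ N := by
    have h5 : (N : ℝ) ^ (3 / 10 : ℝ) ≤ (N : ℝ) ^ (1 : ℝ) :=
      Real.rpow_le_rpow_of_exponent_le hN1' (by norm_num)
    rw [Real.rpow_one] at h5
    exact_mod_cast hKN.trans h5
  obtain ⟨q, hq⟩ : ∃ q : ℝ, q = (K : ℝ) ^ (1 / 4 : ℝ) := ⟨_, rfl⟩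
  have hq1 : 1 ≤ q := by rw [hq]; exact Real.one_le_rpow hK1 (by norm_num)
  have hqK : q ^ 4 = K := by
    rw [hq, ← Real.rpow_natCast, ← Real.rpow_mul (by linarith)]
    norm_num
  have hqN : q ^ 13 ≤ N := by
    have h5 : q ^ 13 = (K : ℝ) ^ (13 / 4 : ℝ) := by
      rw [hq, ← Real.rpow_natCast, ← Real.rpow_mul (by linarith)]
      norm_num
    rw [h5]
    calc (K : ℝ) ^ (13 / 4 : ℝ) ≤ ((N : ℝ) ^ (3 / 10 : ℝ)) ^ (13 / 4 : ℝ) :=
          Real.rpow_le_rpow (by linarith) hKN (by norm_num)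
      _ = (N : ℝ) ^ (39 / 40 : ℝ) := by
          rw [← Real.rpow_mul hN0.le]
          norm_num
      _ ≤ (N : ℝ) ^ (1 : ℝ) := Real.rpow_le_rpow_of_exponent_le hN1' (by norm_num)
      _ = N := Real.rpow_one _
  -- the weight
  obtain ⟨w, hwd⟩ : ∃ w : ℝ → ℂ, w = fun x => ((η x : ℝ) : ℂ) * ee (t * N * x) := ⟨_, rfl⟩
  obtain ⟨V, hV⟩ : ∃ V : ℝ, V = C₀ * (1 + |t| * N) ^ 3 := ⟨_, rfl⟩
  have hgood : GoodW w V := by
    have h5 := hsep (t * N)
    rw [abs_mul, Nat.abs_cast] at h5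
    rw [hwd, hV]
    exact h5
  have hw1 := hgood.2.1
  have hV1 := hgood.1
  obtain ⟨L, hLd⟩ : ∃ L, L = Real.log N := ⟨_, rfl⟩
  rw [← hLd] at hL
  obtain ⟨S, hS⟩ : ∃ S : ℕ → ℝ, S = fun r => ∑ χ ∈ prm r, ‖psiG w N χ‖ := ⟨_, rfl⟩
  have hS0 : ∀ r, 0 ≤ S r := fun r => by
    rw [hS]
    positivity
  -- one fraction
  have hpt : ∀ k ∈ Icc 1 K, (open scoped Classical in if IsCoprime a (k : ℤ) then
      ‖La η N ((a : ℝ) / k + t)‖ else 0) ≤ 4 * L ^ 2 * ((K : ℝ) ^ 2 * Real.sqrt K) +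
      1 / (k.totient : ℝ) * ∑ r ∈ k.divisors, Real.sqrt r * S r := by
    intro k hk
    rw [mem_Icc] at hk
    have hkK : (k : ℝ) ≤ K := by exact_mod_cast hk.2
    have hnn : 0 ≤ 1 / (k.totient : ℝ) * ∑ r ∈ k.divisors, Real.sqrt r * S r :=
      mul_nonneg (by positivity)
        (sum_nonneg fun r _ => mul_nonneg (Real.sqrt_nonneg _) (hS0 r))
    split_ifs with hc
    · have h5 := fmc_point h3 h4 η w N k a t hN1 (by rw [← hLd]; exact hL) hk.1
        (hk.2.trans hKN') hc (fun x => by rw [hwd]) hw1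
      rw [← hLd] at h5
      refine h5.trans (add_le_add ?_ ?_)
      · refine mul_le_mul_of_nonneg_left ?_ (by positivity)
        exact mul_le_mul (pow_le_pow_left₀ (Nat.cast_nonneg _) hkK 2) (Real.sqrt_le_sqrt hkK)
          (Real.sqrt_nonneg _) (by positivity)
      · rw [hS]
    · exact add_nonneg (by positivity) hnn
  refine (sum_le_sum hpt).trans ?_
  rw [sum_add_distrib, sum_const, Nat.card_Icc, Nat.add_sub_cancel, nsmul_eq_mul]
  -- the error terms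
  have hsK : Real.sqrt K = q ^ 2 := by
    rw [← hqK]
    have h5 : q ^ 4 = (q ^ 2) ^ 2 := by ring
    rw [h5, Real.sqrt_sq (by positivity)]
  have herr : (K : ℝ) * (4 * L ^ 2 * ((K : ℝ) ^ 2 * Real.sqrt K)) ≤ 4 * L ^ 2 * (q * N) := by
    rw [hsK, ← hqK]
    calc q ^ 4 * (4 * L ^ 2 * ((q ^ 4) ^ 2 * q ^ 2)) = 4 * L ^ 2 * (q * q ^ 13) := by ring
      _ ≤ 4 * L ^ 2 * (q * N) := by
          refine mul_le_mul_of_nonneg_left ?_ (by positivity)
          exact mul_le_mul_of_nonneg_left hqN (by linarith)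
  -- change of the order of the summation
  have hswap : ∑ k ∈ Icc 1 K, 1 / (k.totient : ℝ) * ∑ r ∈ k.divisors, Real.sqrt r * S r ≤
      18 * L ^ 3 * ∑ r ∈ Icc 1 K, 1 / Real.sqrt r * S r := by
    have h5 : ∀ k ∈ Icc 1 K, 1 / (k.totient : ℝ) * ∑ r ∈ k.divisors, Real.sqrt r * S r =
        ∑ r ∈ Icc 1 K, if r ∣ k then 1 / (k.totient : ℝ) * (Real.sqrt r * S r) else 0 := by
      intro k hk
      rw [mem_Icc] at hk
      rw [mul_sum, ← sum_filter]
      refine sum_congr ?_ fun _ _ => rfl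
      ext r
      rw [Nat.mem_divisors, mem_filter, mem_Icc]
      constructor
      · rintro ⟨h6, -⟩
        exact ⟨⟨Nat.pos_of_dvd_of_pos h6 (by omega), (Nat.le_of_dvd (by omega) h6).trans hk.2⟩, h6⟩
      · rintro ⟨-, h6⟩
        exact ⟨h6, by omega⟩
    rw [sum_congr rfl h5, sum_comm, mul_sum]
    refine sum_le_sum fun r hr => ?_
    rw [mem_Icc] at hr
    have hr0 : (0 : ℝ) < r := by exact_mod_cast hr.1
    rw [← sum_filter, ← sum_mul]
    have h6 := fmc_inner N r hr.1 (by rw [← hLd]; exact hL) (Icc 1 K) (Icc_subset_Icc_right hKN')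
    have h7 := fmc_totient' r N hr.1 (hr.2.trans hKN') (by rw [← hLd]; exact hL)
    rw [← hLd] at h6 h7
    have h8 : ∑ k ∈ (Icc 1 K).filter (fun k => r ∣ k), 1 / (k.totient : ℝ) ≤ 18 * L ^ 3 / r := by
      refine h6.trans ?_
      calc 1 / (r.totient : ℝ) * (6 * L ^ 2) ≤ 3 * L / r * (6 * L ^ 2) :=
            mul_le_mul_of_nonneg_right h7 (by positivity)
        _ = 18 * L ^ 3 / r := by ring
    refine (mul_le_mul_of_nonneg_right h8 (mul_nonneg (Real.sqrt_nonneg _) (hS0 r))).trans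
      (le_of_eq ?_)
    have h9 : Real.sqrt r * Real.sqrt r = r := Real.mul_self_sqrt hr0.le
    have h10 : Real.sqrt (r : ℝ) ≠ 0 := (Real.sqrt_pos.2 hr0).ne'
    have h11 : Real.sqrt (r : ℝ) / r = 1 / Real.sqrt r := by
      rw [div_eq_div_iff hr0.ne' h10, h9, one_mul]
    calc 18 * L ^ 3 / r * (Real.sqrt r * S r) = 18 * L ^ 3 * (Real.sqrt r / r * S r) := by ring
      _ = 18 * L ^ 3 * (1 / Real.sqrt r * S r) := by rw [h11]
  -- the conductors
  have hcond : ∑ r ∈ Icc 1 K, 1 / Real.sqrt r * S r ≤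
      N * L + 21 * C * V * L ^ (C + 1) * (q * N) := by
    have h5 : Icc 1 K = insert 1 (Icc 2 K) := by
      ext r
      rw [mem_insert, mem_Icc, mem_Icc]
      omega
    rw [h5, sum_insert (by simp)]
    refine add_le_add ?_ ?_
    · have h6 : S 1 ≤ N * L := by
        rw [hS]
        have h7 : ∑ χ ∈ prm 1, ‖psiG w N χ‖ ≤ ∑ _χ ∈ prm 1, N * L := by
          refine sum_le_sum fun χ _ => ?_
          rw [hLd]
          exact fmc_one w N hw1 1 χ
        rw [sum_const, nsmul_eq_mul] at h7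
        have h8 := fmc_card_prm 1 le_rfl
        rw [Nat.cast_one] at h8
        refine h7.trans ?_
        exact mul_le_of_le_one_left (by positivity) h8
      rw [Nat.cast_one, Real.sqrt_one, div_one, one_mul]
      exact h6
    · have h6 := fmc_dy C w V N K q hN1 hq1 hqK hqN (by rw [← hLd]; exact hL) (by linarith) hKN'
        (fun R U hR hU hUN => hC w V hgood N R U hN hR hU hUN)
      rw [← hLd] at h6
      refine le_trans (le_of_eq (sum_congr rfl fun r hr => ?_)) h6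
      rw [mem_Icc] at hr
      rw [hS]
      simp only [fmc_prm_eq r hr.1]
  have hX : (1 : ℝ) ≤ (1 + |t| * N) ^ 3 := by
    refine one_le_pow₀ ?_
    have : 0 ≤ |t| * N := by positivity
    linarith
  have hqN0 : 0 ≤ q * N := by positivity
  have hLC : ∀ j ≤ C + 4, L ^ j ≤ L ^ (C + 4) := fun j hj => pow_le_pow_right₀ hL hj
  have hVV : 1 ≤ V := hV1
  calc (K : ℝ) * (4 * L ^ 2 * ((K : ℝ) ^ 2 * Real.sqrt K)) +
        ∑ k ∈ Icc 1 K, 1 / (k.totient : ℝ) * ∑ r ∈ k.divisors, Real.sqrt r * S r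
      ≤ 4 * L ^ 2 * (q * N) + 18 * L ^ 3 * (N * L + 21 * C * V * L ^ (C + 1) * (q * N)) :=
        add_le_add herr (hswap.trans (mul_le_mul_of_nonneg_left hcond (by positivity)))
    _ = 4 * L ^ 2 * (q * N) + 18 * L ^ 4 * N + 378 * C * V * L ^ (C + 4) * (q * N) := by ring
    _ ≤ 4 * (V * L ^ (C + 4)) * (q * N) + 18 * (V * L ^ (C + 4)) * (q * N) +
        378 * C * V * L ^ (C + 4) * (q * N) := by
        have h5 : L ^ 2 ≤ V * L ^ (C + 4) := by
          have := hLC 2 (by omega)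
          have h6 : L ^ (C + 4) ≤ V * L ^ (C + 4) := le_mul_of_one_le_left (by positivity) hVV
          linarith
        have h7 : L ^ 4 ≤ V * L ^ (C + 4) := by
          have := hLC 4 (by omega)
          have h6 : L ^ (C + 4) ≤ V * L ^ (C + 4) := le_mul_of_one_le_left (by positivity) hVV
          linarith
        have h8 : (N : ℝ) ≤ q * N := le_mul_of_one_le_left hN0.le hq1
        have h9 : 4 * L ^ 2 * (q * N) ≤ 4 * (V * L ^ (C + 4)) * (q * N) :=
          mul_le_mul_of_nonneg_right (by linarith) hqN0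
        have h10 : 18 * L ^ 4 * N ≤ 18 * (V * L ^ (C + 4)) * (q * N) :=
          mul_le_mul (by linarith) h8 hN0.le (by positivity)
        linarith
    _ = ((22 + 378 * C) * C₀) * L ^ (C + 4) * (1 + |t| * N) ^ 3 * (N * q) := by
        rw [hV]
        ring
    _ ≤ (C₁ + C + 4 : ℕ) * L ^ (C₁ + C + 4) * (1 + |t| * N) ^ 3 * (N * q) := by
        have h5 : (22 + 378 * (C : ℝ)) * C₀ ≤ ((C₁ + C + 4 : ℕ) : ℝ) := by
          push_cast
          linarith [(Nat.cast_nonneg C : (0 : ℝ) ≤ C)]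
        have h6 : L ^ (C + 4) ≤ L ^ (C₁ + C + 4) := pow_le_pow_right₀ hL (by omega)
        have h7 : (22 + 378 * (C : ℝ)) * C₀ * L ^ (C + 4) ≤
            ((C₁ + C + 4 : ℕ) : ℝ) * L ^ (C₁ + C + 4) :=
          mul_le_mul h5 h6 (by positivity) (by positivity)
        have h8 : 0 ≤ (N : ℝ) * q := by positivity
        exact mul_le_mul_of_nonneg_right (mul_le_mul_of_nonneg_right h7 (by positivity)) h8
    _ = (C₁ + C + 4 : ℕ) * Real.log N ^ (C₁ + C + 4) * (1 + |t| * N) ^ 3 *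
        (N * (K : ℝ) ^ (1 / 4 : ℝ)) := by rw [hLd, hq]

end Pool.Agent.TLL
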