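import Mathlib
import Pool.Agent.TLL.St

/-!
# TLL, INT: integration of the pointwise estimate
-/

set_option autoImplicit false

namespace Pool.Agent.TLL

open Finset Filter MeasureTheory
open Pool.Agent.GBQ (ee lam nd Admissible)

private theorem Int_ee_cont : Continuous ee := by
  unfold ee
  fun_prop

private theorem Int_La_cont (η : ℝ → ℝ) (N : ℕ) : Continuous fun α => La η N α := by
  unfold La
  refine continuous_finsetSum _ fun x _ => ?_
  exact continuous_const.mul (Int_ee_cont.comp (continuous_id.mul continuous_const))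

private theorem Int_Wm_cont (QQ : Finset ℕ) (m : ℕ) : Continuous fun α => Wm QQ m α := by
  unfold Wm
  refine continuous_finsetSum _ fun q _ => continuous_finsetSum _ fun r _ => ?_
  exact Int_ee_cont.comp (continuous_id.mul continuous_const)

/-- the mean square of `La` -/
private theorem Int_La (h1 : St_Par) {η : ℝ → ℝ} (hη : Pool.Agent.MT.IsWt η) (N : ℕ) :
    ∫ α in (-(1 / 2) : ℝ)..(1 / 2), ‖La η N α‖ ^ 2 ≤ N * Real.log N ^ 2 := by
  have e1 := h1 (fun k => ((lam k * η ((k : ℝ) / N) : ℝ) : ℂ)) (N + 1)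
  have e2 : ∫ α in (-(1 / 2) : ℝ)..(1 / 2), ‖La η N α‖ ^ 2 =
      ∑ k ∈ range (N + 1), ‖((lam k * η ((k : ℝ) / N) : ℝ) : ℂ)‖ ^ 2 := e1
  rw [e2, Finset.sum_range_succ']
  have h0 : ‖((lam 0 * η (((0 : ℕ) : ℝ) / N) : ℝ) : ℂ)‖ ^ 2 = 0 := by
    have : lam 0 = 0 := by
      unfold lam
      simp
    rw [this, zero_mul]
    simp
  rw [h0, add_zero]
  have h2 : ∀ k ∈ range N, ‖((lam (k + 1) * η (((k + 1 : ℕ) : ℝ) / N) : ℝ) : ℂ)‖ ^ 2 ≤
      Real.log N ^ 2 := by
    intro k hk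
    rw [Finset.mem_range] at hk
    have a1 : (0 : ℝ) ≤ lam (k + 1) := ArithmeticFunction.vonMangoldt_nonneg
    have a2 : lam (k + 1) ≤ Real.log N := by
      refine (ArithmeticFunction.vonMangoldt_le_log).trans ?_
      refine Real.log_le_log ?_ ?_
      · exact_mod_cast Nat.succ_pos k
      · exact_mod_cast hk
    have a3 := hη.nonneg (((k + 1 : ℕ) : ℝ) / N)
    have a4 := hη.le_one (((k + 1 : ℕ) : ℝ) / N)
    rw [Complex.norm_real, Real.norm_eq_abs, sq_abs]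
    have a5 : 0 ≤ lam (k + 1) * η (((k + 1 : ℕ) : ℝ) / N) := mul_nonneg a1 a3
    have a6 : lam (k + 1) * η (((k + 1 : ℕ) : ℝ) / N) ≤ Real.log N := by
      calc lam (k + 1) * η (((k + 1 : ℕ) : ℝ) / N) ≤ lam (k + 1) * 1 :=
            mul_le_mul_of_nonneg_left a4 a1
        _ ≤ Real.log N := by rw [mul_one]; exact a2
    exact pow_le_pow_left₀ a5 a6 2
  refine (Finset.sum_le_sum h2).trans (le_of_eq ?_)
  rw [Finset.sum_const, Finset.card_range, nsmul_eq_mul]

private theorem Int_inj {m : ℕ} {z z' : ℕ × ℕ} (h1 : z.2 < m) (h2 : z'.2 < m)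
    (h : m * z.1 + z.2 = m * z'.1 + z'.2) : z = z' := by
  have hm : 0 < m := by omega
  have a1 : (m * z.1 + z.2) / m = z.1 := by
    rw [Nat.mul_add_div hm, Nat.div_eq_of_lt h1, add_zero]
  have a2 : (m * z'.1 + z'.2) / m = z'.1 := by
    rw [Nat.mul_add_div hm, Nat.div_eq_of_lt h2, add_zero]
  have h3 : z.1 = z'.1 := by rw [← a1, ← a2, h]
  refine Prod.ext h3 ?_
  rw [h3] at h
  omega

/-- the mean square of `Wm` -/
private theorem Int_Wm (h1 : St_Par) (QQ : Finset ℕ) (m : ℕ) :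
    ∫ α in (-(1 / 2) : ℝ)..(1 / 2), ‖Wm QQ m α‖ ^ 2 = m * QQ.card := by
  classical
  let I : Finset ℕ := (QQ ×ˢ range m).image fun p => m * p.1 + p.2
  have hinj : Set.InjOn (fun p : ℕ × ℕ => m * p.1 + p.2) (QQ ×ˢ range m : Finset (ℕ × ℕ)) := by
    intro p hp p' hp' h
    have b1 := (Finset.mem_product.1 (Finset.mem_coe.1 hp)).2
    have b2 := (Finset.mem_product.1 (Finset.mem_coe.1 hp')).2
    exact Int_inj (Finset.mem_range.1 b1) (Finset.mem_range.1 b2) h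
  obtain ⟨M, hM⟩ := I.exists_nat_subset_range
  have e1 := h1 (fun k => if k ∈ I then 1 else 0) M
  have e2 : ∀ α : ℝ, Wm QQ m α = ∑ k ∈ range M, (if k ∈ I then (1 : ℂ) else 0) * ee (α * k) := by
    intro α
    have c1 : ∑ k ∈ range M, (if k ∈ I then (1 : ℂ) else 0) * ee (α * k) =
        ∑ k ∈ I, ee (α * k) := by
      simp only [ite_mul, one_mul, zero_mul]
      rw [← Finset.sum_filter, Finset.filter_mem_eq_inter, Finset.inter_eq_right.2 hM]
    rw [c1]
    show Wm QQ m α = ∑ k ∈ (QQ ×ˢ range m).image (fun p => m * p.1 + p.2), ee (α * k)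
    rw [Finset.sum_image hinj, Finset.sum_product]
    rfl
  have e3 : ∫ α in (-(1 / 2) : ℝ)..(1 / 2), ‖Wm QQ m α‖ ^ 2 =
      ∑ k ∈ range M, ‖(if k ∈ I then (1 : ℂ) else 0)‖ ^ 2 := by
    rw [← e1]
    refine intervalIntegral.integral_congr fun α _ => ?_
    show ‖Wm QQ m α‖ ^ 2 = _
    rw [e2 α]
  rw [e3]
  have e4 : ∀ k ∈ range M, ‖(if k ∈ I then (1 : ℂ) else 0)‖ ^ 2 = if k ∈ I then (1 : ℝ) else 0 := by
    intro k _
    split_ifs <;> simp
  rw [Finset.sum_congr rfl e4, ← Finset.sum_filter, Finset.filter_mem_eq_inter,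
    Finset.inter_eq_right.2 hM, Finset.sum_const, nsmul_eq_mul, mul_one,
    Finset.card_image_of_injOn hinj, Finset.card_product, Finset.card_range]
  push_cast
  ring

/-- an arc -/
private theorem Int_arc (F : ℝ → ℝ) (hF : Continuous F) (h0 : ∀ α, 0 ≤ F α) (c w : ℝ) (hw : 0 ≤ w) :
    IntervalIntegrable (fun α => if |α - c| ≤ w then F α else 0) volume (-(1 / 2)) (1 / 2) ∧
    ∫ α in (-(1 / 2) : ℝ)..(1 / 2), (if |α - c| ≤ w then F α else 0) ≤
      ∫ t in (-w)..w, F (c + t) := by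
  have e1 : (fun α => if |α - c| ≤ w then F α else 0) =
      (Set.Icc (c - w) (c + w)).indicator F := by
    funext α
    by_cases h : |α - c| ≤ w
    · have h' := abs_le.1 h
      rw [if_pos h, Set.indicator_of_mem]
      exact ⟨by linarith [h'.1], by linarith [h'.2]⟩
    · rw [if_neg h, Set.indicator_of_notMem]
      intro hm
      exact h (abs_le.2 ⟨by linarith [hm.1], by linarith [hm.2]⟩)
  have hint : IntegrableOn F (Set.Icc (c - w) (c + w)) volume :=
    hF.continuousOn.integrableOn_Icc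
  have hI : Integrable ((Set.Icc (c - w) (c + w)).indicator F) volume :=
    hint.integrable_indicator measurableSet_Icc
  constructor
  · rw [e1]
    exact hI.intervalIntegrable
  · have e2 : ∫ t in (-w)..w, F (c + t) = ∫ α in (c - w)..(c + w), F α := by
      rw [intervalIntegral.integral_comp_add_left]
      rw [← sub_eq_add_neg]
    rw [e2, e1, intervalIntegral.integral_of_le (by norm_num),
      intervalIntegral.integral_of_le (by linarith), ← integral_Icc_eq_integral_Ioc (x := c - w),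
      ← integral_indicator (measurableSet_Icc (a := c - w))]
    refine setIntegral_le_integral hI ?_
    refine Filter.Eventually.of_forall fun α => ?_
    exact Set.indicator_nonneg (fun x _ => h0 x) α

/-- **INT** -/
theorem thm_Int (h1 : St_Par) (h2 : St_Ptw) : St_Int := by
  obtain ⟨C, hC, hP⟩ := h2
  refine ⟨C, hC, ?_⟩
  intro η hη N x R h QQ Y D S hN hyp
  have hpt := hP η N x R h QQ Y D S hyp
  obtain ⟨hx, hxR, hQ, hY, hD, hDR, hS, hLa⟩ := hyp
  have hx0 : (0 : ℝ) < x := by exact_mod_cast hx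
  have hD0 : 0 < D := by linarith
  have hY0 : 0 < Y := by linarith
  have hq0 : (0 : ℝ) ≤ QQ.card := Nat.cast_nonneg _
  have hR0 : (0 : ℝ) ≤ R := Nat.cast_nonneg _
  set A : ℝ := C * ((h / D) ^ 2 * (x : ℝ) ^ 3 * (QQ.card : ℝ) ^ 2 +
    (x : ℝ) ^ 2 * R * QQ.card / Y) with hA
  set P : ℝ := C * (x : ℝ) ^ 2 * R * QQ.card with hPdef
  have hA0 : 0 ≤ A := by positivity
  have hP0 : 0 ≤ P := by positivity
  have cL : Continuous fun α => ‖La η N α‖ ^ 2 := (Int_La_cont η N).norm.pow 2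
  have cW : ∀ m, Continuous fun α => ‖Wm QQ m α‖ ^ 2 := fun m => (Int_Wm_cont QQ m).norm.pow 2
  have cWs : Continuous fun α => ∑ m ∈ Ioc x (2 * x), ‖Wm QQ m α‖ ^ 2 :=
    continuous_finsetSum _ fun m _ => cW m
  have harc : ∀ p ∈ fr x Y,
      IntervalIntegrable (fun α => if |α - (p.2 : ℝ) / p.1| ≤ 1 / ((p.1 : ℝ) * D) then
        ‖La η N α‖ ^ 2 else 0) volume (-(1 / 2)) (1 / 2) ∧
      ∫ α in (-(1 / 2) : ℝ)..(1 / 2), (if |α - (p.2 : ℝ) / p.1| ≤ 1 / ((p.1 : ℝ) * D) then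
        ‖La η N α‖ ^ 2 else 0) ≤
        ∫ t in (-(1 / ((p.1 : ℝ) * D)))..(1 / ((p.1 : ℝ) * D)),
          ‖La η N ((p.2 : ℝ) / p.1 + t)‖ ^ 2 := fun p _ =>
    Int_arc (fun α => ‖La η N α‖ ^ 2) cL (fun α => sq_nonneg _) _ _ (by positivity)
  have i1 : IntervalIntegrable (fun α => A * ‖La η N α‖ ^ 2) volume (-(1 / 2)) (1 / 2) :=
    (continuous_const.mul cL).intervalIntegrable _ _
  have i2 : IntervalIntegrable (fun α => 4 * S ^ 2 * ∑ m ∈ Ioc x (2 * x), ‖Wm QQ m α‖ ^ 2)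
      volume (-(1 / 2)) (1 / 2) := (continuous_const.mul cWs).intervalIntegrable _ _
  have i3' : IntervalIntegrable (fun α => ∑ p ∈ fr x Y,
      (if |α - (p.2 : ℝ) / p.1| ≤ 1 / ((p.1 : ℝ) * D) then ‖La η N α‖ ^ 2 else 0))
      volume (-(1 / 2)) (1 / 2) := by
    have := IntervalIntegrable.sum (μ := volume) (a := -(1 / 2 : ℝ)) (b := 1 / 2) (fr x Y)
      (f := fun p α => if |α - (p.2 : ℝ) / p.1| ≤ 1 / ((p.1 : ℝ) * D) then
        ‖La η N α‖ ^ 2 else 0) (fun p hp => (harc p hp).1)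
    refine this.congr fun α _ => ?_
    rw [Finset.sum_apply]
  have i3 := i3'.const_mul P
  have hmono : ∫ α in (-(1 / 2) : ℝ)..(1 / 2),
      ‖1 - ee (α * h)‖ ^ 2 * (∑ m ∈ Ioc x (2 * x), ‖Wm QQ m α‖ ^ 2) * ‖La η N α‖ ^ 2 ≤
      ∫ α in (-(1 / 2) : ℝ)..(1 / 2), (A * ‖La η N α‖ ^ 2 +
        4 * S ^ 2 * (∑ m ∈ Ioc x (2 * x), ‖Wm QQ m α‖ ^ 2) +
        P * ∑ p ∈ fr x Y, (if |α - (p.2 : ℝ) / p.1| ≤ 1 / ((p.1 : ℝ) * D) then
          ‖La η N α‖ ^ 2 else 0)) := by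
    refine intervalIntegral.integral_mono_on (by norm_num) ?_ ((i1.add i2).add i3) ?_
    · have c1 : Continuous fun α : ℝ => ‖1 - ee (α * h)‖ ^ 2 :=
        (continuous_const.sub (Int_ee_cont.comp (continuous_id.mul continuous_const))).norm.pow 2
      exact ((c1.mul cWs).mul cL).intervalIntegrable _ _
    · intro α hα
      refine hpt α (abs_le.2 ⟨hα.1, hα.2⟩)
  refine hmono.trans ?_
  rw [intervalIntegral.integral_add (i1.add i2) i3, intervalIntegral.integral_add i1 i2,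
    intervalIntegral.integral_const_mul, intervalIntegral.integral_const_mul,
    intervalIntegral.integral_const_mul,
    intervalIntegral.integral_finsetSum (fun m _ => (cW m).intervalIntegrable _ _),
    intervalIntegral.integral_finsetSum (fun p hp => (harc p hp).1)]
  have b1 : A * ∫ α in (-(1 / 2) : ℝ)..(1 / 2), ‖La η N α‖ ^ 2 ≤ A * (N * Real.log N ^ 2) :=
    mul_le_mul_of_nonneg_left (Int_La h1 hη N) hA0
  have b2 : 4 * S ^ 2 * ∑ m ∈ Ioc x (2 * x), ∫ α in (-(1 / 2) : ℝ)..(1 / 2), ‖Wm QQ m α‖ ^ 2 ≤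
      8 * S ^ 2 * ((x : ℝ) ^ 2 * QQ.card) := by
    have c1 : ∑ m ∈ Ioc x (2 * x), ∫ α in (-(1 / 2) : ℝ)..(1 / 2), ‖Wm QQ m α‖ ^ 2 ≤
        ∑ _m ∈ Ioc x (2 * x), (2 * (x : ℝ)) * QQ.card := by
      refine Finset.sum_le_sum fun m hm => ?_
      rw [Int_Wm h1]
      rw [Finset.mem_Ioc] at hm
      refine mul_le_mul_of_nonneg_right ?_ hq0
      exact_mod_cast hm.2
    rw [Finset.sum_const, Nat.card_Ioc, nsmul_eq_mul] at c1
    have c2 : ((2 * x - x : ℕ) : ℝ) = x := by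
      have : 2 * x - x = x := by omega
      rw [this]
    rw [c2] at c1
    calc 4 * S ^ 2 * ∑ m ∈ Ioc x (2 * x), ∫ α in (-(1 / 2) : ℝ)..(1 / 2), ‖Wm QQ m α‖ ^ 2
        ≤ 4 * S ^ 2 * ((x : ℝ) * (2 * (x : ℝ) * QQ.card)) :=
          mul_le_mul_of_nonneg_left c1 (by positivity)
      _ = 8 * S ^ 2 * ((x : ℝ) ^ 2 * QQ.card) := by ring
  have b3 : P * ∑ p ∈ fr x Y, ∫ α in (-(1 / 2) : ℝ)..(1 / 2),
      (if |α - (p.2 : ℝ) / p.1| ≤ 1 / ((p.1 : ℝ) * D) then ‖La η N α‖ ^ 2 else 0) ≤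
      P * RI η N x Y D := by
    refine mul_le_mul_of_nonneg_left ?_ hP0
    unfold RI
    exact Finset.sum_le_sum fun p hp => (harc p hp).2
  linarith

end Pool.Agent.TLL
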