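import Pool.Agent.TLL.St
import Pool.Agent.AAN.Var

/-!
# TLL, module KER: the mean square over `m` of `W_m(α)`
-/

set_option autoImplicit false

namespace Pool.Agent.TLL

open Finset
open Pool.Agent.GBQ (ee nd)

private theorem ker_ee_add (x y : ℝ) : ee (x + y) = ee x * ee y := by
  unfold ee
  rw [← Complex.exp_add]
  congr 1
  push_cast
  ring

private theorem ker_W (QQ : Finset ℕ) (m : ℕ) (α : ℝ) :
    Wm QQ m α = (∑ r ∈ range m, ee (r * α)) * Vm QQ m α := by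
  unfold Wm Vm
  rw [mul_comm, sum_mul]
  refine sum_congr rfl fun q _ => ?_
  rw [mul_sum]
  refine sum_congr rfl fun r _ => ?_
  rw [← ker_ee_add]
  congr 1
  push_cast
  ring

private theorem ker_V (QQ : Finset ℕ) (m : ℕ) (α : ℝ) : ‖Vm QQ m α‖ ≤ QQ.card := by
  unfold Vm
  refine (norm_sum_le _ _).trans ?_
  simp [AAN.var_norm_ee]

/-- the constant of the geometric sums -/
private noncomputable def kG (x : ℕ) (β : ℝ) : ℝ := min (4 * (x : ℝ) ^ 2) (1 / (4 * β ^ 2))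

private theorem kG_nonneg (x : ℕ) {β : ℝ} (hβ : 0 < β) : 0 ≤ kG x β :=
  le_min (by positivity) (by positivity)

private theorem kG_mul (x : ℕ) {β : ℝ} (hβ : 0 < β) : kG x β * (x * β) ≤ (x : ℝ) ^ 2 := by
  have h0 := kG_nonneg x hβ
  have h1 : kG x β ≤ 4 * (x : ℝ) ^ 2 := min_le_left _ _
  have h2 : kG x β ≤ 1 / (4 * β ^ 2) := min_le_right _ _
  have h3 : kG x β * β ^ 2 ≤ 1 / 4 := by
    have h4 := mul_le_mul_of_nonneg_right h2 (sq_nonneg β)
    refine h4.trans (le_of_eq ?_)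
    field_simp
  have hx : (0 : ℝ) ≤ (x : ℝ) ^ 2 := sq_nonneg _
  have h5 : (kG x β * (x * β)) ^ 2 ≤ ((x : ℝ) ^ 2) ^ 2 := by
    have h6 : (kG x β * (x * β)) ^ 2 = kG x β * (kG x β * β ^ 2) * (x : ℝ) ^ 2 := by ring
    rw [h6]
    have h7 : kG x β * (kG x β * β ^ 2) ≤ (4 * (x : ℝ) ^ 2) * (1 / 4) :=
      mul_le_mul h1 h3 (mul_nonneg h0 (sq_nonneg β)) (by positivity)
    have h8 := mul_le_mul_of_nonneg_right h7 hx
    refine h8.trans (le_of_eq ?_)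
    ring
  exact le_of_sq_le_sq' h5 hx
where
  le_of_sq_le_sq' {a b : ℝ} (h : a ^ 2 ≤ b ^ 2) (hb : 0 ≤ b) : a ≤ b :=
    (le_abs_self a).trans (abs_le_of_sq_le_sq h hb)

private theorem kG_one (x : ℕ) {β : ℝ} (hβ : 0 < β) :
    kG x β * (1 + x * β) ≤ 5 * (x : ℝ) ^ 2 := by
  have h1 : kG x β ≤ 4 * (x : ℝ) ^ 2 := min_le_left _ _
  have h2 := kG_mul x hβ
  linarith [mul_add (kG x β) 1 (x * β)]

private theorem kG_two (x : ℕ) {β : ℝ} (hβ : 0 < β) :
    x * β * (kG x β * (1 + x * β)) ≤ 5 * (x : ℝ) ^ 2 := by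
  have h2 := kG_mul x hβ
  have h3 : kG x β * β ^ 2 ≤ 1 / 4 := by
    have h4 := mul_le_mul_of_nonneg_right (min_le_right (4 * (x : ℝ) ^ 2) (1 / (4 * β ^ 2)))
      (sq_nonneg β)
    refine h4.trans (le_of_eq ?_)
    field_simp
  have h5 := mul_le_mul_of_nonneg_right h3 (sq_nonneg (x : ℝ))
  have h6 : x * β * (kG x β * (1 + x * β)) = kG x β * (x * β) + kG x β * β ^ 2 * (x : ℝ) ^ 2 := by
    ring
  have h7 : (0 : ℝ) ≤ (x : ℝ) ^ 2 := sq_nonneg _
  linarith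

theorem thm_Ker (h1 : St_Lsd) : St_Ker := by
  obtain ⟨C₀, hC₀, hL⟩ := h1
  refine ⟨max 1 (5 * C₀), le_max_left _ _, ?_⟩
  intro x R QQ α hx hR hQ
  have hgeo := fun m => AAN.var_geo m α
  have hxm : ∀ m ∈ Ioc x (2 * x), (m : ℝ) ≤ 2 * x := by
    intro m hm
    have := (mem_Ioc.1 hm).2
    exact_mod_cast this
  have hW : ∀ m, ‖Wm QQ m α‖ ^ 2 = ‖∑ r ∈ range m, ee (r * α)‖ ^ 2 * ‖Vm QQ m α‖ ^ 2 := by
    intro m
    rw [ker_W, norm_mul, mul_pow]
  have hgm : ∀ m ∈ Ioc x (2 * x), ‖∑ r ∈ range m, ee (r * α)‖ ^ 2 ≤ 4 * (x : ℝ) ^ 2 := by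
    intro m hm
    have h2 := pow_le_pow_left₀ (norm_nonneg _) ((hgeo m).1.trans (hxm m hm)) 2
    refine h2.trans (le_of_eq (by ring))
  constructor
  · have h2 : ∀ m ∈ Ioc x (2 * x), ‖Wm QQ m α‖ ^ 2 ≤ 4 * (x : ℝ) ^ 2 * (QQ.card : ℝ) ^ 2 := by
      intro m hm
      rw [hW]
      exact mul_le_mul (hgm m hm) (pow_le_pow_left₀ (norm_nonneg _) (ker_V QQ m α) 2)
        (sq_nonneg _) (by positivity)
    refine (sum_le_card_nsmul _ _ _ h2).trans (le_of_eq ?_)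
    rw [Nat.card_Ioc, nsmul_eq_mul]
    have h3 : 2 * x - x = x := by omega
    rw [h3]
    ring
  · intro hβ1
    have hβ : 0 < nd α := by
      by_contra h
      have h3 : (R : ℝ) * nd α ≤ 0 := mul_nonpos_of_nonneg_of_nonpos (Nat.cast_nonneg R)
        (not_lt.1 h)
      linarith
    have h2 : ∀ m ∈ Ioc x (2 * x), ‖Wm QQ m α‖ ^ 2 ≤ kG x (nd α) * ‖Vm QQ m α‖ ^ 2 := by
      intro m hm
      rw [hW]
      refine mul_le_mul_of_nonneg_right (le_min (hgm m hm) ?_) (sq_nonneg _)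
      have h3 := pow_le_pow_left₀ (norm_nonneg _) ((hgeo m).2 hβ) 2
      refine h3.trans (le_of_eq ?_)
      rw [div_pow, one_pow, mul_pow]
      norm_num
    have h3 : ∑ m ∈ Ioc x (2 * x), ‖Wm QQ m α‖ ^ 2 ≤
        kG x (nd α) * (C₀ * (1 + x * nd α) * (R * QQ.card)) := by
      refine (sum_le_sum h2).trans ?_
      rw [← mul_sum]
      exact mul_le_mul_of_nonneg_left (hL x R QQ α hx hR hQ hβ1) (kG_nonneg x hβ)
    have h4 : (0 : ℝ) ≤ C₀ * (R * QQ.card) := by positivity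
    have hx0 : (0 : ℝ) ≤ x * nd α := by positivity
    have h5 : (0 : ℝ) ≤ (x : ℝ) ^ 2 * R * QQ.card := by positivity
    have h6 : 5 * C₀ * ((x : ℝ) ^ 2 * R * QQ.card) ≤
        max 1 (5 * C₀) * ((x : ℝ) ^ 2 * R * QQ.card) :=
      mul_le_mul_of_nonneg_right (le_max_right _ _) h5
    constructor
    · have h7 := mul_le_mul_of_nonneg_right (kG_one x hβ) h4
      linarith
    · have h7 := mul_le_mul_of_nonneg_right (kG_two x hβ) h4
      have h8 := mul_le_mul_of_nonneg_left h3 hx0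
      linarith

end Pool.Agent.TLL
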