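import Pool.Agent.TLL.St
import Pool.Agent.MT.LargeCond
import Pool.Agent.BVX.LargeCond2

set_option autoImplicit false

/-!
# TLL, module LCW: large conductors, for a good weight (helper30)

Copy of `MT/LargeCond.lean` and `BVX/LargeCond2.lean` with a complex weight.
-/

namespace Pool.Agent.TLL

open Finset Pool.Agent.MT

/-- the twisted weight -/
private noncomputable def LcwF (w : ℝ → ℂ) (N : ℕ) {q : ℕ} (χ : DirichletCharacter ℂ q)
    (n : ℕ) : ℂ := χ (n : ZMod q) * w ((n : ℝ) / N)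

private theorem Lcw_psi (w : ℝ → ℂ) (N : ℕ) {q : ℕ} (χ : DirichletCharacter ℂ q) :
    psiG w N χ = ∑ n ∈ Icc 1 N, ((ArithmeticFunction.vonMangoldt n : ℝ) : ℂ) * LcwF w N χ n := by
  unfold psiG LcwF
  have hsub : Icc 1 N ⊆ range (N + 1) := fun n hn => by
    rw [mem_Icc] at hn
    exact mem_range.2 (by omega)
  rw [← sum_subset hsub]
  · refine sum_congr rfl fun n _ => ?_
    ring
  · intro n hn hn'
    have h0 : n = 0 := by
      rw [mem_range] at hn
      rw [mem_Icc] at hn'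
      omega
    subst h0
    simp

private theorem Lcw_F {w : ℝ → ℂ} (hw : ∀ x, ‖w x‖ ≤ 1) (N : ℕ) {q : ℕ}
    (χ : DirichletCharacter ℂ q) (n : ℕ) : ‖LcwF w N χ n‖ ≤ 1 := by
  unfold LcwF
  rw [norm_mul]
  exact mul_le_one₀ (lc_chi χ _) (norm_nonneg _) (hw _)

/-- a dyadic block of the last sum in the identity of Vaughan -/
private noncomputable def LcwB (w : ℝ → ℂ) (N U M : ℕ) {q : ℕ} (χ : DirichletCharacter ℂ q) : ℂ :=
  ∑ l ∈ Ioc M (2 * M), ∑ k ∈ Icc 1 (N / l), ((ArithmeticFunction.vonMangoldt l : ℝ) : ℂ) *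
    (cU U k : ℂ) * (χ ((l * k : ℕ) : ZMod q) * w (((l * k : ℕ) : ℝ) / N))

private theorem Lcw_single {w : ℝ → ℂ} (hw : ∀ x, ‖w x‖ ≤ 1) {C : ℝ} (hC : 0 < C)
    (hI : ∀ (N : ℕ), 2 ≤ N → ∀ (q : ℕ) [NeZero q]
      (χ : DirichletCharacter ℂ q), χ ≠ 1 → ∀ m : ℕ, 1 ≤ m →
      ‖∑ k ∈ Icc 1 (N / m), χ (k : ZMod q) * w (((m * k : ℕ) : ℝ) / N)‖ ≤ C * q ∧
      ‖∑ k ∈ Icc 1 (N / m), ((Real.log k : ℝ) : ℂ) *
        (χ (k : ZMod q) * w (((m * k : ℕ) : ℝ) / N))‖ ≤ C * q * Real.log N)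
    {N U J q : ℕ} [NeZero q] (hN : 3 ≤ N) (hU : 1 ≤ U) (hUN : U ≤ N) (hJ : N ≤ U * 2 ^ J)
    (χ : DirichletCharacter ℂ q) (hχ : χ ≠ 1) :
    ‖psiG w N χ‖ ≤ U * Real.log N + U * (C * q * Real.log N) + U * (U * (Real.log N * (C * q))) +
      ∑ i ∈ range J, ‖LcwB w N U (U * 2 ^ i) χ‖ := by
  have hL : 0 ≤ Real.log N := Real.log_natCast_nonneg N
  have hqR : (0 : ℝ) ≤ q := Nat.cast_nonneg q
  rw [Lcw_psi, vaughan U U N]
  have t0 : ‖∑ n ∈ (Icc 1 N).filter (fun n => n ≤ U),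
      ((ArithmeticFunction.vonMangoldt n : ℝ) : ℂ) * LcwF w N χ n‖ ≤ U * Real.log N := by
    refine (norm_sum_le _ _).trans ?_
    have h1 : ∀ n ∈ (Icc 1 N).filter (fun n => n ≤ U),
        ‖((ArithmeticFunction.vonMangoldt n : ℝ) : ℂ) * LcwF w N χ n‖ ≤ Real.log N := by
      intro n hn
      rw [mem_filter, mem_Icc] at hn
      rw [norm_mul]
      calc _ ≤ Real.log N * 1 := mul_le_mul (lc_Lam hn.1.1 hn.1.2) (Lcw_F hw N χ n)
            (norm_nonneg _) hL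
        _ = Real.log N := mul_one _
    refine (sum_le_card_nsmul _ _ _ h1).trans ?_
    rw [nsmul_eq_mul]
    refine mul_le_mul_of_nonneg_right ?_ hL
    have h2 : ((Icc 1 N).filter (fun n => n ≤ U)).card ≤ (Icc 1 U).card := by
      refine card_le_card fun n hn => ?_
      rw [mem_filter, mem_Icc] at hn
      rw [mem_Icc]
      omega
    rw [Nat.card_Icc] at h2
    exact_mod_cast h2.trans (by omega)
  have t1 : ‖∑ m ∈ Icc 1 U, (ArithmeticFunction.moebius m : ℂ) *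
      ∑ k ∈ Icc 1 (N / m), ((Real.log k : ℝ) : ℂ) * LcwF w N χ (m * k)‖ ≤
      U * (C * q * Real.log N) := by
    refine (norm_sum_le _ _).trans ?_
    have h1 : ∀ m ∈ Icc 1 U, ‖(ArithmeticFunction.moebius m : ℂ) *
        ∑ k ∈ Icc 1 (N / m), ((Real.log k : ℝ) : ℂ) * LcwF w N χ (m * k)‖ ≤ C * q * Real.log N := by
      intro m hm
      rw [mem_Icc] at hm
      have e1 : ∑ k ∈ Icc 1 (N / m), ((Real.log k : ℝ) : ℂ) * LcwF w N χ (m * k) =
          χ (m : ZMod q) * ∑ k ∈ Icc 1 (N / m), ((Real.log k : ℝ) : ℂ) *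
            (χ (k : ZMod q) * w (((m * k : ℕ) : ℝ) / N)) := by
        rw [mul_sum]
        refine sum_congr rfl fun k _ => ?_
        unfold LcwF
        rw [Nat.cast_mul (α := ZMod q) m k, map_mul]
        ring
      rw [e1, norm_mul, norm_mul]
      have h2 := (hI N (by omega) q χ hχ m hm.1).2
      calc _ ≤ 1 * (1 * (C * q * Real.log N)) := by
            refine mul_le_mul (lc_mu m) ?_ (by positivity) (by norm_num)
            exact mul_le_mul (lc_chi χ _) h2 (norm_nonneg _) (by norm_num)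
        _ = C * q * Real.log N := by ring
    refine (sum_le_card_nsmul _ _ _ h1).trans ?_
    rw [nsmul_eq_mul, Nat.card_Icc, Nat.add_sub_cancel]
  have t2 : ‖∑ m ∈ Icc 1 U, ∑ l ∈ Icc 1 U, (ArithmeticFunction.moebius m : ℂ) *
      ((ArithmeticFunction.vonMangoldt l : ℝ) : ℂ) *
      ∑ k ∈ Icc 1 (N / (m * l)), LcwF w N χ (m * l * k)‖ ≤ U * (U * (Real.log N * (C * q))) := by
    refine (norm_sum_le _ _).trans ?_
    have h1 : ∀ m ∈ Icc 1 U, ‖∑ l ∈ Icc 1 U, (ArithmeticFunction.moebius m : ℂ) *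
        ((ArithmeticFunction.vonMangoldt l : ℝ) : ℂ) *
        ∑ k ∈ Icc 1 (N / (m * l)), LcwF w N χ (m * l * k)‖ ≤ U * (Real.log N * (C * q)) := by
      intro m hm
      rw [mem_Icc] at hm
      refine (norm_sum_le _ _).trans ?_
      have h2 : ∀ l ∈ Icc 1 U, ‖(ArithmeticFunction.moebius m : ℂ) *
          ((ArithmeticFunction.vonMangoldt l : ℝ) : ℂ) *
          ∑ k ∈ Icc 1 (N / (m * l)), LcwF w N χ (m * l * k)‖ ≤ Real.log N * (C * q) := by
        intro l hl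
        rw [mem_Icc] at hl
        have e1 : ∑ k ∈ Icc 1 (N / (m * l)), LcwF w N χ (m * l * k) =
            χ ((m * l : ℕ) : ZMod q) * ∑ k ∈ Icc 1 (N / (m * l)),
              (χ (k : ZMod q) * w (((m * l * k : ℕ) : ℝ) / N)) := by
          rw [mul_sum]
          refine sum_congr rfl fun k _ => ?_
          unfold LcwF
          rw [Nat.cast_mul (α := ZMod q) (m * l) k, map_mul]
          ring
        have h3 := (hI N (by omega) q χ hχ (m * l) (Nat.mul_pos hm.1 hl.1)).1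
        rw [e1, norm_mul, norm_mul, norm_mul]
        calc _ ≤ 1 * Real.log N * (1 * (C * q)) := by
              refine mul_le_mul ?_ ?_ (by positivity) (by positivity)
              · exact mul_le_mul (lc_mu m) (lc_Lam hl.1 (hl.2.trans hUN)) (norm_nonneg _)
                  (by norm_num)
              · exact mul_le_mul (lc_chi χ _) h3 (norm_nonneg _) (by norm_num)
          _ = Real.log N * (C * q) := by ring
      refine (sum_le_card_nsmul _ _ _ h2).trans ?_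
      rw [nsmul_eq_mul, Nat.card_Icc, Nat.add_sub_cancel]
    refine (sum_le_card_nsmul _ _ _ h1).trans ?_
    rw [nsmul_eq_mul, Nat.card_Icc, Nat.add_sub_cancel]
  have t3 : ‖∑ l ∈ Ioc U N, ∑ k ∈ Icc 1 (N / l), ((ArithmeticFunction.vonMangoldt l : ℝ) : ℂ) *
      (cU U k : ℂ) * LcwF w N χ (l * k)‖ ≤ ∑ i ∈ range J, ‖LcwB w N U (U * 2 ^ i) χ‖ := by
    have hsub : Ioc U N ⊆ Ioc U (U * 2 ^ J) := Ioc_subset_Ioc_right hJ
    rw [sum_subset hsub, lc_dyadic]
    · exact norm_sum_le _ _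
    · intro l hl hl'
      rw [mem_Ioc] at hl hl'
      have h0 : N / l = 0 := Nat.div_eq_of_lt (by omega)
      rw [h0]
      simp
  calc _ ≤ ‖∑ n ∈ (Icc 1 N).filter (fun n => n ≤ U),
      ((ArithmeticFunction.vonMangoldt n : ℝ) : ℂ) * LcwF w N χ n‖ +
      ‖∑ m ∈ Icc 1 U, (ArithmeticFunction.moebius m : ℂ) *
        ∑ k ∈ Icc 1 (N / m), ((Real.log k : ℝ) : ℂ) * LcwF w N χ (m * k)‖ +
      ‖∑ m ∈ Icc 1 U, ∑ l ∈ Icc 1 U, (ArithmeticFunction.moebius m : ℂ) *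
        ((ArithmeticFunction.vonMangoldt l : ℝ) : ℂ) *
        ∑ k ∈ Icc 1 (N / (m * l)), LcwF w N χ (m * l * k)‖ +
      ‖∑ l ∈ Ioc U N, ∑ k ∈ Icc 1 (N / l), ((ArithmeticFunction.vonMangoldt l : ℝ) : ℂ) *
        (cU U k : ℂ) * LcwF w N χ (l * k)‖ := by
        refine (norm_add_le _ _).trans (add_le_add_left ?_ _)
        refine (norm_sub_le _ _).trans (add_le_add_left ?_ _)
        exact norm_add_le _ _
    _ ≤ _ := by
        refine add_le_add (add_le_add (add_le_add t0 t1) t2) t3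

/-- one dyadic block -/
private theorem Lcw_block {w : ℝ → ℂ} {C : ℝ} (hC : 0 < C)
    (hII : ∀ (N R M : ℕ), 1 ≤ N → 1 ≤ M →
      ∀ (a b : ℕ → ℂ),
      ∑ q ∈ Icc 1 R, ∑ χ ∈ prim q,
        ‖∑ l ∈ Ioc M (2 * M), ∑ k ∈ Icc 1 (N / l), a l * b k *
          (χ ((l * k : ℕ) : ZMod q) * w (((l * k : ℕ) : ℝ) / N))‖ ≤
        C * Real.sqrt (((M : ℝ) + (R : ℝ) ^ 2) * ∑ l ∈ Ioc M (2 * M), ‖a l‖ ^ 2) *
          Real.sqrt (((N : ℝ) / M + (R : ℝ) ^ 2) * ∑ k ∈ Icc 1 (N / M), ‖b k‖ ^ 2))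
    {N U M R : ℕ} (hN : 3 ≤ N) (hU : 1 ≤ U) (hUM : U ≤ M)
    (hL : 1 ≤ Real.log N) :
    ∑ q ∈ Icc 1 (2 * R), ∑ χ ∈ prim q, ‖LcwB w N U M χ‖ ≤
      24 * C * (N + R * N / Real.sqrt U + R ^ 2 * Real.sqrt N) * Real.log N ^ 3 := by
  have hM : 1 ≤ M := hU.trans hUM
  have hMR : (0 : ℝ) < M := by exact_mod_cast hM
  have hNR : (0 : ℝ) < N := by exact_mod_cast (by omega : 0 < N)
  have hUR : (0 : ℝ) < U := by exact_mod_cast (by omega : 0 < U)
  have hR0 : (0 : ℝ) ≤ R := Nat.cast_nonneg R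
  set L := Real.log N with hLdef
  rcases Nat.lt_or_ge U (N / M) with hlt | hge
  · have hNM : 1 ≤ N / M := by omega
    have hMN : M ≤ N := by
      by_contra h
      have : N / M = 0 := Nat.div_eq_of_lt (by omega)
      omega
    have hdiv : ((N / M : ℕ) : ℝ) ≤ (N : ℝ) / M := Nat.cast_div_le
    have hUM' : (U : ℝ) ≤ M := by exact_mod_cast hUM
    have hUN' : (U : ℝ) ≤ (N : ℝ) / M := by
      have : (U : ℝ) ≤ ((N / M : ℕ) : ℝ) := by exact_mod_cast hlt.le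
      linarith
    have h1 := hII N (2 * R) M (by omega) hM
      (fun l => ((ArithmeticFunction.vonMangoldt l : ℝ) : ℂ)) (fun k => (cU U k : ℂ))
    refine le_trans (le_of_eq ?_) (h1.trans ?_)
    · rfl
    have ha : ∑ l ∈ Ioc M (2 * M), ‖((ArithmeticFunction.vonMangoldt l : ℝ) : ℂ)‖ ^ 2 ≤
        M * (2 * L) ^ 2 := by
      have h2 : ∀ l ∈ Ioc M (2 * M), ‖((ArithmeticFunction.vonMangoldt l : ℝ) : ℂ)‖ ^ 2 ≤
          (2 * L) ^ 2 := by
        intro l hl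
        rw [mem_Ioc] at hl
        refine pow_le_pow_left₀ (norm_nonneg _) ?_ 2
        have h3 := lc_Lam (n := l) (N := N ^ 2) (by omega) (by nlinarith)
        rwa [Nat.cast_pow, Real.log_pow, Nat.cast_ofNat] at h3
      refine (sum_le_card_nsmul _ _ _ h2).trans ?_
      rw [nsmul_eq_mul, Nat.card_Ioc]
      have : 2 * M - M = M := by omega
      rw [this]
    have hb : ∑ k ∈ Icc 1 (N / M), ‖(cU U k : ℂ)‖ ^ 2 ≤ (N : ℝ) / M * (2 * L) ^ 3 := by
      have h2 : ∑ k ∈ Icc 1 (N / M), ‖(cU U k : ℂ)‖ ^ 2 ≤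
          ∑ k ∈ Icc 1 (N / M), (k.divisors.card : ℝ) ^ 2 := by
        refine sum_le_sum fun k _ => ?_
        refine pow_le_pow_left₀ (norm_nonneg _) ?_ 2
        rw [Complex.norm_intCast]
        have := cU_abs_le U k
        exact_mod_cast this
      refine h2.trans ((sum_divisors_sq (N / M) hNM).trans ?_)
      have h3 : Real.log ((N / M : ℕ) : ℝ) ≤ L :=
        Real.log_le_log (by exact_mod_cast hNM) (by exact_mod_cast Nat.div_le_self N M)
      have h4 : 0 ≤ Real.log ((N / M : ℕ) : ℝ) := Real.log_natCast_nonneg _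
      have h5 : (1 + Real.log ((N / M : ℕ) : ℝ)) ^ 3 ≤ (2 * L) ^ 3 :=
        pow_le_pow_left₀ (by linarith) (by linarith) 3
      exact mul_le_mul hdiv h5 (by positivity) (by positivity)
    have hNM0 : (0 : ℝ) < (N : ℝ) / M := by positivity
    have hR2 : ((2 * R : ℕ) : ℝ) ^ 2 = (2 * R : ℝ) ^ 2 := by
      push_cast
      ring
    rw [hR2]
    have hsplit : ∀ x : ℝ, 0 ≤ x → Real.sqrt (x + (2 * R : ℝ) ^ 2) ≤ Real.sqrt x + 2 * R := by
      intro x hx
      refine Real.sqrt_le_iff.2 ⟨by positivity, ?_⟩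
      have h0 := Real.sq_sqrt hx
      have h2 : 0 ≤ Real.sqrt x * R := by positivity
      nlinarith
    have hX : Real.sqrt (((M : ℝ) + (2 * R : ℝ) ^ 2) *
        ∑ l ∈ Ioc M (2 * M), ‖((ArithmeticFunction.vonMangoldt l : ℝ) : ℂ)‖ ^ 2) ≤
        (Real.sqrt M + 2 * R) * (Real.sqrt M * (2 * L)) := by
      rw [Real.sqrt_mul (by positivity)]
      refine mul_le_mul (hsplit M hMR.le) ?_ (Real.sqrt_nonneg _) (by positivity)
      refine Real.sqrt_le_iff.2 ⟨by positivity, ha.trans (le_of_eq ?_)⟩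
      rw [mul_pow (Real.sqrt M), Real.sq_sqrt hMR.le]
    have hY : Real.sqrt (((N : ℝ) / M + (2 * R : ℝ) ^ 2) *
        ∑ k ∈ Icc 1 (N / M), ‖(cU U k : ℂ)‖ ^ 2) ≤
        (Real.sqrt ((N : ℝ) / M) + 2 * R) * (Real.sqrt ((N : ℝ) / M) * (3 * L ^ 2)) := by
      rw [Real.sqrt_mul (by positivity)]
      refine mul_le_mul (hsplit _ hNM0.le) ?_ (Real.sqrt_nonneg _) (by positivity)
      refine Real.sqrt_le_iff.2 ⟨by positivity, hb.trans ?_⟩
      rw [mul_pow (Real.sqrt ((N : ℝ) / M)), Real.sq_sqrt hNM0.le]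
      refine mul_le_mul_of_nonneg_left ?_ hNM0.le
      calc (2 * L) ^ 3 = 8 * L ^ 3 := by ring
        _ ≤ 9 * L ^ 4 := by
            refine mul_le_mul (by norm_num) (pow_le_pow_right₀ hL (by norm_num)) (by positivity)
              (by norm_num)
        _ = (3 * L ^ 2) ^ 2 := by ring
    set s := Real.sqrt M with hs
    set t := Real.sqrt ((N : ℝ) / M) with ht
    have hs0 : 0 < s := Real.sqrt_pos.2 hMR
    have ht0 : 0 < t := Real.sqrt_pos.2 hNM0
    have hst : s * t = Real.sqrt N := by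
      rw [hs, ht, ← Real.sqrt_mul hMR.le]
      congr 1
      field_simp
    have hNN : Real.sqrt N * Real.sqrt N = N := Real.mul_self_sqrt hNR.le
    have hsU : Real.sqrt U ≤ s := Real.sqrt_le_sqrt hUM'
    have htU : Real.sqrt U ≤ t := Real.sqrt_le_sqrt hUN'
    have hU0 : 0 < Real.sqrt U := Real.sqrt_pos.2 hUR
    have hsle : s * Real.sqrt N ≤ N / Real.sqrt U := by
      rw [le_div_iff₀ hU0]
      calc s * Real.sqrt N * Real.sqrt U ≤ s * Real.sqrt N * t :=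
            mul_le_mul_of_nonneg_left htU (by positivity)
        _ = (s * t) * Real.sqrt N := by ring
        _ = N := by rw [hst, hNN]
    have htle : t * Real.sqrt N ≤ N / Real.sqrt U := by
      rw [le_div_iff₀ hU0]
      calc t * Real.sqrt N * Real.sqrt U ≤ t * Real.sqrt N * s :=
            mul_le_mul_of_nonneg_left hsU (by positivity)
        _ = (s * t) * Real.sqrt N := by ring
        _ = N := by rw [hst, hNN]
    have hL0 : 0 ≤ L := by linarith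
    calc _ ≤ C * ((s + 2 * R) * (s * (2 * L))) * ((t + 2 * R) * (t * (3 * L ^ 2))) := by
          refine mul_le_mul (mul_le_mul_of_nonneg_left hX hC.le) hY (Real.sqrt_nonneg _)
            (by positivity)
      _ = 6 * C * L ^ 3 * ((s * t) * (s * t) + 2 * R * (s * (s * t)) + 2 * R * (t * (s * t)) +
            4 * R ^ 2 * (s * t)) := by ring
      _ = 6 * C * L ^ 3 * (N + 2 * R * (s * Real.sqrt N) + 2 * R * (t * Real.sqrt N) +
            4 * R ^ 2 * Real.sqrt N) := by rw [hst, hNN]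
      _ ≤ 6 * C * L ^ 3 * (N + 2 * R * (N / Real.sqrt U) + 2 * R * (N / Real.sqrt U) +
            4 * R ^ 2 * Real.sqrt N) := by
          gcongr
      _ ≤ 24 * C * (N + R * N / Real.sqrt U + R ^ 2 * Real.sqrt N) * L ^ 3 := by
          have h3 : 0 ≤ 6 * C * L ^ 3 * (3 * N) := by positivity
          have h4 : (R : ℝ) * N / Real.sqrt U = R * (N / Real.sqrt U) := by ring
          rw [h4]
          nlinarith
  · have hz : ∀ (q : ℕ) (χ : DirichletCharacter ℂ q), LcwB w N U M χ = 0 := by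
      intro q χ
      unfold LcwB
      refine sum_eq_zero fun l hl => sum_eq_zero fun k hk => ?_
      rw [mem_Ioc] at hl
      rw [mem_Icc] at hk
      have h1 : N / l ≤ N / M := Nat.div_le_div_left hl.1.le (by omega)
      rw [cU_eq_zero U k (by omega)]
      simp
    have hL0 : 0 ≤ L := by linarith
    refine le_trans (le_of_eq ?_) (by positivity :
      (0 : ℝ) ≤ 24 * C * (N + R * N / Real.sqrt U + R ^ 2 * Real.sqrt N) * L ^ 3)
    refine sum_eq_zero fun q _ => sum_eq_zero fun χ _ => ?_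
    rw [hz, norm_zero]

/-- large conductors, for a good weight -/
theorem thm_Lcw (h1 : St_T1w) (h2 : St_T2w) : St_Lcw := by
  obtain ⟨A1, hA1, hI'⟩ := h1
  obtain ⟨A2, hA2, hII'⟩ := h2
  obtain ⟨C, hC⟩ := exists_nat_ge (4 + 16 * A1 + 72 * A2)
  refine ⟨C + 4, fun w V hwV N R U hN hR hU hUN => ?_⟩
  have hV : 1 ≤ V := hwV.1
  have hw : ∀ x, ‖w x‖ ≤ 1 := hwV.2.1
  set C1 : ℝ := A1 * V with hC1d
  set C2 : ℝ := A2 * V with hC2d
  have hC1 : 0 < C1 := mul_pos hA1 (by linarith)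
  have hC2 : 0 < C2 := mul_pos hA2 (by linarith)
  have hI := hI' w V hwV
  have hII := hII' w V hwV
  have hL : 1 ≤ Real.log N := by
    rw [Real.le_log_iff_exp_le (by exact_mod_cast (by omega : 0 < N))]
    have h1 := Real.exp_one_lt_d9
    have h2 : (3 : ℝ) ≤ N := by exact_mod_cast hN
    linarith
  obtain ⟨J, hJ, hJL⟩ := lc_J N hN hL
  have hJ' : N ≤ U * 2 ^ J := hJ.trans (Nat.le_mul_of_pos_left _ hU)
  set L := Real.log N with hLdef
  have hL0 : 0 ≤ L := by linarith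
  have hsubset : Ioc R (2 * R) ⊆ Icc 1 (2 * R) := fun q hq => by
    rw [mem_Ioc] at hq
    rw [mem_Icc]
    omega
  set K : ℝ := U * L + U * (C1 * (2 * R) * L) + U * (U * (L * (C1 * (2 * R)))) with hK
  have hK0 : 0 ≤ K := by positivity
  set T : ℝ := N + R * N / Real.sqrt U + R ^ 2 * Real.sqrt N with hT
  have hT0 : 0 ≤ T := by positivity
  have step1 : ∑ q ∈ Ioc R (2 * R), ∑ χ ∈ prim q, ‖psiG w N χ‖ ≤
      ∑ q ∈ Ioc R (2 * R), ∑ χ ∈ prim q, (K + ∑ i ∈ range J, ‖LcwB w N U (U * 2 ^ i) χ‖) := by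
    refine sum_le_sum fun q hq => sum_le_sum fun χ hχ => ?_
    rw [mem_Ioc] at hq
    have : NeZero q := ⟨by omega⟩
    have hq2 : (q : ℝ) ≤ 2 * R := by exact_mod_cast hq.2
    refine (Lcw_single hw hC1 hI hN hU hUN hJ' χ ((mem_prim χ).1 hχ).2).trans ?_
    refine add_le_add_left ?_ _
    rw [hK]
    gcongr
  have step2 : ∑ q ∈ Ioc R (2 * R), ∑ χ ∈ prim q,
      (K + ∑ i ∈ range J, ‖LcwB w N U (U * 2 ^ i) χ‖) ≤
      ∑ q ∈ Icc 1 (2 * R), ∑ χ ∈ prim q, (K + ∑ i ∈ range J, ‖LcwB w N U (U * 2 ^ i) χ‖) :=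
    sum_le_sum_of_subset_of_nonneg hsubset fun q _ _ => sum_nonneg fun χ _ => by positivity
  have step3 : ∑ q ∈ Icc 1 (2 * R), ∑ χ ∈ prim q,
      (K + ∑ i ∈ range J, ‖LcwB w N U (U * 2 ^ i) χ‖) =
      (∑ q ∈ Icc 1 (2 * R), ((prim q).card : ℝ)) * K +
        ∑ i ∈ range J, ∑ q ∈ Icc 1 (2 * R), ∑ χ ∈ prim q, ‖LcwB w N U (U * 2 ^ i) χ‖ := by
    rw [sum_comm (s := range J), sum_mul, ← sum_add_distrib]
    refine sum_congr rfl fun q _ => ?_
    rw [sum_add_distrib, sum_const, nsmul_eq_mul, sum_comm]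
  have step4 : (∑ q ∈ Icc 1 (2 * R), ((prim q).card : ℝ)) * K ≤ (4 * (R : ℝ) ^ 2) * K := by
    refine mul_le_mul_of_nonneg_right ?_ hK0
    have h1 := card_prim_le (2 * R)
    have h2 : (((∑ q ∈ Icc 1 (2 * R), (prim q).card) : ℕ) : ℝ) ≤ (((2 * R) ^ 2 : ℕ) : ℝ) := by
      exact_mod_cast h1
    push_cast at h2
    linarith
  have step5 : ∑ i ∈ range J, ∑ q ∈ Icc 1 (2 * R), ∑ χ ∈ prim q, ‖LcwB w N U (U * 2 ^ i) χ‖ ≤
      (3 * L) * (24 * C2 * T * L ^ 3) := by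
    have h1 : ∀ i ∈ range J, ∑ q ∈ Icc 1 (2 * R), ∑ χ ∈ prim q, ‖LcwB w N U (U * 2 ^ i) χ‖ ≤
        24 * C2 * T * L ^ 3 := fun i _ =>
      Lcw_block hC2 hII hN hU (Nat.le_mul_of_pos_right _ (by positivity)) hL
    refine (sum_le_card_nsmul _ _ _ h1).trans ?_
    rw [nsmul_eq_mul, card_range]
    exact mul_le_mul_of_nonneg_right hJL (by positivity)
  have hR1 : (1 : ℝ) ≤ R := by exact_mod_cast hR
  have hU1 : (1 : ℝ) ≤ U := by exact_mod_cast hU
  have step6 : (4 * (R : ℝ) ^ 2) * K ≤ (4 + 16 * C1) * (R ^ 3 * U ^ 2) * L := by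
    have e : (4 * (R : ℝ) ^ 2) * K =
        4 * ((R : ℝ) ^ 2 * U) * L + 8 * C1 * ((R : ℝ) ^ 3 * U) * L +
          8 * C1 * ((R : ℝ) ^ 3 * U ^ 2) * L := by
      rw [hK]
      ring
    rw [e]
    have hUU : (U : ℝ) ≤ U ^ 2 := by nlinarith
    have h1 : (R : ℝ) ^ 2 * U ≤ R ^ 3 * U ^ 2 :=
      mul_le_mul (pow_le_pow_right₀ hR1 (by norm_num)) hUU (by positivity) (by positivity)
    have h2 : (R : ℝ) ^ 3 * U ≤ R ^ 3 * U ^ 2 := mul_le_mul_of_nonneg_left hUU (by positivity)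
    calc _ ≤ 4 * ((R : ℝ) ^ 3 * U ^ 2) * L + 8 * C1 * ((R : ℝ) ^ 3 * U ^ 2) * L +
          8 * C1 * ((R : ℝ) ^ 3 * U ^ 2) * L := by
          gcongr
      _ = (4 + 16 * C1) * (R ^ 3 * U ^ 2) * L := by ring
  calc ∑ q ∈ Ioc R (2 * R), ∑ χ ∈ prim q, ‖psiG w N χ‖ ≤
      (4 + 16 * C1) * (R ^ 3 * U ^ 2) * L + (3 * L) * (24 * C2 * T * L ^ 3) := by
        refine step1.trans (step2.trans ?_)
        rw [step3]
        exact add_le_add (step4.trans step6) step5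
    _ ≤ (4 + 16 * C1) * (R ^ 3 * U ^ 2) * L ^ 4 + 72 * C2 * T * L ^ 4 := by
        have h1 : L ≤ L ^ 4 := by
          calc L = L ^ 1 := (pow_one L).symm
            _ ≤ L ^ 4 := pow_le_pow_right₀ hL (by norm_num)
        have h2 : (4 + 16 * C1) * ((R : ℝ) ^ 3 * U ^ 2) * L ≤
            (4 + 16 * C1) * (R ^ 3 * U ^ 2) * L ^ 4 := by gcongr
        have h3 : (3 * L) * (24 * C2 * T * L ^ 3) = 72 * C2 * T * L ^ 4 := by ring
        linarith
    _ ≤ (4 + 16 * C1 + 72 * C2) * L ^ 4 * (T + R ^ 3 * U ^ 2) := by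
        have h1 : 0 ≤ L ^ 4 * T * (4 + 16 * C1) := by positivity
        have h2 : 0 ≤ L ^ 4 * ((R : ℝ) ^ 3 * U ^ 2) * (72 * C2) := by positivity
        nlinarith
    _ ≤ ((C + 4 : ℕ) : ℝ) * V * L ^ (C + 4) * (T + R ^ 3 * U ^ 2) := by
        have h1 : 4 + 16 * C1 + 72 * C2 ≤ ((C + 4 : ℕ) : ℝ) * V := by
          have h3 : 4 + 16 * C1 + 72 * C2 ≤ (4 + 16 * A1 + 72 * A2) * V := by
            rw [hC1d, hC2d]
            nlinarith
          have h4 : (4 + 16 * A1 + 72 * A2) * V ≤ ((C + 4 : ℕ) : ℝ) * V := by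
            refine mul_le_mul_of_nonneg_right ?_ (by linarith)
            push_cast
            linarith
          exact h3.trans h4
        have h2 : L ^ 4 ≤ L ^ (C + 4) := pow_le_pow_right₀ hL (by omega)
        gcongr

end Pool.Agent.TLL
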