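import Pool.Agent.TLL.St
import Pool.Agent.BVX.AddLS

set_option autoImplicit false

/-!
# TLL / Lsd: large sieve for the dilates `m α`, `m ∈ (x, 2x]`

The additive large sieve `BVX.add_ls` with the points `m α`, after a Dirichlet approximation of `α` of order `4 x`.
-/

namespace Pool.Agent.TLL

open Finset
open Pool.Agent.GBQ (ee nd)

/-- `Vm` as a sum over the whole interval -/
theorem lsd_Vm (QQ : Finset ℕ) (R m : ℕ) (α : ℝ) (hQ : ∀ q ∈ QQ, 1 ≤ q ∧ q ≤ R) :
    Vm QQ m α =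
      ∑ n ∈ Ioc 0 R, (if n ∈ QQ then (1 : ℂ) else 0) * BVX.ee (n * ((m : ℝ) * α)) := by
  have hs : QQ ⊆ Ioc 0 R := fun n hn => mem_Ioc.mpr ⟨(hQ n hn).1, (hQ n hn).2⟩
  rw [← sum_subset hs (fun n _ hn => by rw [if_neg hn, zero_mul])]
  unfold Vm
  refine sum_congr rfl fun n hn => ?_
  rw [if_pos hn, one_mul]
  have h : α * ((m * n : ℕ) : ℝ) = n * ((m : ℝ) * α) := by
    push_cast
    ring
  rw [h]
  rfl

/-- the large sieve for a spaced set of dilates -/
theorem lsd_ls (S QQ : Finset ℕ) (R : ℕ) (α δ : ℝ) (hQ : ∀ q ∈ QQ, 1 ≤ q ∧ q ≤ R) (hδ : 0 < δ)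
    (hδ1 : δ ≤ 1) (h2 : ∀ y ∈ S, ∀ z ∈ S, y ≠ z → δ ≤ nd ((y : ℝ) * α - z * α)) :
    ∑ m ∈ S, ‖Vm QQ m α‖ ^ 2 ≤ 16 * (R + 1 / δ) * QQ.card := by
  have h := BVX.add_ls S (fun m : ℕ => (m : ℝ) * α) δ hδ hδ1 h2 0 R (Nat.zero_le _)
    (fun n => if n ∈ QQ then (1 : ℂ) else 0)
  have h1 : ∑ n ∈ Ioc 0 R, ‖(if n ∈ QQ then (1 : ℂ) else 0)‖ ^ 2 = QQ.card := by
    have hs : QQ ⊆ Ioc 0 R := fun n hn => mem_Ioc.mpr ⟨(hQ n hn).1, (hQ n hn).2⟩
    rw [← sum_subset hs (fun n _ hn => by rw [if_neg hn]; simp)]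
    rw [sum_congr rfl (fun n hn => by rw [if_pos hn])]
    simp
  rw [h1] at h
  have h3 : ∑ m ∈ S, ‖Vm QQ m α‖ ^ 2 = ∑ m ∈ S, ‖∑ n ∈ Ioc 0 R,
      (if n ∈ QQ then (1 : ℂ) else 0) * BVX.ee (n * ((m : ℝ) * α))‖ ^ 2 :=
    sum_congr rfl fun m _ => by rw [lsd_Vm QQ R m α hQ]
  rw [h3]
  have h4 : ((R : ℝ) - ((0 : ℕ) : ℝ) + 1 / δ) = R + 1 / δ := by
    rw [Nat.cast_zero, sub_zero]
  rw [h4] at h
  exact h

/-- lower bound for the distance to the nearest integer -/
theorem lsd_nd (θ c : ℝ) (h : ∀ w : ℤ, c ≤ |θ - w|) : c ≤ nd θ := h _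

/-- `|θ - w| ≥ |θ - z|` for integers `w` if `|θ - z| ≤ 1/2` -/
theorem lsd_near (θ : ℝ) (z w : ℤ) (h : |θ - z| ≤ 1 / 2) : |θ - z| ≤ |θ - w| := by
  by_cases hw : w = z
  · rw [hw]
  · have h1 : (1 : ℝ) ≤ |(z : ℝ) - w| := by
      have h2 : (1 : ℤ) ≤ |z - w| := Int.one_le_abs (sub_ne_zero.mpr (Ne.symm hw))
      have h3 : ((1 : ℤ) : ℝ) ≤ ((|z - w| : ℤ) : ℝ) := Int.cast_le.mpr h2
      push_cast at h3
      exact h3
    have h2 : |(z : ℝ) - w| ≤ |θ - z| + |θ - w| := by
      have h3 : (z : ℝ) - w = -(θ - z) + (θ - w) := by ring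
      rw [h3]
      refine (abs_add_le _ _).trans ?_
      rw [abs_neg]
    linarith

/-- a fraction `j a/k` with `k` not dividing `j`, `a` coprime to `k`, is `1/k` away from the integers -/
theorem lsd_frac (k : ℕ) (a j w : ℤ) (hk : 1 ≤ k) (hc : IsCoprime a (k : ℤ))
    (hj : ¬ (k : ℤ) ∣ j) : 1 / (k : ℝ) ≤ |(j : ℝ) * ((a : ℝ) / k) - w| := by
  have hk0 : (0 : ℝ) < k := by exact_mod_cast hk
  have h1 : (j : ℝ) * ((a : ℝ) / k) - w = ((j * a - w * k : ℤ) : ℝ) / k := by
    push_cast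
    field_simp
  rw [h1, abs_div, abs_of_pos hk0]
  apply div_le_div_of_nonneg_right _ hk0.le
  have h2 : j * a - w * k ≠ 0 := by
    intro h
    apply hj
    have h3 : (k : ℤ) ∣ j * a := ⟨w, by linarith⟩
    exact (IsCoprime.dvd_of_dvd_mul_right hc.symm h3)
  have h3 : (1 : ℤ) ≤ |j * a - w * k| := Int.one_le_abs h2
  have h4 : ((1 : ℤ) : ℝ) ≤ ((|j * a - w * k| : ℤ) : ℝ) := Int.cast_le.mpr h3
  rw [Int.cast_abs] at h4
  simpa using h4

/-- the number of classes -/
theorem lsd_img (x k : ℕ) (hk : 1 ≤ k) :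
    (((Ioc x (2 * x)).image (fun m => m / k)).card : ℝ) ≤ (x : ℝ) / k + 2 := by
  have hk0 : (0 : ℝ) < k := by exact_mod_cast hk
  have h1 : (Ioc x (2 * x)).image (fun m => m / k) ⊆ Icc (x / k) (2 * x / k) := by
    intro j hj
    obtain ⟨m, hm, rfl⟩ := mem_image.mp hj
    rw [mem_Ioc] at hm
    exact mem_Icc.mpr ⟨Nat.div_le_div_right hm.1.le, Nat.div_le_div_right hm.2⟩
  have h2 := card_le_card h1
  rw [Nat.card_Icc] at h2
  have h3 : x / k ≤ 2 * x / k := Nat.div_le_div_right (by omega)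
  have h4 : ((2 * x / k : ℕ) : ℝ) ≤ ((2 * x : ℕ) : ℝ) / k := Nat.cast_div_le
  have h5 : (x : ℝ) / k < ((x / k : ℕ) : ℝ) + 1 := by
    rw [div_lt_iff₀ hk0]
    have h6 : x < (x / k + 1) * k := by
      have h7 := Nat.div_add_mod x k
      have h8 := Nat.mod_lt x (show 0 < k by omega)
      nlinarith
    exact_mod_cast h6
  have h6 : (((Ioc x (2 * x)).image (fun m => m / k)).card : ℝ) ≤
      ((2 * x / k + 1 - x / k : ℕ) : ℝ) := by exact_mod_cast h2
  rw [Nat.cast_sub (by omega)] at h6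
  push_cast at h6 h4
  have h7 : 2 * (x : ℝ) / k = 2 * ((x : ℝ) / k) := by ring
  rw [h7] at h4
  linarith

theorem thm_Lsd : St_Lsd := by
  refine ⟨76, by norm_num, ?_⟩
  intro x R QQ α hx hxR hQ hβ
  have hx0 : (1 : ℝ) ≤ x := by exact_mod_cast hx
  have hR : 4 * (x : ℝ) ≤ R := by exact_mod_cast hxR
  have hR0 : (0 : ℝ) < R := by linarith
  have hn0 : 0 ≤ nd α := abs_nonneg _
  have hnp : 0 < nd α := by
    rcases hn0.lt_or_eq with h | h
    · exact h
    · rw [← h] at hβ
      norm_num at hβ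
  have hnh : nd α ≤ 1 / 2 := abs_sub_round α
  have hQ0 : (0 : ℝ) ≤ QQ.card := Nat.cast_nonneg _
  obtain ⟨r, hr, hrk⟩ := Real.exists_rat_abs_sub_le_and_den_le α (show 0 < 4 * x by omega)
  have hk : 1 ≤ r.den := r.pos
  set k := r.den with hkd
  have hk0 : (1 : ℝ) ≤ k := by exact_mod_cast hk
  have hkx : (k : ℝ) ≤ 4 * x := by exact_mod_cast hrk
  have hra : (r : ℝ) = (r.num : ℝ) / k := Rat.cast_def r
  have hr' : |α - (r.num : ℝ) / k| ≤ 1 / (4 * x * k) := by
    rw [← hra]
    refine hr.trans ?_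
    apply one_div_le_one_div_of_le (by positivity)
    push_cast
    nlinarith
  have hcop : IsCoprime r.num (k : ℤ) := by
    rw [Int.isCoprime_iff_nat_coprime]
    simpa using r.reduced
  -- differences of dilates
  have hdil : ∀ y ∈ Ioc x (2 * x), ∀ z ∈ Ioc x (2 * x), |(y : ℝ) - z| ≤ x := by
    intro y hy z hz
    rw [mem_Ioc] at hy hz
    have h1 : (x : ℝ) < y := by exact_mod_cast hy.1
    have h2 : (y : ℝ) ≤ 2 * x := by exact_mod_cast hy.2
    have h3 : (x : ℝ) < z := by exact_mod_cast hz.1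
    have h4 : (z : ℝ) ≤ 2 * x := by exact_mod_cast hz.2
    rw [abs_le]
    constructor <;> linarith
  rcases Nat.lt_or_ge 1 k with hk2 | hk1
  · -- k ≥ 2
    have hk0p : (0 : ℝ) < k := by linarith
    have herr : 1 / (4 * x * k) ≤ 1 / (4 * (k : ℝ)) := by
      apply one_div_le_one_div_of_le (by positivity)
      nlinarith
    have hδ : ∀ j : ℤ, ¬ (k : ℤ) ∣ j → |(j : ℝ)| ≤ x → 3 / (4 * (k : ℝ)) ≤ nd (j * α) := by
      intro j hj hjx
      apply lsd_nd
      intro w
      have h1 := lsd_frac k r.num j w hk hcop hj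
      have h2 : |(j : ℝ) * (α - (r.num : ℝ) / k)| ≤ 1 / (4 * (k : ℝ)) := by
        rw [abs_mul]
        calc |(j : ℝ)| * |α - (r.num : ℝ) / k| ≤ x * (1 / (4 * x * k)) := by
              apply mul_le_mul hjx hr' (abs_nonneg _) (by linarith)
          _ = 1 / (4 * (k : ℝ)) := by
              field_simp
      have h3 : |(j : ℝ) * ((r.num : ℝ) / k) - w| ≤
          |(j : ℝ) * α - w| + |(j : ℝ) * (α - (r.num : ℝ) / k)| := by
        have h4 : (j : ℝ) * ((r.num : ℝ) / k) - w =
            ((j : ℝ) * α - w) + -((j : ℝ) * (α - (r.num : ℝ) / k)) := by ring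
        rw [h4]
        refine (abs_add_le _ _).trans ?_
        rw [abs_neg]
      have h5 : 3 / (4 * (k : ℝ)) = 1 / (k : ℝ) - 1 / (4 * (k : ℝ)) := by
        field_simp
        norm_num
      rw [h5]
      linarith
    have hβk : 3 / (4 * (k : ℝ)) ≤ nd α := by
      have h := hδ 1 (by
        intro h
        have h1 := Int.le_of_dvd one_pos h
        have h2 : (1 : ℤ) < k := by exact_mod_cast hk2
        omega) (by simpa using hx0)
      simpa using h
    -- one class
    have hcls : ∀ c : ℕ, ∑ m ∈ (Ioc x (2 * x)).filter (fun m => m / k = c), ‖Vm QQ m α‖ ^ 2 ≤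
        38 * R * QQ.card := by
      intro c
      have h := lsd_ls ((Ioc x (2 * x)).filter (fun m => m / k = c)) QQ R α (3 / (4 * (k : ℝ)))
        hQ (by positivity) (by linarith) (by
          intro y hy z hz hyz
          rw [mem_filter] at hy hz
          have h1 := hδ ((y : ℤ) - z) (by
            intro hd
            have h2 := Nat.div_add_mod y k
            have h3 := Nat.div_add_mod z k
            rw [hy.2] at h2
            rw [hz.2] at h3
            have h4 := Nat.mod_lt y (show 0 < k by omega)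
            have h5 := Nat.mod_lt z (show 0 < k by omega)
            have h6 : ((y : ℤ) - z) = (y % k : ℕ) - (z % k : ℕ) := by
              have h7 : (y : ℤ) = k * c + (y % k : ℕ) := by exact_mod_cast h2.symm
              have h8 : (z : ℤ) = k * c + (z % k : ℕ) := by exact_mod_cast h3.symm
              linarith
            have h7 : |(y : ℤ) - z| < k := by
              rw [h6, abs_lt]
              constructor <;> omega
            have h8 := Int.eq_zero_of_abs_lt_dvd hd h7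
            apply hyz
            omega) (by
            push_cast
            exact hdil y hy.1 z hz.1)
          push_cast at h1
          rw [sub_mul] at h1
          exact h1)
      refine h.trans ?_
      have h1 : 1 / (3 / (4 * (k : ℝ))) = 4 * k / 3 := by
        field_simp
      rw [h1]
      apply mul_le_mul_of_nonneg_right _ hQ0
      linarith
    -- all classes
    have hall : ∑ m ∈ Ioc x (2 * x), ‖Vm QQ m α‖ ^ 2 ≤ (x / k + 2) * (38 * R * QQ.card) := by
      have h1 := sum_fiberwise_of_maps_to (s := Ioc x (2 * x))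
        (t := (Ioc x (2 * x)).image (fun m => m / k)) (g := fun m => m / k)
        (fun m hm => mem_image_of_mem _ hm) (fun m => ‖Vm QQ m α‖ ^ 2)
      rw [← h1]
      calc _ ≤ ∑ c ∈ (Ioc x (2 * x)).image (fun m => m / k), 38 * R * (QQ.card : ℝ) :=
            sum_le_sum fun c _ => hcls c
        _ = ((Ioc x (2 * x)).image (fun m => m / k)).card * (38 * R * (QQ.card : ℝ)) := by
            rw [sum_const, nsmul_eq_mul]
        _ ≤ _ := mul_le_mul_of_nonneg_right (lsd_img x k hk) (by positivity)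
    refine hall.trans ?_
    have h1 : (x : ℝ) / k ≤ 2 * (x * nd α) := by
      have h2 : (x : ℝ) * (3 / (4 * (k : ℝ))) ≤ x * nd α :=
        mul_le_mul_of_nonneg_left hβk (by linarith)
      have h3 : (x : ℝ) * (3 / (4 * (k : ℝ))) = 3 / 4 * (x / k) := by
        field_simp
      have h4 : 0 ≤ (x : ℝ) / k := by positivity
      rw [h3] at h2
      linarith
    have h2 : (0 : ℝ) ≤ 38 * R * QQ.card := by positivity
    have h3 : (x : ℝ) / k + 2 ≤ 2 * (1 + x * nd α) := by linarith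
    have h4 := mul_le_mul_of_nonneg_right h3 h2
    linarith
  · -- k = 1
    have hk1' : k = 1 := le_antisymm hk1 hk
    have hkr : (k : ℝ) = 1 := by exact_mod_cast hk1'
    rw [hkr] at hr'
    simp only [div_one, mul_one] at hr'
    have hδ : ∀ y ∈ Ioc x (2 * x), ∀ z ∈ Ioc x (2 * x), y ≠ z →
        nd α ≤ nd ((y : ℝ) * α - z * α) := by
      intro y hy z hz hyz
      have h1 := hdil y hy z hz
      apply lsd_nd
      intro w
      have h2 : |((y : ℝ) * α - z * α) - (((y : ℤ) - z) * r.num : ℤ)| =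
          |(y : ℝ) - z| * |α - r.num| := by
        rw [← abs_mul]
        congr 1
        push_cast
        ring
      have h3 : |((y : ℝ) * α - z * α) - (((y : ℤ) - z) * r.num : ℤ)| ≤ 1 / 2 := by
        rw [h2]
        calc |(y : ℝ) - z| * |α - r.num| ≤ x * (1 / (4 * x)) :=
              mul_le_mul h1 hr' (abs_nonneg _) (by linarith)
          _ = 1 / 4 := by field_simp
          _ ≤ 1 / 2 := by norm_num
      refine le_trans ?_ (lsd_near _ _ w h3)
      rw [h2]
      have h4 : (1 : ℝ) ≤ |(y : ℝ) - z| := by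
        have h5 : (1 : ℤ) ≤ |(y : ℤ) - z| := Int.one_le_abs (sub_ne_zero.mpr (by
          exact_mod_cast hyz))
        have h6 : ((1 : ℤ) : ℝ) ≤ ((|(y : ℤ) - z| : ℤ) : ℝ) := Int.cast_le.mpr h5
        rw [Int.cast_abs] at h6
        push_cast at h6
        exact h6
      have h5 : nd α ≤ |α - r.num| := BVX.dd_le α r.num
      have h6 : |α - r.num| ≤ |(y : ℝ) - z| * |α - r.num| :=
        le_mul_of_one_le_left (abs_nonneg _) h4
      linarith
    have h := lsd_ls (Ioc x (2 * x)) QQ R α (nd α) hQ hnp (by linarith) hδ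
    refine h.trans ?_
    have h1 : 1 / nd α ≤ R := by
      rw [div_le_iff₀ hnp]
      exact hβ
    have h2 : 16 * ((R : ℝ) + 1 / nd α) * QQ.card ≤ 32 * R * QQ.card := by
      apply mul_le_mul_of_nonneg_right _ hQ0
      linarith
    refine h2.trans ?_
    have h3 : (0 : ℝ) ≤ R * QQ.card := by positivity
    have h4 : (32 : ℝ) ≤ 76 * (1 + x * nd α) := by
      have : 0 ≤ (x : ℝ) * nd α := by positivity
      linarith
    have h5 := mul_le_mul_of_nonneg_right h4 h3
    linarith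

end Pool.Agent.TLL
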