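import Mathlib
import Pool.Agent.TLL.St
import Pool.Agent.MT.Wt

set_option autoImplicit false

/-!
# TLL / MSQ: the mean square over `n` and `m`
-/

namespace Pool.Agent.TLL

open Finset Filter MeasureTheory
open Pool.Agent.GBQ (ee lam nd)
open Pool.Agent.MT (IsWt)
open Pool.Agent.AAN (SS)

private theorem Msq_ee_cont (r : ℝ) : Continuous fun α : ℝ => ee (α * r) := by
  unfold ee
  fun_prop

private theorem Msq_La_cont (η : ℝ → ℝ) (N : ℕ) : Continuous fun α : ℝ => La η N α := by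
  unfold La
  exact continuous_finsetSum _ fun x _ => continuous_const.mul (Msq_ee_cont x)

private theorem Msq_Wm_cont (QQ : Finset ℕ) (m : ℕ) : Continuous fun α : ℝ => Wm QQ m α := by
  unfold Wm
  exact continuous_finsetSum _ fun q _ => continuous_finsetSum _ fun r _ => Msq_ee_cont _

/-- powers of `u = X^(1/100)` -/
private theorem Msq_u (X : ℕ) (hX : 1 ≤ X) : ∃ u : ℝ, 1 ≤ u ∧ u = (X : ℝ) ^ (1 / 100 : ℝ) ∧
    u ^ 100 = X ∧ (X : ℝ) ^ (26 / 100 : ℝ) = u ^ 26 ∧ (X : ℝ) ^ (5 / 6 : ℝ) ≤ u ^ 84 := by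
  have hX0 : (0 : ℝ) ≤ X := Nat.cast_nonneg X
  have hX1 : (1 : ℝ) ≤ X := by exact_mod_cast hX
  have h1 : 1 ≤ (X : ℝ) ^ (1 / 100 : ℝ) := Real.one_le_rpow hX1 (by norm_num)
  refine ⟨(X : ℝ) ^ (1 / 100 : ℝ), h1, rfl, ?_, ?_, ?_⟩
  · rw [← Real.rpow_natCast, ← Real.rpow_mul hX0]
    norm_num
  · rw [← Real.rpow_natCast, ← Real.rpow_mul hX0]
    norm_num
  · rw [← Real.rpow_natCast, ← Real.rpow_mul hX0]
    exact Real.rpow_le_rpow_of_exponent_le hX1 (by norm_num)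

/-- the sizes of `R` and `D` -/
private theorem Msq_size (X x : ℕ) (u Y : ℝ) (hu : u ^ 100 = X) (hu3 : 3 ≤ u) (hx1 : 1 ≤ x)
    (hxu : (x : ℝ) ≤ u ^ 26) (hY : 3 ≤ Y) (hYu : Y ≤ u) :
    64 * x ^ 2 ≤ X ∧ 2 < (X : ℝ) / (Y ^ 4 * x) ∧ (X : ℝ) / (Y ^ 4 * x) ≤ ((X / (16 * x) : ℕ) : ℝ) ∧
    Y ^ 9 * (x : ℝ) ^ 3 ≤ X ∧ ((X / (16 * x) : ℕ) : ℝ) ≤ X / (16 * x) := by
  have hx0 : (0 : ℝ) < x := by exact_mod_cast hx1
  have hx1r : (1 : ℝ) ≤ x := by exact_mod_cast hx1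
  have hu0 : (0 : ℝ) < u := by linarith
  have hu1 : (1 : ℝ) ≤ u := by linarith
  have hY0 : (0 : ℝ) < Y := by linarith
  have hux2 : (x : ℝ) ^ 2 ≤ u ^ 52 := by
    have := pow_le_pow_left₀ hx0.le hxu 2
    rwa [← pow_mul] at this
  have hux3 : (x : ℝ) ^ 3 ≤ u ^ 78 := by
    have := pow_le_pow_left₀ hx0.le hxu 3
    rwa [← pow_mul] at this
  have h64 : (64 : ℝ) ≤ u ^ 48 := by
    have h1 : (3 : ℝ) ^ 4 ≤ u ^ 4 := pow_le_pow_left₀ (by norm_num) hu3 4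
    have h2 : u ^ 4 ≤ u ^ 48 := pow_le_pow_right₀ hu1 (by norm_num)
    norm_num at h1
    linarith
  have h1 : 64 * (x : ℝ) ^ 2 ≤ X := by
    have h2 : (64 : ℝ) * (x : ℝ) ^ 2 ≤ u ^ 48 * u ^ 52 :=
      mul_le_mul h64 hux2 (by positivity) (by positivity)
    rw [← hu]
    have h3 : u ^ 48 * u ^ 52 = u ^ 100 := by ring
    linarith
  have hD : 2 < (X : ℝ) / (Y ^ 4 * x) := by
    rw [lt_div_iff₀ (by positivity)]
    have h2 : Y ^ 4 ≤ u ^ 4 := pow_le_pow_left₀ hY0.le hYu 4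
    have h3 : Y ^ 4 * (x : ℝ) ≤ u ^ 4 * u ^ 26 := mul_le_mul h2 hxu hx0.le (by positivity)
    have h4 : u ^ 4 * u ^ 26 = u ^ 30 := by ring
    have h5 : (2 : ℝ) < u := by linarith
    have h6 : 2 * u ^ 30 < u * u ^ 30 := mul_lt_mul_of_pos_right h5 (by positivity)
    have h7 : u * u ^ 30 = u ^ 31 := by ring
    have h8 : u ^ 31 ≤ u ^ 100 := pow_le_pow_right₀ hu1 (by norm_num)
    rw [← hu]
    linarith
  have h32 : 32 * (x : ℝ) ≤ X := by nlinarith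
  refine ⟨by exact_mod_cast h1, hD, ?_, ?_, ?_⟩
  · have h2 : (X : ℝ) / (16 * x) - 1 ≤ ((X / (16 * x) : ℕ) : ℝ) := by
      have h3 : X < (16 * x) * (X / (16 * x) + 1) := Nat.lt_mul_div_succ X (by omega)
      have h4 : (X : ℝ) < (16 * x) * (((X / (16 * x) : ℕ) : ℝ) + 1) := by exact_mod_cast h3
      have h5 : (X : ℝ) / (16 * x) < ((X / (16 * x) : ℕ) : ℝ) + 1 := by
        rw [div_lt_iff₀ (by positivity)]
        linarith
      linarith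
    refine le_trans ?_ h2
    have h81 : (81 : ℝ) ≤ Y ^ 4 := by
      have h3 : (3 : ℝ) ^ 4 ≤ Y ^ 4 := pow_le_pow_left₀ (by norm_num) hY 4
      norm_num at h3
      exact h3
    have h3 : (X : ℝ) / (Y ^ 4 * x) ≤ X / (81 * x) :=
      div_le_div_of_nonneg_left (Nat.cast_nonneg X) (by positivity)
        (mul_le_mul_of_nonneg_right h81 hx0.le)
    refine h3.trans ?_
    have h4 : (X : ℝ) / (16 * x) = X / x / 16 := by field_simp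
    have h5 : (X : ℝ) / (81 * x) = X / x / 81 := by field_simp
    have h6 : 32 ≤ (X : ℝ) / x := by
      rw [le_div_iff₀ hx0]
      exact h32
    rw [h4, h5]
    linarith
  · have h2 : Y ^ 9 ≤ u ^ 9 := pow_le_pow_left₀ hY0.le hYu 9
    have h3 : Y ^ 9 * (x : ℝ) ^ 3 ≤ u ^ 9 * u ^ 78 := mul_le_mul h2 hux3 (by positivity) (by positivity)
    have h4 : u ^ 9 * u ^ 78 = u ^ 87 := by ring
    have h5 : u ^ 87 ≤ u ^ 100 := pow_le_pow_right₀ hu1 (by norm_num)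
    rw [← hu]
    linarith
  · have h3 : (16 * x) * (X / (16 * x)) ≤ X := Nat.mul_div_le X (16 * x)
    rw [le_div_iff₀ (by positivity)]
    have h4 : ((16 * x : ℕ) : ℝ) * ((X / (16 * x) : ℕ) : ℝ) ≤ X := by exact_mod_cast h3
    push_cast at h4
    linarith

/-- the bound for `La` on the minor arcs -/
private noncomputable def Msq_S (C X x : ℕ) (Y : ℝ) : ℝ :=
  C * (((X + X / 4 : ℕ) : ℝ) / Real.sqrt (x * Y ^ 4) + ((X + X / 4 : ℕ) : ℝ) ^ (5 / 6 : ℝ) +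
    Real.sqrt (((X + X / 4 : ℕ) : ℝ) * ((X : ℝ) / (Y ^ 4 * x)))) *
    Real.log ((X + X / 4 : ℕ) : ℝ) ^ C

private theorem Msq_hyp (η : ℝ → ℝ) (C X x : ℕ) (u Y : ℝ) (QQ : Finset ℕ)
    (hC : ∀ (X : ℕ) (α : ℝ) (a : ℤ) (q : ℕ),
      3 ≤ X → 1 ≤ q → Int.gcd a q = 1 → |α - a / q| ≤ 1 / (q : ℝ) ^ 2 →
      ‖∑ x ∈ range (X + 1), ((lam x * η ((x : ℝ) / X) : ℝ) : ℂ) * ee (α * x)‖ ≤
        C * (X / Real.sqrt q + (X : ℝ) ^ (5 / 6 : ℝ) + Real.sqrt (X * q)) * Real.log X ^ C)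
    (hX3 : 3 ≤ X) (hu : u ^ 100 = X) (hu3 : 3 ≤ u) (hx1 : 1 ≤ x)
    (hxu : (x : ℝ) ≤ u ^ 26) (hY : 3 ≤ Y) (hYu : Y ≤ u)
    (hQ : ∀ q ∈ QQ, 1 ≤ q ∧ 16 * x * q ≤ X) :
    Hyp η (X + X / 4) x (X / (16 * x)) QQ Y ((X : ℝ) / (Y ^ 4 * x)) (Msq_S C X x Y) := by
  obtain ⟨h1, h2, h3, h4, h5⟩ := Msq_size X x u Y hu hu3 hx1 hxu hY hYu
  have hx0 : (0 : ℝ) < x := by exact_mod_cast hx1
  have hY0 : (0 : ℝ) < Y := by linarith
  have hN3 : 3 ≤ X + X / 4 := by omega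
  have hlog : 0 ≤ Real.log ((X + X / 4 : ℕ) : ℝ) :=
    Real.log_nonneg (by exact_mod_cast (by omega : 1 ≤ X + X / 4))
  refine ⟨hx1, ?_, ?_, hY, h2, h3, ?_, ?_⟩
  · rw [Nat.le_div_iff_mul_le (by omega)]
    nlinarith
  · intro q hq
    obtain ⟨g1, g2⟩ := hQ q hq
    refine ⟨g1, ?_⟩
    rw [Nat.le_div_iff_mul_le (by omega)]
    linarith
  · unfold Msq_S
    have := Real.rpow_nonneg (Nat.cast_nonneg (X + X / 4) : (0 : ℝ) ≤ _) (5 / 6 : ℝ)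
    positivity
  · intro β k a hk1 hk2 hcop hβ
    have hk0 : (0 : ℝ) < k := lt_of_le_of_lt (by positivity) hk1
    have hk1' : 1 ≤ k := by exact_mod_cast hk0
    have h6 := hC (X + X / 4) β a k hN3 hk1' (Int.isCoprime_iff_gcd_eq_one.1 hcop) hβ
    have h7 : La η (X + X / 4) β = ∑ x ∈ range (X + X / 4 + 1),
        ((lam x * η ((x : ℝ) / ((X + X / 4 : ℕ) : ℝ)) : ℝ) : ℂ) * ee (β * x) := rfl
    rw [h7]
    refine h6.trans ?_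
    unfold Msq_S
    refine mul_le_mul_of_nonneg_right ?_ (pow_nonneg hlog _)
    refine mul_le_mul_of_nonneg_left ?_ (Nat.cast_nonneg C)
    refine add_le_add (add_le_add ?_ le_rfl) ?_
    · refine div_le_div_of_nonneg_left (Nat.cast_nonneg _) (Real.sqrt_pos.2 (by positivity)) ?_
      exact Real.sqrt_le_sqrt hk1.le
    · refine Real.sqrt_le_sqrt ?_
      exact mul_le_mul_of_nonneg_left hk2 (Nat.cast_nonneg _)

private theorem Msq_S2 (C X x : ℕ) (u Y : ℝ) (hX3 : 3 ≤ X) (hu : u ^ 100 = X) (hu3 : 3 ≤ u)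
    (hx1 : 1 ≤ x) (hxu : (x : ℝ) ≤ u ^ 26) (hY : 3 ≤ Y) (hYu : Y ≤ u)
    (h56 : (X : ℝ) ^ (5 / 6 : ℝ) ≤ u ^ 84) :
    Msq_S C X x Y ^ 2 * (x : ℝ) ^ 2 ≤
      30 * (C : ℝ) ^ 2 * (2 * Real.log X) ^ (2 * C) * (x * (X : ℝ) ^ 2 / Y) := by
  have hx0 : (0 : ℝ) < x := by exact_mod_cast hx1
  have hY0 : (0 : ℝ) < Y := by linarith
  have hY1 : (1 : ℝ) ≤ Y := by linarith
  have hu0 : (0 : ℝ) < u := by linarith
  have hu1 : (1 : ℝ) ≤ u := by linarith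
  have hX3r : (3 : ℝ) ≤ X := by exact_mod_cast hX3
  have hX0 : (0 : ℝ) < X := by linarith
  set N : ℝ := ((X + X / 4 : ℕ) : ℝ) with hN
  have hNX : N ≤ 2 * X := by
    rw [hN]
    exact_mod_cast (by omega : X + X / 4 ≤ 2 * X)
  have hXN : (X : ℝ) ≤ N := by
    rw [hN]
    exact_mod_cast (by omega : X ≤ X + X / 4)
  have hN0 : 0 < N := by linarith
  have hlogN : Real.log N ≤ 2 * Real.log X := by
    have h1 : N ≤ (X : ℝ) ^ 2 := by nlinarith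
    have h2 := Real.log_le_log hN0 h1
    rw [Real.log_pow] at h2
    exact_mod_cast h2
  have hlogN0 : 0 ≤ Real.log N := Real.log_nonneg (by linarith)
  set a : ℝ := N / Real.sqrt (x * Y ^ 4) with ha
  set b : ℝ := N ^ (5 / 6 : ℝ) with hb
  set c : ℝ := Real.sqrt (N * ((X : ℝ) / (Y ^ 4 * x))) with hc
  have ha2 : a ^ 2 = N ^ 2 / (x * Y ^ 4) := by
    rw [ha, div_pow, Real.sq_sqrt (by positivity)]
  have hb0 : 0 ≤ b := Real.rpow_nonneg hN0.le _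
  have hb1 : b ≤ 2 * u ^ 84 := by
    have h1 : b ≤ (2 * X) ^ (5 / 6 : ℝ) := Real.rpow_le_rpow hN0.le hNX (by norm_num)
    rw [Real.mul_rpow (by norm_num) hX0.le] at h1
    have h2 : (2 : ℝ) ^ (5 / 6 : ℝ) ≤ 2 := by
      have := Real.rpow_le_rpow_of_exponent_le (by norm_num : (1 : ℝ) ≤ 2)
        (by norm_num : (5 / 6 : ℝ) ≤ 1)
      rwa [Real.rpow_one] at this
    exact h1.trans (mul_le_mul h2 h56 (Real.rpow_nonneg hX0.le _) (by norm_num))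
  have hb2 : b ^ 2 ≤ 4 * u ^ 168 := by
    have := pow_le_pow_left₀ hb0 hb1 2
    have h1 : (2 * u ^ 84) ^ 2 = 4 * u ^ 168 := by ring
    linarith
  have hc2 : c ^ 2 = N * ((X : ℝ) / (Y ^ 4 * x)) := by
    rw [hc, Real.sq_sqrt (by positivity)]
  have hS : Msq_S C X x Y ^ 2 ≤ (C : ℝ) ^ 2 * (2 * Real.log X) ^ (2 * C) *
      (3 * (a ^ 2 + b ^ 2 + c ^ 2)) := by
    have h1 : Msq_S C X x Y = C * (a + b + c) * Real.log N ^ C := rfl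
    rw [h1]
    have h2 : (C * (a + b + c) * Real.log N ^ C) ^ 2 =
        (C : ℝ) ^ 2 * Real.log N ^ (2 * C) * (a + b + c) ^ 2 := by
      rw [mul_pow, mul_pow, ← pow_mul, mul_comm C 2]
      ring
    rw [h2]
    have h3 : (a + b + c) ^ 2 ≤ 3 * (a ^ 2 + b ^ 2 + c ^ 2) := by
      nlinarith [sq_nonneg (a - b), sq_nonneg (b - c), sq_nonneg (a - c)]
    have h4 : Real.log N ^ (2 * C) ≤ (2 * Real.log X) ^ (2 * C) :=
      pow_le_pow_left₀ hlogN0 hlogN _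
    have h5 : (C : ℝ) ^ 2 * Real.log N ^ (2 * C) ≤ (C : ℝ) ^ 2 * (2 * Real.log X) ^ (2 * C) :=
      mul_le_mul_of_nonneg_left h4 (sq_nonneg _)
    exact mul_le_mul h5 h3 (sq_nonneg _) (le_trans (by positivity) h5)
  have hsum : (a ^ 2 + b ^ 2 + c ^ 2) * (x : ℝ) ^ 2 ≤ 10 * (x * (X : ℝ) ^ 2 / Y) := by
    have hY4 : Y ≤ Y ^ 4 := by
      have := pow_le_pow_right₀ hY1 (by norm_num : 1 ≤ 4)
      rwa [pow_one] at this
    have e0 : x * (X : ℝ) ^ 2 / Y ^ 4 ≤ x * (X : ℝ) ^ 2 / Y :=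
      div_le_div_of_nonneg_left (by positivity) hY0 hY4
    have e1 : a ^ 2 * (x : ℝ) ^ 2 ≤ 4 * (x * (X : ℝ) ^ 2 / Y) := by
      have g1 : N ^ 2 ≤ 4 * (X : ℝ) ^ 2 := by nlinarith
      have g2 : a ^ 2 * (x : ℝ) ^ 2 = N ^ 2 * (x / Y ^ 4) := by
        rw [ha2]
        field_simp
      rw [g2]
      have g3 := mul_le_mul_of_nonneg_right g1 (by positivity : (0 : ℝ) ≤ x / Y ^ 4)
      have g4 : 4 * (X : ℝ) ^ 2 * (x / Y ^ 4) = 4 * (x * (X : ℝ) ^ 2 / Y ^ 4) := by ring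
      linarith
    have e2 : c ^ 2 * (x : ℝ) ^ 2 ≤ 2 * (x * (X : ℝ) ^ 2 / Y) := by
      have g2 : c ^ 2 * (x : ℝ) ^ 2 = N * (X * x / Y ^ 4) := by
        rw [hc2]
        field_simp
      rw [g2]
      have g3 := mul_le_mul_of_nonneg_right hNX (by positivity : (0 : ℝ) ≤ X * x / Y ^ 4)
      have g4 : 2 * (X : ℝ) * (X * x / Y ^ 4) = 2 * (x * (X : ℝ) ^ 2 / Y ^ 4) := by ring
      linarith
    have e3 : b ^ 2 * (x : ℝ) ^ 2 ≤ 4 * (x * (X : ℝ) ^ 2 / Y) := by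
      have g1 : x * Y * u ^ 168 ≤ (X : ℝ) ^ 2 := by
        have k1 : x * Y ≤ u ^ 26 * u := mul_le_mul hxu hYu hY0.le (by positivity)
        have k2 : x * Y * u ^ 168 ≤ u ^ 26 * u * u ^ 168 :=
          mul_le_mul_of_nonneg_right k1 (by positivity)
        have k3 : u ^ 26 * u * u ^ 168 = u ^ 195 := by ring
        have k4 : u ^ 195 ≤ u ^ 200 := pow_le_pow_right₀ hu1 (by norm_num)
        have k5 : (X : ℝ) ^ 2 = u ^ 200 := by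
          rw [← hu, ← pow_mul]
        linarith
      have g2 : u ^ 168 * (x : ℝ) ^ 2 ≤ x * (X : ℝ) ^ 2 / Y := by
        rw [le_div_iff₀ hY0]
        have := mul_le_mul_of_nonneg_left g1 hx0.le
        nlinarith
      have g3 := mul_le_mul_of_nonneg_right hb2 (sq_nonneg (x : ℝ))
      linarith
    nlinarith
  calc Msq_S C X x Y ^ 2 * (x : ℝ) ^ 2 ≤ (C : ℝ) ^ 2 * (2 * Real.log X) ^ (2 * C) *
      (3 * (a ^ 2 + b ^ 2 + c ^ 2)) * (x : ℝ) ^ 2 :=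
        mul_le_mul_of_nonneg_right hS (sq_nonneg _)
    _ = (C : ℝ) ^ 2 * (2 * Real.log X) ^ (2 * C) *
      (3 * ((a ^ 2 + b ^ 2 + c ^ 2) * (x : ℝ) ^ 2)) := by ring
    _ ≤ (C : ℝ) ^ 2 * (2 * Real.log X) ^ (2 * C) * (3 * (10 * (x * (X : ℝ) ^ 2 / Y))) := by
        have hL0 : 0 ≤ Real.log X := Real.log_nonneg (by linarith)
        refine mul_le_mul_of_nonneg_left ?_ (by positivity)
        linarith
    _ = _ := by ring

/-- the final arithmetic -/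
private theorem Msq_alg {C₂ L N lN h x X Y R D c S RR Z : ℝ} (hC₂ : 0 < C₂) (hx : 1 ≤ x)
    (hX : 1 ≤ X) (hY : 1 ≤ Y) (hR0 : 0 ≤ R) (hc0 : 0 ≤ c) (hcR : c ≤ R) (hR : R ≤ X / (16 * x))
    (hD : D = X / (Y ^ 4 * x)) (_hh0 : 0 ≤ h) (hh : h ^ 2 ≤ X) (hYx : Y ^ 9 * x ^ 3 ≤ X)
    (hN0 : 0 ≤ N) (hN : N ≤ 2 * X) (hlN0 : 0 ≤ lN) (hlN : lN ≤ 2 * L)
    (hRR : RR ≤ X * Z / Y) (_hZ : 0 ≤ Z) {E : ℝ} (hS : S ^ 2 * x ^ 2 ≤ E * (x * X ^ 2 / Y)) :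
    C₂ * ((h / D) ^ 2 * x ^ 3 * c ^ 2 + x ^ 2 * R * c / Y) * (N * lN ^ 2) +
      8 * S ^ 2 * (x ^ 2 * c) + C₂ * x ^ 2 * R * c * RR ≤
    (C₂ * L ^ 2 + 8 * E + C₂ * Z) * (c * (x * X ^ 2 / Y)) := by
  have hx0 : 0 < x := by linarith
  have hX0 : 0 < X := by linarith
  have hY0 : 0 < Y := by linarith
  set B : ℝ := x * X / Y with hB
  have hB0 : 0 ≤ B := by positivity
  have hBX : x * X ^ 2 / Y = B * X := by rw [hB]; field_simp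
  rw [hBX] at hS ⊢
  have a1 : (h / D) ^ 2 ≤ (Y ^ 4 * x) ^ 2 / X := by
    rw [hD, div_div_eq_mul_div, div_pow, mul_pow]
    have g1 : h ^ 2 * (Y ^ 4 * x) ^ 2 ≤ X * (Y ^ 4 * x) ^ 2 :=
      mul_le_mul_of_nonneg_right hh (sq_nonneg _)
    have g2 : (Y ^ 4 * x) ^ 2 / X = X * (Y ^ 4 * x) ^ 2 / X ^ 2 := by field_simp
    rw [g2]
    exact div_le_div_of_nonneg_right g1 (sq_nonneg _)
  have hcX : c ≤ X / (16 * x) := hcR.trans hR
  have a2 : c ^ 2 ≤ c * (X / (16 * x)) := by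
    rw [sq]
    exact mul_le_mul_of_nonneg_left hcX hc0
  have a3 : (h / D) ^ 2 * x ^ 3 * c ^ 2 ≤ c * B / 16 := by
    have g1 : (h / D) ^ 2 * x ^ 3 * c ^ 2 ≤
        (Y ^ 4 * x) ^ 2 / X * x ^ 3 * (c * (X / (16 * x))) :=
      mul_le_mul (mul_le_mul_of_nonneg_right a1 (by positivity)) a2 (sq_nonneg _) (by positivity)
    have g2 : (Y ^ 4 * x) ^ 2 / X * x ^ 3 * (c * (X / (16 * x))) =
        c * (Y ^ 8 * x ^ 4) / 16 := by
      field_simp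
    have g3 : Y ^ 8 * x ^ 4 ≤ B := by
      rw [hB, le_div_iff₀ hY0]
      have := mul_le_mul_of_nonneg_left hYx hx0.le
      nlinarith
    have g4 := mul_le_mul_of_nonneg_left g3 hc0
    rw [g2] at g1
    linarith
  have a4 : x ^ 2 * R * c / Y ≤ c * B / 16 := by
    have g1 : x ^ 2 * R * c / Y = x ^ 2 * c / Y * R := by ring
    have g2 := mul_le_mul_of_nonneg_left hR (by positivity : 0 ≤ x ^ 2 * c / Y)
    have g3 : x ^ 2 * c / Y * (X / (16 * x)) = c * B / 16 := by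
      rw [hB]
      field_simp
    rw [g1]
    linarith
  have a5 : N * lN ^ 2 ≤ 8 * X * L ^ 2 := by
    have g1 : lN ^ 2 ≤ (2 * L) ^ 2 := pow_le_pow_left₀ hlN0 hlN 2
    have g2 := mul_le_mul hN g1 (sq_nonneg _) (by linarith)
    have g3 : 2 * X * (2 * L) ^ 2 = 8 * X * L ^ 2 := by ring
    linarith
  have t1 : C₂ * ((h / D) ^ 2 * x ^ 3 * c ^ 2 + x ^ 2 * R * c / Y) * (N * lN ^ 2) ≤
      C₂ * L ^ 2 * (c * (B * X)) := by
    have g1 : (h / D) ^ 2 * x ^ 3 * c ^ 2 + x ^ 2 * R * c / Y ≤ c * B / 8 := by linarith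
    have g2 : 0 ≤ (h / D) ^ 2 * x ^ 3 * c ^ 2 + x ^ 2 * R * c / Y := by positivity
    have g3 : C₂ * ((h / D) ^ 2 * x ^ 3 * c ^ 2 + x ^ 2 * R * c / Y) ≤ C₂ * (c * B / 8) :=
      mul_le_mul_of_nonneg_left g1 hC₂.le
    have g4 := mul_le_mul g3 a5 (by positivity) (by positivity)
    refine g4.trans (le_of_eq ?_)
    ring
  have t2 : 8 * S ^ 2 * (x ^ 2 * c) ≤ 8 * E * (c * (B * X)) := by
    have g1 := mul_le_mul_of_nonneg_left hS hc0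
    nlinarith
  have t3 : C₂ * x ^ 2 * R * c * RR ≤ C₂ * Z * (c * (B * X)) := by
    have g1 : C₂ * x ^ 2 * R * c * RR ≤ C₂ * x ^ 2 * R * c * (X * Z / Y) :=
      mul_le_mul_of_nonneg_left hRR (by positivity)
    have g2 : C₂ * x ^ 2 * R * c * (X * Z / Y) = C₂ * X * Z * (x ^ 2 * R * c / Y) := by ring
    have g3 := mul_le_mul_of_nonneg_left a4 (by positivity : 0 ≤ C₂ * X * Z)
    have g4 : C₂ * X * Z * (c * B / 16) ≤ C₂ * Z * (c * (B * X)) := by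
      have : 0 ≤ C₂ * Z * (c * (B * X)) := by positivity
      have g5 : C₂ * X * Z * (c * B / 16) = C₂ * Z * (c * (B * X)) / 16 := by ring
      linarith
    linarith
  have := add_le_add (add_le_add t1 t2) t3
  refine this.trans (le_of_eq ?_)
  ring

private theorem Msq_pow {L C₂ : ℝ} (C₁ C₃ : ℕ) (hC₂ : 0 < C₂)
    (hL : 1 + C₂ + 240 * (C₁ : ℝ) ^ 2 * 4 ^ C₁ + C₂ ≤ L) :
    C₂ * L ^ 2 + 8 * (30 * (C₁ : ℝ) ^ 2 * (2 * L) ^ (2 * C₁)) + C₂ * L ^ C₃ ≤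
      L ^ (2 * C₁ + C₃ + 3) := by
  have h0 : 0 ≤ 240 * (C₁ : ℝ) ^ 2 * 4 ^ C₁ := by positivity
  have hL1 : 1 ≤ L := by linarith
  have hL0 : 0 ≤ L := by linarith
  have e1 : L ^ 2 ≤ L ^ (2 * C₁ + C₃ + 2) := pow_le_pow_right₀ hL1 (by omega)
  have e2 : L ^ C₃ ≤ L ^ (2 * C₁ + C₃ + 2) := pow_le_pow_right₀ hL1 (by omega)
  have e3 : L ^ (2 * C₁) ≤ L ^ (2 * C₁ + C₃ + 2) := pow_le_pow_right₀ hL1 (by omega)
  have e4 : (2 * L) ^ (2 * C₁) = 4 ^ C₁ * L ^ (2 * C₁) := by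
    rw [mul_pow, pow_mul (2 : ℝ) 2 C₁]
    norm_num
  rw [e4]
  have e5 := mul_le_mul_of_nonneg_left e1 hC₂.le
  have e6 := mul_le_mul_of_nonneg_left e2 hC₂.le
  have e7 := mul_le_mul_of_nonneg_left e3 h0
  have e8 : 8 * (30 * (C₁ : ℝ) ^ 2 * (4 ^ C₁ * L ^ (2 * C₁))) =
      240 * (C₁ : ℝ) ^ 2 * 4 ^ C₁ * L ^ (2 * C₁) := by ring
  rw [e8]
  have e9 : L ^ (2 * C₁ + C₃ + 3) = L * L ^ (2 * C₁ + C₃ + 2) := by ring
  rw [e9]
  have e10 := mul_le_mul_of_nonneg_right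
    (by linarith : C₂ + 240 * (C₁ : ℝ) ^ 2 * 4 ^ C₁ + C₂ ≤ L)
    (by positivity : 0 ≤ L ^ (2 * C₁ + C₃ + 2))
  linarith

theorem thm_Msq (h1 : St_Dif) (h2 : St_Int) (h3 : St_Res) (h4 : GBQ.St_MinLam) : St_Msq := by
  obtain ⟨η, hη⟩ := Pool.Agent.MT.exists_wt
  obtain ⟨C₂, hC₂, hInt⟩ := h2
  obtain ⟨C₃, hRes⟩ := h3 η hη
  obtain ⟨C₁, hMin⟩ := h4 η hη
  refine ⟨2 * C₁ + C₃ + 3, ?_⟩
  have hlog : ∀ᶠ X : ℕ in atTop, 1 + C₂ + 240 * (C₁ : ℝ) ^ 2 * 4 ^ C₁ + C₂ ≤ Real.log X :=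
    (Real.tendsto_log_atTop.comp tendsto_natCast_atTop_atTop).eventually_ge_atTop _
  filter_upwards [hlog, hRes, eventually_ge_atTop 64] with X hX hXres hX64
  intro x h Y QQ F hY hYX hYx hxX hh hQ hF
  obtain ⟨u, hu1, hu, hu100, hu26, hu84⟩ := Msq_u X (by omega)
  rw [← hu] at hYX
  have hYu : Y ≤ u := hYX
  have hxu : (x : ℝ) ≤ u ^ 26 := by rw [← hu26]; exact hxX
  have hu3 : 3 ≤ u := hY.trans hYu
  have hY0 : (0 : ℝ) < Y := by linarith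
  have hx1 : 1 ≤ x := by
    have h5 : (0 : ℝ) < x := lt_of_lt_of_le (by positivity) hYx
    exact_mod_cast h5
  obtain ⟨s1, s2, s3, s4, s5⟩ := Msq_size X x u Y hu100 hu3 hx1 hxu hY hYu
  have hyp := Msq_hyp η C₁ X x u Y QQ hMin (by omega) hu100 hu3 hx1 hxu hY hYu hQ
  have hS2 := Msq_S2 C₁ X x u Y (by omega) hu100 hu3 hx1 hxu hY hYu hu84
  have hRI := hXres x Y hY (by rw [← hu]; exact hYu) hYx hxX
  have hI := hInt η hη (X + X / 4) x (X / (16 * x)) h QQ Y ((X : ℝ) / (Y ^ 4 * x))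
    (Msq_S C₁ X x Y) (by omega) hyp
  -- the sum over `m`
  have hdif : ∑ m ∈ Ioc x (2 * x), ∑ n ∈ F m, (SS QQ m (n + h) - SS QQ m n) ^ 2 ≤
      ∑ m ∈ Ioc x (2 * x), ∫ α in (-(1 / 2) : ℝ)..(1 / 2),
        ‖1 - ee (α * h)‖ ^ 2 * ‖Wm QQ m α‖ ^ 2 * ‖La η (X + X / 4) α‖ ^ 2 := by
    refine sum_le_sum fun m hm => ?_
    obtain ⟨hm1, hm2⟩ := mem_Ioc.1 hm
    refine h1 η hη X (X + X / 4) m h QQ (F m) hX64 rfl (by omega) ?_ hh ?_ (hF m hm)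
    · nlinarith
    · intro q hq
      obtain ⟨g1, g2⟩ := hQ q hq
      nlinarith
  have hcont : ∀ m : ℕ, Continuous fun α : ℝ =>
      ‖1 - ee (α * h)‖ ^ 2 * ‖Wm QQ m α‖ ^ 2 * ‖La η (X + X / 4) α‖ ^ 2 := fun m =>
    (((continuous_const.sub (Msq_ee_cont h)).norm.pow 2).mul
      ((Msq_Wm_cont QQ m).norm.pow 2)).mul ((Msq_La_cont η (X + X / 4)).norm.pow 2)
  have hswap : ∑ m ∈ Ioc x (2 * x), ∫ α in (-(1 / 2) : ℝ)..(1 / 2),
        ‖1 - ee (α * h)‖ ^ 2 * ‖Wm QQ m α‖ ^ 2 * ‖La η (X + X / 4) α‖ ^ 2 =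
      ∫ α in (-(1 / 2) : ℝ)..(1 / 2), ‖1 - ee (α * h)‖ ^ 2 *
        (∑ m ∈ Ioc x (2 * x), ‖Wm QQ m α‖ ^ 2) * ‖La η (X + X / 4) α‖ ^ 2 := by
    rw [← intervalIntegral.integral_finsetSum
      (fun m _ => (hcont m).intervalIntegrable _ _)]
    refine intervalIntegral.integral_congr fun α _ => ?_
    show ∑ m ∈ Ioc x (2 * x),
        ‖1 - ee (α * h)‖ ^ 2 * ‖Wm QQ m α‖ ^ 2 * ‖La η (X + X / 4) α‖ ^ 2 =
      ‖1 - ee (α * h)‖ ^ 2 * (∑ m ∈ Ioc x (2 * x), ‖Wm QQ m α‖ ^ 2) *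
        ‖La η (X + X / 4) α‖ ^ 2
    rw [mul_sum, sum_mul]
  refine hdif.trans (hswap.trans_le (hI.trans ?_))
  have hXr : (64 : ℝ) ≤ X := by exact_mod_cast hX64
  have hNX : ((X + X / 4 : ℕ) : ℝ) ≤ 2 * X := by
    exact_mod_cast (by omega : X + X / 4 ≤ 2 * X)
  have hXN : (X : ℝ) ≤ ((X + X / 4 : ℕ) : ℝ) := by
    exact_mod_cast (by omega : X ≤ X + X / 4)
  have hlogN : Real.log ((X + X / 4 : ℕ) : ℝ) ≤ 2 * Real.log X := by
    have e1 : ((X + X / 4 : ℕ) : ℝ) ≤ (X : ℝ) ^ 2 := by nlinarith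
    have e2 := Real.log_le_log (by linarith : (0 : ℝ) < ((X + X / 4 : ℕ) : ℝ)) e1
    rw [Real.log_pow] at e2
    exact_mod_cast e2
  have hL0 : 0 ≤ Real.log X := Real.log_nonneg (by linarith)
  have hcR : (QQ.card : ℝ) ≤ ((X / (16 * x) : ℕ) : ℝ) := by
    have e1 : QQ ⊆ Icc 1 (X / (16 * x)) := by
      intro q hq
      obtain ⟨g1, g2⟩ := hQ q hq
      rw [mem_Icc]
      refine ⟨g1, ?_⟩
      rw [Nat.le_div_iff_mul_le (by omega)]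
      linarith
    have e2 := card_le_card e1
    rw [Nat.card_Icc, Nat.add_sub_cancel] at e2
    exact_mod_cast e2
  have halg := Msq_alg (C₂ := C₂) (L := Real.log X) (N := ((X + X / 4 : ℕ) : ℝ))
    (lN := Real.log ((X + X / 4 : ℕ) : ℝ)) (h := h) (x := x) (X := X) (Y := Y)
    (R := ((X / (16 * x) : ℕ) : ℝ)) (D := (X : ℝ) / (Y ^ 4 * x)) (c := QQ.card)
    (S := Msq_S C₁ X x Y) (RR := RI η (X + X / 4) x Y ((X : ℝ) / (Y ^ 4 * x)))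
    (Z := Real.log X ^ C₃) hC₂ (by exact_mod_cast hx1) (by linarith) (by linarith)
    (Nat.cast_nonneg _) (Nat.cast_nonneg _) hcR s5 rfl (Nat.cast_nonneg _)
    (by exact_mod_cast hh) s4 (by linarith) hNX (Real.log_nonneg (by linarith)) hlogN hRI
    (pow_nonneg hL0 _) hS2
  refine halg.trans ?_
  have hp := Msq_pow (L := Real.log X) C₁ C₃ hC₂ hX
  have hB0 : 0 ≤ (QQ.card : ℝ) * (x * (X : ℝ) ^ 2 / Y) := by positivity
  refine (mul_le_mul_of_nonneg_right hp hB0).trans (le_of_eq ?_)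
  ring

end Pool.Agent.TLL
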