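import Pool.Agent.TLL.St
import Pool.Agent.GBQ.L2

set_option autoImplicit false

/-!
# TLL / Par: Parseval (helper32)
-/

namespace Pool.Agent.TLL

open Finset Filter MeasureTheory
open Pool.Agent.GBQ (ee lam nd Admissible)

private theorem Par_cont (r : ℝ) : Continuous fun α : ℝ => ee (α * r) := by
  unfold ee
  fun_prop

private theorem Par_int (k : ℤ) (hk : k ≠ 0) :
    ∫ α in (-(1 / 2) : ℝ)..(1 / 2), ee (α * (k : ℝ)) = 0 := by
  have hc : (2 * Real.pi * (k : ℂ) * Complex.I : ℂ) ≠ 0 := by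
    have h1 : (Real.pi : ℂ) ≠ 0 := by exact_mod_cast Real.pi_ne_zero
    have h2 : (k : ℂ) ≠ 0 := by exact_mod_cast hk
    exact mul_ne_zero (mul_ne_zero (mul_ne_zero two_ne_zero h1) h2) Complex.I_ne_zero
  have h1 : ∀ α : ℝ, ee (α * (k : ℝ)) = Complex.exp (2 * Real.pi * (k : ℂ) * Complex.I * α) := by
    intro α
    unfold ee
    congr 1
    push_cast
    ring
  simp_rw [h1]
  rw [integral_exp_mul_complex hc]
  have h2 : Complex.exp (2 * Real.pi * (k : ℂ) * Complex.I * ((1 / 2 : ℝ) : ℂ)) =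
      Complex.exp (2 * Real.pi * (k : ℂ) * Complex.I * ((-(1 / 2) : ℝ) : ℂ)) := by
    rw [Complex.exp_eq_exp_iff_exists_int]
    refine ⟨k, ?_⟩
    push_cast
    ring
  rw [h2, sub_self, zero_div]

private theorem Par_orth (a b : ℕ) :
    ∫ α in (-(1 / 2) : ℝ)..(1 / 2), ee (α * ((a : ℝ) - b)) = if a = b then 1 else 0 := by
  split_ifs with h
  · subst h
    have h1 : ∀ α : ℝ, ee (α * ((a : ℝ) - a)) = 1 := by
      intro α
      rw [sub_self, mul_zero]
      exact Pool.Agent.GBQ.ee_zero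
    simp_rw [h1]
    rw [intervalIntegral.integral_const]
    norm_num
  · have h1 := Par_int ((a : ℤ) - b) (by omega)
    push_cast at h1
    exact h1

theorem thm_Par : St_Par := by
  intro c M
  have key : ((∫ α in (-(1 / 2) : ℝ)..(1 / 2), ‖∑ k ∈ range M, c k * ee (α * k)‖ ^ 2 : ℝ) : ℂ) =
      ((∑ k ∈ range M, ‖c k‖ ^ 2 : ℝ) : ℂ) := by
    rw [← intervalIntegral.integral_ofReal]
    have h1 : ∀ α : ℝ, ((‖∑ k ∈ range M, c k * ee (α * k)‖ ^ 2 : ℝ) : ℂ) =
        ∑ i ∈ range M, ∑ j ∈ range M, (c i * (starRingEnd ℂ) (c j)) *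
          ee (α * ((i : ℝ) - j)) := by
      intro α
      rw [Complex.ofReal_pow, ← Complex.mul_conj', map_sum, sum_mul_sum]
      refine sum_congr rfl fun i _ => sum_congr rfl fun j _ => ?_
      have h2 : ee (α * ((i : ℝ) - j)) = ee (α * i) * (starRingEnd ℂ) (ee (α * j)) := by
        rw [← Pool.Agent.GBQ.ee_neg, ← Pool.Agent.GBQ.ee_add]
        congr 1
        ring
      rw [map_mul, h2]
      ring
    simp_rw [h1]
    have hi1 : ∀ i j : ℕ, IntervalIntegrable (fun α : ℝ => (c i * (starRingEnd ℂ) (c j)) *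
        ee (α * ((i : ℝ) - j))) volume (-(1 / 2)) (1 / 2) := fun i j =>
      (continuous_const.mul (Par_cont _)).intervalIntegrable _ _
    have hi2 : ∀ i : ℕ, IntervalIntegrable (fun α : ℝ => ∑ j ∈ range M,
        (c i * (starRingEnd ℂ) (c j)) * ee (α * ((i : ℝ) - j))) volume (-(1 / 2)) (1 / 2) :=
      fun i => (continuous_finsetSum _ fun j _ =>
        continuous_const.mul (Par_cont _)).intervalIntegrable _ _
    rw [intervalIntegral.integral_finsetSum fun i _ => hi2 i]
    push_cast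
    refine sum_congr rfl fun i hi => ?_
    rw [intervalIntegral.integral_finsetSum fun j _ => hi1 i j]
    have h3 : ∀ j ∈ range M, ∫ α in (-(1 / 2) : ℝ)..(1 / 2),
        (c i * (starRingEnd ℂ) (c j)) * ee (α * ((i : ℝ) - j)) =
          if i = j then (‖c i‖ : ℂ) ^ 2 else 0 := by
      intro j _
      rw [intervalIntegral.integral_const_mul, Par_orth]
      by_cases h : i = j
      · subst h
        rw [if_pos rfl, if_pos rfl, mul_one, Complex.mul_conj']
      · rw [if_neg h, if_neg h, mul_zero]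
    rw [sum_congr rfl h3, sum_ite_eq, if_pos hi]
  exact_mod_cast key

end Pool.Agent.TLL
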