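import Mathlib
import Pool.Agent.TLL.St2

set_option autoImplicit false

/-!
# TLL: block PrA (helper91)
-/

namespace Pool.Agent.TLL

open Finset Filter
open Pool.Agent.GBQ (Admissible)
open Pool.Agent.EVN (SolP)
open Pool.Agent.AAN (FinH)

/-- Statement `PRA`. -/
theorem thm_PrA : St_PrA := by
  classical
  intro c j Φ hM hH
  obtain ⟨C, N1, hM⟩ := hM
  obtain ⟨C', hH⟩ := hH
  intro A
  obtain ⟨N2, hH⟩ := hH (A + 110 * (A + C + 1) + 2)
  refine ⟨N1 + N2 + 8, fun N hN F hF => ?_⟩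
  have hN8 : (8 : ℝ) ≤ N := by exact_mod_cast (show 8 ≤ N by omega)
  have hL : (2 : ℝ) ≤ Real.log N := by
    rw [Real.le_log_iff_exp_le (by linarith)]
    have h1 : Real.exp 2 = Real.exp 1 * Real.exp 1 := by
      rw [← Real.exp_add]; norm_num
    have h2 := Real.exp_one_lt_d9
    have h3 := Real.exp_pos 1
    rw [h1]
    nlinarith
  obtain ⟨L, hLd⟩ : ∃ L : ℝ, L = Real.log N := ⟨_, rfl⟩
  rw [← hLd] at hL ⊢
  have hL0 : 0 < L := by linarith
  obtain ⟨M, hMd⟩ : ∃ M : ℕ, M = ⌊L ^ (110 * (A + C + 1))⌋₊ + 1 := ⟨_, rfl⟩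
  have hM1 : 1 ≤ M := by omega
  have hMge : L ^ (110 * (A + C + 1)) ≤ (M : ℝ) := by
    rw [hMd]
    push_cast
    exact (Nat.lt_floor_add_one _).le
  have hMle : ((M - 1 : ℕ) : ℝ) ≤ L ^ (110 * (A + C + 1)) := by
    rw [hMd, Nat.add_sub_cancel]
    exact Nat.floor_le (by positivity)
  -- the two parts
  have hsplit := Finset.card_filter_add_card_filter_not (s := F) (fun p : ℕ × ℕ => M ≤ p.1)
  -- first part
  have h1 : ((F.filter fun p : ℕ × ℕ => M ≤ p.1).card : ℝ) ≤ N / L ^ (A + 1) := by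
    have h := hM N (by omega) M hM1 (F.filter fun p : ℕ × ℕ => M ≤ p.1) (fun p hp => by
      rw [Finset.mem_filter] at hp
      exact ⟨hp.2, (hF p hp.1).1, (hF p hp.1).2⟩)
    rw [← hLd] at h
    have h2 : L ^ (A + C + 1) ≤ (M : ℝ) ^ (1 / 110 : ℝ) := by
      have h3 : ((L ^ (A + C + 1)) ^ 110 : ℝ) ^ (1 / 110 : ℝ) = L ^ (A + C + 1) := by
        rw [← Real.rpow_natCast (L ^ (A + C + 1)) 110, ← Real.rpow_mul (by positivity)]
        norm_num
      rw [← h3]
      refine Real.rpow_le_rpow (by positivity) ?_ (by norm_num)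
      rw [← pow_mul, mul_comm (A + C + 1) 110]
      exact hMge
    rw [le_div_iff₀ (by positivity)]
    have h4 : L ^ (A + C + 1) * ((F.filter fun p : ℕ × ℕ => M ≤ p.1).card : ℝ) ≤
        N * L ^ C :=
      (mul_le_mul_of_nonneg_right h2 (Nat.cast_nonneg _)).trans h
    have h5 : L ^ (A + C + 1) = L ^ C * L ^ (A + 1) := by ring
    rw [h5] at h4
    have h6 : 0 < L ^ C := by positivity
    refine le_of_mul_le_mul_left ?_ h6
    linarith [h4, mul_comm (N : ℝ) (L ^ C), mul_assoc (L ^ C) (L ^ (A + 1))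
      ((F.filter fun p : ℕ × ℕ => M ≤ p.1).card : ℝ), mul_comm (L ^ (A + 1))
      ((F.filter fun p : ℕ × ℕ => M ≤ p.1).card : ℝ)]
  -- second part
  have h2 : ((F.filter fun p : ℕ × ℕ => ¬ M ≤ p.1).card : ℝ) ≤ N / L ^ (A + 2) := by
    have hsub : (F.filter fun p : ℕ × ℕ => ¬ M ≤ p.1) ⊆
        (Finset.Icc 1 (M - 1)).biUnion (fun m => F.filter fun p : ℕ × ℕ => p.1 = m) := by
      intro p hp
      rw [Finset.mem_filter] at hp
      have hm := (hF p hp.1).2.1.1
      rw [Finset.mem_biUnion]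
      refine ⟨p.1, Finset.mem_Icc.2 ⟨hm, by omega⟩, ?_⟩
      rw [Finset.mem_filter]
      exact ⟨hp.1, rfl⟩
    have hcard := (Finset.card_le_card hsub).trans Finset.card_biUnion_le
    have hcard' : ((F.filter fun p : ℕ × ℕ => ¬ M ≤ p.1).card : ℝ) ≤
        ∑ m ∈ Finset.Icc 1 (M - 1), ((F.filter fun p : ℕ × ℕ => p.1 = m).card : ℝ) := by
      exact_mod_cast hcard
    have hone : ∀ m ∈ Finset.Icc 1 (M - 1), ((F.filter fun p : ℕ × ℕ => p.1 = m).card : ℝ) ≤
        N / L ^ (A + 110 * (A + C + 1) + 2) := by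
      intro m _
      have hinj : Set.InjOn Prod.snd ((F.filter fun p : ℕ × ℕ => p.1 = m : Finset (ℕ × ℕ)) : Set (ℕ × ℕ)) := by
        intro p hp p' hp' hpp
        rw [Finset.mem_coe, Finset.mem_filter] at hp hp'
        exact Prod.ext (hp.2.trans hp'.2.symm) hpp
      rw [← Finset.card_image_of_injOn hinj]
      have h := (hH N (by omega) m ((F.filter fun p : ℕ × ℕ => p.1 = m).image Prod.snd) (fun n hn => by
        rw [Finset.mem_image] at hn
        obtain ⟨p, hp, rfl⟩ := hn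
        rw [Finset.mem_filter] at hp
        have h9 := (hF p hp.1)
        rw [hp.2] at h9
        exact ⟨h9.1, h9.2⟩)).1
      rw [← hLd] at h
      exact h
    have hsum := hcard'.trans (Finset.sum_le_sum hone)
    rw [Finset.sum_const, Nat.card_Icc, nsmul_eq_mul, Nat.add_sub_cancel] at hsum
    refine hsum.trans ?_
    rw [mul_div_assoc', div_le_div_iff₀ (by positivity) (by positivity)]
    have h5 : L ^ (A + 110 * (A + C + 1) + 2) = L ^ (110 * (A + C + 1)) * L ^ (A + 2) := by ring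
    rw [h5]
    have h7 : ((M - 1 : ℕ) : ℝ) * ((N : ℝ) * L ^ (A + 2)) ≤
        L ^ (110 * (A + C + 1)) * ((N : ℝ) * L ^ (A + 2)) :=
      mul_le_mul_of_nonneg_right hMle (by positivity)
    calc ((M - 1 : ℕ) : ℝ) * N * L ^ (A + 2) = ((M - 1 : ℕ) : ℝ) * ((N : ℝ) * L ^ (A + 2)) := by ring
      _ ≤ L ^ (110 * (A + C + 1)) * ((N : ℝ) * L ^ (A + 2)) := h7
      _ = N * (L ^ (110 * (A + C + 1)) * L ^ (A + 2)) := by ring
  have hF1 : (F.card : ℝ) = ((F.filter fun p : ℕ × ℕ => M ≤ p.1).card : ℝ) +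
      ((F.filter fun p : ℕ × ℕ => ¬ M ≤ p.1).card : ℝ) := by
    exact_mod_cast hsplit.symm
  rw [hF1]
  have hpA : 0 < L ^ A := by positivity
  have e1 : (N : ℝ) / L ^ (A + 1) = (N / L ^ A) * (1 / L) := by
    rw [pow_succ]; field_simp
  have e2 : (N : ℝ) / L ^ (A + 2) = (N / L ^ A) * (1 / L) * (1 / L) := by
    rw [pow_succ, pow_succ]; field_simp
  have hq : 0 ≤ (N : ℝ) / L ^ A := by positivity
  have hr : 1 / L ≤ 1 / 2 := one_div_le_one_div_of_le (by norm_num) hL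
  have hr0 : 0 < 1 / L := by positivity
  have g1 : (N / L ^ A) * (1 / L) ≤ (N : ℝ) / L ^ A * (1 / 2) := mul_le_mul_of_nonneg_left hr hq
  have g2 : (N / L ^ A) * (1 / L) * (1 / L) ≤ (N : ℝ) / L ^ A * (1 / 2) * (1 / 2) :=
    mul_le_mul g1 hr hr0.le (by positivity)
  rw [e1] at h1
  rw [e2] at h2
  linarith

end Pool.Agent.TLL
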