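import Mathlib
import Pool.Agent.TLL.St

set_option autoImplicit false

/-!
# TLL, module FNB: power saving for all `m` simultaneously
-/

namespace Pool.Agent.TLL

open Finset Filter
open Pool.Agent.GBQ (Admissible)
open Pool.Agent.MVII (SolN)
open Pool.Agent.EVN (Phi SolP)

theorem fnb_ev (K : ℝ) (C : ℕ) (θ : ℝ) (hθ : 0 < θ) :
    ∀ᶠ N : ℕ in atTop, K * Real.log N ^ C ≤ (N : ℝ) ^ θ := by
  have h := (isLittleO_log_rpow_rpow_atTop (C : ℝ) hθ).bound
    (show (0 : ℝ) < 1 / (|K| + 1) by positivity)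
  have h2 := tendsto_natCast_atTop_atTop (R := ℝ) |>.eventually h
  filter_upwards [h2, eventually_ge_atTop 1] with N hN h1
  have e1 : 0 ≤ Real.log N := Real.log_natCast_nonneg N
  rw [Real.rpow_natCast, Real.norm_of_nonneg (pow_nonneg e1 C),
    Real.norm_of_nonneg (Real.rpow_nonneg (Nat.cast_nonneg N) θ), one_div, ← div_eq_inv_mul,
    le_div_iff₀ (by positivity)] at hN
  have e2 : K * Real.log N ^ C ≤ (|K| + 1) * Real.log N ^ C :=
    mul_le_mul_of_nonneg_right (by linarith [le_abs_self K]) (pow_nonneg e1 C)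
  linarith

theorem fnb_sub (m n : ℕ) : SolP Phi m n ⊆ SolN 5 m n := by
  classical
  intro p hp
  unfold SolP at hp
  unfold SolN
  rw [mem_filter] at hp ⊢
  obtain ⟨h1, h2, h3, h4, h5⟩ := hp
  exact ⟨h1, h2, h3, h4.2⟩

/-- FNB. -/
theorem thm_FnB : St_FnB := by
  classical
  intro c hc hM hP ε hε
  obtain ⟨C, N₀, hM⟩ := hM
  obtain ⟨δ₀, N₁, hδ₀, hP⟩ := hP ε hε
  obtain ⟨n₂, hn₂⟩ := eventually_atTop.1 (fnb_ev (1 / c) 3 ε hε)
  obtain ⟨δ, hδ⟩ : ∃ δ : ℝ, δ = min δ₀ 1 := ⟨_, rfl⟩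
  have d0 : 0 < δ := by rw [hδ]; exact lt_min hδ₀ one_pos
  have d1 : δ ≤ δ₀ := by rw [hδ]; exact min_le_left _ _
  have d2 : δ ≤ 1 := by rw [hδ]; exact min_le_right _ _
  have hθ : 0 < δ / 440 := by positivity
  obtain ⟨N₂, hN₂⟩ := eventually_atTop.1 ((fnb_ev 6 0 (δ / 440) hθ).and
    ((fnb_ev (3 * n₂) 0 (1 / 2) (by norm_num)).and ((fnb_ev 3 C (δ / 440) hθ).and
      (eventually_ge_atTop (N₀ + N₁ + 1)))))
  refine ⟨δ / 440, N₂, hθ, fun N hN F hF => ?_⟩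
  obtain ⟨g1, g2, g3, g4⟩ := hN₂ N hN
  have hN1 : (1 : ℝ) ≤ N := by
    have : 1 ≤ N := by omega
    exact_mod_cast this
  have hN0 : (0 : ℝ) < N := by linarith
  rw [pow_zero, mul_one] at g1 g2
  obtain ⟨M, hMd⟩ : ∃ M : ℕ, M = ⌊(N : ℝ) ^ (δ / 2)⌋₊ + 1 := ⟨_, rfl⟩
  have hM1 : 1 ≤ M := by omega
  have hMl : (N : ℝ) ^ (δ / 2) ≤ M := by
    rw [hMd]
    push_cast
    exact (Nat.lt_floor_add_one _).le
  have hMu : (M : ℝ) ≤ 2 * (N : ℝ) ^ (δ / 2) := by
    have e1 : ((⌊(N : ℝ) ^ (δ / 2)⌋₊ : ℕ) : ℝ) ≤ (N : ℝ) ^ (δ / 2) :=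
      Nat.floor_le (Real.rpow_nonneg hN0.le _)
    have e2 : (1 : ℝ) ≤ (N : ℝ) ^ (δ / 2) := Real.one_le_rpow hN1 (by positivity)
    rw [hMd]
    push_cast
    linarith
  obtain ⟨Bad, hBad⟩ : ∃ Bad : ℕ → ℕ → Prop, Bad = fun m n => Admissible m n ∧
    (SolN 5 m n = ∅ ∨ (12 * m ≤ n ∧ ((SolN 5 m n).card : ℝ) < (n : ℝ) ^ (1 - ε))) := ⟨_, rfl⟩
  -- the three parts
  have hcov : F ⊆ ((range M).biUnion fun m => F.filter (fun n => Bad m n)) ∪
      (range n₂ ∪ F.filter (fun n => ∃ m ≥ M, ExcP c 3 Phi m n)) := by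
    intro n hn
    obtain ⟨hnN, m, hA, hS⟩ := hF n hn
    have hb : Bad m n := by rw [hBad]; exact ⟨hA, hS⟩
    rw [mem_union, mem_union]
    by_cases hm : m < M
    · left
      rw [mem_biUnion]
      exact ⟨m, mem_range.2 hm, mem_filter.2 ⟨hn, hb⟩⟩
    by_cases hnn : n < n₂
    · right; left
      exact mem_range.2 hnn
    right; right
    rw [mem_filter]
    refine ⟨hn, m, by omega, hA, ?_⟩
    rcases hS with hS | ⟨hS1, hS2⟩
    · left
      exact subset_empty.1 (hS ▸ fnb_sub m n)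
    · right
      refine ⟨hS1, ?_⟩
      have hn3 : 1 < n := by
        have := hA.2.1
        have := hA.1
        omega
      have hn4 : (1 : ℝ) < n := by exact_mod_cast hn3
      have hlog : 0 < Real.log n := Real.log_pos hn4
      have e1 : ((SolP Phi m n).card : ℝ) ≤ ((SolN 5 m n).card : ℝ) := by
        exact_mod_cast card_le_card (fnb_sub m n)
      refine lt_of_le_of_lt e1 (lt_of_lt_of_le hS2 ?_)
      have e2 := hn₂ n (by omega)
      rw [one_div, ← div_eq_inv_mul, div_le_iff₀ hc] at e2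
      rw [le_div_iff₀ (pow_pos hlog 3)]
      calc (n : ℝ) ^ (1 - ε) * Real.log n ^ 3 ≤ (n : ℝ) ^ (1 - ε) * ((n : ℝ) ^ ε * c) :=
            mul_le_mul_of_nonneg_left e2 (Real.rpow_nonneg (by linarith) _)
        _ = c * ((n : ℝ) ^ (1 - ε) * (n : ℝ) ^ ε) := by ring
        _ = c * n := by
            rw [← Real.rpow_add (by linarith)]
            norm_num
  -- the first part
  have h1 : ((((range M).biUnion fun m => F.filter (fun n => Bad m n)).card : ℕ) : ℝ) ≤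
      2 * (N : ℝ) ^ (1 - δ / 2) := by
    have e1 : (((range M).biUnion fun m => F.filter (fun n => Bad m n)).card : ℝ) ≤
        ∑ m ∈ range M, ((F.filter (fun n => Bad m n)).card : ℝ) := by
      exact_mod_cast card_biUnion_le
    have e2 : ∑ m ∈ range M, ((F.filter (fun n => Bad m n)).card : ℝ) ≤
        ∑ m ∈ range M, (N : ℝ) ^ (1 - δ) := by
      refine sum_le_sum fun m _ => ?_
      refine (hP N (by omega) m _ fun n hn => ?_).trans
        (Real.rpow_le_rpow_of_exponent_le hN1 (by linarith))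
      rw [mem_filter, hBad] at hn
      exact ⟨(hF n hn.1).1, hn.2⟩
    rw [sum_const, card_range, nsmul_eq_mul] at e2
    have e3 : (M : ℝ) * (N : ℝ) ^ (1 - δ) ≤ 2 * (N : ℝ) ^ (δ / 2) * (N : ℝ) ^ (1 - δ) :=
      mul_le_mul_of_nonneg_right hMu (Real.rpow_nonneg hN0.le _)
    have e4 : 2 * (N : ℝ) ^ (δ / 2) * (N : ℝ) ^ (1 - δ) = 2 * (N : ℝ) ^ (1 - δ / 2) := by
      rw [mul_assoc, ← Real.rpow_add hN0]
      congr 2
      ring
    linarith
  -- the last part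
  have h3 : ((F.filter (fun n => ∃ m ≥ M, ExcP c 3 Phi m n)).card : ℝ) ≤
      (N : ℝ) ^ (1 - δ / 220) * Real.log N ^ C := by
    have e1 := hM N (by omega) M hM1 (F.filter (fun n => ∃ m ≥ M, ExcP c 3 Phi m n))
      (fun n hn => by
        rw [mem_filter] at hn
        exact ⟨(hF n hn.1).1, hn.2⟩)
    have e2 : (N : ℝ) ^ (δ / 220) ≤ (M : ℝ) ^ (1 / 110 : ℝ) := by
      calc (N : ℝ) ^ (δ / 220) = ((N : ℝ) ^ (δ / 2)) ^ (1 / 110 : ℝ) := by
            rw [← Real.rpow_mul hN0.le]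
            congr 1
            ring
        _ ≤ (M : ℝ) ^ (1 / 110 : ℝ) :=
            Real.rpow_le_rpow (Real.rpow_nonneg hN0.le _) hMl (by norm_num)
    have e3 : (N : ℝ) ^ (δ / 220) * ((F.filter (fun n => ∃ m ≥ M, ExcP c 3 Phi m n)).card : ℝ) ≤
        N * Real.log N ^ C :=
      (mul_le_mul_of_nonneg_right e2 (Nat.cast_nonneg _)).trans e1
    have e4 : (0 : ℝ) < (N : ℝ) ^ (δ / 220) := Real.rpow_pos_of_pos hN0 _
    have e5 : (N : ℝ) ^ (δ / 220) * ((N : ℝ) ^ (1 - δ / 220) * Real.log N ^ C) =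
        N * Real.log N ^ C := by
      rw [← mul_assoc, ← Real.rpow_add hN0]
      norm_num
    rw [← e5] at e3
    exact le_of_mul_le_mul_left e3 e4
  -- the sum
  have hsum : (F.card : ℝ) ≤ 2 * (N : ℝ) ^ (1 - δ / 2) + (n₂ + (N : ℝ) ^ (1 - δ / 220) *
      Real.log N ^ C) := by
    have e1 : F.card ≤ ((range M).biUnion fun m => F.filter (fun n => Bad m n)).card +
        ((range n₂).card + (F.filter (fun n => ∃ m ≥ M, ExcP c 3 Phi m n)).card) :=
      (card_le_card hcov).trans ((card_union_le _ _).trans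
        (Nat.add_le_add_left (card_union_le _ _) _))
    rw [card_range] at e1
    have e2 : (F.card : ℝ) ≤ (((range M).biUnion fun m => F.filter (fun n => Bad m n)).card : ℝ) +
        (n₂ + ((F.filter (fun n => ∃ m ≥ M, ExcP c 3 Phi m n)).card : ℝ)) := by
      exact_mod_cast e1
    linarith
  have k1 : 6 * (N : ℝ) ^ (1 - δ / 2) ≤ (N : ℝ) ^ (1 - δ / 440) := by
    calc 6 * (N : ℝ) ^ (1 - δ / 2) ≤ (N : ℝ) ^ (δ / 440) * (N : ℝ) ^ (1 - δ / 2) :=
          mul_le_mul_of_nonneg_right g1 (Real.rpow_nonneg hN0.le _)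
      _ = (N : ℝ) ^ (δ / 440 + (1 - δ / 2)) := by rw [Real.rpow_add hN0]
      _ ≤ (N : ℝ) ^ (1 - δ / 440) := Real.rpow_le_rpow_of_exponent_le hN1 (by linarith)
  have k2 : 3 * (n₂ : ℝ) ≤ (N : ℝ) ^ (1 - δ / 440) :=
    g2.trans (Real.rpow_le_rpow_of_exponent_le hN1 (by linarith))
  have k3 : 3 * ((N : ℝ) ^ (1 - δ / 220) * Real.log N ^ C) ≤ (N : ℝ) ^ (1 - δ / 440) := by
    calc 3 * ((N : ℝ) ^ (1 - δ / 220) * Real.log N ^ C) =
          (N : ℝ) ^ (1 - δ / 220) * (3 * Real.log N ^ C) := by ring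
      _ ≤ (N : ℝ) ^ (1 - δ / 220) * (N : ℝ) ^ (δ / 440) :=
          mul_le_mul_of_nonneg_left g3 (Real.rpow_nonneg hN0.le _)
      _ = (N : ℝ) ^ (1 - δ / 440) := by
          rw [← Real.rpow_add hN0]
          congr 1
          ring
  linarith

end Pool.Agent.TLL
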