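import Mathlib
import Pool.Agent.TLL.St2
import Pool.Agent.TLL.FnB

set_option autoImplicit false

/-!
# TLL, module PRB: power saving for the number of exceptional pairs
-/

namespace Pool.Agent.TLL

open Finset Filter
open Pool.Agent.GBQ (Admissible)
open Pool.Agent.MVII (SolN)
open Pool.Agent.EVN (Phi SolP)

/-- PRB. -/
theorem thm_PrB : St_PrB := by
  classical
  intro c hc hM hP ε hε
  obtain ⟨C, N₀, hM⟩ := hM
  obtain ⟨δ₀, N₁, hδ₀, hP⟩ := hP ε hε
  obtain ⟨n₂, hn₂⟩ := eventually_atTop.1 (fnb_ev (1 / c) 3 ε hε)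
  obtain ⟨δ, hδ⟩ : ∃ δ : ℝ, δ = min δ₀ 1 := ⟨_, rfl⟩
  have d0 : 0 < δ := by rw [hδ]; exact lt_min hδ₀ one_pos
  have d1 : δ ≤ δ₀ := by rw [hδ]; exact min_le_left _ _
  have d2 : δ ≤ 1 := by rw [hδ]; exact min_le_right _ _
  have hθ : 0 < δ / 440 := by positivity
  obtain ⟨N₂, hN₂⟩ := eventually_atTop.1 ((fnb_ev 6 0 (δ / 440) hθ).and
    ((fnb_ev (3 * (n₂ * n₂)) 0 (1 / 2) (by norm_num)).and ((fnb_ev 3 C (δ / 440) hθ).and
      (eventually_ge_atTop (N₀ + N₁ + 1)))))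
  refine ⟨δ / 440, N₂, hθ, fun N hN P hF => ?_⟩
  obtain ⟨g1, g2, g3, g4⟩ := hN₂ N hN
  have hN1 : (1 : ℝ) ≤ N := by
    have : 1 ≤ N := by omega
    exact_mod_cast this
  have hN0 : (0 : ℝ) < N := by linarith
  rw [pow_zero, mul_one] at g1 g2
  obtain ⟨M, hMd⟩ : ∃ M : ℕ, M = ⌊(N : ℝ) ^ (δ / 2)⌋₊ + 1 := ⟨_, rfl⟩
  have hM1 : 1 ≤ M := by omega
  have hMl : (N : ℝ) ^ (δ / 2) ≤ M := by
    rw [hMd]
    push_cast
    exact (Nat.lt_floor_add_one _).le
  have hMu : (M : ℝ) ≤ 2 * (N : ℝ) ^ (δ / 2) := by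
    have e1 : ((⌊(N : ℝ) ^ (δ / 2)⌋₊ : ℕ) : ℝ) ≤ (N : ℝ) ^ (δ / 2) :=
      Nat.floor_le (Real.rpow_nonneg hN0.le _)
    have e2 : (1 : ℝ) ≤ (N : ℝ) ^ (δ / 2) := Real.one_le_rpow hN1 (by positivity)
    rw [hMd]
    push_cast
    linarith
  -- the three parts
  have hcov : P ⊆ ((range M).biUnion fun m => P.filter (fun p => p.1 = m)) ∪
      (range n₂ ×ˢ range n₂ ∪ P.filter (fun p => M ≤ p.1 ∧ n₂ ≤ p.2)) := by
    intro p hp
    obtain ⟨hnN, hA, hS⟩ := hF p hp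
    rw [mem_union, mem_union]
    by_cases hm : p.1 < M
    · left
      rw [mem_biUnion]
      exact ⟨p.1, mem_range.2 hm, mem_filter.2 ⟨hp, rfl⟩⟩
    by_cases hnn : p.2 < n₂
    · right; left
      rw [mem_product, mem_range, mem_range]
      have := hA.2.1
      exact ⟨by omega, hnn⟩
    right; right
    rw [mem_filter]
    exact ⟨hp, by omega, by omega⟩
  -- the pairs of the third part are exceptional
  have hexc : ∀ p ∈ P, n₂ ≤ p.2 → ExcP c 3 Phi p.1 p.2 := by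
    intro p hp hnn
    obtain ⟨hnN, hA, hS⟩ := hF p hp
    refine ⟨hA, ?_⟩
    rcases hS with hS | ⟨hS1, hS2⟩
    · left
      exact subset_empty.1 (hS ▸ fnb_sub p.1 p.2)
    · right
      refine ⟨hS1, ?_⟩
      have hn3 : 1 < p.2 := by
        have := hA.2.1
        have := hA.1
        omega
      have hn4 : (1 : ℝ) < p.2 := by exact_mod_cast hn3
      have hlog : 0 < Real.log p.2 := Real.log_pos hn4
      have e1 : ((SolP Phi p.1 p.2).card : ℝ) ≤ ((SolN 5 p.1 p.2).card : ℝ) := by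
        exact_mod_cast card_le_card (fnb_sub p.1 p.2)
      refine lt_of_le_of_lt e1 (lt_of_lt_of_le hS2 ?_)
      have e2 := hn₂ p.2 hnn
      rw [one_div, ← div_eq_inv_mul, div_le_iff₀ hc] at e2
      rw [le_div_iff₀ (pow_pos hlog 3)]
      calc (p.2 : ℝ) ^ (1 - ε) * Real.log p.2 ^ 3 ≤ (p.2 : ℝ) ^ (1 - ε) * ((p.2 : ℝ) ^ ε * c) :=
            mul_le_mul_of_nonneg_left e2 (Real.rpow_nonneg (by linarith) _)
        _ = c * ((p.2 : ℝ) ^ (1 - ε) * (p.2 : ℝ) ^ ε) := by ring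
        _ = c * p.2 := by
            rw [← Real.rpow_add (by linarith)]
            norm_num
  -- the first part
  have h1 : ((((range M).biUnion fun m => P.filter (fun p => p.1 = m)).card : ℕ) : ℝ) ≤
      2 * (N : ℝ) ^ (1 - δ / 2) := by
    have e1 : (((range M).biUnion fun m => P.filter (fun p => p.1 = m)).card : ℝ) ≤
        ∑ m ∈ range M, ((P.filter (fun p => p.1 = m)).card : ℝ) := by
      exact_mod_cast card_biUnion_le
    have e2 : ∑ m ∈ range M, ((P.filter (fun p => p.1 = m)).card : ℝ) ≤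
        ∑ m ∈ range M, (N : ℝ) ^ (1 - δ) := by
      refine sum_le_sum fun m _ => ?_
      have hinj : Set.InjOn Prod.snd ((P.filter (fun p => p.1 = m) : Finset (ℕ × ℕ)) :
          Set (ℕ × ℕ)) := by
        intro p hp q hq hpq
        rw [mem_coe, mem_filter] at hp hq
        exact Prod.ext (hp.2.trans hq.2.symm) hpq
      have hcd : ((P.filter (fun p => p.1 = m)).image Prod.snd).card =
          (P.filter (fun p => p.1 = m)).card := card_image_of_injOn hinj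
      rw [← hcd]
      refine (hP N (by omega) m _ fun n hn => ?_).trans
        (Real.rpow_le_rpow_of_exponent_le hN1 (by linarith))
      rw [mem_image] at hn
      obtain ⟨p, hp, rfl⟩ := hn
      rw [mem_filter] at hp
      obtain ⟨hp1, rfl⟩ := hp
      exact hF p hp1
    rw [sum_const, card_range, nsmul_eq_mul] at e2
    have e3 : (M : ℝ) * (N : ℝ) ^ (1 - δ) ≤ 2 * (N : ℝ) ^ (δ / 2) * (N : ℝ) ^ (1 - δ) :=
      mul_le_mul_of_nonneg_right hMu (Real.rpow_nonneg hN0.le _)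
    have e4 : 2 * (N : ℝ) ^ (δ / 2) * (N : ℝ) ^ (1 - δ) = 2 * (N : ℝ) ^ (1 - δ / 2) := by
      rw [mul_assoc, ← Real.rpow_add hN0]
      congr 2
      ring
    linarith
  -- the last part
  have h3 : ((P.filter (fun p => M ≤ p.1 ∧ n₂ ≤ p.2)).card : ℝ) ≤
      (N : ℝ) ^ (1 - δ / 220) * Real.log N ^ C := by
    have e1 := hM N (by omega) M hM1 (P.filter (fun p => M ≤ p.1 ∧ n₂ ≤ p.2))
      (fun p hp => by
        rw [mem_filter] at hp
        exact ⟨hp.2.1, (hF p hp.1).1, hexc p hp.1 hp.2.2⟩)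
    have e2 : (N : ℝ) ^ (δ / 220) ≤ (M : ℝ) ^ (1 / 110 : ℝ) := by
      calc (N : ℝ) ^ (δ / 220) = ((N : ℝ) ^ (δ / 2)) ^ (1 / 110 : ℝ) := by
            rw [← Real.rpow_mul hN0.le]
            congr 1
            ring
        _ ≤ (M : ℝ) ^ (1 / 110 : ℝ) :=
            Real.rpow_le_rpow (Real.rpow_nonneg hN0.le _) hMl (by norm_num)
    have e3 : (N : ℝ) ^ (δ / 220) * ((P.filter (fun p => M ≤ p.1 ∧ n₂ ≤ p.2)).card : ℝ) ≤
        N * Real.log N ^ C :=
      (mul_le_mul_of_nonneg_right e2 (Nat.cast_nonneg _)).trans e1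
    have e4 : (0 : ℝ) < (N : ℝ) ^ (δ / 220) := Real.rpow_pos_of_pos hN0 _
    have e5 : (N : ℝ) ^ (δ / 220) * ((N : ℝ) ^ (1 - δ / 220) * Real.log N ^ C) =
        N * Real.log N ^ C := by
      rw [← mul_assoc, ← Real.rpow_add hN0]
      norm_num
    rw [← e5] at e3
    exact le_of_mul_le_mul_left e3 e4
  -- the sum
  have hsum : (P.card : ℝ) ≤ 2 * (N : ℝ) ^ (1 - δ / 2) + (n₂ * n₂ + (N : ℝ) ^ (1 - δ / 220) *
      Real.log N ^ C) := by
    have e1 : P.card ≤ ((range M).biUnion fun m => P.filter (fun p => p.1 = m)).card +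
        ((range n₂ ×ˢ range n₂).card + (P.filter (fun p => M ≤ p.1 ∧ n₂ ≤ p.2)).card) :=
      (card_le_card hcov).trans ((card_union_le _ _).trans
        (Nat.add_le_add_left (card_union_le _ _) _))
    rw [card_product, card_range] at e1
    have e2 : (P.card : ℝ) ≤ (((range M).biUnion fun m => P.filter (fun p => p.1 = m)).card : ℝ) +
        (n₂ * n₂ + ((P.filter (fun p => M ≤ p.1 ∧ n₂ ≤ p.2)).card : ℝ)) := by
      exact_mod_cast e1
    linarith
  have k1 : 6 * (N : ℝ) ^ (1 - δ / 2) ≤ (N : ℝ) ^ (1 - δ / 440) := by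
    calc 6 * (N : ℝ) ^ (1 - δ / 2) ≤ (N : ℝ) ^ (δ / 440) * (N : ℝ) ^ (1 - δ / 2) :=
          mul_le_mul_of_nonneg_right g1 (Real.rpow_nonneg hN0.le _)
      _ = (N : ℝ) ^ (δ / 440 + (1 - δ / 2)) := by rw [Real.rpow_add hN0]
      _ ≤ (N : ℝ) ^ (1 - δ / 440) := Real.rpow_le_rpow_of_exponent_le hN1 (by linarith)
  have k2 : 3 * ((n₂ : ℝ) * n₂) ≤ (N : ℝ) ^ (1 - δ / 440) :=
    g2.trans (Real.rpow_le_rpow_of_exponent_le hN1 (by linarith))
  have k3 : 3 * ((N : ℝ) ^ (1 - δ / 220) * Real.log N ^ C) ≤ (N : ℝ) ^ (1 - δ / 440) := by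
    calc 3 * ((N : ℝ) ^ (1 - δ / 220) * Real.log N ^ C) =
          (N : ℝ) ^ (1 - δ / 220) * (3 * Real.log N ^ C) := by ring
      _ ≤ (N : ℝ) ^ (1 - δ / 220) * (N : ℝ) ^ (δ / 440) :=
          mul_le_mul_of_nonneg_left g3 (Real.rpow_nonneg hN0.le _)
      _ = (N : ℝ) ^ (1 - δ / 440) := by
          rw [← Real.rpow_add hN0]
          congr 1
          ring
  linarith

end Pool.Agent.TLL
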