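import Mathlib
import Pool.Agent.TLL.St2

set_option autoImplicit false

/-!
# TLL / PrM: the number of exceptional pairs `(m, n)`, `m ≥ M`, `n ≤ N` (helper66)
-/

namespace Pool.Agent.TLL

open Finset Filter
open Pool.Agent.GBQ (Admissible)
open Pool.Agent.MVII (SolN)
open Pool.Agent.EVN (Phi SolP)
open Pool.Agent.AAN (T4H FinH)

private theorem prm_log2 (X : ℕ) (hX : 3 ≤ X) : ((Nat.log 2 X + 1 : ℕ) : ℝ) ≤ 3 * Real.log X := by
  have hX0 : (3 : ℝ) ≤ X := by exact_mod_cast hX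
  have h1 : (2 : ℝ) ^ (Nat.log 2 X) ≤ X := by
    exact_mod_cast Nat.pow_log_le_self 2 (by omega : X ≠ 0)
  have h2 : (Nat.log 2 X : ℝ) * Real.log 2 ≤ Real.log X := by
    rw [← Real.log_pow]
    exact Real.log_le_log (by positivity) h1
  have h3 : (0.6931471803 : ℝ) < Real.log 2 := Real.log_two_gt_d9
  have h4 : 1 ≤ Real.log X := by
    rw [Real.le_log_iff_exp_le (by linarith)]
    exact (Real.exp_one_lt_d9.le.trans (by norm_num)).trans hX0
  have h5 : (0 : ℝ) ≤ (Nat.log 2 X : ℝ) := Nat.cast_nonneg _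
  push_cast
  nlinarith

/-- the pairs with `n` in one block -/
private theorem prm_block (c : ℝ) (j : ℕ) (Φ : ℕ → ℕ → Prop) (hc : 0 < c) (h1 : CorM c j Φ)
    (h2 : T4H c j Φ) : ∃ C₀ X₀ : ℕ, 1 ≤ X₀ ∧ ∀ X ≥ X₀, ∀ Y : ℝ, 3 ≤ Y →
    ∀ P : Finset (ℕ × ℕ), (∀ p ∈ P, 2 * Y ^ 110 ≤ p.1 ∧ X ≤ 2 * p.2 ∧ 4 * p.2 ≤ 3 * X ∧
      ExcP c j Φ p.1 p.2) →
    (P.card : ℝ) ≤ 3 * Real.log X ^ (C₀ + 1) / Y * X := by
  classical
  obtain ⟨C₀, hC⟩ := h1
  obtain ⟨n₁, hn₁⟩ := h2 (1 / 100) (by norm_num)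
  obtain ⟨X₁, hX₁⟩ := eventually_atTop.1 hC
  refine ⟨C₀, X₁ + 2 * n₁ + 400, by omega, ?_⟩
  intro X hX Y hY P hP
  have hX1 : (1 : ℝ) ≤ X := by exact_mod_cast (by omega : 1 ≤ X)
  have hY0 : (0 : ℝ) < Y := by linarith
  have hL1 : 0 ≤ Real.log X := Real.log_nonneg hX1
  have key : ∀ p ∈ P, (p.1 : ℝ) < (X : ℝ) ^ (26 / 100 : ℝ) ∧
      ((SolP Φ p.1 p.2).card : ℝ) < c * p.2 / Real.log p.2 ^ j := by
    intro p hp
    obtain ⟨hp1, hp2, hp3, hadm, hexc⟩ := hP p hp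
    have hn2 : 2 ≤ p.2 := by omega
    have hnX : (p.2 : ℝ) ≤ X := by exact_mod_cast (by omega : p.2 ≤ X)
    have hlogn : 0 < Real.log p.2 := Real.log_pos (by exact_mod_cast (by omega : 1 < p.2))
    have hn0 : (0 : ℝ) < p.2 := by exact_mod_cast (by omega : 0 < p.2)
    constructor
    · have hlt : (p.1 : ℝ) < (p.2 : ℝ) ^ (26 / 100 : ℝ) := by
        by_contra hcon
        rw [not_lt] at hcon
        have he : (1 / 4 + 1 / 100 : ℝ) = 26 / 100 := by norm_num
        have h3 := hn₁ p.2 p.1 (by omega) (by rw [he]; exact hcon) hadm.2.1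
        rcases hexc with h4 | ⟨h4, h5⟩
        · rw [h4] at h3
          exact Finset.not_nonempty_empty h3.1
        · exact absurd (h3.2 h4) (not_le.2 h5)
      exact hlt.trans_le (Real.rpow_le_rpow hn0.le hnX (by norm_num))
    · rcases hexc with h4 | ⟨-, h5⟩
      · rw [h4, Finset.card_empty, Nat.cast_zero]
        positivity
      · exact h5
  have hbnd : 0 ≤ 3 * Real.log X ^ (C₀ + 1) / Y * X := by positivity
  have hsub : (X : ℝ) ^ (26 / 100 : ℝ) ≤ X := by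
    conv_rhs => rw [← Real.rpow_one (X : ℝ)]
    exact Real.rpow_le_rpow_of_exponent_le hX1 (by norm_num)
  by_cases hYX : Y ≤ (X : ℝ) ^ (1 / 100 : ℝ)
  swap
  · have hPe : P = ∅ := by
      rw [Finset.eq_empty_iff_forall_notMem]
      intro p hp
      have h3 := (hP p hp).1
      have h4 := (key p hp).1
      rw [not_le] at hYX
      have h5 : ((X : ℝ) ^ (1 / 100 : ℝ)) ^ 110 ≤ Y ^ 110 :=
        pow_le_pow_left₀ (by positivity) hYX.le 110
      have h6 : ((X : ℝ) ^ (1 / 100 : ℝ)) ^ 110 = (X : ℝ) ^ (11 / 10 : ℝ) := by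
        rw [← Real.rpow_natCast, ← Real.rpow_mul (by linarith)]
        norm_num
      have h7 : (X : ℝ) ^ (26 / 100 : ℝ) ≤ (X : ℝ) ^ (11 / 10 : ℝ) :=
        Real.rpow_le_rpow_of_exponent_le hX1 (by norm_num)
      have h8 : (0 : ℝ) < Y ^ 110 := by positivity
      rw [h6] at h5
      linarith
    rw [hPe, Finset.card_empty, Nat.cast_zero]
    exact hbnd
  have hf : ∀ p ∈ P, 2 ^ Nat.log 2 (p.1 - 1) < p.1 ∧ p.1 ≤ 2 * 2 ^ Nat.log 2 (p.1 - 1) := by
    intro p hp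
    have h3 := (hP p hp).1
    have h4 : (3 : ℝ) ^ 110 ≤ Y ^ 110 := pow_le_pow_left₀ (by norm_num) hY 110
    have h5 : (2 : ℝ) ≤ p.1 := by
      have : (1 : ℝ) ≤ 3 ^ 110 := one_le_pow₀ (by norm_num)
      linarith
    have h6 : 2 ≤ p.1 := by exact_mod_cast h5
    have h7 := Nat.pow_log_le_self 2 (by omega : p.1 - 1 ≠ 0)
    have h8 := Nat.lt_pow_succ_log_self (by norm_num : 1 < 2) (p.1 - 1)
    rw [pow_succ] at h8
    constructor <;> omega
  have hmap : Set.MapsTo (fun p : ℕ × ℕ => Nat.log 2 (p.1 - 1)) (P : Set (ℕ × ℕ))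
      (range (Nat.log 2 X + 1) : Finset ℕ) := by
    intro p hp
    have h3 := (key p hp).1
    have h4 : p.1 ≤ X := by
      have : (p.1 : ℝ) ≤ X := h3.le.trans hsub
      exact_mod_cast this
    simp only [coe_range, Set.mem_Iio]
    have h5 : Nat.log 2 (p.1 - 1) ≤ Nat.log 2 X := Nat.log_mono_right (by omega)
    omega
  rw [Finset.card_eq_sum_card_fiberwise hmap]
  push_cast
  have hone : ∀ i ∈ range (Nat.log 2 X + 1),
      ((P.filter (fun p => Nat.log 2 (p.1 - 1) = i)).card : ℝ) ≤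
        X * Real.log X ^ C₀ / Y := by
    intro i _
    rcases (P.filter (fun p => Nat.log 2 (p.1 - 1) = i)).eq_empty_or_nonempty with he | ⟨p₀, hp₀⟩
    · rw [he, Finset.card_empty, Nat.cast_zero]
      positivity
    · rw [mem_filter] at hp₀
      obtain ⟨hp₀, hi⟩ := hp₀
      obtain ⟨h3, h4⟩ := hf p₀ hp₀
      rw [hi] at h3 h4
      have h5 : (p₀.1 : ℝ) ≤ 2 * ((2 ^ i : ℕ) : ℝ) := by exact_mod_cast h4
      have h6 : ((2 ^ i : ℕ) : ℝ) < p₀.1 := by exact_mod_cast h3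
      have h7 := (hP p₀ hp₀).1
      have h8 := (key p₀ hp₀).1
      have hmap2 : Set.MapsTo (Prod.fst : ℕ × ℕ → ℕ)
          ((P.filter (fun p => Nat.log 2 (p.1 - 1) = i) : Finset (ℕ × ℕ)) : Set (ℕ × ℕ))
          (Ioc (2 ^ i) (2 * 2 ^ i) : Finset ℕ) := by
        intro p hp
        rw [mem_coe, mem_filter] at hp
        obtain ⟨g1, g2⟩ := hf p hp.1
        rw [hp.2] at g1 g2
        rw [mem_coe, mem_Ioc]
        exact ⟨g1, g2⟩
      have hcor := hX₁ X (by omega) (2 ^ i) Y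
        (fun m => ((P.filter (fun p => Nat.log 2 (p.1 - 1) = i)).filter
          (fun p => p.1 = m)).image Prod.snd) hY hYX (by linarith) (by linarith) (by
            intro m _ n hn
            rw [mem_image] at hn
            obtain ⟨p, hp, rfl⟩ := hn
            rw [mem_filter, mem_filter] at hp
            obtain ⟨⟨hpP, -⟩, rfl⟩ := hp
            obtain ⟨-, g2, g3, -⟩ := hP p hpP
            exact ⟨g2, g3, (key p hpP).2⟩)
      refine le_trans (le_of_eq ?_) hcor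
      rw [Finset.card_eq_sum_card_fiberwise hmap2]
      push_cast
      refine sum_congr rfl fun m _ => ?_
      rw [card_image_of_injOn]
      intro p hp q hq hpq
      rw [mem_coe, mem_filter] at hp hq
      exact Prod.ext (hp.2.trans hq.2.symm) hpq
  refine (sum_le_sum hone).trans ?_
  rw [sum_const, card_range, nsmul_eq_mul]
  have hJ := prm_log2 X (by omega)
  have h3 : 0 ≤ X * Real.log X ^ C₀ / Y := by positivity
  refine (mul_le_mul_of_nonneg_right hJ h3).trans (le_of_eq ?_)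
  ring

/-- **PRM.** -/
theorem thm_PrM (h1 : St_Dyw) : St_PrM := by
  classical
  intro c j Φ hc hCor hT _
  obtain ⟨C₀, X₀, hX₀, hblk⟩ := prm_block c j Φ hc hCor hT
  obtain ⟨M₀, hM₀⟩ : ∃ M₀ : ℕ, M₀ = 2 * 3 ^ 110 + 1 := ⟨_, rfl⟩
  set K : ℝ := 1 + (M₀ : ℝ) ^ 2 + 48 * 2 ^ (C₀ + 1) with hK
  have hlog : ∀ᶠ N : ℕ in atTop, K ≤ Real.log N :=
    (Real.tendsto_log_atTop.comp (tendsto_natCast_atTop_atTop (R := ℝ))).eventually
      (eventually_ge_atTop K)
  obtain ⟨N₀, hN₀⟩ := eventually_atTop.1 (hlog.and (eventually_ge_atTop (4 * X₀ ^ 4 + 2)))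
  refine ⟨C₀ + 2, N₀, ?_⟩
  intro N hN M hM P hP
  obtain ⟨hLK, hNX⟩ := hN₀ N hN
  have hN2 : (2 : ℝ) ≤ N := by exact_mod_cast (by omega : 2 ≤ N)
  have hN4 : (4 : ℝ) * (X₀ : ℝ) ^ 4 ≤ N := by exact_mod_cast (by omega : 4 * X₀ ^ 4 ≤ N)
  set L := Real.log N with hL
  have hK1 : 1 ≤ K := by
    rw [hK]
    have : (0 : ℝ) ≤ (M₀ : ℝ) ^ 2 + 48 * 2 ^ (C₀ + 1) := by positivity
    linarith
  have hL1 : 1 ≤ L := hK1.trans hLK
  obtain ⟨M₁, hM₁⟩ : ∃ M₁ : ℕ, M₁ = max M M₀ := ⟨_, rfl⟩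
  have hMM₁ : M ≤ M₁ := by rw [hM₁]; exact le_max_left _ _
  have hM₀M₁ : M₀ ≤ M₁ := by rw [hM₁]; exact le_max_right _ _
  have hM₁r : (2 : ℝ) * 3 ^ 110 ≤ M₁ := by
    have h2 : 2 * 3 ^ 110 ≤ M₁ := by omega
    exact_mod_cast h2
  have hM₁0 : (0 : ℝ) < M₁ := lt_of_lt_of_le (by positivity) hM₁r
  set Y : ℝ := ((M₁ : ℝ) / 2) ^ (1 / 110 : ℝ) with hYdef
  have hY110 : Y ^ 110 = (M₁ : ℝ) / 2 := by
    rw [hYdef, ← Real.rpow_natCast, ← Real.rpow_mul (by positivity)]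
    norm_num
  have hY3 : 3 ≤ Y := by
    have h2 : (3 : ℝ) ^ 110 ≤ Y ^ 110 := by
      rw [hY110]
      linarith
    exact le_of_pow_le_pow_left₀ (by norm_num) (by positivity) h2
  have hY0 : (0 : ℝ) < Y := by linarith
  have hMY : (M₁ : ℝ) ^ (1 / 110 : ℝ) ≤ 2 * Y := by
    have h2 : (M₁ : ℝ) = 2 * ((M₁ : ℝ) / 2) := by ring
    rw [h2, Real.mul_rpow (by norm_num) (by positivity), ← hYdef]
    have h3 : (2 : ℝ) ^ (1 / 110 : ℝ) ≤ 2 := by
      conv_rhs => rw [← Real.rpow_one (2 : ℝ)]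
      exact Real.rpow_le_rpow_of_exponent_le (by norm_num) (by norm_num)
    exact mul_le_mul_of_nonneg_right h3 hY0.le
  obtain ⟨P₁, hP₁⟩ : ∃ P₁, P₁ = P.filter (fun p => M₁ ≤ p.1) := ⟨_, rfl⟩
  obtain ⟨P₂, hP₂⟩ : ∃ P₂, P₂ = P.filter (fun p => ¬ M₁ ≤ p.1) := ⟨_, rfl⟩
  have hcard : P.card = P₁.card + P₂.card := by
    rw [hP₁, hP₂]
    exact (card_filter_add_card_filter_not _).symm
  have hP1 : ∀ p ∈ P₁, M₁ ≤ p.1 ∧ p.2 ≤ N ∧ ExcP c j Φ p.1 p.2 := by
    intro p hp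
    rw [hP₁, mem_filter] at hp
    obtain ⟨-, g2, g3⟩ := hP p hp.1
    exact ⟨hp.2, g2, g3⟩
  -- the pairs with `m < M₀`
  have hsmall : (M : ℝ) ^ (1 / 110 : ℝ) * P₂.card ≤ (M₀ : ℝ) ^ 2 * N := by
    rcases P₂.eq_empty_or_nonempty with he | ⟨p₀, hp₀⟩
    · rw [he, Finset.card_empty, Nat.cast_zero, mul_zero]
      positivity
    · have hMM₀ : M ≤ M₀ := by
        rw [hP₂, mem_filter] at hp₀
        have g1 := (hP p₀ hp₀.1).1
        by_contra hcon
        have : M₁ = M := by rw [hM₁]; exact max_eq_left (by omega)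
        omega
      have hM₁e : M₁ = M₀ := by rw [hM₁]; exact max_eq_right hMM₀
      have h2 : P₂ ⊆ range M₀ ×ˢ Icc 1 N := by
        intro p hp
        rw [hP₂, mem_filter] at hp
        obtain ⟨g1, g2, g3⟩ := hP p hp.1
        have g4 := g3.1.2.1
        rw [mem_product, mem_range, mem_Icc]
        refine ⟨by omega, by omega, g2⟩
      have h3 := card_le_card h2
      rw [card_product, card_range, Nat.card_Icc, Nat.add_sub_cancel] at h3
      have h4 : (P₂.card : ℝ) ≤ M₀ * N := by exact_mod_cast h3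
      have hM1 : (1 : ℝ) ≤ M := by exact_mod_cast hM
      have h5 : (M : ℝ) ^ (1 / 110 : ℝ) ≤ M₀ := by
        have h6 : (M : ℝ) ^ (1 / 110 : ℝ) ≤ M := by
          conv_rhs => rw [← Real.rpow_one (M : ℝ)]
          exact Real.rpow_le_rpow_of_exponent_le hM1 (by norm_num)
        exact h6.trans (by exact_mod_cast hMM₀)
      calc (M : ℝ) ^ (1 / 110 : ℝ) * P₂.card ≤ M₀ * (M₀ * N) :=
            mul_le_mul h5 h4 (Nat.cast_nonneg _) (Nat.cast_nonneg _)
        _ = (M₀ : ℝ) ^ 2 * N := by ring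
  -- the pairs with `m ≥ M₁`
  set D : ℝ := 3 * Real.log (2 * N) ^ (C₀ + 1) / Y with hD
  have hlog2N : 0 ≤ Real.log (2 * N) := Real.log_nonneg (by linarith)
  have hD0 : 0 ≤ D := by positivity
  have hlarge : (P₁.card : ℝ) ≤ X₀ ^ 2 + 8 * D * N := by
    have hdyw := h1 (fun n => ((P₁.filter (fun p => p.2 = n)).card : ℝ)) X₀ D hX₀ hD0
      (fun n => Nat.cast_nonneg _) N ?_
    · have h2 : ∑ n ∈ Icc 1 N, ((P₁.filter (fun p => p.2 = n)).card : ℝ) = P₁.card := by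
        rw [Finset.card_eq_sum_card_fiberwise (f := Prod.snd) (t := Icc 1 N)]
        · push_cast
          rfl
        · intro p hp
          obtain ⟨-, g2, g3⟩ := hP1 p hp
          have g4 := g3.1.2.1
          rw [mem_coe, mem_Icc]
          exact ⟨by omega, g2⟩
      have h3 : ∑ n ∈ range X₀, ((P₁.filter (fun p => p.2 = n)).card : ℝ) ≤ X₀ ^ 2 := by
        have h4 : ∀ n ∈ range X₀, ((P₁.filter (fun p => p.2 = n)).card : ℝ) ≤ X₀ := by
          intro n hn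
          rw [mem_range] at hn
          have h5 : (P₁.filter (fun p => p.2 = n)).card ≤ (range n).card := by
            refine card_le_card_of_injOn Prod.fst ?_ ?_
            · intro p hp
              rw [mem_coe, mem_filter] at hp
              obtain ⟨-, -, g3⟩ := hP1 p hp.1
              have g4 := g3.1.2.1
              rw [mem_coe, mem_range]
              omega
            · intro p hp q hq hpq
              rw [mem_coe, mem_filter] at hp hq
              exact Prod.ext hpq (hp.2.trans hq.2.symm)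
          rw [card_range] at h5
          exact_mod_cast (by omega : (P₁.filter (fun p => p.2 = n)).card ≤ X₀)
        refine (sum_le_sum h4).trans (le_of_eq ?_)
        rw [sum_const, card_range, nsmul_eq_mul, sq]
      rw [h2] at hdyw
      linarith
    · intro X hX1 hX2
      have h2 : ∑ n ∈ (Icc 1 N).filter (fun n => X ≤ 2 * n ∧ 4 * n ≤ 3 * X),
          ((P₁.filter (fun p => p.2 = n)).card : ℝ) =
          ((P₁.filter (fun p => X ≤ 2 * p.2 ∧ 4 * p.2 ≤ 3 * X)).card : ℝ) := by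
        rw [Finset.card_eq_sum_card_fiberwise (f := Prod.snd)
          (t := (Icc 1 N).filter (fun n => X ≤ 2 * n ∧ 4 * n ≤ 3 * X))]
        · push_cast
          refine sum_congr rfl fun n hn => ?_
          rw [mem_filter] at hn
          congr 2
          ext p
          simp only [mem_filter]
          constructor
          · rintro ⟨g1, rfl⟩
            exact ⟨⟨g1, hn.2⟩, rfl⟩
          · rintro ⟨⟨g1, -⟩, g2⟩
            exact ⟨g1, g2⟩
        · intro p hp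
          rw [mem_coe, mem_filter] at hp
          obtain ⟨-, g2, g3⟩ := hP1 p hp.1
          have g4 := g3.1.2.1
          rw [mem_coe, mem_filter, mem_Icc]
          exact ⟨⟨by omega, g2⟩, hp.2⟩
      rw [h2]
      refine (hblk X hX1 Y hY3 _ ?_).trans ?_
      · intro p hp
        rw [mem_filter] at hp
        obtain ⟨g1, g2, g3⟩ := hP1 p hp.1
        refine ⟨?_, hp.2.1, hp.2.2, g3⟩
        rw [hY110]
        have : (M₁ : ℝ) ≤ p.1 := by exact_mod_cast g1
        linarith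
      · have hX0 : (1 : ℝ) ≤ X := by exact_mod_cast (by omega : 1 ≤ X)
        have hX2' : (X : ℝ) ≤ 2 * N := by exact_mod_cast hX2
        have h3 : Real.log X ≤ Real.log (2 * N) := Real.log_le_log (by linarith) hX2'
        have h4 : Real.log X ^ (C₀ + 1) ≤ Real.log (2 * N) ^ (C₀ + 1) :=
          pow_le_pow_left₀ (Real.log_nonneg hX0) h3 _
        refine mul_le_mul_of_nonneg_right ?_ (by linarith)
        rw [hD]
        exact div_le_div_of_nonneg_right (by linarith) hY0.le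
  have hbig : (M : ℝ) ^ (1 / 110 : ℝ) * P₁.card ≤ N + 48 * (2 ^ (C₀ + 1) * L ^ (C₀ + 1)) * N := by
    rcases P₁.eq_empty_or_nonempty with he | ⟨p₀, hp₀⟩
    · rw [he, Finset.card_empty, Nat.cast_zero, mul_zero]
      positivity
    · have h2 : (M : ℝ) ^ (1 / 110 : ℝ) ≤ 2 * Y := by
        refine le_trans ?_ hMY
        exact Real.rpow_le_rpow (Nat.cast_nonneg _) (by exact_mod_cast hMM₁) (by norm_num)
      have h3 : (M : ℝ) ^ (1 / 110 : ℝ) * P₁.card ≤ 2 * Y * (X₀ ^ 2 + 8 * D * N) :=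
        mul_le_mul h2 hlarge (Nat.cast_nonneg _) (by positivity)
      have h4 : 2 * Y * (8 * D * N) = 48 * Real.log (2 * N) ^ (C₀ + 1) * N := by
        rw [hD]
        field_simp
        ring
      have h5 : Real.log (2 * N) ^ (C₀ + 1) ≤ 2 ^ (C₀ + 1) * L ^ (C₀ + 1) := by
        rw [← mul_pow]
        refine pow_le_pow_left₀ hlog2N ?_ _
        rw [Real.log_mul (by norm_num) (by linarith), two_mul]
        have : Real.log 2 ≤ L := Real.log_le_log (by norm_num) hN2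
        linarith
      have h6 : 2 * Y * (X₀ : ℝ) ^ 2 ≤ N := by
        obtain ⟨g1, g2, g3⟩ := hP1 p₀ hp₀
        have g4 := g3.1.2.1
        have g5 : (M₁ : ℝ) ≤ N := by exact_mod_cast (by omega : M₁ ≤ N)
        have g6 : Y ^ 2 ≤ N := by
          have g7 : Y ^ 2 ≤ Y ^ 110 := pow_le_pow_right₀ (by linarith) (by norm_num)
          rw [hY110] at g7
          linarith
        have g8 : (2 * Y * (X₀ : ℝ) ^ 2) ^ 2 ≤ (N : ℝ) ^ 2 := by
          calc (2 * Y * (X₀ : ℝ) ^ 2) ^ 2 = Y ^ 2 * (4 * (X₀ : ℝ) ^ 4) := by ring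
            _ ≤ (N : ℝ) * (N : ℝ) := mul_le_mul g6 hN4 (by positivity) (by positivity)
            _ = (N : ℝ) ^ 2 := by ring
        exact le_of_sq_le_sq g8 (by positivity)
      have h7 : 2 * Y * (X₀ ^ 2 + 8 * D * N) =
          2 * Y * (X₀ : ℝ) ^ 2 + 48 * Real.log (2 * N) ^ (C₀ + 1) * N := by
        rw [mul_add, h4]
      rw [h7] at h3
      have h8 : 48 * Real.log (2 * N) ^ (C₀ + 1) * N ≤
          48 * (2 ^ (C₀ + 1) * L ^ (C₀ + 1)) * N := by
        refine mul_le_mul_of_nonneg_right ?_ (by linarith)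
        linarith
      linarith
  rw [hcard]
  push_cast
  rw [mul_add]
  have hLp : 1 ≤ L ^ (C₀ + 1) := one_le_pow₀ hL1
  have hN0 : (0 : ℝ) ≤ N := by linarith
  calc (M : ℝ) ^ (1 / 110 : ℝ) * P₁.card + (M : ℝ) ^ (1 / 110 : ℝ) * P₂.card
      ≤ (N + 48 * (2 ^ (C₀ + 1) * L ^ (C₀ + 1)) * N) + (M₀ : ℝ) ^ 2 * N := add_le_add hbig hsmall
    _ = ((1 + (M₀ : ℝ) ^ 2) * 1 + 48 * 2 ^ (C₀ + 1) * L ^ (C₀ + 1)) * N := by ring
    _ ≤ ((1 + (M₀ : ℝ) ^ 2) * L ^ (C₀ + 1) + 48 * 2 ^ (C₀ + 1) * L ^ (C₀ + 1)) * N := by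
        refine mul_le_mul_of_nonneg_right ?_ hN0
        have : (0 : ℝ) ≤ 1 + (M₀ : ℝ) ^ 2 := by positivity
        nlinarith
    _ = K * L ^ (C₀ + 1) * N := by rw [hK]; ring
    _ ≤ L * L ^ (C₀ + 1) * N := by
        refine mul_le_mul_of_nonneg_right ?_ hN0
        exact mul_le_mul_of_nonneg_right hLK (by linarith)
    _ = N * L ^ (C₀ + 2) := by ring

end Pool.Agent.TLL
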