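import Mathlib
import Pool.Agent.TLL.St

/-!
# TLL, PTW: pointwise estimate of the integrand
-/

set_option autoImplicit false

namespace Pool.Agent.TLL

open Finset Filter MeasureTheory
open Pool.Agent.GBQ (ee lam nd Admissible)

private theorem Ptw_norm (x : ℝ) : ‖ee x‖ = 1 := Complex.norm_exp_ofReal_mul_I _

private theorem Ptw_diff (x : ℝ) : ‖1 - ee x‖ ≤ 2 * Real.pi * |x| := by
  have h1 := Real.norm_exp_I_mul_ofReal_sub_one_le (x := 2 * Real.pi * x)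
  unfold ee
  rw [norm_sub_rev, mul_comm (((2 * Real.pi * x : ℝ) : ℂ)) Complex.I]
  refine h1.trans (le_of_eq ?_)
  rw [Real.norm_eq_abs, abs_mul, abs_of_nonneg (by positivity : (0 : ℝ) ≤ 2 * Real.pi)]

private theorem Ptw_two (x : ℝ) : ‖1 - ee x‖ ^ 2 ≤ 4 := by
  have h1 : ‖1 - ee x‖ ≤ 2 := by
    refine (norm_sub_le _ _).trans ?_
    rw [Ptw_norm, norm_one]
    norm_num
  nlinarith [norm_nonneg (1 - ee x)]

private theorem Ptw_nd (α : ℝ) (h : |α| ≤ 1 / 2) : nd α = |α| := by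
  unfold nd
  rw [abs_le] at h
  rcases eq_or_lt_of_le h.2 with h1 | h1
  · have h2 : round α = 1 := by
      rw [round_eq, h1]
      norm_num
    rw [h2, h1]
    norm_num
  · have h2 : round α = 0 := by
      rw [round_eq_zero_iff]
      exact ⟨by linarith [h.1], h1⟩
    rw [h2, Int.cast_zero, sub_zero]

/-- pure algebra: the four cases -/
private theorem Ptw_alg (d G L C₀ T1 T2 S P FR : ℝ) (_hd0 : 0 ≤ d) (hd : d ≤ 4) (hG : 0 ≤ G)
    (hL : 0 ≤ L) (hC : 0 ≤ C₀) (h1 : 0 ≤ T1) (h2 : 0 ≤ T2) (hP : 0 ≤ P) (hF : 0 ≤ FR)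
    (h : d * G ≤ 16 * Real.pi ^ 2 * T1 ∨ G ≤ C₀ * T2 ∨ L ≤ S ^ 2 ∨ (G ≤ C₀ * P ∧ L ≤ FR)) :
    d * G * L ≤ (16 * Real.pi ^ 2 + 4 * C₀) * (T1 + T2) * L + 4 * S ^ 2 * G +
      (16 * Real.pi ^ 2 + 4 * C₀) * P * FR := by
  have hpi : 0 ≤ 16 * Real.pi ^ 2 := by positivity
  have e0 : 0 ≤ 4 * S ^ 2 * G := by positivity
  have e1 : 0 ≤ (16 * Real.pi ^ 2 + 4 * C₀) * P * FR := by positivity
  have e2 : 0 ≤ (16 * Real.pi ^ 2 + 4 * C₀) * (T1 + T2) * L := by positivity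
  have hdG : d * G ≤ 4 * G := mul_le_mul_of_nonneg_right hd hG
  rcases h with h | h | h | ⟨h, h'⟩
  · have e3 : d * G * L ≤ 16 * Real.pi ^ 2 * T1 * L := mul_le_mul_of_nonneg_right h hL
    have e4 : 16 * Real.pi ^ 2 * T1 * L ≤ (16 * Real.pi ^ 2 + 4 * C₀) * (T1 + T2) * L := by
      refine mul_le_mul_of_nonneg_right ?_ hL
      have a1 : 0 ≤ 16 * Real.pi ^ 2 * T2 := by positivity
      have a2 : 0 ≤ 4 * C₀ * (T1 + T2) := by positivity
      linarith
    linarith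
  · have e3 : d * G * L ≤ 4 * (C₀ * T2) * L := by
      refine mul_le_mul_of_nonneg_right ?_ hL
      linarith
    have e4 : 4 * (C₀ * T2) * L ≤ (16 * Real.pi ^ 2 + 4 * C₀) * (T1 + T2) * L := by
      refine mul_le_mul_of_nonneg_right ?_ hL
      have a1 : 0 ≤ 16 * Real.pi ^ 2 * (T1 + T2) := by positivity
      have a2 : 0 ≤ 4 * C₀ * T1 := by positivity
      linarith
    linarith
  · have e3 : d * G * L ≤ 4 * G * S ^ 2 :=
      mul_le_mul hdG h hL (by positivity)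
    have e4 : 4 * G * S ^ 2 = 4 * S ^ 2 * G := by ring
    linarith
  · have e3 : d * G * L ≤ 4 * (C₀ * P) * FR := by
      refine mul_le_mul ?_ h' hL (by positivity)
      linarith
    have e4 : 4 * (C₀ * P) * FR ≤ (16 * Real.pi ^ 2 + 4 * C₀) * P * FR := by
      refine mul_le_mul_of_nonneg_right ?_ hF
      have a1 : 0 ≤ 16 * Real.pi ^ 2 * P := by positivity
      linarith
    linarith

/-- **PTW** -/
theorem thm_Ptw (h1 : St_Ker) (h2 : St_Dir) : St_Ptw := by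
  obtain ⟨C₀, hC₀, hK⟩ := h1
  refine ⟨16 * Real.pi ^ 2 + 4 * C₀, by positivity, ?_⟩
  intro η N x R h QQ Y D S hyp α hα
  obtain ⟨hx, hxR, hQ, hY, hD, hDR, hS, hLa⟩ := hyp
  obtain ⟨hK1, hK2⟩ := hK x R QQ α hx hxR hQ
  have hx0 : (0 : ℝ) < x := by exact_mod_cast hx
  have hD0 : 0 < D := by linarith
  have hY0 : 0 < Y := by linarith
  have hq0 : (0 : ℝ) ≤ QQ.card := Nat.cast_nonneg _
  have hR0 : (0 : ℝ) ≤ R := Nat.cast_nonneg _
  have hG0 : 0 ≤ ∑ m ∈ Ioc x (2 * x), ‖Wm QQ m α‖ ^ 2 := Finset.sum_nonneg fun m _ => sq_nonneg _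
  have hL0 : 0 ≤ ‖La η N α‖ ^ 2 := sq_nonneg _
  have hterm : ∀ p ∈ fr x Y, 0 ≤ (if |α - (p.2 : ℝ) / p.1| ≤ 1 / ((p.1 : ℝ) * D) then
      ‖La η N α‖ ^ 2 else 0) := by
    intro p _
    split_ifs
    · exact hL0
    · exact le_refl _
  have hF0 := Finset.sum_nonneg hterm
  have key := Ptw_alg (‖1 - ee (α * h)‖ ^ 2) (∑ m ∈ Ioc x (2 * x), ‖Wm QQ m α‖ ^ 2)
    (‖La η N α‖ ^ 2) C₀ ((h / D) ^ 2 * (x : ℝ) ^ 3 * (QQ.card : ℝ) ^ 2)
    ((x : ℝ) ^ 2 * R * QQ.card / Y) S ((x : ℝ) ^ 2 * R * QQ.card)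
    (∑ p ∈ fr x Y, (if |α - (p.2 : ℝ) / p.1| ≤ 1 / ((p.1 : ℝ) * D) then
      ‖La η N α‖ ^ 2 else 0)) (sq_nonneg _) (Ptw_two _) hG0 hL0 (by linarith) (by positivity)
    (by positivity) (by positivity) hF0 ?_
  · refine key.trans (le_of_eq ?_)
    ring
  by_cases hz : |α| ≤ 1 / D
  · left
    have a1 : ‖1 - ee (α * h)‖ ≤ 2 * Real.pi * (h / D) := by
      refine (Ptw_diff _).trans ?_
      refine mul_le_mul_of_nonneg_left ?_ (by positivity)
      rw [abs_mul, Nat.abs_cast]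
      calc |α| * h ≤ 1 / D * h := mul_le_mul_of_nonneg_right hz (Nat.cast_nonneg _)
        _ = h / D := by ring
    have a2 : ‖1 - ee (α * h)‖ ^ 2 ≤ (2 * Real.pi * (h / D)) ^ 2 :=
      pow_le_pow_left₀ (norm_nonneg _) a1 2
    calc ‖1 - ee (α * h)‖ ^ 2 * (∑ m ∈ Ioc x (2 * x), ‖Wm QQ m α‖ ^ 2)
        ≤ (2 * Real.pi * (h / D)) ^ 2 * (4 * (x : ℝ) ^ 3 * (QQ.card : ℝ) ^ 2) :=
          mul_le_mul a2 hK1 hG0 (by positivity)
      _ = 16 * Real.pi ^ 2 * ((h / D) ^ 2 * (x : ℝ) ^ 3 * (QQ.card : ℝ) ^ 2) := by ring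
  · right
    rw [not_le] at hz
    have hnd := Ptw_nd α hα
    have hRn : 1 ≤ R * nd α := by
      rw [hnd]
      have b1 : D * (1 / D) ≤ R * |α| :=
        mul_le_mul hDR hz.le (by positivity) hR0
      rwa [mul_one_div_cancel hD0.ne'] at b1
    obtain ⟨hK3, hK4⟩ := hK2 hRn
    by_cases ht : Y / x ≤ |α|
    · left
      rw [hnd] at hK4
      have b1 : Y ≤ x * |α| := by
        rw [div_le_iff₀ hx0] at ht
        linarith
      have b2 : Y * ∑ m ∈ Ioc x (2 * x), ‖Wm QQ m α‖ ^ 2 ≤ C₀ * (x : ℝ) ^ 2 * R * QQ.card :=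
        (mul_le_mul_of_nonneg_right b1 hG0).trans hK4
      have b3 : C₀ * ((x : ℝ) ^ 2 * R * QQ.card / Y) = C₀ * (x : ℝ) ^ 2 * R * QQ.card / Y := by
        ring
      rw [b3, le_div_iff₀ hY0]
      linarith
    · right
      rw [not_le] at ht
      obtain ⟨k, a, hk2, hkD, hcop, hka, hxk, ha⟩ := h2 x Y D α hx (by linarith) hD hα hz ht
      have hk0 : (0 : ℝ) < k := by
        have : 0 < k := by omega
        exact_mod_cast this
      by_cases hv : x * Y ^ 4 < (k : ℝ)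
      · left
        have b1 : |α - a / k| ≤ 1 / (k : ℝ) ^ 2 := by
          refine hka.trans ?_
          rw [sq]
          exact one_div_le_one_div_of_le (by positivity)
            (mul_le_mul_of_nonneg_left hkD hk0.le)
        exact pow_le_pow_left₀ (norm_nonneg _) (hLa α k a hv hkD hcop b1) 2
      · right
        rw [not_lt] at hv
        refine ⟨?_, ?_⟩
        · refine hK3.trans (le_of_eq ?_)
          ring
        have hmem : (k, a) ∈ fr x Y := by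
          have c1 : (k : ℝ) * Y / x ≤ Y ^ 5 := by
            rw [div_le_iff₀ hx0]
            calc (k : ℝ) * Y ≤ x * Y ^ 4 * Y := mul_le_mul_of_nonneg_right hv hY0.le
              _ = Y ^ 5 * x := by ring
          have c2 : (1 : ℝ) ≤ Y ^ 5 := one_le_pow₀ (by linarith)
          have c3 : |(a : ℝ)| ≤ 2 * Y ^ 5 := by linarith
          rw [abs_le] at c3
          classical
          unfold fr
          rw [mem_filter, mem_product, mem_Icc, mem_Icc]
          refine ⟨⟨⟨by show 1 ≤ k; omega, Nat.le_floor hv⟩, ?_, Int.le_floor.mpr c3.2⟩, hcop, hxk⟩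
          show -⌊2 * Y ^ 5⌋ ≤ a
          have c4 : -a ≤ ⌊2 * Y ^ 5⌋ := by
            rw [Int.le_floor, Int.cast_neg]
            linarith [c3.1]
          linarith
        have c5 := Finset.single_le_sum hterm hmem
        refine le_trans (le_of_eq ?_) c5
        show _ = (if |α - (a : ℝ) / k| ≤ 1 / ((k : ℝ) * D) then ‖La η N α‖ ^ 2 else 0)
        rw [if_pos hka]

end Pool.Agent.TLL
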