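import Pool.Agent.TLL.St

/-!
# TLL [Res]: the resonant arcs
-/

set_option autoImplicit false

namespace Pool.Agent.TLL

open Finset Filter MeasureTheory
open Pool.Agent.GBQ (ee lam nd Admissible)
open Pool.Agent.MT (IsWt prim)

private theorem res_ee_cont : Continuous ee := by
  unfold Pool.Agent.GBQ.ee
  fun_prop

private theorem res_La_cont (η : ℝ → ℝ) (N : ℕ) : Continuous fun α => La η N α := by
  unfold La
  refine continuous_finsetSum _ fun x _ => continuous_const.mul ?_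
  exact res_ee_cont.comp (continuous_id.mul continuous_const)

/-- one arc: the mean square is at most the maximum times the mean over a longer interval -/
private theorem res_arc (f : ℝ → ℝ) (hf : Continuous f) (h0 : ∀ t, 0 ≤ f t) (δ Θ S : ℝ)
    (hδ : 0 ≤ δ) (hΘ : δ ≤ Θ) (hS : ∀ t, |t| ≤ δ → f t ≤ S) :
    ∫ t in (-δ)..δ, f t ^ 2 ≤ S * ∫ t in (-Θ)..Θ, f t := by
  have hS0 : 0 ≤ S := (h0 0).trans (hS 0 (by simpa using hδ))
  have h1 : ∫ t in (-δ)..δ, f t ^ 2 ≤ ∫ t in (-δ)..δ, S * f t := by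
    refine intervalIntegral.integral_mono_on (by linarith) ((hf.pow 2).intervalIntegrable _ _)
      ((continuous_const.mul hf).intervalIntegrable _ _) fun t ht => ?_
    rw [pow_two]
    exact mul_le_mul_of_nonneg_right (hS t (abs_le.mpr ht)) (h0 t)
  rw [intervalIntegral.integral_const_mul] at h1
  refine h1.trans (mul_le_mul_of_nonneg_left ?_ hS0)
  refine intervalIntegral.integral_mono_interval (by linarith) (by linarith) hΘ ?_
    (hf.intervalIntegrable _ _)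
  exact Filter.Eventually.of_forall h0

/-- the sum over the fractions -/
private theorem res_sum (η : ℝ → ℝ) (N x : ℕ) (Y t B : ℝ) (hY : 3 ≤ Y) (K : ℕ)
    (hK : K = ⌊x * Y ^ 4⌋₊)
    (hB : ∀ a : ℤ, ∑ k ∈ Icc 1 K, (open scoped Classical in if IsCoprime a (k : ℤ) then
      ‖La η N ((a : ℝ) / k + t)‖ else 0) ≤ B) :
    ∑ p ∈ fr x Y, ‖La η N ((p.2 : ℝ) / p.1 + t)‖ ≤ 5 * Y ^ 5 * B := by
  classical
  have hB0 : 0 ≤ B := by
    refine le_trans (Finset.sum_nonneg fun k _ => ?_) (hB 0)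
    split_ifs
    · exact norm_nonneg _
    · exact le_rfl
  have hY5 : 0 ≤ 2 * Y ^ 5 := by positivity
  have h1 : ∑ p ∈ fr x Y, ‖La η N ((p.2 : ℝ) / p.1 + t)‖ ≤
      ∑ p ∈ Icc 1 ⌊x * Y ^ 4⌋₊ ×ˢ Icc (-⌊2 * Y ^ 5⌋) ⌊2 * Y ^ 5⌋,
        (if IsCoprime p.2 (p.1 : ℤ) then ‖La η N ((p.2 : ℝ) / p.1 + t)‖ else 0) := by
    unfold fr
    rw [Finset.sum_filter]
    refine Finset.sum_le_sum fun p _ => ?_
    by_cases h : IsCoprime p.2 (p.1 : ℤ)
    · by_cases h' : (x : ℝ) < 2 * Y * p.1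
      · simp [h, h']
      · simp [h, h']
    · simp [h]
  rw [Finset.sum_product_right, ← hK] at h1
  refine h1.trans ?_
  have h2 : ∑ a ∈ Icc (-⌊2 * Y ^ 5⌋) ⌊2 * Y ^ 5⌋, ∑ k ∈ Icc 1 K,
      (if IsCoprime a (k : ℤ) then ‖La η N ((a : ℝ) / k + t)‖ else 0) ≤
      ∑ a ∈ Icc (-⌊2 * Y ^ 5⌋) ⌊2 * Y ^ 5⌋, B := by
    refine Finset.sum_le_sum fun a _ => ?_
    convert hB a
  refine h2.trans ?_
  rw [Finset.sum_const, nsmul_eq_mul, Int.card_Icc]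
  refine mul_le_mul_of_nonneg_right ?_ hB0
  have h3 : (0 : ℤ) ≤ ⌊2 * Y ^ 5⌋ := Int.floor_nonneg.mpr hY5
  have h4 : (((⌊2 * Y ^ 5⌋ + 1 - -⌊2 * Y ^ 5⌋).toNat : ℕ) : ℝ) = 2 * (⌊2 * Y ^ 5⌋ : ℝ) + 1 := by
    have h5 : (((⌊2 * Y ^ 5⌋ + 1 - -⌊2 * Y ^ 5⌋).toNat : ℕ) : ℤ) = 2 * ⌊2 * Y ^ 5⌋ + 1 := by
      rw [Int.toNat_of_nonneg (by omega)]
      ring
    exact_mod_cast congrArg (Int.cast : ℤ → ℝ) h5
  rw [h4]
  have h5 : (⌊2 * Y ^ 5⌋ : ℝ) ≤ 2 * Y ^ 5 := Int.floor_le _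
  have h6 : (1 : ℝ) ≤ Y ^ 5 := one_le_pow₀ (by linarith)
  linarith

/-- the final inequality -/
private theorem res_final (X L Y u s C₁ C₃ : ℝ) (c₁ c₃ : ℕ) (hX : 0 < X) (hL : 1 ≤ L) (hY : 3 ≤ Y)
    (hu : 1 ≤ u) (hs : Y ^ 27 * u ≤ s)
    (hbig : 6480 * C₁ * C₃ * 2 ^ (c₁ + c₃) ≤ L) :
    (6 * C₁ * (X * u / s ^ 2) * (2 * L) ^ c₁) * (2 * (2 * Y ^ 5 / X) *
      (5 * Y ^ 5 * (C₃ * (2 * L) ^ c₃ * (3 * Y ^ 5) ^ 3 * (2 * X * (s * Y))))) ≤
    X * L ^ (c₁ + c₃ + 1) / Y := by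
  have hY0 : 0 < Y := by linarith
  have hs0 : 0 < s := lt_of_lt_of_le (by positivity) hs
  have h1 : (6 * C₁ * (X * u / s ^ 2) * (2 * L) ^ c₁) * (2 * (2 * Y ^ 5 / X) *
      (5 * Y ^ 5 * (C₃ * (2 * L) ^ c₃ * (3 * Y ^ 5) ^ 3 * (2 * X * (s * Y))))) =
      (6480 * C₁ * C₃ * 2 ^ (c₁ + c₃)) * (X * L ^ (c₁ + c₃)) * (u * Y ^ 26 / s) := by
    rw [mul_pow, mul_pow, pow_add, pow_add]
    field_simp
    ring
  rw [h1]
  have h2 : u * Y ^ 26 / s ≤ 1 / Y := by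
    rw [div_le_div_iff₀ hs0 hY0]
    nlinarith [hs]
  have h3 : 0 ≤ X * L ^ (c₁ + c₃) := by positivity
  have h4 : 0 ≤ u * Y ^ 26 / s := by positivity
  calc (6480 * C₁ * C₃ * 2 ^ (c₁ + c₃)) * (X * L ^ (c₁ + c₃)) * (u * Y ^ 26 / s)
      ≤ L * (X * L ^ (c₁ + c₃)) * (1 / Y) :=
        mul_le_mul (mul_le_mul_of_nonneg_right hbig h3) h2 h4 (by positivity)
    _ = X * L ^ (c₁ + c₃ + 1) / Y := by
        rw [pow_succ]
        ring

set_option maxHeartbeats 1600000 in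
-- many positivity and cast goals
theorem thm_Res (h1 : St_Fmc) (h2 : GBQ.St_MinLam) : St_Res := by
  intro η hη
  obtain ⟨C₁, hC₁⟩ := h2 η hη
  obtain ⟨C₃, hC₃⟩ := h1 η hη
  refine ⟨C₁ + C₃ + 1, ?_⟩
  have hev1 : ∀ᶠ X : ℕ in atTop, 6480 * (C₁ : ℝ) * C₃ * 2 ^ (C₁ + C₃) ≤ Real.log X :=
    (Real.tendsto_log_atTop.comp tendsto_natCast_atTop_atTop).eventually_ge_atTop _
  filter_upwards [hev1, eventually_ge_atTop 64] with X hXL hX x Y hY3 hYX hYx hxX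
  obtain ⟨N, hN⟩ : ∃ N, N = X + X / 4 := ⟨_, rfl⟩
  rw [← hN]
  have hNX : X ≤ N := by omega
  have hNX4 : 4 * N ≤ 5 * X := by omega
  have hN3 : 3 ≤ N := by omega
  have hXr : (64 : ℝ) ≤ X := by exact_mod_cast hX
  have hX0 : (0 : ℝ) < X := by linarith
  have hNr : (X : ℝ) ≤ N := by exact_mod_cast hNX
  have hNr4 : 4 * (N : ℝ) ≤ 5 * X := by exact_mod_cast hNX4
  have hN0 : (0 : ℝ) < N := by linarith
  have hY0 : 0 < Y := by linarith
  -- the logarithms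
  have hL1 : 1 ≤ Real.log X := by
    rw [Real.le_log_iff_exp_le hX0]
    have := Real.exp_one_lt_d9
    linarith
  have hLN0 : 0 ≤ Real.log N := Real.log_nonneg (by linarith)
  have hLN : Real.log N ≤ 2 * Real.log X := by
    have h3 : (N : ℝ) ≤ (X : ℝ) ^ 2 := by
      rw [pow_two]
      calc (N : ℝ) ≤ 2 * X := by linarith
        _ ≤ X * X := mul_le_mul_of_nonneg_right (by linarith) hX0.le
    have h4 := Real.log_le_log hN0 h3
    rwa [Real.log_pow] at h4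
  -- everything in terms of `p = X^(1/100)`
  obtain ⟨p, hp⟩ : ∃ p : ℝ, p = (X : ℝ) ^ (1 / 100 : ℝ) := ⟨_, rfl⟩
  have hpp : ∀ n : ℕ, p ^ n = (X : ℝ) ^ ((n : ℝ) / 100) := by
    intro n
    rw [hp, ← Real.rpow_natCast, ← Real.rpow_mul hX0.le]
    congr 1
    ring
  have hp100 : p ^ 100 = X := by
    rw [hpp]
    norm_num
  have hxp : (x : ℝ) ≤ p ^ 26 := by
    rw [hpp]
    refine hxX.trans_eq ?_
    norm_num
  have hYp : Y ≤ p := by rw [hp]; exact hYX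
  have hp3 : 3 ≤ p := hY3.trans hYp
  have hp1 : 1 ≤ p := by linarith
  have hx0 : (0 : ℝ) < x := lt_of_lt_of_le (by positivity) hYx
  have hx1 : 1 ≤ x := by
    have : 0 < x := by exact_mod_cast hx0
    omega
  have hxY : (x : ℝ) * Y ^ 4 ≤ p ^ 30 := by
    calc (x : ℝ) * Y ^ 4 ≤ p ^ 26 * p ^ 4 :=
          mul_le_mul hxp (pow_le_pow_left₀ hY0.le hYp 4) (by positivity) (by positivity)
      _ = p ^ 30 := by ring
  have hxY1 : 1 ≤ (x : ℝ) * Y ^ 4 := by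
    have h3 : (1 : ℝ) ≤ x := by exact_mod_cast hx1
    have h4 : (1 : ℝ) ≤ Y ^ 4 := one_le_pow₀ (by linarith)
    nlinarith
  -- roots
  obtain ⟨u, hu⟩ : ∃ u, u = Real.sqrt Y := ⟨_, rfl⟩
  have hu2 : u ^ 2 = Y := by rw [hu]; exact Real.sq_sqrt hY0.le
  have hu0 : 0 ≤ u := by rw [hu]; exact Real.sqrt_nonneg _
  have hu1 : 1 ≤ u := by rw [hu]; exact Real.one_le_sqrt.mpr (by linarith)
  obtain ⟨s, hs⟩ : ∃ s, s = (x : ℝ) ^ (1 / 4 : ℝ) := ⟨_, rfl⟩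
  have hs0 : 0 < s := by rw [hs]; positivity
  have hs4 : s ^ 4 = x := by
    rw [hs, ← Real.rpow_natCast, ← Real.rpow_mul hx0.le]
    norm_num
  have hsY : Y ^ 27 * u ≤ s := by
    refine le_of_pow_le_pow_left₀ (n := 4) (by norm_num) hs0.le ?_
    rw [hs4]
    refine le_trans (le_of_eq ?_) hYx
    rw [mul_pow, ← pow_mul, show u ^ 4 = (u ^ 2) ^ 2 by ring, hu2]
    ring
  have hs2p : s ^ 2 ≤ p ^ 13 := by
    refine le_of_pow_le_pow_left₀ (n := 2) (by norm_num) (by positivity) ?_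
    rw [← pow_mul, ← pow_mul, hs4]
    exact hxp
  obtain ⟨B, hB⟩ : ∃ B, B = (X : ℝ) * u / s ^ 2 := ⟨_, rfl⟩
  have hB0 : 0 < B := by rw [hB]; positivity
  have hBsq : B ^ 2 = (X : ℝ) ^ 2 * Y / x := by
    rw [hB, div_pow, mul_pow, hu2, ← pow_mul, hs4]
  have hBp : p ^ 87 ≤ B := by
    rw [hB, le_div_iff₀ (by positivity)]
    calc p ^ 87 * s ^ 2 ≤ p ^ 87 * p ^ 13 := by gcongr
      _ = (X : ℝ) := by rw [← pow_add, hp100]
      _ ≤ X * u := le_mul_of_one_le_right hX0.le hu1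
  -- the order of the approximation
  obtain ⟨D, hD⟩ : ∃ D : ℝ, D = X / (Y ^ 4 * x) := ⟨_, rfl⟩
  rw [← hD]
  have hDp : p ^ 70 ≤ D := by
    rw [hD, le_div_iff₀ (by positivity), ← hp100]
    calc p ^ 70 * (Y ^ 4 * x) = p ^ 70 * (x * Y ^ 4) := by ring
      _ ≤ p ^ 70 * p ^ 30 := by gcongr
      _ = p ^ 100 := by ring
  have hD0 : 0 < D := lt_of_lt_of_le (by positivity) hDp
  obtain ⟨K, hK⟩ : ∃ K, K = ⌊(x : ℝ) * Y ^ 4⌋₊ := ⟨_, rfl⟩
  have hKr : (K : ℝ) ≤ x * Y ^ 4 := by rw [hK]; exact Nat.floor_le (by positivity)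
  have hK1 : 1 ≤ K := by
    rw [hK]
    exact Nat.le_floor (by exact_mod_cast hxY1)
  -- the constants
  obtain ⟨S, hS⟩ : ∃ S : ℝ, S = 6 * C₁ * B * (2 * Real.log X) ^ C₁ := ⟨_, rfl⟩
  obtain ⟨Θ, hΘ⟩ : ∃ Θ : ℝ, Θ = 2 * Y ^ 5 / X := ⟨_, rfl⟩
  have hΘ0 : 0 ≤ Θ := by rw [hΘ]; positivity
  obtain ⟨G, hG⟩ : ∃ G : ℝ, G = C₃ * (2 * Real.log X) ^ C₃ * (3 * Y ^ 5) ^ 3 * (2 * X * (s * Y)) :=
    ⟨_, rfl⟩
  -- pointwise bound
  have hpt : ∀ q ∈ fr x Y, 0 < (q.1 : ℝ) ∧ 1 / ((q.1 : ℝ) * D) ≤ Θ ∧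
      ∀ t : ℝ, |t| ≤ 1 / ((q.1 : ℝ) * D) → ‖La η N ((q.2 : ℝ) / q.1 + t)‖ ≤ S := by
    classical
    intro q hq
    unfold fr at hq
    rw [Finset.mem_filter, Finset.mem_product, Finset.mem_Icc] at hq
    obtain ⟨⟨⟨hk1, hk2⟩, -⟩, hco, hkx⟩ := hq
    have hk0 : (0 : ℝ) < q.1 := by exact_mod_cast hk1
    have hkK : (q.1 : ℝ) ≤ x * Y ^ 4 := (Nat.cast_le.mpr hk2).trans (Nat.floor_le (by positivity))
    have hkp : (q.1 : ℝ) ≤ p ^ 30 := hkK.trans hxY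
    have hkD : (q.1 : ℝ) ≤ D := hkp.trans ((pow_le_pow_right₀ hp1 (by norm_num)).trans hDp)
    refine ⟨hk0, ?_, fun t ht => ?_⟩
    · rw [hΘ, div_le_div_iff₀ (by positivity) hX0]
      have h3 : D * (Y ^ 4 * x) = X := by
        rw [hD]
        exact div_mul_cancel₀ _ (by positivity)
      calc 1 * (X : ℝ) = D * Y ^ 4 * x := by rw [one_mul, ← h3]; ring
        _ ≤ D * Y ^ 4 * (2 * Y * q.1) := mul_le_mul_of_nonneg_left hkx.le (by positivity)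
        _ = 2 * Y ^ 5 * (q.1 * D) := by ring
    · have h3 := hC₁ N ((q.2 : ℝ) / q.1 + t) q.2 q.1 hN3 hk1 (Int.isCoprime_iff_gcd_eq_one.mp hco) (by
        rw [add_sub_cancel_left]
        refine ht.trans ?_
        rw [pow_two]
        exact one_div_le_one_div_of_le (by positivity) (mul_le_mul_of_nonneg_left hkD hk0.le))
      refine h3.trans ?_
      have h4 : (N : ℝ) / Real.sqrt q.1 + (N : ℝ) ^ (5 / 6 : ℝ) + Real.sqrt (N * q.1) ≤ 6 * B := by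
        have h5 : (N : ℝ) / Real.sqrt q.1 ≤ 2 * B := by
          refine le_of_pow_le_pow_left₀ (n := 2) (by norm_num) (by positivity) ?_
          rw [div_pow, Real.sq_sqrt hk0.le, mul_pow, hBsq, div_le_iff₀ hk0]
          have h6 : (N : ℝ) ^ 2 ≤ 2 * X ^ 2 := by
            calc (N : ℝ) ^ 2 ≤ (5 / 4 * X : ℝ) ^ 2 := pow_le_pow_left₀ hN0.le (by linarith) 2
              _ = 25 / 16 * X ^ 2 := by ring
              _ ≤ 2 * X ^ 2 := mul_le_mul_of_nonneg_right (by norm_num) (sq_nonneg _)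
          have h7 : (2 : ℝ) * X ^ 2 * x ≤ 2 ^ 2 * (X ^ 2 * Y) * q.1 := by
            calc (2 : ℝ) * X ^ 2 * x ≤ 2 * X ^ 2 * (2 * Y * q.1) :=
                  mul_le_mul_of_nonneg_left hkx.le (by positivity)
              _ = 2 ^ 2 * (X ^ 2 * Y) * q.1 := by ring
          calc (N : ℝ) ^ 2 ≤ 2 * X ^ 2 := h6
            _ = 2 * X ^ 2 * x / x := by field_simp
            _ ≤ 2 ^ 2 * (X ^ 2 * Y) * q.1 / x := by gcongr
            _ = 2 ^ 2 * (X ^ 2 * Y / x) * q.1 := by ring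
        have h6 : (N : ℝ) ^ (5 / 6 : ℝ) ≤ 2 * B := by
          calc (N : ℝ) ^ (5 / 6 : ℝ) ≤ (2 * X : ℝ) ^ (5 / 6 : ℝ) :=
                Real.rpow_le_rpow hN0.le (by linarith) (by norm_num)
            _ = (2 : ℝ) ^ (5 / 6 : ℝ) * (X : ℝ) ^ (5 / 6 : ℝ) :=
                Real.mul_rpow (by norm_num) hX0.le
            _ ≤ 2 * (X : ℝ) ^ ((87 : ℕ) / 100 : ℝ) := by
                have h7 : (2 : ℝ) ^ (5 / 6 : ℝ) ≤ 2 := by
                  have := Real.rpow_le_rpow_of_exponent_le (x := (2 : ℝ)) (by norm_num)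
                    (show (5 / 6 : ℝ) ≤ 1 by norm_num)
                  simpa using this
                have h8 : (X : ℝ) ^ (5 / 6 : ℝ) ≤ (X : ℝ) ^ ((87 : ℕ) / 100 : ℝ) :=
                  Real.rpow_le_rpow_of_exponent_le (by linarith) (by norm_num)
                exact mul_le_mul h7 h8 (by positivity) (by norm_num)
            _ = 2 * p ^ 87 := by rw [hpp]
            _ ≤ 2 * B := by linarith
        have h7 : Real.sqrt (N * q.1) ≤ 2 * B := by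
          rw [Real.sqrt_le_left (by positivity), mul_pow, hBsq]
          have h8 : (N : ℝ) * q.1 ≤ 2 * X * (x * Y ^ 4) :=
            mul_le_mul (by linarith) hkK hk0.le (by positivity)
          have h9 : (x : ℝ) ^ 2 * Y ^ 3 ≤ X := by
            calc (x : ℝ) ^ 2 * Y ^ 3 ≤ (p ^ 26) ^ 2 * p ^ 3 := by gcongr
              _ = p ^ 55 := by ring
              _ ≤ p ^ 100 := pow_le_pow_right₀ hp1 (by norm_num)
              _ = X := hp100
          refine h8.trans ?_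
          rw [mul_div_assoc', le_div_iff₀ hx0]
          have h10 : 2 * X * (x * Y ^ 4) * x = 2 * X * Y * ((x : ℝ) ^ 2 * Y ^ 3) := by ring
          rw [h10]
          have h11 : 2 * X * Y * ((x : ℝ) ^ 2 * Y ^ 3) ≤ 2 * X * Y * X :=
            mul_le_mul_of_nonneg_left h9 (by positivity)
          refine h11.trans ?_
          calc 2 * (X : ℝ) * Y * X = 2 * (X ^ 2 * Y) := by ring
            _ ≤ 2 ^ 2 * (X ^ 2 * Y) := mul_le_mul_of_nonneg_right (by norm_num) (by positivity)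
        linarith
      have h5 : Real.log N ^ C₁ ≤ (2 * Real.log X) ^ C₁ := pow_le_pow_left₀ hLN0 hLN _
      calc C₁ * ((N : ℝ) / Real.sqrt q.1 + (N : ℝ) ^ (5 / 6 : ℝ) + Real.sqrt (N * q.1)) *
            Real.log N ^ C₁ ≤ C₁ * (6 * B) * (2 * Real.log X) ^ C₁ := by
            refine mul_le_mul (mul_le_mul_of_nonneg_left h4 (Nat.cast_nonneg _)) h5
              (by positivity) (by positivity)
        _ = S := by rw [hS]; ring
  -- first moment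
  have hmom : ∀ t : ℝ, |t| ≤ Θ → ∑ q ∈ fr x Y, ‖La η N ((q.2 : ℝ) / q.1 + t)‖ ≤ 5 * Y ^ 5 * G := by
    intro t ht
    refine res_sum η N x Y t G hY3 K hK fun a => ?_
    have hKN : (K : ℝ) ≤ (N : ℝ) ^ (3 / 10 : ℝ) := by
      refine (hKr.trans hxY).trans ?_
      rw [hpp]
      have h3 : ((30 : ℕ) : ℝ) / 100 = 3 / 10 := by norm_num
      rw [h3]
      exact Real.rpow_le_rpow hX0.le hNr (by norm_num)
    refine (hC₃ N K a t hN3 hK1 hKN).trans ?_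
    have h3 : Real.log N ^ C₃ ≤ (2 * Real.log X) ^ C₃ := pow_le_pow_left₀ hLN0 hLN _
    have h4 : 1 + |t| * N ≤ 3 * Y ^ 5 := by
      have h5 : |t| * N ≤ Θ * N := mul_le_mul_of_nonneg_right ht hN0.le
      have h6 : Θ * N ≤ 5 / 2 * Y ^ 5 := by
        rw [hΘ, div_mul_eq_mul_div, div_le_iff₀ hX0]
        calc 2 * Y ^ 5 * (N : ℝ) = 1 / 2 * Y ^ 5 * (4 * N) := by ring
          _ ≤ 1 / 2 * Y ^ 5 * (5 * X) := mul_le_mul_of_nonneg_left hNr4 (by positivity)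
          _ = 5 / 2 * Y ^ 5 * X := by ring
      have h7 : (2 : ℝ) ≤ Y ^ 5 := by
        calc (2 : ℝ) ≤ 3 ^ 5 := by norm_num
          _ ≤ Y ^ 5 := pow_le_pow_left₀ (by norm_num) hY3 5
      linarith
    have h5 : (1 + |t| * N) ^ 3 ≤ (3 * Y ^ 5) ^ 3 := pow_le_pow_left₀ (by positivity) h4 3
    have h6 : (K : ℝ) ^ (1 / 4 : ℝ) ≤ s * Y := by
      calc (K : ℝ) ^ (1 / 4 : ℝ) ≤ (x * Y ^ 4 : ℝ) ^ (1 / 4 : ℝ) :=
            Real.rpow_le_rpow (Nat.cast_nonneg _) hKr (by norm_num)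
        _ = (x : ℝ) ^ (1 / 4 : ℝ) * (Y ^ 4) ^ (1 / 4 : ℝ) := Real.mul_rpow hx0.le (by positivity)
        _ = s * Y := by
            rw [hs, ← Real.rpow_natCast Y 4, ← Real.rpow_mul hY0.le]
            norm_num
    have h7 : (N : ℝ) * (K : ℝ) ^ (1 / 4 : ℝ) ≤ 2 * X * (s * Y) :=
      mul_le_mul (by linarith) h6 (by positivity) (by positivity)
    rw [hG]
    refine mul_le_mul (mul_le_mul (mul_le_mul_of_nonneg_left h3 (Nat.cast_nonneg _)) h5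
      (by positivity) (by positivity)) h7 (by positivity) (by positivity)
  -- the integral
  have hcont : ∀ q : ℕ × ℤ, Continuous fun t : ℝ => ‖La η N ((q.2 : ℝ) / q.1 + t)‖ := fun q =>
    ((res_La_cont η N).comp (continuous_const.add continuous_id)).norm
  have hS0 : 0 ≤ S := by rw [hS]; positivity
  have hR1 : RI η N x Y D ≤ ∑ q ∈ fr x Y, S * ∫ t in (-Θ)..Θ, ‖La η N ((q.2 : ℝ) / q.1 + t)‖ := by
    unfold RI
    refine Finset.sum_le_sum fun q hq => ?_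
    obtain ⟨hk0, hd, hpS⟩ := hpt q hq
    exact res_arc _ (hcont q) (fun t => norm_nonneg _) _ _ _ (by positivity) hd hpS
  rw [← Finset.mul_sum, ← intervalIntegral.integral_finsetSum
    (fun q _ => (hcont q).intervalIntegrable _ _)] at hR1
  have hR2 : ∫ t in (-Θ)..Θ, ∑ q ∈ fr x Y, ‖La η N ((q.2 : ℝ) / q.1 + t)‖ ≤
      2 * Θ * (5 * Y ^ 5 * G) := by
    have h3 : ∫ t in (-Θ)..Θ, ∑ q ∈ fr x Y, ‖La η N ((q.2 : ℝ) / q.1 + t)‖ ≤
        ∫ t in (-Θ)..Θ, (5 * Y ^ 5 * G) := by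
      refine intervalIntegral.integral_mono_on (by linarith)
        ((continuous_finsetSum _ fun q _ => hcont q).intervalIntegrable _ _)
        (continuous_const.intervalIntegrable _ _) fun t ht => hmom t (abs_le.mpr ht)
    rw [intervalIntegral.integral_const, smul_eq_mul] at h3
    linarith
  refine hR1.trans ((mul_le_mul_of_nonneg_left hR2 hS0).trans ?_)
  have := res_final X (Real.log X) Y u s C₁ C₃ C₁ C₃ hX0 hL1 hY3 hu1 hsY hXL
  rw [hS, hΘ, hG, hB]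
  exact this

end Pool.Agent.TLL
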