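import Mathlib
import Pool.Agent.TLL.St

set_option autoImplicit false

/-!
# TLL [Sep]: the twisted weights are good

For a smooth cut-off function `η` the weight `x ↦ η x * ee (b * x)` is Lipschitz and its variable is
separated with an integrable kernel, all constants being at most `C * (1 + |b|) ^ 3`.
-/

namespace Pool.Agent.TLL

open MeasureTheory Finset
open Pool.Agent.MT Pool.Agent.GBQ
open scoped ContDiff FourierTransform SchwartzMap

private theorem sepNormEe (t : ℝ) : ‖ee t‖ = 1 := by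
  rw [ee]
  exact Complex.norm_exp_ofReal_mul_I _

private theorem sepEeSub (s t : ℝ) : ‖ee s - ee t‖ ≤ 2 * Real.pi * |s - t| := by
  have h1 : ee s - ee t = ee t * (Complex.exp (Complex.I * ((2 * Real.pi * (s - t) : ℝ) : ℂ)) - 1) := by
    rw [ee, ee, mul_sub, mul_one, ← Complex.exp_add]
    congr 2
    push_cast
    ring
  rw [h1, norm_mul, sepNormEe, one_mul]
  have h2 := Real.norm_exp_I_mul_ofReal_sub_one_le (x := 2 * Real.pi * (s - t))
  refine h2.trans ?_
  rw [Real.norm_eq_abs, abs_mul, abs_of_pos (by positivity : (0 : ℝ) < 2 * Real.pi)]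

private theorem sepLip (η : ℝ → ℝ) (hη : IsWt η) :
    ∃ L : ℝ, 0 ≤ L ∧ ∀ x y, |η x - η y| ≤ L * |x - y| := by
  have hc : HasCompactSupport η := by
    refine HasCompactSupport.intro (isCompact_Icc (a := (1 / 8 : ℝ)) (b := 7 / 8)) ?_
    intro x hx
    by_contra h
    obtain ⟨h1, h2⟩ := hη.supp x h
    exact hx ⟨h1.le, h2.le⟩
  obtain ⟨L, hL⟩ := hη.smooth.lipschitzWith_of_hasCompactSupport hc (by simp)
  refine ⟨L, L.2, fun x y => ?_⟩
  have := hL.dist_le_mul x y
  rwa [Real.dist_eq, Real.dist_eq] at this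

/-- a bound for the integral of the Fourier transform by the integrals of `h` and `h''` -/
private theorem sepFour (h : ℝ → ℂ) (h1 : ContDiff ℝ ∞ h) (h2 : HasCompactSupport h) :
    Integrable (𝓕 h) ∧ ∫ ξ, ‖𝓕 h ξ‖ ≤ ((∫ x, ‖h x‖) + ∫ x, ‖deriv (deriv h) x‖) * Real.pi := by
  set H : 𝓢(ℝ, ℂ) := h2.toSchwartzMap h1 with hH
  have hHc : (H : ℝ → ℂ) = h := rfl
  have hFi : Integrable (𝓕 h) := by
    have := (𝓕 H : 𝓢(ℝ, ℂ)).integrable (μ := volume)
    rw [SchwartzMap.fourier_coe, hHc] at this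
    exact this
  have hi : Integrable h := by
    have := H.integrable (μ := volume)
    rwa [hHc] at this
  have hd1 : ContDiff ℝ ∞ (deriv h) := by
    have := h1.iterate_deriv 1
    simpa using this
  have hd2 : ContDiff ℝ ∞ (deriv (deriv h)) := by
    have := hd1.iterate_deriv 1
    simpa using this
  have hs1 : HasCompactSupport (deriv h) := h2.deriv
  have hs2 : HasCompactSupport (deriv (deriv h)) := hs1.deriv
  have hi1 : Integrable (deriv h) := hd1.continuous.integrable_of_hasCompactSupport hs1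
  have hi2 : Integrable (deriv (deriv h)) := hd2.continuous.integrable_of_hasCompactSupport hs2
  have hF1 := Real.fourier_deriv hi (h1.differentiable (by simp)) hi1
  have hF2 := Real.fourier_deriv hi1 (hd1.differentiable (by simp)) hi2
  have hB1 : ∀ ξ : ℝ, ‖𝓕 h ξ‖ ≤ ∫ x, ‖h x‖ := fun ξ => by
    rw [Real.fourier_eq]
    refine (norm_integral_le_integral_norm _).trans (le_of_eq ?_)
    refine integral_congr_ae (Filter.Eventually.of_forall fun x => ?_)
    simp
  have hB2 : ∀ ξ : ℝ, ‖𝓕 (deriv (deriv h)) ξ‖ ≤ ∫ x, ‖deriv (deriv h) x‖ := fun ξ => by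
    rw [Real.fourier_eq]
    refine (norm_integral_le_integral_norm _).trans (le_of_eq ?_)
    refine integral_congr_ae (Filter.Eventually.of_forall fun x => ?_)
    simp
  have hB3 : ∀ ξ : ℝ, (2 * Real.pi * |ξ|) ^ 2 * ‖𝓕 h ξ‖ ≤ ∫ x, ‖deriv (deriv h) x‖ := fun ξ => by
    refine le_trans (le_of_eq ?_) (hB2 ξ)
    rw [hF2, hF1]
    simp only [smul_eq_mul, norm_mul]
    simp only [Complex.norm_I, Complex.norm_real, Complex.norm_ofNat, Real.norm_eq_abs,
      abs_of_pos Real.pi_pos]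
    ring
  set B : ℝ := (∫ x, ‖h x‖) + ∫ x, ‖deriv (deriv h) x‖ with hBdef
  have hB : ∀ ξ : ℝ, ‖𝓕 h ξ‖ ≤ B * (1 + ξ ^ 2)⁻¹ := fun ξ => by
    have h3 : (0 : ℝ) < 1 + ξ ^ 2 := by positivity
    rw [← div_eq_mul_inv, le_div_iff₀ h3]
    have h4 : ξ ^ 2 ≤ (2 * Real.pi * |ξ|) ^ 2 := by
      rw [mul_pow, sq_abs]
      have h5 : (1 : ℝ) ≤ (2 * Real.pi) ^ 2 := by nlinarith [Real.pi_gt_three]
      nlinarith [sq_nonneg ξ]
    have h6 : ξ ^ 2 * ‖𝓕 h ξ‖ ≤ (2 * Real.pi * |ξ|) ^ 2 * ‖𝓕 h ξ‖ :=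
      mul_le_mul_of_nonneg_right h4 (norm_nonneg _)
    have h7 := hB1 ξ
    have h8 := hB3 ξ
    rw [hBdef]
    nlinarith
  refine ⟨hFi, ?_⟩
  calc ∫ ξ, ‖𝓕 h ξ‖ ≤ ∫ ξ : ℝ, B * (1 + ξ ^ 2)⁻¹ :=
        integral_mono hFi.norm (integrable_inv_one_add_sq.const_mul B) hB
    _ = B * Real.pi := by rw [integral_const_mul, integral_univ_inv_one_add_sq]

theorem thm_Sep : St_Sep := by
  intro η hη
  obtain ⟨L, hL0, hL⟩ := sepLip η hη
  set H : ℝ → ℂ := fun u => ((η (Real.exp u) : ℝ) : ℂ) with hH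
  set J : Set ℝ := Set.Icc (Real.log (1 / 8)) (Real.log (7 / 8)) with hJ
  have hHs : ContDiff ℝ ∞ H :=
    Complex.ofRealCLM.contDiff.comp (hη.smooth.comp Real.contDiff_exp)
  have hHz : ∀ u, u ∉ J → H u = 0 := fun u hu => by
    by_contra h3
    apply hu
    have h3' : η (Real.exp u) ≠ 0 := by
      intro h0
      apply h3
      simp [hH, h0]
    obtain ⟨h4, h5⟩ := hη.supp _ h3'
    constructor
    · exact ((Real.log_lt_iff_lt_exp (by norm_num)).2 h4).le
    · exact ((Real.lt_log_iff_exp_lt (by norm_num)).2 h5).le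
  have hJc : IsCompact J := isCompact_Icc
  have hHc : HasCompactSupport H := HasCompactSupport.intro hJc hHz
  have hHt : tsupport H ⊆ J := by
    refine closure_minimal ?_ hJc.isClosed
    intro u hu
    by_contra h3
    exact hu (hHz u h3)
  have hH1 : ContDiff ℝ ∞ (deriv H) := by
    have := hHs.iterate_deriv 1
    simpa using this
  have hH2 : ContDiff ℝ ∞ (deriv (deriv H)) := by
    have := hH1.iterate_deriv 1
    simpa using this
  have hH1c : HasCompactSupport (deriv H) := hHc.deriv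
  have hH2c : HasCompactSupport (deriv (deriv H)) := hH1c.deriv
  have hH1z : ∀ u, u ∉ J → deriv H u = 0 := fun u hu => by
    by_contra h3
    exact hu (hHt (support_deriv_subset h3))
  have hH2z : ∀ u, u ∉ J → deriv (deriv H) u = 0 := fun u hu => by
    by_contra h3
    refine hu (hHt (closure_minimal support_deriv_subset (isClosed_tsupport _)
      (support_deriv_subset h3)))
  obtain ⟨K1, hK1⟩ := hH1.continuous.bounded_above_of_compact_support hH1c
  obtain ⟨K2, hK2⟩ := hH2.continuous.bounded_above_of_compact_support hH2c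
  have hK1n : 0 ≤ K1 := (norm_nonneg _).trans (hK1 0)
  have hK2n : 0 ≤ K2 := (norm_nonneg _).trans (hK2 0)
  have hH0 : ∀ u, ‖H u‖ ≤ 1 := fun u => by
    rw [hH]
    simp only [Complex.norm_real, Real.norm_eq_abs]
    rw [abs_of_nonneg (hη.nonneg _)]
    exact hη.le_one _
  set K : ℝ := 1 + K1 + K2 with hK
  have hK0 : 0 ≤ K := by positivity
  have hexp : ∀ u ∈ J, Real.exp u ≤ 1 := fun u hu => by
    rw [Real.exp_le_one_iff]
    refine hu.2.trans ?_
    exact Real.log_nonpos (by norm_num) (by norm_num)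
  have hlen : Real.log (7 / 8) - Real.log (1 / 8) ≤ 2 := by
    rw [← Real.log_div (by norm_num) (by norm_num)]
    have h3 : Real.log (7 / 8 / (1 / 8)) ≤ Real.log (Real.exp 2) := by
      refine Real.log_le_log (by norm_num) ?_
      have h4 := Real.exp_one_gt_d9
      have h5 : Real.exp 2 = Real.exp 1 * Real.exp 1 := by
        rw [← Real.exp_add]
        norm_num
      rw [h5]
      nlinarith
    rwa [Real.log_exp] at h3
  refine ⟨L + 2 * Real.pi + 2 * (1 + 60 * K) * Real.pi, ?_, fun b => ?_⟩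
  · have h3 := Real.pi_gt_three
    have h4 : 0 ≤ 2 * (1 + 60 * K) * Real.pi := by positivity
    linarith
  set C : ℝ := L + 2 * Real.pi + 2 * (1 + 60 * K) * Real.pi with hC
  have hb1 : 1 ≤ 1 + |b| := by
    have := abs_nonneg b
    linarith
  have hb0 : 0 ≤ |b| := abs_nonneg b
  have hpi := Real.pi_gt_three
  have hpi4 := Real.pi_lt_four
  have hP0 : 0 ≤ 2 * (1 + 60 * K) * Real.pi := by positivity
  have hC1 : 1 ≤ C := by
    rw [hC]
    linarith
  have hp1 : 1 + |b| ≤ (1 + |b|) ^ 3 := le_self_pow₀ hb1 (by norm_num)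
  have hp2 : (1 + |b|) ^ 2 ≤ (1 + |b|) ^ 3 := pow_le_pow_right₀ hb1 (by norm_num)
  have hp0 : 1 ≤ (1 + |b|) ^ 3 := hb1.trans hp1
  -- the function `h`
  set E : ℝ → ℂ := fun u => ee (b * Real.exp u) with hE
  have hEn : ∀ u, ‖E u‖ = 1 := fun u => sepNormEe _
  set c : ℝ → ℂ := fun u => ((2 * Real.pi * b * Real.exp u : ℝ) : ℂ) * Complex.I with hc
  have hcd : ∀ u, HasDerivAt c (c u) u := fun u => by
    have h3 : HasDerivAt (fun u => 2 * Real.pi * b * Real.exp u) (2 * Real.pi * b * Real.exp u) u :=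
      (Real.hasDerivAt_exp u).const_mul _
    exact h3.ofReal_comp.mul_const Complex.I
  have hEe : ∀ u, E u = Complex.exp (c u) := fun u => by
    simp only [hE, hc, ee]
    congr 2
    push_cast
    ring
  have hEd : ∀ u, HasDerivAt E (c u * E u) u := fun u => by
    have h3 : HasDerivAt (fun u => Complex.exp (c u)) (Complex.exp (c u) * c u) u := (hcd u).cexp
    have h4 : E = fun u => Complex.exp (c u) := funext hEe
    rw [h4]
    simpa [mul_comm] using h3
  have hEs : ContDiff ℝ ∞ E := by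
    have h4 : E = fun u => Complex.exp (c u) := funext hEe
    rw [h4]
    refine ContDiff.cexp ?_
    refine ContDiff.mul ?_ contDiff_const
    exact Complex.ofRealCLM.contDiff.comp (contDiff_const.mul Real.contDiff_exp)
  set h : ℝ → ℂ := fun u => H u * E u with hh
  have hhs : ContDiff ℝ ∞ h := hHs.mul hEs
  have hhc : HasCompactSupport h := HasCompactSupport.intro hJc fun u hu => by
    simp only [hh, hHz u hu, zero_mul]
  have hHd : ∀ u, HasDerivAt H (deriv H u) u := fun u =>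
    ((hHs.differentiable (by simp)) u).hasDerivAt
  have hH1d : ∀ u, HasDerivAt (deriv H) (deriv (deriv H) u) u := fun u =>
    ((hH1.differentiable (by simp)) u).hasDerivAt
  have hd1 : deriv h = fun u => (deriv H u + c u * H u) * E u := by
    funext u
    have h3 := (hHd u).mul (hEd u)
    have h4 : deriv h u = _ := h3.deriv
    rw [h4]
    ring
  have hd2 : ∀ u, deriv (deriv h) u =
      (deriv (deriv H) u + 2 * (c u * deriv H u) + c u * H u + c u * (c u * H u)) * E u := fun u => by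
    have h3 := ((hH1d u).add ((hcd u).mul (hHd u))).mul (hEd u)
    have h4 : deriv (fun u => (deriv H u + c u * H u) * E u) u = _ := h3.deriv
    rw [hd1, h4]
    simp only [Pi.add_apply, Pi.mul_apply]
    ring
  have hcn : ∀ u ∈ J, ‖c u‖ ≤ 2 * Real.pi * |b| := fun u hu => by
    have h0 : ‖c u‖ = 2 * Real.pi * |b| * Real.exp u := by
      show ‖((2 * Real.pi * b * Real.exp u : ℝ) : ℂ) * Complex.I‖ = _
      rw [norm_mul, Complex.norm_I, mul_one, Complex.norm_real, Real.norm_eq_abs, abs_mul,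
        abs_mul, abs_of_pos (by positivity : (0 : ℝ) < 2 * Real.pi), abs_of_pos (Real.exp_pos u)]
    rw [h0]
    have h3 := hexp u hu
    have h4 : 0 ≤ 2 * Real.pi * |b| := by positivity
    nlinarith
  have hd2n : ∀ u ∈ J, ‖deriv (deriv h) u‖ ≤ 60 * K * (1 + |b|) ^ 2 := fun u hu => by
    rw [hd2 u, norm_mul, hEn, mul_one]
    have h3 := hcn u hu
    set p : ℝ := 2 * Real.pi * |b| with hp
    have hp' : 0 ≤ p := by positivity
    have hp8 : p ≤ 8 * |b| := by
      rw [hp]
      nlinarith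
    have e1 : ‖deriv (deriv H) u‖ ≤ K := (hK2 u).trans (by rw [hK]; linarith)
    have e2 : ‖deriv H u‖ ≤ K := (hK1 u).trans (by rw [hK]; linarith)
    have e3 : ‖H u‖ ≤ K := (hH0 u).trans (by rw [hK]; linarith)
    have f2 : ‖2 * (c u * deriv H u)‖ ≤ 2 * (p * K) := by
      rw [norm_mul, norm_mul, Complex.norm_ofNat]
      have := mul_le_mul h3 e2 (norm_nonneg _) hp'
      linarith
    have f3 : ‖c u * H u‖ ≤ p * K := by
      rw [norm_mul]
      exact mul_le_mul h3 e3 (norm_nonneg _) hp'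
    have f4 : ‖c u * (c u * H u)‖ ≤ p * (p * K) := by
      rw [norm_mul]
      exact mul_le_mul h3 f3 (norm_nonneg _) hp'
    have g1 := norm_add_le (deriv (deriv H) u + 2 * (c u * deriv H u) + c u * H u)
      (c u * (c u * H u))
    have g2 := norm_add_le (deriv (deriv H) u + 2 * (c u * deriv H u)) (c u * H u)
    have g3 := norm_add_le (deriv (deriv H) u) (2 * (c u * deriv H u))
    have g4 : ‖deriv (deriv H) u + 2 * (c u * deriv H u) + c u * H u + c u * (c u * H u)‖ ≤
        K * (1 + 3 * p + p * p) := by nlinarith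
    refine g4.trans ?_
    have g6 : 1 + 3 * p + p * p ≤ 60 * (1 + |b|) ^ 2 := by
      have : p * p ≤ (2 * 3.15 * |b|) * (2 * 3.15 * |b|) := by
        have h31 : p ≤ 2 * 3.15 * |b| := by
          rw [hp]
          have := Real.pi_lt_d2
          nlinarith
        exact mul_le_mul h31 h31 hp' (hp'.trans h31)
      nlinarith
    calc K * (1 + 3 * p + p * p) ≤ K * (60 * (1 + |b|) ^ 2) := mul_le_mul_of_nonneg_left g6 hK0
      _ = 60 * K * (1 + |b|) ^ 2 := by ring
  have hd2z : ∀ u, u ∉ J → deriv (deriv h) u = 0 := fun u hu => by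
    rw [hd2 u, hHz u hu, hH1z u hu, hH2z u hu]
    ring
  have hint : ∀ (F : ℝ → ℂ) (M : ℝ), 0 ≤ M → (∀ u ∈ J, ‖F u‖ ≤ M) → (∀ u, u ∉ J → F u = 0) →
      ∫ u, ‖F u‖ ≤ 2 * M := fun F M hM hF hF0 => by
    have h3 : ∫ u, ‖F u‖ = ∫ u in J, ‖F u‖ := by
      symm
      refine setIntegral_eq_integral_of_forall_compl_eq_zero fun u hu => ?_
      rw [hF0 u hu, norm_zero]
    rw [h3]
    have h4 : ∫ u in J, ‖F u‖ ≤ M * (volume J).toReal := by
      have h5 := norm_setIntegral_le_of_norm_le_const (μ := volume) (s := J) (f := fun u => ‖F u‖)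
        (C := M) (by rw [hJ]; exact measure_Icc_lt_top) (fun u hu => by
          rw [norm_norm]
          exact hF u hu)
      exact (le_abs_self _).trans h5
    refine h4.trans ?_
    have h6 : (volume J).toReal ≤ 2 := by
      rw [hJ, Real.volume_Icc]
      rw [ENNReal.toReal_ofReal']
      exact max_le hlen (by norm_num)
    nlinarith
  have hI1 : ∫ u, ‖h u‖ ≤ 2 * 1 := hint h 1 zero_le_one (fun u _ => by
    simp only [hh, norm_mul, hEn, mul_one]
    exact hH0 u) (fun u hu => by simp only [hh, hHz u hu, zero_mul])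
  have hI2 : ∫ u, ‖deriv (deriv h) u‖ ≤ 2 * (60 * K * (1 + |b|) ^ 2) :=
    hint (deriv (deriv h)) _ (by positivity) hd2n hd2z
  obtain ⟨hFi, hFb⟩ := sepFour h hhs hhc
  have hone : (1 : ℝ) ≤ (1 + |b|) ^ 2 := one_le_pow₀ hb1
  refine ⟨?_, ?_, ?_, ?_, 𝓕 h, hFi, ?_, ?_⟩
  · nlinarith
  · intro x
    rw [norm_mul, sepNormEe, mul_one, Complex.norm_real, Real.norm_eq_abs,
      abs_of_nonneg (hη.nonneg _)]
    exact hη.le_one _
  · intro x hx
    refine hη.supp x fun h0 => hx ?_
    simp [h0]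
  · intro x y
    have h3 : ((η x : ℝ) : ℂ) * ee (b * x) - ((η y : ℝ) : ℂ) * ee (b * y) =
        ((η x - η y : ℝ) : ℂ) * ee (b * x) + ((η y : ℝ) : ℂ) * (ee (b * x) - ee (b * y)) := by
      push_cast
      ring
    have h4 : ‖((η x - η y : ℝ) : ℂ) * ee (b * x)‖ ≤ L * |x - y| := by
      rw [norm_mul, sepNormEe, mul_one, Complex.norm_real, Real.norm_eq_abs]
      exact hL x y
    have h5 : ‖((η y : ℝ) : ℂ) * (ee (b * x) - ee (b * y))‖ ≤ 2 * Real.pi * (|b| * |x - y|) := by
      rw [norm_mul, Complex.norm_real, Real.norm_eq_abs, abs_of_nonneg (hη.nonneg _)]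
      have h6 := sepEeSub (b * x) (b * y)
      rw [← mul_sub, abs_mul] at h6
      have h7 : η y * ‖ee (b * x) - ee (b * y)‖ ≤ 1 * ‖ee (b * x) - ee (b * y)‖ :=
        mul_le_mul_of_nonneg_right (hη.le_one y) (norm_nonneg _)
      linarith
    have h8 : ‖((η x : ℝ) : ℂ) * ee (b * x) - ((η y : ℝ) : ℂ) * ee (b * y)‖ ≤
        (L + 2 * Real.pi * |b|) * |x - y| := by
      rw [h3]
      refine (norm_add_le _ _).trans ?_
      nlinarith
    refine h8.trans (mul_le_mul_of_nonneg_right ?_ (abs_nonneg _))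
    have h9 : L + 2 * Real.pi * |b| ≤ (L + 2 * Real.pi) * (1 + |b|) := by nlinarith
    have h10 : (L + 2 * Real.pi) * (1 + |b|) ≤ C * (1 + |b|) := by
      refine mul_le_mul_of_nonneg_right ?_ (by linarith)
      rw [hC]
      linarith
    have h11 : C * (1 + |b|) ≤ C * (1 + |b|) ^ 3 :=
      mul_le_mul_of_nonneg_left hp1 (by linarith)
    linarith
  · have h3 : ((∫ x, ‖h x‖) + ∫ x, ‖deriv (deriv h) x‖) * Real.pi ≤
        (2 * 1 + 2 * (60 * K * (1 + |b|) ^ 2)) * Real.pi :=
      mul_le_mul_of_nonneg_right (add_le_add hI1 hI2) Real.pi_pos.le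
    have h4 : (2 * 1 + 2 * (60 * K * (1 + |b|) ^ 2)) * Real.pi ≤
        2 * (1 + 60 * K) * Real.pi * (1 + |b|) ^ 2 := by
      have h5 : 2 * 1 + 2 * (60 * K * (1 + |b|) ^ 2) ≤ 2 * (1 + 60 * K) * (1 + |b|) ^ 2 := by
        nlinarith
      calc (2 * 1 + 2 * (60 * K * (1 + |b|) ^ 2)) * Real.pi
          ≤ (2 * (1 + 60 * K) * (1 + |b|) ^ 2) * Real.pi :=
            mul_le_mul_of_nonneg_right h5 Real.pi_pos.le
        _ = _ := by ring
    have h6 : 2 * (1 + 60 * K) * Real.pi * (1 + |b|) ^ 2 ≤ C * (1 + |b|) ^ 2 := by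
      refine mul_le_mul_of_nonneg_right ?_ (by positivity)
      rw [hC]
      linarith
    have h7 : C * (1 + |b|) ^ 2 ≤ C * (1 + |b|) ^ 3 :=
      mul_le_mul_of_nonneg_left hp2 (by linarith)
    linarith
  · intro x hx
    have hi : Integrable h := hhs.continuous.integrable_of_hasCompactSupport hhc
    have hinv := hi.fourierInv_fourier_eq hFi (v := Real.log x) hhs.continuous.continuousAt
    have e1 : h (Real.log x) = ((η x : ℝ) : ℂ) * ee (b * x) := by
      simp only [hh, hH, hE, Real.exp_log hx]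
    show ((η x : ℝ) : ℂ) * ee (b * x) = _
    rw [← e1, ← hinv, Real.fourierInv_eq']
    refine integral_congr_ae (Filter.Eventually.of_forall fun ξ => ?_)
    simp only [smul_eq_mul]
    congr 3
    simp [mul_comm]

end Pool.Agent.TLL
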