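import Pool.Agent.TLL.St
import Pool.Agent.MT.LDeriv

/-!
# TLL, [T1w]: sums of a character with a complex weight

Partial summation with `MT.char_sum_le` and the total variation of `k ↦ w(mk/N)`,
`k ↦ (log k) w(mk/N)` on `[1, N/m]` (at most `V` and `(1 + V) log N`).
-/

set_option autoImplicit false

namespace Pool.Agent.TLL

open Finset

private theorem T1w_abel_id (f g : ℕ → ℂ) (K : ℕ) (hK : 1 ≤ K) :
    ∑ k ∈ Icc 1 K, f k * g k = (∑ k ∈ Icc 1 K, f k) * g K -
      ∑ k ∈ Ico 1 K, (∑ j ∈ Icc 1 k, f j) * (g (k + 1) - g k) := by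
  induction K, hK using Nat.le_induction with
  | base => simp
  | succ K hK ih =>
    rw [sum_Icc_succ_top (by omega), sum_Icc_succ_top (by omega), sum_Ico_succ_top hK, ih]
    ring

private theorem T1w_abel (f g : ℕ → ℂ) (B : ℝ) (hB : ∀ K, ‖∑ k ∈ Icc 1 K, f k‖ ≤ B)
    (K : ℕ) (hK : 1 ≤ K) :
    ‖∑ k ∈ Icc 1 K, f k * g k‖ ≤
      B * (‖g K‖ + ∑ k ∈ Ico 1 K, ‖g (k + 1) - g k‖) := by
  rw [T1w_abel_id f g K hK]
  have hB0 : 0 ≤ B := (norm_nonneg _).trans (hB 0)
  calc _ ≤ ‖(∑ k ∈ Icc 1 K, f k) * g K‖ +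
        ‖∑ k ∈ Ico 1 K, (∑ j ∈ Icc 1 k, f j) * (g (k + 1) - g k)‖ := norm_sub_le _ _
    _ ≤ B * ‖g K‖ + ∑ k ∈ Ico 1 K, B * ‖g (k + 1) - g k‖ := by
        apply add_le_add
        · rw [norm_mul]
          exact mul_le_mul_of_nonneg_right (hB K) (norm_nonneg _)
        · refine (norm_sum_le _ _).trans (sum_le_sum fun k _ => ?_)
          rw [norm_mul]
          exact mul_le_mul_of_nonneg_right (hB k) (norm_nonneg _)
    _ = _ := by rw [mul_add, mul_sum]

/-- [T1w] -/
theorem thm_T1w : St_T1w := by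
  refine ⟨3, by norm_num, fun w V hw N hN q _ χ hχ m hm => ?_⟩
  obtain ⟨hV1, hw1, -, hL, -⟩ := hw
  have hL0 : 0 ≤ V := by linarith
  have hN0 : (0 : ℝ) < N := by positivity
  have hm0 : (0 : ℝ) < m := by exact_mod_cast hm
  have hq0 : (0 : ℝ) ≤ q := Nat.cast_nonneg q
  have hlogN : 0 ≤ Real.log N := Real.log_natCast_nonneg N
  set K := N / m with hK
  rcases Nat.eq_zero_or_pos K with h0 | hKpos
  · rw [h0]
    simp only [show Icc 1 0 = (∅ : Finset ℕ) from rfl, sum_empty, norm_zero]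
    exact ⟨by positivity, by positivity⟩
  have hKm : (K : ℝ) * m ≤ N := by
    have := Nat.div_mul_le_self N m
    exact_mod_cast this
  have hKN : (K : ℝ) ≤ N := by
    have := Nat.div_le_self N m
    exact_mod_cast this
  have hS : ∀ J : ℕ, ‖∑ k ∈ Icc 1 J, χ ((k : ℕ) : ZMod q)‖ ≤ (q : ℝ) := by
    intro J
    have := Pool.Agent.MT.char_sum_le χ hχ 0 J
    have h2 : Ioc 0 J = Icc 1 J := by
      ext x; simp only [mem_Ioc, mem_Icc]; omega
    rwa [h2] at this
  set g : ℕ → ℂ := fun k => w (((m * k : ℕ) : ℝ) / N) with hg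
  have hg1 : ∀ k, ‖g k‖ ≤ 1 := fun k => hw1 _
  have hgd : ∀ k, ‖g (k + 1) - g k‖ ≤ V * (m / N) := by
    intro k
    refine (hL _ _).trans (mul_le_mul_of_nonneg_left ?_ hL0)
    have : ((m * (k + 1) : ℕ) : ℝ) / N - ((m * k : ℕ) : ℝ) / N = m / N := by
      push_cast; ring
    rw [this, abs_of_nonneg (by positivity)]
  have hcard : ∑ _k ∈ Ico 1 K, V * ((m : ℝ) / N) ≤ V := by
    rw [sum_const, Nat.card_Ico, nsmul_eq_mul]
    have h1 : ((K - 1 : ℕ) : ℝ) ≤ K := by exact_mod_cast Nat.sub_le K 1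
    have h2 : ((K - 1 : ℕ) : ℝ) * (m / N) ≤ 1 := by
      rw [← mul_div_assoc, div_le_one hN0]
      exact (mul_le_mul_of_nonneg_right h1 hm0.le).trans hKm
    calc ((K - 1 : ℕ) : ℝ) * (V * (m / N)) = V * (((K - 1 : ℕ) : ℝ) * (m / N)) := by ring
      _ ≤ V * 1 := mul_le_mul_of_nonneg_left h2 hL0
      _ = V := mul_one V
  constructor
  · have h1 := T1w_abel (fun k => χ (k : ZMod q)) g q hS K hKpos
    refine h1.trans ?_
    have h2 : ∑ k ∈ Ico 1 K, ‖g (k + 1) - g k‖ ≤ V := (sum_le_sum fun k _ => hgd k).trans hcard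
    have h3 : ‖g K‖ ≤ 1 := hg1 K
    rw [mul_comm (3 * V) (q : ℝ)]
    exact mul_le_mul_of_nonneg_left (by linarith) hq0
  · have h1 := T1w_abel (fun k => χ (k : ZMod q)) (fun k => ((Real.log k : ℝ) : ℂ) * g k) q hS K
      hKpos
    have h0 : ∑ k ∈ Icc 1 K, ((Real.log k : ℝ) : ℂ) *
        (χ (k : ZMod q) * w (((m * k : ℕ) : ℝ) / N)) =
        ∑ k ∈ Icc 1 K, χ (k : ZMod q) * (((Real.log k : ℝ) : ℂ) * g k) := by
      refine sum_congr rfl fun k _ => ?_
      rw [hg]; ring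
    rw [h0]
    refine h1.trans ?_
    have hlogK : Real.log K ≤ Real.log N :=
      Real.log_le_log (by exact_mod_cast hKpos) hKN
    have hlogK0 : 0 ≤ Real.log K := Real.log_natCast_nonneg K
    have h3 : ‖((Real.log K : ℝ) : ℂ) * g K‖ ≤ Real.log N := by
      rw [norm_mul, Complex.norm_real, Real.norm_eq_abs, abs_of_nonneg hlogK0]
      calc Real.log K * ‖g K‖ ≤ Real.log K * 1 := mul_le_mul_of_nonneg_left (hg1 K) hlogK0
        _ ≤ Real.log N := by linarith
    have htel : ∑ k ∈ Ico 1 K, (Real.log ((k + 1 : ℕ) : ℝ) - Real.log (k : ℝ)) = Real.log K := by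
      rw [sum_Ico_sub (fun k : ℕ => Real.log (k : ℝ)) hKpos]
      simp
    have h4 : ∑ k ∈ Ico 1 K, ‖((Real.log ((k + 1 : ℕ) : ℝ) : ℝ) : ℂ) * g (k + 1) -
        ((Real.log k : ℝ) : ℂ) * g k‖ ≤ Real.log N + V * Real.log N := by
      have h5 : ∀ k ∈ Ico 1 K, ‖((Real.log ((k + 1 : ℕ) : ℝ) : ℝ) : ℂ) * g (k + 1) -
          ((Real.log k : ℝ) : ℂ) * g k‖ ≤
          (Real.log ((k + 1 : ℕ) : ℝ) - Real.log (k : ℝ)) + Real.log N * (V * (m / N)) := by
        intro k hk
        rw [mem_Ico] at hk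
        have hk0 : (0 : ℝ) < k := by exact_mod_cast hk.1
        have hk1 : (k : ℝ) ≤ ((k + 1 : ℕ) : ℝ) := by push_cast; linarith
        have hl : Real.log (k : ℝ) ≤ Real.log ((k + 1 : ℕ) : ℝ) := Real.log_le_log hk0 hk1
        have hkK : (k : ℝ) ≤ N := by
          have : (k : ℝ) ≤ K := by exact_mod_cast hk.2.le
          exact this.trans hKN
        have hlk : Real.log (k : ℝ) ≤ Real.log N := Real.log_le_log hk0 hkK
        have hlk0 : 0 ≤ Real.log (k : ℝ) := Real.log_natCast_nonneg k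
        have e : ((Real.log ((k + 1 : ℕ) : ℝ) : ℝ) : ℂ) * g (k + 1) -
            ((Real.log k : ℝ) : ℂ) * g k =
            ((Real.log ((k + 1 : ℕ) : ℝ) - Real.log k : ℝ) : ℂ) * g (k + 1) +
              ((Real.log k : ℝ) : ℂ) * (g (k + 1) - g k) := by
          rw [Complex.ofReal_sub]
          ring
        rw [e]
        refine (norm_add_le _ _).trans (add_le_add ?_ ?_)
        · rw [norm_mul, Complex.norm_real, Real.norm_eq_abs, abs_of_nonneg (by linarith)]
          calc _ ≤ (Real.log ((k + 1 : ℕ) : ℝ) - Real.log k) * 1 :=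
                mul_le_mul_of_nonneg_left (hg1 _) (by linarith)
            _ = _ := mul_one _
        · rw [norm_mul, Complex.norm_real, Real.norm_eq_abs, abs_of_nonneg hlk0]
          exact mul_le_mul hlk (hgd k) (norm_nonneg _) hlogN
      refine (sum_le_sum h5).trans ?_
      rw [sum_add_distrib, htel, ← mul_sum]
      have h6 := mul_le_mul_of_nonneg_left hcard hlogN
      linarith
    have h7 : (q : ℝ) * (Real.log N + (Real.log N + V * Real.log N)) ≤
        3 * V * (q : ℝ) * Real.log N := by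
      have h8 : Real.log N * 1 ≤ Real.log N * V := mul_le_mul_of_nonneg_left hV1 hlogN
      have h9 : Real.log N + (Real.log N + V * Real.log N) ≤ 3 * V * Real.log N := by
        nlinarith
      calc (q : ℝ) * (Real.log N + (Real.log N + V * Real.log N)) ≤
          q * (3 * V * Real.log N) := mul_le_mul_of_nonneg_left h9 hq0
        _ = _ := by ring
    refine le_trans (mul_le_mul_of_nonneg_left (add_le_add h3 h4) hq0) h7

end Pool.Agent.TLL
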