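import Pool.Agent.TLL.St
import Pool.Agent.MT.LargeSieve
import Pool.Agent.BVX.MulLS

set_option autoImplicit false

/-!
# TLL / T2w: bilinear sums with a good weight (the proof of BVX / TypeII2)
-/

namespace Pool.Agent.TLL

open Finset MeasureTheory
open Pool.Agent.MT
open Pool.Agent.BVX (large_sieve2)

/-- the additive character -/
private noncomputable def t2w_e (ξ y : ℝ) : ℂ :=
  Complex.exp (((2 * Real.pi * (ξ * y) : ℝ) : ℂ) * Complex.I)

private theorem t2w_e_norm (ξ y : ℝ) : ‖t2w_e ξ y‖ = 1 := Complex.norm_exp_ofReal_mul_I _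

private theorem t2w_e_add (ξ x y : ℝ) :
    t2w_e ξ (x + y) = t2w_e ξ x * t2w_e ξ y := by
  rw [t2w_e, t2w_e, t2w_e, ← Complex.exp_add]
  congr 1
  push_cast
  ring

private theorem t2w_e_cont (y : ℝ) : Continuous fun ξ => t2w_e ξ y := by
  unfold t2w_e
  fun_prop

private theorem t2w_int {g : ℝ → ℂ} (hg : Integrable g) (y : ℝ) :
    Integrable fun ξ => t2w_e ξ y * g ξ := by
  refine hg.mono ((t2w_e_cont y).aestronglyMeasurable.mul hg.1) ?_
  refine Filter.Eventually.of_forall fun ξ => ?_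
  rw [norm_mul, t2w_e_norm, one_mul]

theorem thm_T2w : St_T2w := by
  refine ⟨16, by norm_num, ?_⟩
  intro w V hw N R M hN hM a b
  obtain ⟨hV, -, hsupp, -, g, hg, hgV, hsep⟩ := hw
  set X : ℝ := ((M : ℝ) + (R : ℝ) ^ 2) * ∑ l ∈ Ioc M (2 * M), ‖a l‖ ^ 2 with hX
  set Y : ℝ := ((N : ℝ) / M + (R : ℝ) ^ 2) * ∑ k ∈ Icc 1 (N / M), ‖b k‖ ^ 2 with hY
  -- the two factors
  set A : (q : ℕ) → DirichletCharacter ℂ q → ℝ → ℂ := fun q χ ξ =>
    ∑ l ∈ Ioc M (2 * M), (a l * t2w_e ξ (Real.log l)) * χ (l : ZMod q) with hA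
  set B : (q : ℕ) → DirichletCharacter ℂ q → ℝ → ℂ := fun q χ ξ =>
    ∑ k ∈ Icc 1 (N / M), (b k * t2w_e ξ (Real.log k)) * χ (k : ZMod q) with hB
  set F : (q : ℕ) → DirichletCharacter ℂ q → ℝ → ℂ := fun q χ ξ =>
    ∑ l ∈ Ioc M (2 * M), ∑ k ∈ Icc 1 (N / M), (a l * b k * χ ((l * k : ℕ) : ZMod q)) *
      (t2w_e ξ (Real.log (((l * k : ℕ) : ℝ) / N)) * g ξ) with hF
  have hNpos : (0 : ℝ) < N := by exact_mod_cast hN
  have hMpos : (0 : ℝ) < M := by exact_mod_cast hM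
  have hFi : ∀ q (χ : DirichletCharacter ℂ q), Integrable (F q χ) := by
    intro q χ
    exact integrable_finsetSum _ fun l _ => integrable_finsetSum _ fun k _ =>
      (t2w_int hg _).const_mul _
  have hFAB : ∀ q (χ : DirichletCharacter ℂ q) ξ, ‖F q χ ξ‖ = ‖g ξ‖ * (‖A q χ ξ‖ * ‖B q χ ξ‖) := by
    intro q χ ξ
    have e1 : F q χ ξ = (g ξ * t2w_e ξ (-Real.log N)) * (A q χ ξ * B q χ ξ) := by
      simp only [hF, hA, hB]
      rw [Finset.sum_mul_sum, Finset.mul_sum]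
      refine Finset.sum_congr rfl fun l hl => ?_
      rw [Finset.mul_sum]
      refine Finset.sum_congr rfl fun k hk => ?_
      have hl' : (0 : ℝ) < l := by
        have := (Finset.mem_Ioc.1 hl).1
        exact_mod_cast (by omega : 0 < l)
      have hk' : (0 : ℝ) < k := by
        have := (Finset.mem_Icc.1 hk).1
        exact_mod_cast (by omega : 0 < k)
      have e2 : Real.log (((l * k : ℕ) : ℝ) / N) =
          Real.log l + Real.log k + -Real.log N := by
        rw [Nat.cast_mul, Real.log_div (by positivity) (by positivity),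
          Real.log_mul hl'.ne' hk'.ne', sub_eq_add_neg]
      rw [e2, t2w_e_add, t2w_e_add, Nat.cast_mul, map_mul]
      ring
    rw [e1, norm_mul, norm_mul, norm_mul, t2w_e_norm, mul_one]
  -- the sums as integrals
  have hS : ∀ q (χ : DirichletCharacter ℂ q),
      ∑ l ∈ Ioc M (2 * M), ∑ k ∈ Icc 1 (N / l), a l * b k *
        (χ ((l * k : ℕ) : ZMod q) * w (((l * k : ℕ) : ℝ) / N)) =
      ∫ ξ, F q χ ξ := by
    intro q χ
    have e1 : ∫ ξ, F q χ ξ = ∑ l ∈ Ioc M (2 * M), ∑ k ∈ Icc 1 (N / M),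
        (a l * b k * χ ((l * k : ℕ) : ZMod q)) * w (((l * k : ℕ) : ℝ) / N) := by
      simp only [hF]
      rw [integral_finsetSum _ fun l _ => integrable_finsetSum _ fun k _ =>
        (t2w_int hg _).const_mul _]
      refine Finset.sum_congr rfl fun l hl => ?_
      rw [integral_finsetSum _ fun k _ => (t2w_int hg _).const_mul _]
      refine Finset.sum_congr rfl fun k hk => ?_
      have hl' : 0 < l := by
        have := (Finset.mem_Ioc.1 hl).1
        omega
      have hk' : 0 < k := by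
        have := (Finset.mem_Icc.1 hk).1
        omega
      have hx : (0 : ℝ) < ((l * k : ℕ) : ℝ) / N := by
        have : (0 : ℝ) < ((l * k : ℕ) : ℝ) := by exact_mod_cast Nat.mul_pos hl' hk'
        positivity
      rw [integral_const_mul, hsep _ hx]
      rfl
    rw [e1]
    refine Finset.sum_congr rfl fun l hl => ?_
    obtain ⟨hl1, hl2⟩ := Finset.mem_Ioc.1 hl
    have hsub : Icc 1 (N / l) ⊆ Icc 1 (N / M) := by
      refine Finset.Icc_subset_Icc le_rfl ?_
      exact Nat.div_le_div_left hl1.le (by omega)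
    have e2 : ∀ k ∈ Icc 1 (N / l), a l * b k *
        (χ ((l * k : ℕ) : ZMod q) * w (((l * k : ℕ) : ℝ) / N)) =
        (a l * b k * χ ((l * k : ℕ) : ZMod q)) * w (((l * k : ℕ) : ℝ) / N) :=
      fun k _ => by ring
    rw [Finset.sum_congr rfl e2]
    refine Finset.sum_subset hsub fun k hk hk' => ?_
    have h1 : N / l < k := by
      by_contra h
      exact hk' (Finset.mem_Icc.2 ⟨(Finset.mem_Icc.1 hk).1, not_lt.1 h⟩)
    have h2 : N < l * k := by
      have := (Nat.div_lt_iff_lt_mul (by omega : 0 < l)).1 h1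
      rwa [mul_comm] at this
    have h3 : w (((l * k : ℕ) : ℝ) / N) = 0 := by
      by_contra h
      have h4 := (hsupp _ h).2
      rw [div_lt_iff₀ hNpos] at h4
      have h5 : (N : ℝ) < ((l * k : ℕ) : ℝ) := by exact_mod_cast h2
      linarith
    rw [h3]
    simp
  -- the large sieve
  have hAl : ∀ ξ, ∑ q ∈ Icc 1 R, ∑ χ ∈ prim q, ‖A q χ ξ‖ ^ 2 ≤ 16 * X := by
    intro ξ
    have h1 := large_sieve2 R M (2 * M) (by omega) (fun l => a l * t2w_e ξ (Real.log l))
    simp only [norm_mul, t2w_e_norm, mul_one] at h1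
    rw [show (((2 * M : ℕ) : ℝ) - M + (R : ℝ) ^ 2) = (M : ℝ) + (R : ℝ) ^ 2 by
      push_cast; ring] at h1
    rw [hX, ← mul_assoc]
    exact h1
  have hBl : ∀ ξ, ∑ q ∈ Icc 1 R, ∑ χ ∈ prim q, ‖B q χ ξ‖ ^ 2 ≤ 16 * Y := by
    intro ξ
    have h1 := large_sieve2 R 0 (N / M) (Nat.zero_le _) (fun k => b k * t2w_e ξ (Real.log k))
    simp only [norm_mul, t2w_e_norm, mul_one] at h1
    have h2 : Ioc 0 (N / M) = Icc 1 (N / M) := by
      ext k; simp only [Finset.mem_Ioc, Finset.mem_Icc]; omega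
    rw [h2] at h1
    refine h1.trans ?_
    rw [hY, ← mul_assoc]
    refine mul_le_mul_of_nonneg_right ?_ (Finset.sum_nonneg fun k _ => sq_nonneg _)
    have h3 : ((N / M : ℕ) : ℝ) ≤ (N : ℝ) / M := Nat.cast_div_le
    push_cast
    linarith
  have hCS : ∀ ξ, ∑ q ∈ Icc 1 R, ∑ χ ∈ prim q, ‖A q χ ξ‖ * ‖B q χ ξ‖ ≤
      16 * (Real.sqrt X * Real.sqrt Y) := by
    intro ξ
    have h16 : Real.sqrt 16 = 4 := by
      rw [show (16 : ℝ) = 4 ^ 2 by norm_num]
      exact Real.sqrt_sq (by norm_num)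
    have hsX : Real.sqrt (16 * X) = 4 * Real.sqrt X := by
      rw [Real.sqrt_mul (by norm_num), h16]
    have hsY : Real.sqrt (16 * Y) = 4 * Real.sqrt Y := by
      rw [Real.sqrt_mul (by norm_num), h16]
    have h1 := Real.sum_mul_le_sqrt_mul_sqrt ((Icc 1 R).sigma prim)
      (fun p => ‖A p.1 p.2 ξ‖) (fun p => ‖B p.1 p.2 ξ‖)
    rw [Finset.sum_sigma, Finset.sum_sigma, Finset.sum_sigma] at h1
    refine h1.trans ?_
    refine (mul_le_mul (Real.sqrt_le_sqrt (hAl ξ)) (Real.sqrt_le_sqrt (hBl ξ))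
      (Real.sqrt_nonneg _) (Real.sqrt_nonneg _)).trans (le_of_eq ?_)
    rw [hsX, hsY]
    ring
  calc ∑ q ∈ Icc 1 R, ∑ χ ∈ prim q,
      ‖∑ l ∈ Ioc M (2 * M), ∑ k ∈ Icc 1 (N / l), a l * b k *
        (χ ((l * k : ℕ) : ZMod q) * w (((l * k : ℕ) : ℝ) / N))‖
      = ∑ q ∈ Icc 1 R, ∑ χ ∈ prim q, ‖∫ ξ, F q χ ξ‖ := by
        refine Finset.sum_congr rfl fun q _ => Finset.sum_congr rfl fun χ _ => ?_
        rw [hS]
    _ ≤ ∑ q ∈ Icc 1 R, ∑ χ ∈ prim q, ∫ ξ, ‖F q χ ξ‖ :=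
        Finset.sum_le_sum fun q _ => Finset.sum_le_sum fun χ _ => norm_integral_le_integral_norm _
    _ = ∫ ξ, ∑ q ∈ Icc 1 R, ∑ χ ∈ prim q, ‖F q χ ξ‖ := by
        rw [integral_finsetSum _ fun q _ => integrable_finsetSum _ fun χ _ => (hFi q χ).norm]
        refine Finset.sum_congr rfl fun q _ => ?_
        rw [integral_finsetSum _ fun χ _ => (hFi q χ).norm]
    _ ≤ ∫ ξ, ‖g ξ‖ * (16 * (Real.sqrt X * Real.sqrt Y)) := by
        refine integral_mono (integrable_finsetSum _ fun q _ => integrable_finsetSum _ fun χ _ =>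
          (hFi q χ).norm) (hg.norm.mul_const _) fun ξ => ?_
        simp only [hFAB, ← Finset.mul_sum]
        exact mul_le_mul_of_nonneg_left (hCS ξ) (norm_nonneg _)
    _ = (∫ ξ, ‖g ξ‖) * (16 * (Real.sqrt X * Real.sqrt Y)) := integral_mul_const _ _
    _ ≤ V * (16 * (Real.sqrt X * Real.sqrt Y)) :=
        mul_le_mul_of_nonneg_right hgV (by positivity)
    _ = 16 * V * Real.sqrt X * Real.sqrt Y := by ring

end Pool.Agent.TLL
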