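import Mathlib
import Pool.Agent.TLL.Asm1
import Pool.Agent.TLL.Par
import Pool.Agent.TLL.Dif
import Pool.Agent.TLL.Lsd
import Pool.Agent.TLL.Ker
import Pool.Agent.TLL.Dir
import Pool.Agent.TLL.Ptw
import Pool.Agent.TLL.Int
import Pool.Agent.TLL.Sep
import Pool.Agent.TLL.T1w
import Pool.Agent.TLL.T2w
import Pool.Agent.TLL.Lcw
import Pool.Agent.TLL.Fmc
import Pool.Agent.TLL.Res
import Pool.Agent.TLL.Msq
import Pool.Agent.TLL.CorM
import Pool.Agent.TLL.Dyw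
import Pool.Agent.TLL.PrM
import Pool.Agent.TLL.PrA
import Pool.Agent.TLL.PrB

set_option autoImplicit false

/-!
# TLL: assembly
-/

namespace Pool.Agent.TLL

open Pool.Agent.EVN (Phi)
open Pool.Agent.AAN (FinH)

theorem fin : (∃ c : ℝ, 0 < c ∧ PrM c 3 Phi ∧ PrA c 3 Phi ∧ FinH c 3 Phi) ∧ PrB :=
  asm1 thm_Par thm_Dif thm_Lsd thm_Ker thm_Dir thm_Ptw thm_Int thm_Sep thm_T1w thm_T2w thm_Lcw
    thm_Fmc thm_Res thm_Msq thm_CorM (thm_PrM thm_Dyw) thm_PrA thm_PrB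

end Pool.Agent.TLL
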