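import Mathlib
import Pool.Agent.TLL.St2

set_option autoImplicit false

/-!
# TLL / Dyw: from blocks to all `n ≤ N`, with weights (helper6)
-/

namespace Pool.Agent.TLL

open Finset Filter

theorem thm_Dyw : St_Dyw := by
  intro r X₀ D hX₀ hD hr N
  induction N using Nat.strong_induction_on with
  | _ N ih =>
    intro hB
    rcases lt_or_ge N X₀ with hN | hN
    · have h1 : Icc 1 N ⊆ range X₀ := by
        intro n hn
        rw [mem_Icc] at hn
        rw [mem_range]
        omega
      have h2 : ∑ n ∈ Icc 1 N, r n ≤ ∑ n ∈ range X₀, r n :=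
        sum_le_sum_of_subset_of_nonneg h1 fun n _ _ => hr n
      have h3 : 0 ≤ 8 * D * N := by positivity
      linarith
    · obtain ⟨X, hXdef⟩ : ∃ X : ℕ, X = (4 * N + 2) / 3 := ⟨_, rfl⟩
      have hX1 : 4 * N ≤ 3 * X := by omega
      have hX2 : 3 * X ≤ 4 * N + 2 := by omega
      have hX3 : X₀ ≤ X := by omega
      have hX4 : X ≤ 2 * N := by omega
      have e1 : (Icc 1 N).filter (fun n => X ≤ 2 * n) =
          (Icc 1 N).filter (fun n => X ≤ 2 * n ∧ 4 * n ≤ 3 * X) := by
        ext n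
        simp only [mem_filter, mem_Icc]
        constructor
        · rintro ⟨⟨a, b⟩, c⟩
          exact ⟨⟨a, b⟩, c, by omega⟩
        · rintro ⟨⟨a, b⟩, c, -⟩
          exact ⟨⟨a, b⟩, c⟩
      have e2 : (Icc 1 N).filter (fun n => ¬ X ≤ 2 * n) = Icc 1 ((X - 1) / 2) := by
        ext n
        simp only [mem_filter, mem_Icc]
        constructor
        · rintro ⟨⟨a, b⟩, c⟩
          exact ⟨a, by omega⟩
        · rintro ⟨a, b⟩
          exact ⟨⟨a, by omega⟩, by omega⟩
      have h1 := hB X hX3 hX4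
      have h2 : ∑ n ∈ Icc 1 ((X - 1) / 2), r n ≤
          ∑ n ∈ range X₀, r n + 8 * D * (((X - 1) / 2 : ℕ) : ℝ) :=
        ih ((X - 1) / 2) (by omega) (fun X' g1 g2 => by
          refine le_trans (sum_le_sum_of_subset_of_nonneg ?_ fun n _ _ => hr n)
            (hB X' g1 (by omega))
          intro n hn
          simp only [mem_filter, mem_Icc] at hn ⊢
          exact ⟨⟨hn.1.1, by omega⟩, hn.2⟩)
      have h3 : (6 : ℝ) * (((X - 1) / 2 : ℕ) : ℝ) ≤ 4 * N := by
        exact_mod_cast (by omega : 6 * ((X - 1) / 2) ≤ 4 * N)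
      have h4 : (X : ℝ) ≤ 2 * N := by exact_mod_cast hX4
      have hN0 : (0 : ℝ) ≤ N := Nat.cast_nonneg _
      rw [← sum_filter_add_sum_filter_not (Icc 1 N) (fun n => X ≤ 2 * n), e1, e2]
      nlinarith [mul_le_mul_of_nonneg_left h3 hD, mul_le_mul_of_nonneg_left h4 hD,
        mul_nonneg hD hN0]

end Pool.Agent.TLL
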