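import Pool.Agent.TLL.St

/-!
# TLL [FnM]: from pairs in blocks to all `n ≤ N`
-/

set_option autoImplicit false

namespace Pool.Agent.TLL

open Finset Filter
open Pool.Agent.GBQ (Admissible)
open Pool.Agent.EVN (SolP)
open Pool.Agent.AAN (T4H)

/-- For a large exceptional `n` the number `m` is small and there are few solutions. -/
theorem fnm_bad {c : ℝ} {j : ℕ} {Φ : ℕ → ℕ → Prop} (hc : 0 < c) (hT : T4H c j Φ) :
    ∃ n₀ : ℕ, 3 ≤ n₀ ∧ ∀ m n : ℕ, n₀ ≤ n → ExcP c j Φ m n →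
      (m : ℝ) < (n : ℝ) ^ (26 / 100 : ℝ) ∧
        ((SolP Φ m n).card : ℝ) < c * n / Real.log n ^ j := by
  obtain ⟨n₁, hn₁⟩ := hT (1 / 100) (by norm_num)
  refine ⟨max n₁ 3, le_max_right _ _, fun m n hn hb => ?_⟩
  obtain ⟨hA, hb⟩ := hb
  have hn1 : n₁ ≤ n := (le_max_left _ _).trans hn
  have hn3 : 3 ≤ n := (le_max_right _ _).trans hn
  have hn3r : (3 : ℝ) ≤ n := by exact_mod_cast hn3
  have hn0 : (0 : ℝ) < n := by linarith
  have hlog : 0 < Real.log n := Real.log_pos (by linarith)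
  have hm : ¬ (n : ℝ) ^ (1 / 4 + 1 / 100 : ℝ) ≤ m := by
    intro h
    obtain ⟨h1, h2⟩ := hn₁ n m hn1 h hA.2.1
    rcases hb with hb | ⟨h3, h4⟩
    · rw [hb] at h1
      exact Finset.not_nonempty_empty h1
    · exact absurd h4 (not_lt.2 (h2 h3))
  rw [show (1 / 4 + 1 / 100 : ℝ) = 26 / 100 by norm_num, not_le] at hm
  refine ⟨hm, ?_⟩
  rcases hb with hb | ⟨-, h4⟩
  · rw [hb, card_empty]
    push_cast
    positivity
  · exact h4

theorem fnm_log_ge (a : ℝ) : ∀ᶠ N : ℕ in atTop, a ≤ Real.log N :=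
  (Real.tendsto_log_atTop.comp tendsto_natCast_atTop_atTop).eventually_ge_atTop a

/-- The block estimate. -/
theorem fnm_block {c : ℝ} {j : ℕ} {Φ : ℕ → ℕ → Prop} (hc : 0 < c) (hC : CorM c j Φ)
    (hT : T4H c j Φ) : ∃ C X₁ : ℕ, 3 ≤ X₁ ∧ ∀ X : ℕ, X₁ ≤ X → ∀ (M : ℕ) (Y : ℝ), 3 ≤ Y →
      2 * Y ^ 110 = M → ∀ F : Finset ℕ, (∀ n ∈ F, X ≤ 2 * n ∧ 4 * n ≤ 3 * X ∧
        ∃ m ≥ M, ExcP c j Φ m n) → (F.card : ℝ) ≤ 3 * Real.log X ^ (C + 1) / Y * X := by
  classical
  obtain ⟨n₀, hn₀3, hn₀⟩ := fnm_bad hc hT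
  obtain ⟨C, hC⟩ := hC
  obtain ⟨X₂, hX₂⟩ := eventually_atTop.1 hC
  refine ⟨C, 2 * n₀ + X₂, by omega, fun X hX M Y hY hM F hF => ?_⟩
  have hX3 : 3 ≤ X := by omega
  have hXr : (3 : ℝ) ≤ X := by exact_mod_cast hX3
  have hX0 : (0 : ℝ) < X := by linarith
  have hX1 : (1 : ℝ) ≤ X := by linarith
  have hY0 : 0 < Y := by linarith
  have hlog : 1 ≤ Real.log X := by
    rw [Real.le_log_iff_exp_le hX0]
    have := Real.exp_one_lt_d9
    linarith
  have hlog0 : 0 < Real.log X := by linarith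
  have hbig : ∀ n ∈ F, n₀ ≤ n := by
    intro n hn
    have := (hF n hn).1
    omega
  have hnX : ∀ n ∈ F, (n : ℝ) ≤ X := by
    intro n hn
    have := (hF n hn).2.1
    have h : n ≤ X := by omega
    exact_mod_cast h
  have hmX : ∀ n ∈ F, ∀ m : ℕ, ExcP c j Φ m n → (m : ℝ) < (X : ℝ) ^ (26 / 100 : ℝ) := by
    intro n hn m hm
    exact (hn₀ m n (hbig n hn) hm).1.trans_le
      (Real.rpow_le_rpow (Nat.cast_nonneg n) (hnX n hn) (by norm_num))
  have hrhs : 0 ≤ 3 * Real.log X ^ (C + 1) / Y * X := by positivity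
  by_cases hYX : Y ≤ (X : ℝ) ^ (1 / 100 : ℝ)
  · -- the sets of pairs
    have hkey : ∀ i : ℕ, ∑ m ∈ Ioc (2 ^ i) (2 * 2 ^ i),
        ((F.filter (fun n => M ≤ m ∧ ExcP c j Φ m n)).card : ℝ) ≤ X * Real.log X ^ C / Y := by
      intro i
      by_cases hex : ∃ m ∈ Ioc (2 ^ i) (2 * 2 ^ i), ∃ n ∈ F, M ≤ m ∧ ExcP c j Φ m n
      · obtain ⟨m₁, hm₁, n₁, hn₁, hM₁, he₁⟩ := hex
        rw [mem_Ioc] at hm₁
        refine hX₂ X (by omega) (2 ^ i) Y
          (fun m => F.filter (fun n => M ≤ m ∧ ExcP c j Φ m n)) hY hYX ?_ ?_ ?_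
        · have h1 : (M : ℝ) ≤ 2 * ((2 ^ i : ℕ) : ℝ) := by
            exact_mod_cast hM₁.trans hm₁.2
          linarith
        · have h1 := hmX n₁ hn₁ m₁ he₁
          have h2 : ((2 ^ i : ℕ) : ℝ) ≤ m₁ := by exact_mod_cast hm₁.1.le
          linarith
        · intro m hm n hn
          rw [mem_filter] at hn
          exact ⟨(hF n hn.1).1, (hF n hn.1).2.1, (hn₀ m n (hbig n hn.1) hn.2.2).2⟩
      · have h0 : ∑ m ∈ Ioc (2 ^ i) (2 * 2 ^ i),
            ((F.filter (fun n => M ≤ m ∧ ExcP c j Φ m n)).card : ℝ) = 0 := by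
          apply sum_eq_zero
          intro m hm
          have : F.filter (fun n => M ≤ m ∧ ExcP c j Φ m n) = ∅ := by
            rw [filter_eq_empty_iff]
            intro n hn h
            exact hex ⟨m, hm, n, hn, h⟩
          rw [this, card_empty, Nat.cast_zero]
        rw [h0]
        positivity
    have hM2 : 2 ≤ M := by
      have h1 : (1 : ℝ) ≤ Y ^ 110 := one_le_pow₀ (by linarith)
      have h2 : (2 : ℝ) ≤ M := by linarith
      exact_mod_cast h2
    have hsub : F ⊆ (range (Nat.log 2 X + 1)).biUnion (fun i =>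
        (Ioc (2 ^ i) (2 * 2 ^ i)).biUnion (fun m =>
          F.filter (fun n => M ≤ m ∧ ExcP c j Φ m n))) := by
      intro n hn
      obtain ⟨-, h4n, m, hm, he⟩ := hF n hn
      rw [mem_biUnion]
      have hmn : 2 * m + 1 < n := he.1.2.1
      refine ⟨Nat.log 2 (m - 1), ?_, ?_⟩
      · rw [mem_range]
        have : Nat.log 2 (m - 1) ≤ Nat.log 2 X := Nat.log_mono_right (by omega)
        omega
      · rw [mem_biUnion]
        refine ⟨m, ?_, ?_⟩
        · rw [mem_Ioc]
          have h1 : 2 ^ Nat.log 2 (m - 1) ≤ m - 1 := Nat.pow_log_le_self 2 (by omega)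
          have h2 : m - 1 < 2 ^ (Nat.log 2 (m - 1) + 1) := Nat.lt_pow_succ_log_self (by norm_num) _
          rw [pow_succ] at h2
          omega
        · rw [mem_filter]
          exact ⟨hn, hm, he⟩
    have hcard : (F.card : ℝ) ≤ ∑ i ∈ range (Nat.log 2 X + 1), X * Real.log X ^ C / Y := by
      have h1 : F.card ≤ ∑ i ∈ range (Nat.log 2 X + 1), ∑ m ∈ Ioc (2 ^ i) (2 * 2 ^ i),
          (F.filter (fun n => M ≤ m ∧ ExcP c j Φ m n)).card :=
        (card_le_card hsub).trans (card_biUnion_le.trans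
          (sum_le_sum fun i _ => card_biUnion_le))
      have h2 : (F.card : ℝ) ≤ ∑ i ∈ range (Nat.log 2 X + 1), ∑ m ∈ Ioc (2 ^ i) (2 * 2 ^ i),
          ((F.filter (fun n => M ≤ m ∧ ExcP c j Φ m n)).card : ℝ) := by
        exact_mod_cast h1
      exact h2.trans (sum_le_sum fun i _ => hkey i)
    rw [sum_const, card_range, nsmul_eq_mul] at hcard
    have hJ : ((Nat.log 2 X + 1 : ℕ) : ℝ) ≤ 3 * Real.log X := by
      have h1 : ((Nat.log 2 X : ℕ) : ℝ) ≤ Real.logb 2 X := by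
        exact_mod_cast Real.natLog_le_logb X 2
      have h2 : Real.logb 2 X ≤ 2 * Real.log X := by
        rw [Real.logb, div_le_iff₀ (Real.log_pos (by norm_num))]
        have := Real.log_two_gt_d9
        nlinarith
      push_cast
      linarith
    calc (F.card : ℝ) ≤ ((Nat.log 2 X + 1 : ℕ) : ℝ) * (X * Real.log X ^ C / Y) := hcard
      _ ≤ 3 * Real.log X * (X * Real.log X ^ C / Y) :=
          mul_le_mul_of_nonneg_right hJ (by positivity)
      _ = 3 * Real.log X ^ (C + 1) / Y * X := by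
          rw [pow_succ]
          field_simp
  · -- no exceptional numbers
    rw [not_le] at hYX
    have hFe : F = ∅ := by
      rw [Finset.eq_empty_iff_forall_notMem]
      intro n hn
      obtain ⟨-, h4n, m, hm, he⟩ := hF n hn
      have h1 := hmX n hn m he
      have h2 : (X : ℝ) ^ (26 / 100 : ℝ) ≤ (X : ℝ) ^ (1 / 100 * (110 : ℕ) : ℝ) :=
        Real.rpow_le_rpow_of_exponent_le hX1 (by norm_num)
      rw [Real.rpow_mul hX0.le, Real.rpow_natCast] at h2
      have h3 : ((X : ℝ) ^ (1 / 100 : ℝ)) ^ 110 ≤ Y ^ 110 :=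
        pow_le_pow_left₀ (Real.rpow_nonneg hX0.le _) hYX.le _
      have h4 : (M : ℝ) ≤ m := by exact_mod_cast hm
      have h5 : (0 : ℝ) < Y ^ 110 := by positivity
      linarith
    rw [hFe, card_empty, Nat.cast_zero]
    exact hrhs

theorem thm_FnM (h1 : AAN.St_Dya) : St_FnM := by
  intro c j Φ hc hC hT
  obtain ⟨C, X₁, hX₁3, hB⟩ := fnm_block hc hC hT
  obtain ⟨N₂, hN₂⟩ := eventually_atTop.1 (fnm_log_ge (6 + 48 * 2 ^ (C + 1)))
  have hlit : ∀ᶠ N : ℕ in atTop, (2 * X₁ : ℝ) ≤ (N : ℝ) ^ (109 / 110 : ℝ) :=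
    ((tendsto_rpow_atTop (show (0 : ℝ) < 109 / 110 by norm_num)).comp
      (tendsto_natCast_atTop_atTop (R := ℝ))).eventually_ge_atTop _
  obtain ⟨N₃, hN₃⟩ := eventually_atTop.1 hlit
  refine ⟨C + 2, max N₂ (max N₃ 3), fun N hN M hM F hF => ?_⟩
  have hNN2 : N₂ ≤ N := (le_max_left _ _).trans hN
  have hNN3 : N₃ ≤ N := ((le_max_left _ _).trans (le_max_right _ _)).trans hN
  have hN3 : 3 ≤ N := ((le_max_right _ _).trans (le_max_right _ _)).trans hN
  have hL := hN₂ N hNN2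
  have hE := hN₃ N hNN3
  have hNr : (3 : ℝ) ≤ N := by exact_mod_cast hN3
  have hN0 : (0 : ℝ) < N := by linarith
  have hp0 : (0 : ℝ) ≤ 48 * 2 ^ (C + 1) := by positivity
  have hL6 : 6 ≤ Real.log N := by linarith
  have hL0 : 0 < Real.log N := by linarith
  have hL1 : 1 ≤ Real.log N := by linarith
  have hMr : (1 : ℝ) ≤ M := by exact_mod_cast hM
  have hM0 : (0 : ℝ) < M := by linarith
  rcases F.eq_empty_or_nonempty with rfl | ⟨n₁, hn₁⟩
  · rw [card_empty, Nat.cast_zero, mul_zero]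
    positivity
  have hFN : (F.card : ℝ) ≤ N := by
    have h2 : F ⊆ Icc 1 N := by
      intro n hn
      obtain ⟨h3, m, -, h4⟩ := hF n hn
      have h5 : 2 * m + 1 < n := h4.1.2.1
      rw [mem_Icc]
      omega
    have h3 := card_le_card h2
    rw [Nat.card_Icc] at h3
    have h4 : F.card ≤ N := by omega
    exact_mod_cast h4
  by_cases hMb : (M : ℝ) ≤ 2 * 3 ^ 110
  · -- small `M`
    have h2 : (M : ℝ) ^ (1 / 110 : ℝ) ≤ 6 := by
      calc (M : ℝ) ^ (1 / 110 : ℝ) ≤ ((6 : ℝ) ^ 110) ^ (1 / 110 : ℝ) := by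
            apply Real.rpow_le_rpow hM0.le _ (by norm_num)
            refine hMb.trans ?_
            rw [show (6 : ℝ) ^ 110 = 2 ^ 110 * 3 ^ 110 by rw [← mul_pow]; norm_num]
            apply mul_le_mul_of_nonneg_right _ (by positivity)
            exact le_self_pow₀ (by norm_num) (by norm_num)
        _ = 6 := by
            rw [← Real.rpow_natCast, ← Real.rpow_mul (by norm_num)]
            norm_num
    calc (M : ℝ) ^ (1 / 110 : ℝ) * F.card ≤ 6 * N :=
          mul_le_mul h2 hFN (Nat.cast_nonneg _) (by norm_num)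
      _ ≤ Real.log N * N := mul_le_mul_of_nonneg_right hL6 hN0.le
      _ = N * Real.log N ^ 1 := by ring
      _ ≤ N * Real.log N ^ (C + 2) :=
          mul_le_mul_of_nonneg_left (pow_le_pow_right₀ hL1 (by omega)) hN0.le
  · rw [not_le] at hMb
    obtain ⟨Y, hYdef⟩ : ∃ Y : ℝ, Y = ((M : ℝ) / 2) ^ (1 / 110 : ℝ) := ⟨_, rfl⟩
    have hM20 : (0 : ℝ) ≤ (M : ℝ) / 2 := by linarith
    have hY110 : Y ^ 110 = (M : ℝ) / 2 := by
      rw [hYdef, ← Real.rpow_natCast, ← Real.rpow_mul hM20]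
      norm_num
    have hY2 : 2 * Y ^ 110 = M := by
      rw [hY110]
      ring
    have hYnn : 0 ≤ Y := by
      rw [hYdef]
      exact Real.rpow_nonneg hM20 _
    have hY3 : 3 ≤ Y := by
      by_contra h
      rw [not_le] at h
      have h2 : Y ^ 110 ≤ 3 ^ 110 := pow_le_pow_left₀ hYnn h.le _
      linarith
    have hY0 : 0 < Y := by linarith
    have hMY : (M : ℝ) ^ (1 / 110 : ℝ) ≤ 2 * Y := by
      calc (M : ℝ) ^ (1 / 110 : ℝ) ≤ ((2 * Y) ^ 110) ^ (1 / 110 : ℝ) := by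
            apply Real.rpow_le_rpow hM0.le _ (by norm_num)
            rw [mul_pow, ← hY2]
            apply mul_le_mul_of_nonneg_right _ (by positivity)
            exact le_self_pow₀ (by norm_num) (by norm_num)
        _ = 2 * Y := by
            rw [← Real.rpow_natCast, ← Real.rpow_mul (by positivity)]
            norm_num
    have hYN : Y ≤ (N : ℝ) ^ (1 / 110 : ℝ) := by
      rw [hYdef]
      apply Real.rpow_le_rpow hM20 _ (by norm_num)
      obtain ⟨h3, m, h4, h5⟩ := hF n₁ hn₁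
      have h6 : 2 * m + 1 < n₁ := h5.1.2.1
      have h7 : M ≤ N := by omega
      have h8 : (M : ℝ) ≤ N := by exact_mod_cast h7
      linarith
    have hYX : 2 * Y * X₁ ≤ N := by
      have h2 : (N : ℝ) ^ (1 / 110 : ℝ) * (N : ℝ) ^ (109 / 110 : ℝ) = N := by
        rw [← Real.rpow_add hN0]
        norm_num
      calc 2 * Y * X₁ = Y * (2 * X₁) := by ring
        _ ≤ (N : ℝ) ^ (1 / 110 : ℝ) * (N : ℝ) ^ (109 / 110 : ℝ) :=
            mul_le_mul hYN hE (by positivity) (Real.rpow_nonneg hN0.le _)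
        _ = N := h2
    have hl2 : 0 ≤ Real.log (2 * N) := Real.log_nonneg (by linarith)
    have h2 := h1 (fun n => ∃ m ≥ M, ExcP c j Φ m n) X₁ (3 * Real.log (2 * N) ^ (C + 1) / Y)
      (by omega) (by positivity) N ?_ F hF
    · have h3 : Real.log (2 * N) ≤ 2 * Real.log N := by
        rw [Real.log_mul (by norm_num) hN0.ne']
        have : Real.log 2 ≤ Real.log N := Real.log_le_log (by norm_num) (by linarith)
        linarith
      have h4 : Real.log (2 * N) ^ (C + 1) ≤ (2 * Real.log N) ^ (C + 1) :=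
        pow_le_pow_left₀ hl2 h3 _
      have h5 : (1 : ℝ) ≤ Real.log N ^ (C + 1) := one_le_pow₀ hL1
      calc (M : ℝ) ^ (1 / 110 : ℝ) * F.card
          ≤ (2 * Y) * (X₁ + 8 * (3 * Real.log (2 * N) ^ (C + 1) / Y) * N) :=
            mul_le_mul hMY h2 (Nat.cast_nonneg _) (by positivity)
        _ = 2 * Y * X₁ + 48 * Real.log (2 * N) ^ (C + 1) * N := by
            field_simp
            ring
        _ ≤ N * Real.log N ^ (C + 1) + 48 * (2 * Real.log N) ^ (C + 1) * N := by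
            have h6 : 48 * Real.log (2 * N) ^ (C + 1) * N ≤ 48 * (2 * Real.log N) ^ (C + 1) * N := by
              apply mul_le_mul_of_nonneg_right _ hN0.le
              linarith
            have h7 : (N : ℝ) ≤ N * Real.log N ^ (C + 1) := le_mul_of_one_le_right hN0.le h5
            linarith
        _ = (N * Real.log N ^ (C + 1)) * (1 + 48 * 2 ^ (C + 1)) := by
            rw [mul_pow]
            ring
        _ ≤ (N * Real.log N ^ (C + 1)) * Real.log N :=
            mul_le_mul_of_nonneg_left (by linarith) (by positivity)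
        _ = N * Real.log N ^ (C + 2) := by
            rw [pow_succ (Real.log N) (C + 1)]
            ring
    · intro X hX hXN F' hF'
      have hX0 : (0 : ℝ) < X := by
        have : 0 < X := by omega
        exact_mod_cast this
      have hX1 : (1 : ℝ) ≤ X := by
        have : 1 ≤ X := by omega
        exact_mod_cast this
      refine (hB X hX M Y hY3 hY2 F' hF').trans ?_
      apply mul_le_mul_of_nonneg_right _ hX0.le
      apply div_le_div_of_nonneg_right _ hY0.le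
      apply mul_le_mul_of_nonneg_left _ (by norm_num)
      apply pow_le_pow_left₀ (Real.log_nonneg hX1)
      exact Real.log_le_log hX0 (by exact_mod_cast hXN)

end Pool.Agent.TLL
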